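import Mathlib

set_option autoImplicit false

open scoped IsMulCommutative

namespace Pool.Agent.H652.SR

/-! ### Definitions -/

/-- Torsion-free group. -/
def TF (G : Type) [Group G] : Prop := ∀ g : G, IsOfFinOrder g → g = 1

/-- `n`-generated group. -/
def NGen (G : Type) [Group G] (n : ℕ) : Prop :=
  ∃ x : Fin n → G, Subgroup.closure (Set.range x) = ⊤

/-- The step from `L` to `M` is non torsion: some element of `M` has no positive power in `L`. -/
def NT {G : Type} [Group G] (L M : Subgroup G) : Prop := ∃ g ∈ M, ∀ k : ℕ, 0 < k → g ^ k ∉ L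

/-- `G` has a finite subnormal chain of subgroups with (at least) `n` non torsion steps. -/
def HasChain (G : Type) [Group G] (n : ℕ) : Prop :=
  ∃ (m : ℕ) (L : ℕ → Subgroup G),
    (∀ i < m, L i ≤ L (i + 1) ∧ ∀ x ∈ L i, ∀ g ∈ L (i + 1), g * x * g⁻¹ ∈ L i) ∧
    ∃ s : Finset ℕ, (∀ i ∈ s, i < m ∧ NT (L i) (L (i + 1))) ∧ s.card = n

/-- Like `HasChain`, and the chain ends with the whole group. -/
def HasTop (G : Type) [Group G] (n : ℕ) : Prop :=
  ∃ (m : ℕ) (L : ℕ → Subgroup G),
    (∀ i < m, L i ≤ L (i + 1) ∧ ∀ x ∈ L i, ∀ g ∈ L (i + 1), g * x * g⁻¹ ∈ L i) ∧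
    L m = ⊤ ∧
    ∃ s : Finset ℕ, (∀ i ∈ s, i < m ∧ NT (L i) (L (i + 1))) ∧ s.card = n

/-- Hirsch bound: every finite subnormal chain has at most `n` non torsion steps. -/
def SHB (G : Type) [Group G] (n : ℕ) : Prop := ∀ m, HasChain G m → m ≤ n

/-- Crossed homomorphisms `G → M` for an action `φ` of `G` on the abelian group `M`. -/
def Der {G M : Type} [Group G] [CommGroup M] (φ : G →* MulAut M) : Subgroup (G → M) where
  carrier := {δ | ∀ g h, δ (g * h) = δ g * φ g (δ h)}
  one_mem' := by intro g h; simp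
  mul_mem' := by
    intro a b ha hb g h
    simp only [Pi.mul_apply, ha g h, hb g h, map_mul]
    exact mul_mul_mul_comm _ _ _ _
  inv_mem' := by
    intro a ha g h
    simp only [Pi.inv_apply, ha g h, map_inv, mul_inv]

/-- Crossed homomorphisms which are trivial on the subgroup `F`. -/
def DerRel {G M : Type} [Group G] [CommGroup M] (φ : G →* MulAut M) (F : Subgroup G) :
    Subgroup (G → M) where
  carrier := {δ | δ ∈ Der φ ∧ ∀ x ∈ F, δ x = 1}
  one_mem' := ⟨one_mem _, fun _ _ => rfl⟩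
  mul_mem' := by
    rintro a b ⟨ha, ha'⟩ ⟨hb, hb'⟩
    refine ⟨mul_mem ha hb, fun x hx => ?_⟩
    simp [ha' x hx, hb' x hx]
  inv_mem' := by
    rintro a ⟨ha, ha'⟩
    refine ⟨inv_mem ha, fun x hx => ?_⟩
    simp [ha' x hx]

/-- Local condition: for every finite simple `G`-module `M` there are finitely many, at most
`|M|^n`, crossed homomorphisms. -/
def LC (G : Type) [Group G] (n : ℕ) : Prop :=
  ∀ (M : Type) [CommGroup M] [Finite M] [Nontrivial M] (φ : G →* MulAut M),
    (∀ B : Subgroup M, (∀ g, ∀ b ∈ B, φ g b ∈ B) → B = ⊥ ∨ B = ⊤) →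
    Finite (Der φ) ∧ Nat.card (Der φ) ≤ Nat.card M ^ n

/-- Nontrivial torsion-free abelian group of rank one. -/
def RankOne (T : Type) [Group T] : Prop :=
  Nontrivial T ∧ TF T ∧ (∀ a b : T, a * b = b * a) ∧
    ∀ a b : T, a ≠ 1 → b ≠ 1 → ∃ m n : ℤ, m ≠ 0 ∧ n ≠ 0 ∧ a ^ m = b ^ n

/-- `X` has a subnormal series with `c` factors, all of them torsion-free abelian of rank one. -/
inductive PR : (X : Type) → [Group X] → ℕ → Prop
  | triv (X : Type) [Group X] (h : Subsingleton X) : PR X 0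
  | ext (X : Type) [Group X] (N : Subgroup X) [N.Normal] (c : ℕ) (hN : PR N c)
      (hq : RankOne (X ⧸ N)) : PR X (c + 1)

/-- Virtually poly-(torsion-free abelian of finite rank): a finite series of normal subgroups with
torsion-free abelian factors of finite rank, the ranks adding up to `n`, and a finite top factor. -/
inductive VPT : (K : Type) → [Group K] → ℕ → Prop
  | fin (K : Type) [Group K] (h : Finite K) : VPT K 0
  | ext (K : Type) [Group K] (A : Subgroup K) [A.Normal] [IsMulCommutative A] (r n : ℕ)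
      (htf : ∀ a ∈ A, IsOfFinOrder a → a = 1)
      (hr : Module.rank ℤ (Additive A) = r) (h : VPT (K ⧸ A) n) : VPT K (n + r)

/-- `X` has a finite subnormal series whose factors are cyclic or `e`-torsion. -/
inductive PCT (e : ℕ) : (X : Type) → [Group X] → Prop
  | triv (X : Type) [Group X] (h : Subsingleton X) : PCT e X
  | cyc (X : Type) [Group X] (N : Subgroup X) [N.Normal] (hN : PCT e N)
      (hq : IsCyclic (X ⧸ N)) : PCT e X
  | tor (X : Type) [Group X] (N : Subgroup X) [N.Normal] (hN : PCT e N)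
      (hq : ∀ x : X, ∃ k : ℕ, x ^ (e ^ k) ∈ N) : PCT e X


/-- `Q` is virtually `ℤ^m` and acts on it either trivially or through a group with a normal subgroup
of prime order acting without fixed points. -/
def Slick (Q : Type) [Group Q] (m : ℕ) : Prop :=
  ∃ (B : Subgroup Q) (_ : B.Normal) (_ : IsMulCommutative B), B.index ≠ 0 ∧
    Nonempty (Module.Basis (Fin m) ℤ (Additive B)) ∧
    ((∀ g : Q, ∀ c ∈ B, g * c = c * g) ∨
      ∃ (p : ℕ) (x : Q), p.Prime ∧ (∀ c ∈ B, x * c = c * x → c = 1) ∧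
        (∀ c ∈ B, x ^ p * c = c * x ^ p) ∧
        ∀ g : Q, ∃ j : ℕ, ∀ c ∈ B,
          (g * x * g⁻¹ * (x ^ j)⁻¹) * c = c * (g * x * g⁻¹ * (x ^ j)⁻¹))

/-- `K` has a quotient which is slick of positive rank. -/
def Case1 (K : Type) [Group K] : Prop :=
  ∃ (Q : Type) (_ : Group Q) (f : K →* Q), Function.Surjective f ∧ ∃ m : ℕ, 1 ≤ m ∧ Slick Q m

/-- The subgroup `A` of `Q` is rationally irreducible: every nontrivial normal subgroup of `Q` inside
`A` contains a positive power of every element of `A`. -/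
def Irr {Q : Type} [Group Q] (A : Subgroup Q) : Prop :=
  ∀ B : Subgroup Q, B.Normal → B ≤ A → B ≠ ⊥ → ∀ a ∈ A, ∃ k : ℕ, 0 < k ∧ a ^ k ∈ B

end Pool.Agent.H652.SR
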