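import Mathlib
import Pool.Agent.H652.SR.Defs

set_option autoImplicit false

open scoped IsMulCommutative

namespace Pool.Agent.H652.SR

private theorem lift_indep (M V : Type) [AddCommGroup M] [AddCommGroup V] (p : ℕ) [Fact p.Prime]
    [Module (ZMod p) V] (f : M →+ V) (htf : ∀ x : M, (p : ℤ) • x = 0 → x = 0)
    (ι : Type) [Fintype ι] (v : ι → M) (hv : LinearIndependent (ZMod p) (fun i => f (v i))) :
    LinearIndependent ℤ v := by
  rw [Fintype.linearIndependent_iff] at hv ⊢
  have step : ∀ g : ι → ℤ, ∑ i, g i • v i = 0 →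
      ∃ g' : ι → ℤ, (∀ i, g i = p * g' i) ∧ ∑ i, g' i • v i = 0 := by
    intro g hg
    have h1 : ∑ i, ((g i : ℤ) : ZMod p) • f (v i) = 0 := by
      have h2 := congrArg f hg
      rw [map_sum, map_zero] at h2
      rw [← h2]
      apply Finset.sum_congr rfl
      intro i _
      rw [Int.cast_smul_eq_zsmul, map_zsmul]
    have h3 : ∀ i, ∃ m : ℤ, g i = p * m := fun i =>
      (ZMod.intCast_zmod_eq_zero_iff_dvd (g i) p).1 (hv _ h1 i)
    choose g' hg' using h3
    refine ⟨g', hg', ?_⟩
    apply htf
    rw [Finset.smul_sum, ← hg]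
    apply Finset.sum_congr rfl
    intro i _
    rw [hg' i, mul_smul]
  have hdvd : ∀ (k : ℕ) (g : ι → ℤ), ∑ i, g i • v i = 0 → ∀ i, ((p : ℤ) ^ k) ∣ g i := by
    intro k
    induction k with
    | zero =>
      intro g _ i
      simp
    | succ k ih =>
      intro g hg i
      obtain ⟨g', h1, h2⟩ := step g hg
      rw [h1 i, pow_succ']
      exact mul_dvd_mul_left _ (ih g' h2 i)
  intro g hg i
  by_contra hne
  have h1 := hdvd (g i).natAbs g hg i
  have h2 : p ^ (g i).natAbs ≤ (g i).natAbs := by
    apply Nat.le_of_dvd (Int.natAbs_pos.2 hne)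
    have := Int.natAbs_dvd_natAbs.2 h1
    rwa [Int.natAbs_pow, Int.natAbs_natCast] at this
  have h3 : (g i).natAbs < p ^ (g i).natAbs := Nat.lt_pow_self (Fact.out : p.Prime).one_lt
  omega

private theorem fin_of_rank (p : ℕ) [Fact p.Prime] (V : Type) [AddCommGroup V] [Module (ZMod p) V]
    (r : ℕ) (hrank : Module.rank (ZMod p) V ≤ r) : Finite V ∧ Nat.card V ≤ p ^ r := by
  have hfd : Module.Finite (ZMod p) V :=
    (Module.rank_lt_aleph0_iff (R := ZMod p) (M := V)).1
      (lt_of_le_of_lt hrank (Cardinal.natCast_lt_aleph0))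
  have hfin : Finite V := Module.finite_of_finite (ZMod p)
  refine ⟨hfin, ?_⟩
  rw [Module.natCard_eq_pow_finrank (K := ZMod p), Nat.card_zmod]
  exact Nat.pow_le_pow_right (Fact.out : p.Prime).pos (Module.finrank_le_of_rank_le hrank)

theorem card_mod_pow (B : Type) [CommGroup B] (htf : TF B) (r : ℕ)
    (hr : Module.rank ℤ (Additive B) = r) (p : ℕ) [Fact p.Prime] :
    Finite (B ⧸ (powMonoidHom p : B →* B).range) ∧
      Nat.card (B ⧸ (powMonoidHom p : B →* B).range) ≤ p ^ r := by
  set R : Subgroup B := (powMonoidHom p : B →* B).range with hR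
  let V : Type := Additive (B ⧸ R)
  have hpV : ∀ x : V, p • x = 0 := by
    intro x
    induction x using Additive.rec with
    | ofMul x =>
      induction x using QuotientGroup.induction_on with
      | H b =>
        rw [← ofMul_pow, ← QuotientGroup.mk_pow]
        have : ((b ^ p : B) : B ⧸ R) = 1 := by
          rw [QuotientGroup.eq_one_iff]
          exact ⟨b, rfl⟩
        rw [this]
        rfl
  letI : Module (ZMod p) V := AddCommGroup.zmodModule hpV
  let f : Additive B →+ V := MonoidHom.toAdditive (QuotientGroup.mk' R)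
  have htf' : ∀ x : Additive B, (p : ℤ) • x = 0 → x = 0 := by
    intro x hx
    have h1 : (Additive.toMul x) ^ p = 1 := by
      rw [natCast_zsmul] at hx
      exact hx
    have h2 := htf (Additive.toMul x) (isOfFinOrder_iff_pow_eq_one.2
      ⟨p, (Fact.out : p.Prime).pos, h1⟩)
    exact h2
  have hrank : Module.rank (ZMod p) V ≤ r := by
    apply rank_le
    intro s hs
    have hsurj : ∀ x : V, ∃ b : Additive B, f b = x := by
      intro x
      obtain ⟨b, hb⟩ := QuotientGroup.mk'_surjective R (Additive.toMul x)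
      exact ⟨Additive.ofMul b, congrArg Additive.ofMul hb⟩
    choose σ hσ using hsurj
    have h1 : LinearIndependent ℤ (fun i : s => σ (i : V)) := by
      apply lift_indep (Additive B) V p f htf' s
      have e : (fun i : s => f (σ (i : V))) = fun i : s => (i : V) := by
        funext i
        exact hσ i
      rw [e]
      exact hs
    have h2 := h1.cardinal_le_rank
    rw [hr, Cardinal.mk_coe_finset] at h2
    exact_mod_cast h2
  exact fin_of_rank p V r hrank

theorem finite_mod_pow (B : Type) [CommGroup B] (htf : TF B) (r : ℕ)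
    (hr : Module.rank ℤ (Additive B) = r) (k : ℕ) (hk : 0 < k) :
    Finite (B ⧸ (powMonoidHom k : B →* B).range) := by
  have key : ∀ k : ℕ, 0 < k → (powMonoidHom k : B →* B).range.index ≠ 0 := by
    intro k
    induction k using induction_on_primes with
    | zero => intro h; omega
    | one =>
      intro _
      have : (powMonoidHom 1 : B →* B).range = ⊤ := by
        rw [eq_top_iff]
        intro x _
        exact ⟨x, by simp⟩
      rw [this, Subgroup.index_top]
      exact one_ne_zero
    | prime_mul p a hp ih =>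
      intro hpa
      haveI : Fact p.Prime := ⟨hp⟩
      have ha : 0 < a := Nat.pos_of_mul_pos_left hpa |> fun h => by
        rcases Nat.eq_zero_or_pos a with h0 | h0
        · subst h0; simp at hpa
        · exact h0
      have e : (powMonoidHom (p * a) : B →* B).range =
          ((powMonoidHom a : B →* B).range).map (powMonoidHom p : B →* B) := by
        ext x
        constructor
        · rintro ⟨y, rfl⟩
          refine ⟨y ^ a, ⟨y, rfl⟩, ?_⟩
          simp only [powMonoidHom_apply]
          rw [← pow_mul, mul_comm]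
        · rintro ⟨_, ⟨y, rfl⟩, rfl⟩
          refine ⟨y, ?_⟩
          simp only [powMonoidHom_apply]
          rw [← pow_mul, mul_comm]
      rw [e, Subgroup.index_map]
      apply mul_ne_zero
      · intro h0
        have h1 := Subgroup.index_dvd_of_le
          (le_sup_left : (powMonoidHom a : B →* B).range ≤
            (powMonoidHom a : B →* B).range ⊔ (powMonoidHom p : B →* B).ker)
        rw [h0, zero_dvd_iff] at h1
        exact ih ha h1
      · haveI := (card_mod_pow B htf r hr p).1
        exact Subgroup.index_ne_zero_of_finite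
  haveI : (powMonoidHom k : B →* B).range.FiniteIndex := ⟨key k hk⟩
  exact Subgroup.finite_quotient_of_finiteIndex

open scoped commutatorElement in

theorem torsion_of_central (Q : Type) [Group Q] (B : Subgroup Q) (hB : B ≤ Subgroup.center Q)
    (htf : ∀ b ∈ B, IsOfFinOrder b → b = 1) (hfin : B.index ≠ 0) :
    ∃ T : Subgroup Q, T.Normal ∧ Finite T ∧ (∀ g, g ∈ T ↔ IsOfFinOrder g) ∧
      ∀ a b : Q, a * b * a⁻¹ * b⁻¹ ∈ T := by
  haveI : B.FiniteIndex := ⟨hfin⟩
  haveI : Finite (Q ⧸ B) := Subgroup.finite_quotient_of_finiteIndex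
  haveI hcs : Finite (commutatorSet Q) := by
    let φ : (Q ⧸ B) × (Q ⧸ B) → Q := fun x => ⁅x.1.out, x.2.out⁆
    apply Set.Finite.subset (Set.finite_range φ)
    rintro _ ⟨a, b, rfl⟩
    refine ⟨((a : Q ⧸ B), (b : Q ⧸ B)), ?_⟩
    obtain ⟨z, hz⟩ := QuotientGroup.mk_out_eq_mul B a
    obtain ⟨w, hw⟩ := QuotientGroup.mk_out_eq_mul B b
    show ⁅(a : Q ⧸ B).out, (b : Q ⧸ B).out⁆ = ⁅a, b⁆
    rw [hz, hw]
    have hzc : ∀ g : Q, (z : Q) * g = g * z := fun g =>
      (Subgroup.mem_center_iff.1 (hB z.2) g).symm
    have hwc : ∀ g : Q, (w : Q) * g = g * w := fun g =>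
      (Subgroup.mem_center_iff.1 (hB w.2) g).symm
    rw [commutatorElement_def, commutatorElement_def, mul_inv_rev, mul_inv_rev]
    have e1 : a * (z : Q) * (b * (w : Q)) * ((z : Q)⁻¹ * a⁻¹) * ((w : Q)⁻¹ * b⁻¹) =
        a * ((z : Q) * (b * w)) * (z : Q)⁻¹ * a⁻¹ * (w : Q)⁻¹ * b⁻¹ := by group
    rw [e1, hzc (b * w)]
    have e2 : a * (b * (w : Q) * (z : Q)) * (z : Q)⁻¹ * a⁻¹ * (w : Q)⁻¹ * b⁻¹ =
        a * b * ((w : Q) * a⁻¹) * (w : Q)⁻¹ * b⁻¹ := by group
    rw [e2, hwc a⁻¹]
    group
  haveI : Finite (commutator Q) := inferInstance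
  let T : Subgroup Q := (CommGroup.torsion (Abelianization Q)).comap Abelianization.of
  have hT : ∀ g, g ∈ T ↔ IsOfFinOrder g := by
    intro g
    show IsOfFinOrder (Abelianization.of g) ↔ _
    constructor
    · intro h
      obtain ⟨n, hn, h1⟩ := isOfFinOrder_iff_pow_eq_one.1 h
      rw [← map_pow] at h1
      have h2 : g ^ n ∈ commutator Q := by
        rw [← Abelianization.ker_of]
        exact h1
      have h3 : IsOfFinOrder (⟨g ^ n, h2⟩ : commutator Q) := isOfFinOrder_of_finite _
      have h4 : IsOfFinOrder (g ^ n) := by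
        have := (commutator Q).subtype.isOfFinOrder h3
        exact this
      obtain ⟨m, hm, h5⟩ := isOfFinOrder_iff_pow_eq_one.1 h4
      rw [← pow_mul] at h5
      exact isOfFinOrder_iff_pow_eq_one.2 ⟨n * m, Nat.mul_pos hn hm, h5⟩
    · intro h
      exact Abelianization.of.isOfFinOrder h
  refine ⟨T, inferInstance, ?_, hT, ?_⟩
  · apply Finite.of_injective (fun t : T => ((t : Q) : Q ⧸ B))
    intro s t hst
    have h1 : (s : Q)⁻¹ * t ∈ B := QuotientGroup.eq.1 hst
    have h2 : (s : Q)⁻¹ * t ∈ T := T.mul_mem (T.inv_mem s.2) t.2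
    have h3 := htf _ h1 ((hT _).1 h2)
    exact Subtype.ext (inv_mul_eq_one.1 h3)
  · intro a b
    show IsOfFinOrder (Abelianization.of (a * b * a⁻¹ * b⁻¹))
    have : Abelianization.of (a * b * a⁻¹ * b⁻¹) = 1 := by
      simp only [map_mul, map_inv]
      rw [mul_inv_cancel_comm, mul_inv_cancel]
    rw [this]
    exact IsOfFinOrder.one

theorem rank_of_index (A : Type) [CommGroup A] (htf : TF A) (B : Subgroup A) (hfin : B.index ≠ 0) :
    Module.rank ℤ (Additive B) = Module.rank ℤ (Additive A) := by
  apply le_antisymm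
  · let f : Additive B →ₗ[ℤ] Additive A := (MonoidHom.toAdditive B.subtype).toIntLinearMap
    apply LinearMap.rank_le_of_injective f
    intro x y h
    exact Subtype.ext h
  · let g : A →* B :=
      { toFun := fun a => ⟨a ^ B.index, B.pow_index_mem a⟩
        map_one' := by
          apply Subtype.ext
          simp
        map_mul' := by
          intro a b
          apply Subtype.ext
          simp [mul_pow] }
    let f : Additive A →ₗ[ℤ] Additive B := (MonoidHom.toAdditive g).toIntLinearMap
    apply LinearMap.rank_le_of_injective f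
    have hg : Function.Injective g := by
      rw [injective_iff_map_eq_one]
      intro a ha
      apply htf
      rw [isOfFinOrder_iff_pow_eq_one]
      exact ⟨B.index, Nat.pos_of_ne_zero hfin, congrArg Subtype.val ha⟩
    intro x y h
    exact hg h

end Pool.Agent.H652.SR
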