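import Mathlib
import Pool.Agent.H652.SR.Defs
import Pool.Agent.H652.SR.Jsylow

set_option autoImplicit false

open scoped IsMulCommutative

namespace Pool.Agent.H652.SR

private theorem dual_finite (p : ℕ) [Fact p.Prime] (V : Type) [AddCommGroup V] [Module (ZMod p) V]
    [Finite V] : Finite (V →ₗ[ZMod p] ZMod p) :=
  Finite.of_injective (fun f : V →ₗ[ZMod p] ZMod p => (f : V → ZMod p)) DFunLike.coe_injective

private theorem dual_card (p : ℕ) [Fact p.Prime] (V : Type) [AddCommGroup V] [Module (ZMod p) V]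
    [Finite V] : Nat.card (V →ₗ[ZMod p] ZMod p) = Nat.card V := by
  have := dual_finite p V
  have h1 : Nat.card (Module.Dual (ZMod p) V) =
      Nat.card (ZMod p) ^ Module.finrank (ZMod p) (Module.Dual (ZMod p) V) :=
    Module.natCard_eq_pow_finrank
  have h2 : Nat.card V = Nat.card (ZMod p) ^ Module.finrank (ZMod p) V :=
    Module.natCard_eq_pow_finrank
  change Nat.card (Module.Dual (ZMod p) V) = _
  rw [h1, Subspace.dual_finrank_eq, ← h2]

private theorem card_hom_le (R : Type) [CommGroup R] [Finite R] (M : Type) [CommGroup M] (p : ℕ)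
    [Fact p.Prime] (hM : Nat.card M = p) (hR : ∀ g : R, g ^ p = 1) :
    Finite (R →* M) ∧ Nat.card (R →* M) ≤ Nat.card R := by
  have hMp : Nat.card (Multiplicative (ZMod p)) = p := by
    rw [Nat.card_congr Multiplicative.toAdd, Nat.card_zmod]
  let e : M ≃* Multiplicative (ZMod p) := mulEquivOfPrimeCardEq hM hMp
  let : Module (ZMod p) (Additive R) := AddCommGroup.zmodModule (n := p) (G := Additive R)
    (fun x => by
      have := hR x.toMul
      exact this)
  have : Finite (Additive R) := ‹Finite R›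
  have : Finite (Additive R →ₗ[ZMod p] ZMod p) := dual_finite _ _
  let Φ : (R →* M) → (Additive R →ₗ[ZMod p] ZMod p) := fun f =>
    AddMonoidHom.toZModLinearMap p (MonoidHom.toAdditiveLeft (e.toMonoidHom.comp f))
  have hΦ : Function.Injective Φ := by
    intro f g h
    have h1 := AddMonoidHom.toZModLinearMap_injective p h
    have h2 := MonoidHom.toAdditiveLeft.injective h1
    ext x
    apply e.injective
    exact DFunLike.congr_fun h2 x
  refine ⟨Finite.of_injective Φ hΦ, ?_⟩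
  calc Nat.card (R →* M) ≤ Nat.card (Additive R →ₗ[ZMod p] ZMod p) := Nat.card_le_card_of_injective Φ hΦ
    _ = Nat.card R := dual_card p (Additive R)

private theorem homF_card_le_index (Q : Type) [Group Q] (M : Type) [CommGroup M] (p : ℕ) [Fact p.Prime]
    (hM : Nat.card M = p) (F N : Subgroup Q)
    (hN : ∀ f : Q →* M, (∀ x ∈ F, f x = 1) → ∀ n ∈ N, f n = 1) (hfin : N.index ≠ 0) :
    Finite {f : Q →* M // ∀ x ∈ F, f x = 1} ∧
      Nat.card {f : Q →* M // ∀ x ∈ F, f x = 1} ≤ N.index := by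
  let H := {f : Q →* M // ∀ x ∈ F, f x = 1}
  have hM1 : ∀ m : M, m ^ p = 1 := fun m => by rw [← hM]; exact pow_card_eq_one'
  let Φ : Q →* (H → M) :=
    { toFun := fun g f => f.1 g
      map_one' := by ext f; simp
      map_mul' := by intro a b; ext f; simp }
  have hker : N ≤ Φ.ker := by
    intro n hn
    rw [MonoidHom.mem_ker]
    ext f
    exact hN f.1 f.2 n hn
  have hki : Φ.ker.index ≤ N.index := Nat.le_of_dvd (Nat.pos_of_ne_zero hfin) (Subgroup.index_dvd_of_le hker)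
  have hk0 : Φ.ker.index ≠ 0 := fun h => hfin (Nat.eq_zero_of_zero_dvd (h ▸ Subgroup.index_dvd_of_le hker))
  have hcard : Nat.card Φ.range = Φ.ker.index := (Subgroup.index_ker Φ).symm
  have hfinR : Finite Φ.range := Nat.finite_of_card_ne_zero (by rw [hcard]; exact hk0)
  have hR : ∀ g : Φ.range, g ^ p = 1 := by
    intro g
    apply Subtype.ext
    ext f
    exact hM1 _
  obtain ⟨h1, h2⟩ := card_hom_le Φ.range M p hM hR
  let Ψ : H → (Φ.range →* M) := fun f =>
    (Pi.evalMonoidHom (fun _ : H => M) f).comp Φ.range.subtype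
  have hΨ : Function.Injective Ψ := by
    intro f g h
    apply Subtype.ext
    ext q
    have := DFunLike.congr_fun h ⟨Φ q, ⟨q, rfl⟩⟩
    exact this
  refine ⟨Finite.of_injective Ψ hΨ, ?_⟩
  calc Nat.card H ≤ Nat.card (Φ.range →* M) := Nat.card_le_card_of_injective Ψ hΨ
    _ ≤ Nat.card Φ.range := h2
    _ = Φ.ker.index := hcard
    _ ≤ N.index := hki

private theorem homF_transfer (Q Q' : Type) [Group Q] [Group Q'] (M : Type) [CommGroup M] (π : Q →* Q')
    (hπ : Function.Surjective π) (F' : Subgroup Q')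
    (h : Finite {f : Q' →* M // ∀ x ∈ F', f x = 1}) :
    Finite {f : Q →* M // ∀ x ∈ F'.comap π, f x = 1} ∧
      Nat.card {f : Q →* M // ∀ x ∈ F'.comap π, f x = 1} ≤
      Nat.card {f : Q' →* M // ∀ x ∈ F', f x = 1} := by
  have key : ∀ f : {f : Q →* M // ∀ x ∈ F'.comap π, f x = 1},
      ∃ f' : {f : Q' →* M // ∀ x ∈ F', f x = 1}, ∀ q, f'.1 (π q) = f.1 q := by
    intro f
    have hk : π.ker ≤ f.1.ker := by
      intro x hx
      rw [MonoidHom.mem_ker] at hx ⊢
      apply f.2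
      rw [Subgroup.mem_comap, hx]; exact one_mem _
    refine ⟨⟨π.liftOfSurjective hπ ⟨f.1, hk⟩, ?_⟩, ?_⟩
    · intro x hx
      obtain ⟨q, rfl⟩ := hπ x
      have h0 := MonoidHom.liftOfRightInverse_comp_apply π (Function.surjInv hπ) (Function.rightInverse_surjInv hπ) ⟨f.1, hk⟩ q
      exact h0.trans (f.2 q hx)
    · intro q
      exact MonoidHom.liftOfRightInverse_comp_apply π (Function.surjInv hπ) (Function.rightInverse_surjInv hπ) ⟨f.1, hk⟩ q
  choose g hg using key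
  have hinj : Function.Injective g := by
    intro a b hab
    apply Subtype.ext
    ext q
    rw [← hg a q, ← hg b q, hab]
  exact ⟨Finite.of_injective g hinj, Nat.card_le_card_of_injective g hinj⟩

private theorem homF_restrict (Q : Type) [Group Q] (M : Type) [CommGroup M] (F L : Subgroup Q)
    (h1 : Finite {f : L →* M // ∀ x ∈ F.subgroupOf L, f x = 1})
    (h2 : Finite {f : Q →* M // ∀ x ∈ L, f x = 1}) :
    Finite {f : Q →* M // ∀ x ∈ F, f x = 1} ∧
      Nat.card {f : Q →* M // ∀ x ∈ F, f x = 1} ≤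
      Nat.card {f : L →* M // ∀ x ∈ F.subgroupOf L, f x = 1} *
      Nat.card {f : Q →* M // ∀ x ∈ L, f x = 1} := by
  classical
  let H := {f : Q →* M // ∀ x ∈ F, f x = 1}
  let H1 := {f : L →* M // ∀ x ∈ F.subgroupOf L, f x = 1}
  let H2 := {f : Q →* M // ∀ x ∈ L, f x = 1}
  let res : H → H1 := fun f => ⟨f.1.comp L.subtype, fun x hx => f.2 _ hx⟩

  let sec : H1 → (Q →* M) := fun g => if hg : ∃ f : H, res f = g then (Classical.choose hg).1 else 1
  have hsec : ∀ f : H, ∀ x ∈ L, sec (res f) x = f.1 x := by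
    intro f x hx
    have hg : ∃ f' : H, res f' = res f := ⟨f, rfl⟩
    have h3 : sec (res f) = (Classical.choose hg).1 := dif_pos hg
    rw [h3]
    have h4 := Classical.choose_spec hg
    have h5 := DFunLike.congr_fun (congrArg Subtype.val h4) ⟨x, hx⟩
    exact h5
  let Θ : H → H1 × H2 := fun f => (res f, ⟨f.1 * (sec (res f))⁻¹, fun x hx => by
    rw [MonoidHom.mul_apply, MonoidHom.inv_apply, hsec f x hx, mul_inv_cancel]⟩)
  have hΘ : Function.Injective Θ := by
    intro f g h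
    have ha : res f = res g := congrArg Prod.fst h
    have hb := congrArg Subtype.val (congrArg Prod.snd h)
    change f.1 * (sec (res f))⁻¹ = g.1 * (sec (res g))⁻¹ at hb
    rw [ha] at hb
    exact Subtype.ext (mul_right_cancel hb)
  refine ⟨Finite.of_injective Θ hΘ, ?_⟩
  rw [← Nat.card_prod]
  exact Nat.card_le_card_of_injective Θ hΘ

private theorem rank_of_inj (G H : Type) [CommGroup G] [CommGroup H] (f : G →* H)
    (hf : Function.Injective f) (htor : ∀ h : H, ∃ n : ℕ, n ≠ 0 ∧ h ^ n ∈ f.range) :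
    Module.rank ℤ (Additive G) = Module.rank ℤ (Additive H) := by
  let g : Additive G →ₗ[ℤ] Additive H := (MonoidHom.toAdditive f).toIntLinearMap
  have hg : Function.Injective g := hf
  have h1 := rank_quotient_add_rank_of_isDomain (R := ℤ) (LinearMap.range g)
  have h2 : Module.rank ℤ (Additive H ⧸ LinearMap.range g) = 0 := by
    rw [rank_eq_zero_iff]
    intro x
    obtain ⟨y, rfl⟩ := Submodule.mkQ_surjective _ x
    obtain ⟨n, hn, hm⟩ := htor y.toMul
    refine ⟨(n : ℤ), by exact_mod_cast hn, ?_⟩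
    rw [← map_smul, ← LinearMap.mem_ker, Submodule.ker_mkQ]
    obtain ⟨z, hz⟩ := hm
    refine ⟨Additive.ofMul z, ?_⟩
    rw [natCast_zsmul]
    exact hz
  rw [h2, zero_add] at h1
  rw [← h1]
  exact (LinearEquiv.ofInjective g hg).rank_eq

private theorem rank_of_surj (G H : Type) [CommGroup G] [CommGroup H] (f : G →* H)
    (hf : Function.Surjective f) :
    Module.rank ℤ (Additive G) = Module.rank ℤ (Additive f.ker) + Module.rank ℤ (Additive H) := by
  let g : Additive G →ₗ[ℤ] Additive H := (MonoidHom.toAdditive f).toIntLinearMap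
  have hg : Function.Surjective g := hf
  have h1 := rank_quotient_add_rank_of_isDomain (R := ℤ) (LinearMap.ker g)
  have h2 := (LinearMap.quotKerEquivOfSurjective g hg).rank_eq
  have e : Additive f.ker ≃+ LinearMap.ker g :=
    { toFun := fun x => ⟨Additive.ofMul x.toMul.1, x.toMul.2⟩
      invFun := fun x => Additive.ofMul ⟨x.1.toMul, x.2⟩
      left_inv := fun x => rfl
      right_inv := fun x => rfl
      map_add' := fun x y => rfl }
  have h3 := e.toIntLinearEquiv.rank_eq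
  rw [← h1, h2, ← h3, add_comm]

open Polynomial in
private theorem poly1 (p : ℕ) (hp : p.Prime) :
    ∃ c : ℤ[X], (p : ℤ[X]) = (∑ i ∈ Finset.range p, X ^ i) + (1 - X) * c ∧
      (p ≠ 2 → ∃ k d : ℤ[X], c = k * (p : ℤ[X]) + (1 - X) * d) := by
  have h1 : (X - C 1 : ℤ[X]) ∣ ((p : ℤ[X]) - ∑ i ∈ Finset.range p, X ^ i) := by
    rw [dvd_iff_isRoot]
    simp [IsRoot, eval_finsetSum]
  obtain ⟨c, hc⟩ := h1
  have hc' : (p : ℤ[X]) = (∑ i ∈ Finset.range p, X ^ i) + (1 - X) * (-c) := by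
    have : (C 1 : ℤ[X]) = 1 := rfl
    rw [this] at hc
    linear_combination hc
  refine ⟨-c, hc', ?_⟩
  intro hp2
  have hodd : ∃ k : ℕ, p = 2 * k + 1 := by
    rcases hp.eq_two_or_odd' with h | h
    · exact absurd h hp2
    · exact h
  obtain ⟨k, hk⟩ := hodd
  have hder := congrArg (fun f => eval 1 (derivative f)) hc'
  simp only [derivative_natCast, eval_zero, derivative_add, derivative_sum, derivative_mul,
    derivative_sub, derivative_one, derivative_X, eval_add, eval_mul, eval_sub, eval_one, eval_X,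
    sub_self, zero_mul, add_zero, eval_finsetSum, derivative_X_pow] at hder
  simp only [eval_natCast, eval_pow, eval_X, one_pow, mul_one, map_natCast, zero_sub, eval_neg, neg_mul,
    one_mul, neg_neg] at hder
  have hsum : (∑ i ∈ Finset.range p, (i : ℤ)) = k * p := by
    have h := Finset.sum_range_id_mul_two p
    have h2 : (∑ i ∈ Finset.range p, (i : ℤ)) * 2 = (p : ℤ) * ((p - 1 : ℕ) : ℤ) := by
      rw [← Nat.cast_mul, ← h]; push_cast; rfl
    have h3 : ((p - 1 : ℕ) : ℤ) = 2 * k := by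
      have : p - 1 = 2 * k := by omega
      rw [this]; push_cast; ring
    rw [h3] at h2
    linarith
  have hev : eval 1 (-c) = k * p := by
    rw [eval_neg]
    linarith
  have h4 : (X - C 1 : ℤ[X]) ∣ (-c - C ((k : ℤ) * p)) := by
    rw [dvd_iff_isRoot, IsRoot, eval_sub, hev, eval_C, sub_self]
  obtain ⟨d, hd⟩ := h4
  refine ⟨C (k : ℤ), -d, ?_⟩
  have h5 : (C ((k : ℤ) * p) : ℤ[X]) = C (k : ℤ) * p := by
    rw [C_mul]; congr 1
  have : (C 1 : ℤ[X]) = 1 := rfl
  rw [this, h5] at hd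
  linear_combination hd

private theorem endo_lemma (V : Type) [AddCommGroup V] (S : Module.End ℤ V) (p : ℕ) (hp : p.Prime)
    (hS : S ^ p = 1) (hinj : ∀ v, S v = v → v = 0) :
    (∀ v, ∃ w, p • v = w - S w) ∧
    (p ≠ 2 → ∀ v, ∃ w, p • v = (w - S w) - S (w - S w)) := by
  obtain ⟨c, hc, hd⟩ := poly1 p hp
  have e := congrArg (Polynomial.aeval S) hc
  simp only [map_natCast, map_add, map_mul, map_sum, map_pow, Polynomial.aeval_X, map_sub, map_one] at e
  have hΦ : (∑ i ∈ Finset.range p, S ^ i) = 0 := by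
    have h1 : (1 - S) * (∑ i ∈ Finset.range p, S ^ i) = 0 := by
      rw [mul_neg_geom_sum, hS, sub_self]
    ext v
    apply hinj
    have h2 := LinearMap.congr_fun h1 v
    have h3 : (∑ i ∈ Finset.range p, S ^ i) v - S ((∑ i ∈ Finset.range p, S ^ i) v) = 0 := h2
    exact (sub_eq_zero.mp h3).symm
  rw [hΦ, zero_add] at e
  constructor
  · intro v
    refine ⟨(Polynomial.aeval S c) v, ?_⟩
    have := LinearMap.congr_fun e v
    simpa using this
  · intro hp2 v
    obtain ⟨k, d, hcd⟩ := hd hp2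
    have e2 := congrArg (Polynomial.aeval S) hcd
    simp only [map_natCast, map_add, map_mul, map_sub, map_one, Polynomial.aeval_X] at e2
    have e3 : ((p : ℕ) : Module.End ℤ V) = (1 - S) * ((1 - S) * (Polynomial.aeval S k * Polynomial.aeval S c + Polynomial.aeval S d)) := by
      have hcomm : Polynomial.aeval S k * (1 - S) = (1 - S) * Polynomial.aeval S k := by
        have : (1 - S) = Polynomial.aeval S (1 - Polynomial.X : Polynomial ℤ) := by simp
        rw [this, ← map_mul, ← map_mul, mul_comm]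
      rw [e] at e2
      rw [← mul_assoc (Polynomial.aeval S k), hcomm, mul_assoc, ← mul_add] at e2
      rw [← e2]
      exact e
    refine ⟨(Polynomial.aeval S k * Polynomial.aeval S c + Polynomial.aeval S d) v, ?_⟩
    have h6 := LinearMap.congr_fun e3 v
    have h7 : ((p : ℕ) : Module.End ℤ V) v = p • v := by simp
    rw [← h7]
    exact h6

private theorem core (Q : Type) [Group Q] (A : Subgroup Q) [A.Normal] [IsMulCommutative A]
    (htf : ∀ a ∈ A, IsOfFinOrder a → a = 1) (rho : ℕ) (hr : Module.rank ℤ (Additive A) = rho)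
    (hfin : A.index ≠ 0) (p : ℕ) [Fact p.Prime] (x : Q) (hxp : x ^ p ∈ A)
    (hx : ∀ g, g * x * g⁻¹ * x⁻¹ ∈ A) (hfix : ∀ a ∈ A, x * a = a * x → a = 1)
    (M : Type) [CommGroup M] (hM : Nat.card M = p) :
    Finite (Subgroup.centralizer {x}) ∧
      Finite {f : Q →* M // ∀ y ∈ Subgroup.centralizer {x}, f y = 1} ∧
      Nat.card {f : Q →* M // ∀ y ∈ Subgroup.centralizer {x}, f y = 1} ≤ p ^ rho ∧
      (p ≠ 2 → A ≠ ⊥ →
        Nat.card {f : Q →* M // ∀ y ∈ Subgroup.centralizer {x}, f y = 1} * p ≤ p ^ rho) := by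
  classical
  have hp : p.Prime := Fact.out
  have hcomm : ∀ a ∈ A, ∀ b ∈ A, a * b = b * a := by
    intro a ha b hb
    exact congrArg Subtype.val (mul_comm (⟨a, ha⟩ : A) ⟨b, hb⟩)
  let cx : A →* A := (MulAut.conjNormal x : A ≃* A).toMonoidHom
  have hcx : ∀ a : A, ((cx a : A) : Q) = x * a * x⁻¹ := fun a => MulAut.conjNormal_apply x a
  let φ : A →* A :=
    { toFun := fun a => a / cx a
      map_one' := by simp
      map_mul' := by intro a b; rw [map_mul, mul_div_mul_comm] }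
  have hφ : ∀ a : A, φ a = a / cx a := fun a => rfl
  have hφinj : Function.Injective φ := by
    rw [injective_iff_map_eq_one]
    intro a ha
    rw [hφ, div_eq_one] at ha
    have h1 := congrArg Subtype.val ha
    rw [hcx] at h1
    apply Subtype.ext
    apply hfix a a.2
    rw [eq_mul_inv_iff_mul_eq] at h1
    exact h1.symm
  let S : Module.End ℤ (Additive A) := (MonoidHom.toAdditive cx).toIntLinearMap
  have hSn : ∀ (n : ℕ) (v : Additive A), (((S ^ n) v).toMul : Q) = x ^ n * (v.toMul : Q) * (x ^ n)⁻¹ := by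
    intro n
    induction n with
    | zero => intro v; simp
    | succ n ih =>
      intro v
      have h1 : (S ^ (n + 1)) v = (S ^ n) (S v) := by rw [pow_succ]; rfl
      rw [h1, ih]
      have h2 : ((S v).toMul : Q) = x * (v.toMul : Q) * x⁻¹ := hcx _
      rw [h2, pow_succ]
      group
  have hSp : S ^ p = 1 := by
    ext v
    have h1 := hSn p v
    have h2 : x ^ p * (v.toMul : Q) * (x ^ p)⁻¹ = (v.toMul : Q) := by
      rw [hcomm _ hxp _ v.toMul.2]; group
    rw [h2] at h1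
    exact h1
  have hSinj : ∀ v, S v = v → v = 0 := by
    intro v hv
    have h1 : φ v.toMul = 1 := by
      rw [hφ, div_eq_one]
      exact hv.symm
    have h2 := hφinj (h1.trans (map_one φ).symm)
    exact h2
  obtain ⟨hE1, hE2⟩ := endo_lemma (Additive A) S p hp hSp hSinj
  have hD1 : (powMonoidHom p : A →* A).range ≤ φ.range := by
    rintro _ ⟨a, rfl⟩
    obtain ⟨w, hw⟩ := hE1 (Additive.ofMul a)
    exact ⟨w.toMul, hw.symm⟩
  have hD2 : p ≠ 2 → (powMonoidHom p : A →* A).range ≤ φ.range.map φ := by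
    rintro hp2 _ ⟨a, rfl⟩
    obtain ⟨w, hw⟩ := hE2 hp2 (Additive.ofMul a)
    exact ⟨φ w.toMul, ⟨w.toMul, rfl⟩, hw.symm⟩
  have htfA : TF A := by
    intro a ha
    apply Subtype.ext
    exact htf a a.2 ((Submonoid.isOfFinOrder_coe).2 ha)
  obtain ⟨hF1, hF2⟩ := card_mod_pow A htfA rho hr p
  have hF3 : (powMonoidHom p : A →* A).range.index ≠ 0 := Subgroup.index_ne_zero_of_finite
  have hF4 : (powMonoidHom p : A →* A).range.index ≤ p ^ rho := hF2
  have hDi0 : φ.range.index ≠ 0 := fun h => hF3 (Nat.eq_zero_of_zero_dvd (h ▸ Subgroup.index_dvd_of_le hD1))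
  have hDi : φ.range.index ≤ p ^ rho :=
    (Nat.le_of_dvd (Nat.pos_of_ne_zero hF3) (Subgroup.index_dvd_of_le hD1)).trans hF4

  set F := Subgroup.centralizer ({x} : Set Q) with hFdef
  have hFmem : ∀ y, y ∈ F ↔ x * y = y * x := by
    intro y
    rw [hFdef, Subgroup.mem_centralizer_iff]
    simp
  let N : Subgroup Q := ⨅ f : {f : Q →* M // ∀ y ∈ F, f y = 1}, f.1.ker
  have hNmem : ∀ n, n ∈ N ↔ ∀ f : Q →* M, (∀ y ∈ F, f y = 1) → f n = 1 := by
    intro n
    simp only [N, Subgroup.mem_iInf, MonoidHom.mem_ker, Subtype.forall]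
  have hNn : N.Normal := by
    constructor
    intro n hn g
    rw [hNmem] at hn ⊢
    intro f hf
    rw [map_mul, map_mul, hn f hf, mul_one, map_inv, mul_inv_cancel]
  have hFN : F ≤ N := fun y hy => (hNmem y).2 fun f hf => hf y hy
  let DQ : Subgroup Q := φ.range.map A.subtype
  have hDQ : ∀ a ∈ A, a * (x * a * x⁻¹)⁻¹ ∈ DQ := by
    intro a ha
    refine ⟨φ ⟨a, ha⟩, ⟨⟨a, ha⟩, rfl⟩, ?_⟩
    rw [hφ, div_eq_mul_inv]
    simp [hcx]
  have hDQ' : ∀ u ∈ DQ, ∃ a ∈ A, u = a * (x * a * x⁻¹)⁻¹ := by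
    rintro _ ⟨_, ⟨a, rfl⟩, rfl⟩
    refine ⟨a, a.2, ?_⟩
    rw [hφ, div_eq_mul_inv]
    simp [hcx]
  have hDN : DQ ≤ N := by
    intro u hu
    obtain ⟨a, ha, rfl⟩ := hDQ' u hu
    rw [hNmem]
    intro f hf
    rw [map_mul, map_inv, map_mul, map_mul, map_inv, mul_comm (f x), mul_inv_cancel_right,
      mul_inv_cancel]
  have hDA : DQ ≤ A := by
    intro u hu
    obtain ⟨a, ha, rfl⟩ := hDQ' u hu
    exact A.mul_mem ha (A.inv_mem (‹A.Normal›.conj_mem a ha x))
  have hxN : ∀ g, g * x * g⁻¹ * x⁻¹ ∈ N := by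
    intro g
    rw [hNmem]
    intro f hf
    rw [map_mul, map_mul, map_mul, map_inv, map_inv, mul_comm (f g), mul_inv_cancel_right,
      mul_inv_cancel]
  let W : Subgroup Q := N ⊓ A
  have hDW : DQ ≤ W := le_inf hDN hDA
  have hi1 : DQ.relIndex W * W.relIndex A = φ.range.index := by
    rw [Subgroup.relIndex_mul_relIndex _ _ _ hDW inf_le_right]
    have h1 : DQ.subgroupOf A = φ.range :=
      Subgroup.comap_map_eq_self_of_injective A.subtype_injective _
    rw [Subgroup.relIndex, h1]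
  have hi2 : DQ.relIndex W ≠ 0 := fun h => hDi0 (by rw [← hi1, h, zero_mul])
  have hi3 : W.relIndex A ≠ 0 := fun h => hDi0 (by rw [← hi1, h, mul_zero])
  have hi4 : (A ⊔ N).index ≤ DQ.relIndex W := by
    have hfW : Finite (W ⧸ DQ.subgroupOf W) := Nat.finite_of_card_ne_zero hi2
    let h : Q ⧸ (A ⊔ N) → W ⧸ DQ.subgroupOf W := fun q =>
      QuotientGroup.mk ⟨Quotient.out q * x * (Quotient.out q)⁻¹ * x⁻¹, ⟨hxN _, hx _⟩⟩
    have hinj : Function.Injective h := by
      intro q1 q2 hq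
      rw [← QuotientGroup.out_eq' q1, ← QuotientGroup.out_eq' q2]
      change (QuotientGroup.mk _ : W ⧸ DQ.subgroupOf W) = QuotientGroup.mk _ at hq
      generalize Quotient.out q1 = g1 at hq ⊢
      generalize Quotient.out q2 = g2 at hq ⊢
      rw [QuotientGroup.eq] at hq ⊢
      rw [Subgroup.mem_subgroupOf] at hq
      simp only [Subgroup.coe_mul, InvMemClass.coe_inv] at hq
      obtain ⟨a, ha, hu⟩ := hDQ' _ hq
      have hca := hcomm _ (hx g1) _ ha
      have h1 : g2 * x * g2⁻¹ = a * (g1 * x * g1⁻¹) * a⁻¹ := by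
        have h2 : g2 * x * g2⁻¹ * x⁻¹ = (g1 * x * g1⁻¹ * x⁻¹) * a * (x * a * x⁻¹)⁻¹ := by
          rw [mul_assoc (g1 * x * g1⁻¹ * x⁻¹), ← hu]; group
        rw [hca] at h2
        have h3 : g2 * x * g2⁻¹ = g2 * x * g2⁻¹ * x⁻¹ * x := by group
        rw [h3, h2]; group
      have hy : (a * g1)⁻¹ * g2 ∈ F := by
        rw [hFmem]
        have h4 : g2 * x = a * (g1 * x * g1⁻¹) * a⁻¹ * g2 := by rw [← h1]; group
        rw [mul_assoc _ g2 x, h4]; group
      have h5 : g1⁻¹ * g2 = (g1⁻¹ * a * g1⁻¹⁻¹) * ((a * g1)⁻¹ * g2) := by group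
      rw [h5]
      exact (A ⊔ N).mul_mem (Subgroup.mem_sup_left (‹A.Normal›.conj_mem a ha g1⁻¹))
        (Subgroup.mem_sup_right (hFN hy))
    exact Nat.card_le_card_of_injective h hinj
  have hi5 : N.index = W.relIndex A * (A ⊔ N).index := by
    rw [← Subgroup.relIndex_mul_index (le_sup_right : N ≤ A ⊔ N), Subgroup.relIndex_sup_right,
      Subgroup.inf_relIndex_right]
  have hi6 : N.index ≤ φ.range.index := by
    rw [hi5, ← hi1, mul_comm]
    exact Nat.mul_le_mul_right _ hi4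
  have hi7 : N.index ≠ 0 := by
    rw [hi5]
    refine mul_ne_zero hi3 ?_
    intro h
    exact hfin (Nat.eq_zero_of_zero_dvd (h ▸ Subgroup.index_dvd_of_le le_sup_left))
  obtain ⟨hc1, hc2⟩ := homF_card_le_index Q M p hM F N (fun f hf n hn => (hNmem n).1 hn f hf) hi7
  refine ⟨?_, hc1, hc2.trans (hi6.trans hDi), ?_⟩
  ·
    have hQA : Finite (Q ⧸ A) := Nat.finite_of_card_ne_zero hfin
    let k : F → Q ⧸ A := fun y => QuotientGroup.mk y.1
    apply Finite.of_injective k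
    intro y1 y2 h
    change (QuotientGroup.mk y1.1 : Q ⧸ A) = QuotientGroup.mk y2.1 at h
    rw [QuotientGroup.eq] at h
    have h1 := hfix _ h ((hFmem _).1 (F.mul_mem (F.inv_mem y1.2) y2.2))
    apply Subtype.ext
    rw [inv_mul_eq_one] at h1
    exact h1
  · intro hp2 hA
    have hrho : rho ≠ 0 := by
      intro h0
      apply hA
      rw [h0, Nat.cast_zero, rank_eq_zero_iff] at hr
      rw [Subgroup.eq_bot_iff_forall]
      intro a ha
      apply htf a ha
      obtain ⟨n, hn, hna⟩ := hr (Additive.ofMul ⟨a, ha⟩)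
      have h1 : (⟨a, ha⟩ : A) ^ n = 1 := hna
      have h2 : a ^ n = 1 := congrArg Subtype.val h1
      rw [isOfFinOrder_iff_zpow_eq_one]
      exact ⟨n, hn, h2⟩
    have hsq : φ.range.index * φ.range.index ≤ p ^ rho := by
      have h1 : (φ.range.map φ).index = φ.range.index * φ.range.index := by
        rw [Subgroup.index_map, (MonoidHom.ker_eq_bot_iff φ).2 hφinj, sup_bot_eq]
      rw [← h1]
      exact (Nat.le_of_dvd (Nat.pos_of_ne_zero hF3) (Subgroup.index_dvd_of_le (hD2 hp2))).trans hF4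
    have hpp : ∃ f, φ.range.index = p ^ f := by
      have hpg : IsPGroup p (A ⧸ (powMonoidHom p : A →* A).range) := by
        intro q
        refine ⟨1, ?_⟩
        obtain ⟨a, rfl⟩ := QuotientGroup.mk_surjective q
        rw [pow_one, ← QuotientGroup.mk_pow, QuotientGroup.eq_one_iff]
        exact ⟨a, rfl⟩
      obtain ⟨n, hn⟩ := hpg.exists_card_eq
      have h1 : φ.range.index ∣ p ^ n := by
        rw [← hn]
        exact Subgroup.index_dvd_of_le hD1
      obtain ⟨f, _, hf⟩ := (Nat.dvd_prime_pow hp).1 h1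
      exact ⟨f, hf⟩
    obtain ⟨f, hf⟩ := hpp
    rw [hf, ← pow_add] at hsq
    have h2 : f + f ≤ rho := (Nat.pow_le_pow_iff_right hp.one_lt).1 hsq
    calc Nat.card {f : Q →* M // ∀ y ∈ F, f y = 1} * p ≤ p ^ f * p := by
          apply Nat.mul_le_mul_right
          rw [← hf]
          exact hc2.trans hi6
      _ = p ^ (f + 1) := (pow_succ _ _).symm
      _ ≤ p ^ rho := Nat.pow_le_pow_right hp.pos (by omega)

private theorem rank_of_mulEquiv (G H : Type) [CommGroup G] [CommGroup H] (e : G ≃* H) :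
    Module.rank ℤ (Additive G) = Module.rank ℤ (Additive H) :=
  (MulEquiv.toAdditive e).toIntLinearEquiv.rank_eq

private theorem finite_comap (Q Q' : Type) [Group Q] [Group Q'] (π : Q →* Q') (hk : Finite π.ker)
    (F' : Subgroup Q') (hF : Finite F') : Finite (F'.comap π) := by
  have h : (π ⁻¹' (F' : Set Q')).Finite := by
    apply Set.Finite.preimage' hF
    intro b _
    by_cases hb : ∃ a, π a = b
    · obtain ⟨a, rfl⟩ := hb
      have : (π ⁻¹' {π a}) ⊆ (fun k => a * k) '' (π.ker : Set Q) := by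
        intro y hy
        refine ⟨a⁻¹ * y, ?_, by group⟩
        change a⁻¹ * y ∈ π.ker
        rw [MonoidHom.mem_ker, map_mul, map_inv, hy, inv_mul_cancel]
      exact Set.Finite.subset (Set.Finite.image _ hk) this
    · convert Set.finite_empty
      ext a
      simp only [Set.mem_preimage, Set.mem_singleton_iff, Set.mem_empty_iff_false, iff_false]
      exact fun h => hb ⟨a, h⟩
  exact h

private theorem exists_x (Q : Type) [Group Q] (A : Subgroup Q) [A.Normal] (hfin : A.index ≠ 0) (p : ℕ)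
    [Fact p.Prime] (hp : ∀ g : Q, ∃ k, g ^ p ^ k ∈ A) (hA : A ≠ ⊤) :
    ∃ x : Q, x ∉ A ∧ x ^ p ∈ A ∧ ∀ g, g * x * g⁻¹ * x⁻¹ ∈ A := by
  have hpg : IsPGroup p (Q ⧸ A) := by
    intro q
    obtain ⟨a, rfl⟩ := QuotientGroup.mk_surjective q
    obtain ⟨k, hk⟩ := hp a
    refine ⟨k, ?_⟩
    rw [← QuotientGroup.mk_pow, QuotientGroup.eq_one_iff]
    exact hk
  have hF : Finite (Q ⧸ A) := Nat.finite_of_card_ne_zero hfin
  have hN : Nontrivial (Q ⧸ A) := by
    have h1 : ∃ x, x ∉ A := by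
      by_contra h
      push Not at h
      exact hA ((Subgroup.eq_top_iff' A).2 h)
    obtain ⟨x, hx⟩ := h1
    exact ⟨QuotientGroup.mk x, 1, fun h => hx ((QuotientGroup.eq_one_iff _).1 h)⟩
  have hC := hpg.center_nontrivial
  obtain ⟨z, hz⟩ := exists_ne (1 : Subgroup.center (Q ⧸ A))
  have hz1 : (z : Q ⧸ A) ≠ 1 := fun h => hz (Subtype.ext h)
  classical
  have hex : ∃ k, (z : Q ⧸ A) ^ p ^ k = 1 := hpg z
  have hk := Nat.find_spec hex
  have hkm := fun m => Nat.find_min hex (m := m)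
  set k := Nat.find hex
  have hk0 : k ≠ 0 := by
    intro h
    rw [h, pow_zero, pow_one] at hk
    exact hz1 hk
  obtain ⟨j, hj⟩ := Nat.exists_eq_succ_of_ne_zero hk0
  obtain ⟨x, hx⟩ := QuotientGroup.mk_surjective ((z : Q ⧸ A) ^ p ^ j)
  refine ⟨x, ?_, ?_, ?_⟩
  · rw [← QuotientGroup.eq_one_iff, hx]
    exact hkm j (by omega)
  · rw [← QuotientGroup.eq_one_iff, QuotientGroup.mk_pow, hx, ← pow_mul, ← pow_succ]
    rw [hj] at hk
    exact hk
  · intro g
    rw [← QuotientGroup.eq_one_iff]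
    simp only [QuotientGroup.mk_mul, QuotientGroup.mk_inv]
    rw [hx]
    have hc : (z : Q ⧸ A) ^ p ^ j ∈ Subgroup.center (Q ⧸ A) := Subgroup.pow_mem _ z.2 _
    rw [Subgroup.mem_center_iff] at hc
    rw [hc, mul_inv_cancel_right, mul_inv_cancel]

private theorem reduce (Q : Type) [Group Q] (B : Subgroup Q) [B.Normal] [IsMulCommutative B]
    (htf : ∀ b ∈ B, IsOfFinOrder b → b = 1) (r : ℕ) (hr : Module.rank ℤ (Additive B) = r)
    (hfin : B.index ≠ 0) (p : ℕ) (hp : ∀ g : Q, ∃ k, g ^ p ^ k ∈ B) :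
    ∃ (T : Subgroup Q) (_ : T.Normal) (A : Subgroup (Q ⧸ T)) (_ : A.Normal)
      (_ : IsMulCommutative A), Finite T ∧ (∀ a ∈ A, IsOfFinOrder a → a = 1) ∧
      Module.rank ℤ (Additive A) = r ∧ A.index ≠ 0 ∧ (∀ g : Q ⧸ T, ∃ k, g ^ p ^ k ∈ A) ∧
      (∀ g, (∀ a ∈ A, g * a = a * g) → g ∈ A) ∧ (∀ b ∈ B, (QuotientGroup.mk b : Q ⧸ T) ∈ A) ∧
      (∀ b ∈ B, b ∈ T → b = 1) := by
  have hcommB : ∀ a ∈ B, ∀ b ∈ B, a * b = b * a := by
    intro a ha b hb
    exact congrArg Subtype.val (mul_comm (⟨a, ha⟩ : B) ⟨b, hb⟩)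
  set C : Subgroup Q := Subgroup.centralizer (B : Set Q) with hC
  have hCmem : ∀ c, c ∈ C ↔ ∀ b ∈ B, b * c = c * b := by
    intro c
    rw [hC, Subgroup.mem_centralizer_iff]
    rfl
  have hBC : B ≤ C := fun b hb => (hCmem b).2 fun a ha => hcommB a ha b hb
  have hCn : C.Normal := by
    constructor
    intro c hc g
    rw [hCmem] at hc ⊢
    intro b hb
    have h1 := hc _ (‹B.Normal›.conj_mem b hb g⁻¹)
    have h2 : b * (g * c * g⁻¹) = g * ((g⁻¹ * b * g⁻¹⁻¹) * c) * g⁻¹ := by group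
    rw [h2, h1]; group
  obtain ⟨T', hT'n, hT'f, hT'm, hT'c⟩ := torsion_of_central C (B.subgroupOf C) (by
      intro b hb
      rw [Subgroup.mem_subgroupOf] at hb
      rw [Subgroup.mem_center_iff]
      intro c
      apply Subtype.ext
      exact ((hCmem c).1 c.2 _ hb).symm) (by
      intro b hb hfo
      apply Subtype.ext
      exact htf _ hb ((Submonoid.isOfFinOrder_coe (H := C.toSubmonoid)).2 hfo)) (by
      intro h
      exact hfin (by rw [← Subgroup.relIndex_mul_index hBC]; rw [Subgroup.relIndex, h, zero_mul]))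
  have hTm : ∀ g, g ∈ T'.map C.subtype ↔ g ∈ C ∧ IsOfFinOrder g := by
    intro g
    constructor
    · rintro ⟨t, ht, rfl⟩
      exact ⟨t.2, (Submonoid.isOfFinOrder_coe (H := C.toSubmonoid)).2 ((hT'm t).1 ht)⟩
    · rintro ⟨h1, h2⟩
      exact ⟨⟨g, h1⟩, (hT'm _).2 ((Submonoid.isOfFinOrder_coe (H := C.toSubmonoid)).1 h2), rfl⟩
  set T := T'.map C.subtype with hT
  have hTn : T.Normal := by
    constructor
    intro t ht g
    rw [hTm] at ht ⊢
    refine ⟨hCn.conj_mem t ht.1 g, ?_⟩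
    have h2 := MonoidHom.isOfFinOrder (MulAut.conj g).toMonoidHom ht.2
    simpa using h2
  have hTf : Finite T := by
    have : (T : Set Q) = C.subtype '' (T' : Set C) := rfl
    exact Set.Finite.image _ hT'f
  have hBT : ∀ b ∈ B, b ∈ T → b = 1 := fun b hb ht => htf b hb ((hTm b).1 ht).2
  have hTC : ∀ c ∈ C, ∀ c' ∈ C, c * c' * c⁻¹ * c'⁻¹ ∈ T := by
    intro c hc c' hc'
    exact ⟨⟨c, hc⟩ * ⟨c', hc'⟩ * ⟨c, hc⟩⁻¹ * ⟨c', hc'⟩⁻¹, hT'c _ _, rfl⟩
  set A : Subgroup (Q ⧸ T) := C.map (QuotientGroup.mk' T) with hA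
  have hAc : ∀ a ∈ A, ∀ b ∈ A, a * b = b * a := by
    rintro _ ⟨c, hc, rfl⟩ _ ⟨c', hc', rfl⟩
    have h1 := (QuotientGroup.eq_one_iff _).2 (hTC c hc c' hc')
    simp only [QuotientGroup.mk_mul, QuotientGroup.mk_inv] at h1
    rw [mul_inv_eq_one, mul_inv_eq_iff_eq_mul] at h1
    exact h1
  have hAm : IsMulCommutative A := ⟨⟨fun a b => Subtype.ext (hAc _ a.2 _ b.2)⟩⟩
  have hAn : A.Normal := Subgroup.Normal.map hCn _ (QuotientGroup.mk'_surjective T)
  have hAmem : ∀ q : Q, (QuotientGroup.mk q : Q ⧸ T) ∈ A ↔ q ∈ C := by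
    intro q
    constructor
    · rintro ⟨c, hc, h⟩
      have h1 : c⁻¹ * q ∈ T := QuotientGroup.eq.1 h
      have h2 := C.mul_mem hc ((hTm _).1 h1).1
      simpa using h2
    · intro h
      exact ⟨q, h, rfl⟩
  refine ⟨T, hTn, A, hAn, hAm, hTf, ?_, ?_, ?_, ?_, ?_, ?_, hBT⟩
  ·
    rintro _ ⟨c, hc, rfl⟩ hfo
    rw [isOfFinOrder_iff_pow_eq_one] at hfo
    obtain ⟨n, hn, h1⟩ := hfo
    rw [← map_pow] at h1
    have h2 : c ^ n ∈ T := (QuotientGroup.eq_one_iff _).1 h1
    apply (QuotientGroup.eq_one_iff _).2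
    rw [hTm]
    refine ⟨hc, ?_⟩
    have h3 := ((hTm _).1 h2).2
    rw [isOfFinOrder_iff_pow_eq_one] at h3 ⊢
    obtain ⟨m, hm, h4⟩ := h3
    exact ⟨n * m, Nat.mul_pos hn hm, by rw [pow_mul]; exact h4⟩
  ·
    rw [← hr]
    symm
    let f : B →* A := ((QuotientGroup.mk' T).comp B.subtype).codRestrict A
      (fun b => (hAmem b).2 (hBC b.2))
    apply rank_of_inj B A f
    · rw [injective_iff_map_eq_one]
      intro b hb
      have h1 : (QuotientGroup.mk (b : Q) : Q ⧸ T) = 1 := congrArg Subtype.val hb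
      exact Subtype.ext (hBT b b.2 ((QuotientGroup.eq_one_iff _).1 h1))
    · rintro ⟨a, ha⟩
      obtain ⟨q, rfl⟩ := QuotientGroup.mk_surjective a
      refine ⟨B.index, hfin, ⟨⟨q ^ B.index, B.pow_index_mem q⟩, ?_⟩⟩
      apply Subtype.ext
      rfl
  ·
    have h1 : A.index ∣ C.index := Subgroup.index_map_dvd _ (QuotientGroup.mk'_surjective T)
    have h2 : C.index ∣ B.index := Subgroup.index_dvd_of_le hBC
    intro h
    rw [h] at h1
    exact hfin (Nat.eq_zero_of_zero_dvd (h1.trans h2))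
  · intro g
    obtain ⟨q, rfl⟩ := QuotientGroup.mk_surjective g
    obtain ⟨k, hk⟩ := hp q
    exact ⟨k, (hAmem _).2 (hBC hk)⟩
  · intro g hg
    obtain ⟨q, rfl⟩ := QuotientGroup.mk_surjective g
    rw [hAmem, hCmem]
    intro b hb
    have h1 := hg _ ((hAmem b).2 (hBC hb))
    rw [← QuotientGroup.mk_mul, ← QuotientGroup.mk_mul, QuotientGroup.eq] at h1
    have h2 : (q * b)⁻¹ * (b * q) ∈ B := by
      have h3 : (q * b)⁻¹ * (b * q) = b⁻¹ * (q⁻¹ * b * q⁻¹⁻¹) := by group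
      rw [h3]
      exact B.mul_mem (B.inv_mem hb) (‹B.Normal›.conj_mem b hb q⁻¹)
    have h4 := hBT _ h2 h1
    rw [inv_mul_eq_one] at h4
    exact h4.symm
  · intro b hb
    exact (hAmem b).2 (hBC hb)

private theorem step (p : ℕ) [Fact p.Prime] (M : Type) [CommGroup M] (hM : Nat.card M = p) (r : ℕ)
    (IH : ∀ m < r, ∀ (Q : Type) [Group Q] (B : Subgroup Q) [B.Normal] [IsMulCommutative B]
    (_ : ∀ b ∈ B, IsOfFinOrder b → b = 1) (_ : Module.rank ℤ (Additive B) = m)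
    (_ : B.index ≠ 0) (_ : ∀ g : Q, ∃ k, g ^ p ^ k ∈ B),
    ∃ F : Subgroup Q, Finite F ∧ Finite {f : Q →* M // ∀ x ∈ F, f x = 1} ∧
      Nat.card {f : Q →* M // ∀ x ∈ F, f x = 1} ≤ p ^ m ∧
      (p ≠ 2 → (∃ g : Q, ∃ b ∈ B, g * b ≠ b * g) →
        Nat.card {f : Q →* M // ∀ x ∈ F, f x = 1} * p ≤ p ^ m))
    (Q : Type) [Group Q] (A : Subgroup Q) [A.Normal] [IsMulCommutative A]
    (htf : ∀ b ∈ A, IsOfFinOrder b → b = 1) (hr : Module.rank ℤ (Additive A) = r)
    (hfin : A.index ≠ 0) (hp : ∀ g : Q, ∃ k, g ^ p ^ k ∈ A) (x : Q)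
    (hxA : ∃ a ∈ A, x * a ≠ a * x) (hxp : x ^ p ∈ A) (hx : ∀ g, g * x * g⁻¹ * x⁻¹ ∈ A) :
    ∃ F : Subgroup Q, Finite F ∧ Finite {f : Q →* M // ∀ x ∈ F, f x = 1} ∧
      Nat.card {f : Q →* M // ∀ x ∈ F, f x = 1} ≤ p ^ r ∧
      (p ≠ 2 → Nat.card {f : Q →* M // ∀ x ∈ F, f x = 1} * p ≤ p ^ r) := by
  have hcommA : ∀ a ∈ A, ∀ b ∈ A, a * b = b * a := by
    intro a ha b hb
    exact congrArg Subtype.val (mul_comm (⟨a, ha⟩ : A) ⟨b, hb⟩)
  set A1 : Subgroup Q := A ⊓ Subgroup.centralizer {x} with hA1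
  have hA1m : ∀ a, a ∈ A1 ↔ a ∈ A ∧ x * a = a * x := by
    intro a
    rw [hA1, Subgroup.mem_inf, Subgroup.mem_centralizer_iff]
    simp
  have hA1n : A1.Normal := by
    constructor
    intro a ha g
    rw [hA1m] at ha ⊢
    refine ⟨‹A.Normal›.conj_mem a ha.1 g, ?_⟩

    have h1 := hcommA _ (A.inv_mem (hx g)) _ (‹A.Normal›.conj_mem a ha.1 g)
    have h2 : x * (g * a * g⁻¹) = (g * x * g⁻¹ * x⁻¹)⁻¹ * (g * (x * a) * g⁻¹) := by group
    have h3 : (g * a * g⁻¹) * x = (g * a * g⁻¹) * (g * x * g⁻¹ * x⁻¹)⁻¹ * (g * x * g⁻¹) := by group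
    rw [h2, h3, ← h1, ha.2]
    group
  have hA1A : A1 ≤ A := inf_le_left
  have hA1c : IsMulCommutative A1 :=
    ⟨⟨fun a b => Subtype.ext (hcommA _ (hA1A a.2) _ (hA1A b.2))⟩⟩

  have hpure : ∀ a ∈ A, ∀ n : ℕ, 0 < n → a ^ n ∈ A1 → a ∈ A1 := by
    intro a ha n hn han
    rw [hA1m] at han ⊢
    refine ⟨ha, ?_⟩
    have h1 : x * a * x⁻¹ ∈ A := ‹A.Normal›.conj_mem a ha x
    have h2 : (x * a * x⁻¹) ^ n = a ^ n := by
      rw [conj_pow, han.2]; group
    have h3 : Commute (x * a * x⁻¹) a⁻¹ := hcommA _ h1 _ (A.inv_mem ha)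
    have h4 : ((x * a * x⁻¹) * a⁻¹) ^ n = 1 := by
      rw [h3.mul_pow, h2, inv_pow, mul_inv_cancel]
    have h5 := htf _ (A.mul_mem h1 (A.inv_mem ha)) (isOfFinOrder_iff_pow_eq_one.2 ⟨n, hn, h4⟩)
    rw [mul_inv_eq_one, mul_inv_eq_iff_eq_mul] at h5
    exact h5
  set π : Q →* Q ⧸ A1 := QuotientGroup.mk' A1 with hπ
  have hπs : Function.Surjective π := QuotientGroup.mk'_surjective A1
  have hπ1 : ∀ q, π q = 1 ↔ q ∈ A1 := fun q => QuotientGroup.eq_one_iff q
  set A3 : Subgroup (Q ⧸ A1) := A.map π with hA3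
  have hA3n : A3.Normal := Subgroup.Normal.map ‹A.Normal› _ hπs
  have hA3c : IsMulCommutative A3 := by
    refine ⟨⟨?_⟩⟩
    rintro ⟨_, ⟨a, ha, rfl⟩⟩ ⟨_, ⟨b, hb, rfl⟩⟩
    apply Subtype.ext
    change π a * π b = π b * π a
    rw [← map_mul, ← map_mul, hcommA a ha b hb]
  have hA3tf : ∀ b ∈ A3, IsOfFinOrder b → b = 1 := by
    rintro _ ⟨a, ha, rfl⟩ hfo
    rw [isOfFinOrder_iff_pow_eq_one] at hfo
    obtain ⟨n, hn, h1⟩ := hfo
    rw [← map_pow, hπ1] at h1
    rw [hπ1]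
    exact hpure a ha n hn h1
  have hA3i : A3.index ≠ 0 := by
    have h1 : A3.index ∣ A.index := Subgroup.index_map_dvd _ hπs
    intro h
    rw [h] at h1
    exact hfin (Nat.eq_zero_of_zero_dvd h1)
  have hfix : ∀ a ∈ A3, π x * a = a * π x → a = 1 := by
    rintro _ ⟨a, ha, rfl⟩ h
    rw [hπ1]

    have hc : x * a * x⁻¹ * a⁻¹ ∈ A1 := by
      rw [← hπ1, map_mul, map_mul, map_mul, map_inv, map_inv, h, mul_inv_cancel_right,
        mul_inv_cancel]
    set c := x * a * x⁻¹ * a⁻¹ with hcdef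
    have hxc : x * c = c * x := ((hA1m c).1 hc).2
    have h1 : ∀ n : ℕ, x ^ n * a * (x ^ n)⁻¹ = c ^ n * a := by
      intro n
      induction n with
      | zero => simp
      | succ n ih =>
        have h2 : x ^ (n + 1) * a * (x ^ (n + 1))⁻¹ = x * (x ^ n * a * (x ^ n)⁻¹) * x⁻¹ := by
          rw [pow_succ' x n]; group
        have h3 : x * c ^ n = c ^ n * x := (Commute.pow_right (show Commute x c from hxc) n)
        have h4 : x * (c ^ n * a) * x⁻¹ = c ^ n * (x * a * x⁻¹) := by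
          rw [← mul_assoc x, h3]; group
        have h5 : x * a * x⁻¹ = c * a := by rw [hcdef]; group
        rw [h2, ih, h4, h5, pow_succ c n, mul_assoc (c ^ n) c a]
    have h6 := h1 p
    have h7 : x ^ p * a * (x ^ p)⁻¹ = a := by
      rw [hcommA _ hxp _ ha]; group
    rw [h7] at h6
    have h8 : c ^ p = 1 := by
      have : c ^ p * a = 1 * a := by rw [← h6, one_mul]
      exact mul_right_cancel this
    have h9 : c = 1 := htf c (hA1A hc) (isOfFinOrder_iff_pow_eq_one.2 ⟨p, (Fact.out : p.Prime).pos, h8⟩)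
    rw [hA1m]
    refine ⟨ha, ?_⟩
    rw [hcdef, mul_inv_eq_one, mul_inv_eq_iff_eq_mul] at h9
    exact h9
  have hA3ne : A3 ≠ ⊥ := by
    intro h
    obtain ⟨a, ha, hxa⟩ := hxA
    have h1 : π a ∈ A3 := ⟨a, ha, rfl⟩
    rw [h, Subgroup.mem_bot, hπ1, hA1m] at h1
    exact hxa h1.2

  let f : A →* A3 := (π.comp A.subtype).codRestrict A3 (fun a => ⟨a, a.2, rfl⟩)
  have hfs : Function.Surjective f := by
    rintro ⟨_, ⟨a, ha, rfl⟩⟩
    exact ⟨⟨a, ha⟩, rfl⟩
  have hrk := rank_of_surj A A3 f hfs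
  let e : f.ker ≃* A1 :=
    { toFun := fun a => ⟨a.1.1, (hπ1 _).1 (congrArg Subtype.val a.2)⟩
      invFun := fun a => ⟨⟨a.1, hA1A a.2⟩, Subtype.ext ((hπ1 _).2 a.2)⟩
      left_inv := fun a => rfl
      right_inv := fun a => rfl
      map_mul' := fun a b => rfl }
  rw [rank_of_mulEquiv _ _ e, hr] at hrk
  obtain ⟨r1, hr1⟩ : ∃ r1 : ℕ, Module.rank ℤ (Additive A1) = r1 := by
    apply Cardinal.lt_aleph0.1
    refine lt_of_le_of_lt ?_ (Cardinal.natCast_lt_aleph0 (n := r))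
    rw [hrk]; exact self_le_add_right _ _
  obtain ⟨rho, hrho⟩ : ∃ r1 : ℕ, Module.rank ℤ (Additive A3) = r1 := by
    apply Cardinal.lt_aleph0.1
    refine lt_of_le_of_lt ?_ (Cardinal.natCast_lt_aleph0 (n := r))
    rw [hrk]; exact self_le_add_left _ _
  have hsum : r = r1 + rho := by
    rw [hr1, hrho] at hrk
    exact_mod_cast hrk
  have hrho0 : rho ≠ 0 := by
    intro h0
    apply hA3ne
    rw [h0, Nat.cast_zero, rank_eq_zero_iff] at hrho
    rw [Subgroup.eq_bot_iff_forall]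
    intro a ha
    apply hA3tf a ha
    obtain ⟨n, hn, hna⟩ := hrho (Additive.ofMul ⟨a, ha⟩)
    have h1 : (⟨a, ha⟩ : A3) ^ n = 1 := hna
    have h2 : a ^ n = 1 := congrArg Subtype.val h1
    rw [isOfFinOrder_iff_zpow_eq_one]
    exact ⟨n, hn, h2⟩
  obtain ⟨hc1, hc2, hc3, hc4⟩ := core (Q ⧸ A1) A3 hA3tf rho hrho hA3i p (π x)
    ⟨x ^ p, hxp, map_pow π x p⟩ (by
      intro g
      obtain ⟨q, rfl⟩ := hπs g
      exact ⟨_, hx q, by simp only [map_mul, map_inv]⟩) hfix M hM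
  set F3 := Subgroup.centralizer ({π x} : Set (Q ⧸ A1)) with hF3
  have hF3m : ∀ y, y ∈ F3 ↔ π x * y = y * π x := by
    intro y
    rw [hF3, Subgroup.mem_centralizer_iff]
    simp
  set L : Subgroup Q := F3.comap π with hL
  have hA1L : A1 ≤ L := by
    intro a ha
    rw [hL, Subgroup.mem_comap, (hπ1 a).2 ha]
    exact one_mem _
  obtain ⟨hL1, hL2⟩ := homF_transfer Q (Q ⧸ A1) M π hπs F3 hc2

  have hn1 : (A1.subgroupOf L).Normal := Subgroup.normal_subgroupOf
  have hcm1 : IsMulCommutative (A1.subgroupOf L) :=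
    ⟨⟨fun a b => Subtype.ext (Subtype.ext (hcommA _ (hA1A a.2) _ (hA1A b.2)))⟩⟩
  obtain ⟨F, hF1, hF2, hF3', _⟩ := IH r1 (by omega) L (A1.subgroupOf L) (by
      intro b hb hfo
      apply Subtype.ext
      exact htf _ (hA1A hb) ((Submonoid.isOfFinOrder_coe (H := L.toSubmonoid)).2 hfo)) (by
      rw [← hr1]
      exact rank_of_mulEquiv _ _ (Subgroup.subgroupOfEquivOfLe hA1L)) (by

      have h1 : Finite (L ⧸ A1.subgroupOf L) := by
        let k : L ⧸ A1.subgroupOf L → F3 := fun q => ⟨π (Quotient.out q).1, (Quotient.out q).2⟩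
        apply Finite.of_injective k
        intro q1 q2 h
        rw [← QuotientGroup.out_eq' q1, ← QuotientGroup.out_eq' q2, QuotientGroup.eq]
        have h2 : π (Quotient.out q1).1 = π (Quotient.out q2).1 := congrArg Subtype.val h
        rw [Subgroup.mem_subgroupOf, ← hπ1, Subgroup.coe_mul, map_mul, Subgroup.coe_inv, map_inv,
          h2, inv_mul_cancel]
      exact Subgroup.index_ne_zero_of_finite) (by
      intro g
      obtain ⟨k, hk⟩ := hp g
      refine ⟨k, ?_⟩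
      rw [Subgroup.mem_subgroupOf, Subgroup.coe_pow, ← hπ1]
      apply hfix _ ⟨_, hk, rfl⟩
      have h1 : π ((g : Q) ^ p ^ k) ∈ F3 := L.pow_mem g.2 _
      exact (hF3m _).1 h1)
  have hFL : (F.map L.subtype).subgroupOf L = F :=
    Subgroup.comap_map_eq_self_of_injective L.subtype_injective _
  obtain ⟨hR1, hR2⟩ := homF_restrict Q M (F.map L.subtype) L (by rw [hFL]; exact hF2) hL1
  rw [hFL] at hR2
  refine ⟨F.map L.subtype, ?_, hR1, ?_, ?_⟩
  · have : ((F.map L.subtype : Subgroup Q) : Set Q) = L.subtype '' (F : Set L) := rfl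
    exact Set.Finite.image _ hF1
  · rw [hsum, pow_add]
    exact hR2.trans (Nat.mul_le_mul hF3' (hL2.trans hc3))
  · intro hp2
    rw [hsum, pow_add]
    calc _ ≤ _ := Nat.mul_le_mul_right p hR2
      _ = _ := mul_assoc _ _ _
      _ ≤ _ := Nat.mul_le_mul hF3' ((Nat.mul_le_mul_right p hL2).trans (hc4 hp2 hA3ne))

private theorem base_p_main (p : ℕ) [Fact p.Prime] (M : Type) [CommGroup M] (hM : Nat.card M = p) (r : ℕ) :
    ∀ (Q : Type) [Group Q] (B : Subgroup Q) [B.Normal] [IsMulCommutative B]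
    (_ : ∀ b ∈ B, IsOfFinOrder b → b = 1) (_ : Module.rank ℤ (Additive B) = r)
    (_ : B.index ≠ 0) (_ : ∀ g : Q, ∃ k, g ^ p ^ k ∈ B),
    ∃ F : Subgroup Q, Finite F ∧ Finite {f : Q →* M // ∀ x ∈ F, f x = 1} ∧
      Nat.card {f : Q →* M // ∀ x ∈ F, f x = 1} ≤ p ^ r ∧
      (p ≠ 2 → (∃ g : Q, ∃ b ∈ B, g * b ≠ b * g) →
        Nat.card {f : Q →* M // ∀ x ∈ F, f x = 1} * p ≤ p ^ r) := by
  induction r using Nat.strong_induction_on with
  | _ r IH =>
  intro Q _ B _ _ htf hr hfin hp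
  have hpp : p.Prime := Fact.out
  have hM1 : ∀ m : M, m ^ p = 1 := fun m => by rw [← hM]; exact pow_card_eq_one'
  obtain ⟨T, hTn, A, hAn, hAm, hTf, hAtf, hAr, hAi, hAp, hAc, hBA, hBT⟩ :=
    reduce Q B htf r hr hfin p hp

  have hker : Finite (QuotientGroup.mk' T).ker := by
    rw [QuotientGroup.ker_mk']; exact hTf
  have hcommA : ∀ a ∈ A, ∀ b ∈ A, a * b = b * a := by
    intro a ha b hb
    exact congrArg Subtype.val (mul_comm (⟨a, ha⟩ : A) ⟨b, hb⟩)
  have hnc : (∃ g : Q, ∃ b ∈ B, g * b ≠ b * g) → A ≠ ⊤ := by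
    rintro ⟨g, b, hb, hgb⟩ htop
    apply hgb
    have h1 := hcommA (QuotientGroup.mk g) (htop ▸ Subgroup.mem_top _) _ (hBA b hb)
    rw [← QuotientGroup.mk_mul, ← QuotientGroup.mk_mul, QuotientGroup.eq] at h1
    have h2 : (g * b)⁻¹ * (b * g) ∈ B := by
      have h3 : (g * b)⁻¹ * (b * g) = b⁻¹ * (g⁻¹ * b * g⁻¹⁻¹) := by group
      rw [h3]
      exact B.mul_mem (B.inv_mem hb) (‹B.Normal›.conj_mem b hb g⁻¹)
    have h4 := hBT _ h2 h1
    rw [inv_mul_eq_one] at h4
    exact h4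
  suffices h : ∃ F : Subgroup (Q ⧸ T), Finite F ∧ Finite {f : Q ⧸ T →* M // ∀ x ∈ F, f x = 1} ∧
      Nat.card {f : Q ⧸ T →* M // ∀ x ∈ F, f x = 1} ≤ p ^ r ∧
      (p ≠ 2 → A ≠ ⊤ →
        Nat.card {f : Q ⧸ T →* M // ∀ x ∈ F, f x = 1} * p ≤ p ^ r) by
    obtain ⟨F, h1, h2, h3, h4⟩ := h
    obtain ⟨h5, h6⟩ := homF_transfer Q (Q ⧸ T) M (QuotientGroup.mk' T)
      (QuotientGroup.mk'_surjective T) F h2
    refine ⟨F.comap (QuotientGroup.mk' T), finite_comap _ _ _ hker F h1, h5, h6.trans h3, ?_⟩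
    intro hp2 hg
    exact (Nat.mul_le_mul_right p h6).trans (h4 hp2 (hnc hg))
  clear hnc hBA hBT hker
  by_cases htop : A = ⊤
  ·
    refine ⟨⊥, inferInstance, ?_⟩
    have htfA : TF A := by
      intro a ha
      apply Subtype.ext
      exact hAtf a a.2 ((Submonoid.isOfFinOrder_coe (H := A.toSubmonoid)).2 ha)
    obtain ⟨hF1, hF2⟩ := card_mod_pow A htfA r hAr p
    have hF3 : (powMonoidHom p : A →* A).range.index ≠ 0 := Subgroup.index_ne_zero_of_finite
    have hF4 : (powMonoidHom p : A →* A).range.index ≤ p ^ r := hF2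
    have hidx : ((powMonoidHom p : A →* A).range.map A.subtype).index =
        (powMonoidHom p : A →* A).range.index := by
      have h1 : A.index = 1 := Subgroup.index_eq_one.2 htop
      rw [Subgroup.index_map, Subgroup.ker_subtype, sup_bot_eq, Subgroup.range_subtype, h1,
        mul_one]
    obtain ⟨hc1, hc2⟩ := homF_card_le_index (Q ⧸ T) M p hM ⊥
      ((powMonoidHom p : A →* A).range.map A.subtype) (by
        rintro f _ _ ⟨_, ⟨a, rfl⟩, rfl⟩
        have : A.subtype (powMonoidHom p a) = (a : Q ⧸ T) ^ p := rfl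
        rw [this, map_pow, hM1]) (by rw [hidx]; exact hF3)
    refine ⟨hc1, hc2.trans (hidx.le.trans hF4), ?_⟩
    intro _ h
    exact absurd htop h
  · obtain ⟨x, hxA, hxp, hx⟩ := exists_x (Q ⧸ T) A hAi p hAp htop
    obtain ⟨F, h1, h2, h3, h4⟩ := step p M hM r IH (Q ⧸ T) A hAtf hAr hAi hAp x (by
      by_contra h
      push Not at h
      exact hxA (hAc x h)) hxp hx
    exact ⟨F, h1, h2, h3, fun hp2 _ => h4 hp2⟩

theorem base_p (Q : Type) [Group Q] (B : Subgroup Q) [B.Normal] [IsMulCommutative B]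
    (htf : ∀ b ∈ B, IsOfFinOrder b → b = 1) (r : ℕ) (hr : Module.rank ℤ (Additive B) = r)
    (hfin : B.index ≠ 0) (p : ℕ) [Fact p.Prime] (hp : IsPGroup p (Q ⧸ B))
    (M : Type) [CommGroup M] (hM : Nat.card M = p) :
    ∃ F : Subgroup Q, Finite F ∧ Finite {f : Q →* M // ∀ x ∈ F, f x = 1} ∧
      Nat.card {f : Q →* M // ∀ x ∈ F, f x = 1} ≤ p ^ r ∧
      (p ≠ 2 → (∃ g : Q, ∃ b ∈ B, g * b ≠ b * g) →
        Nat.card {f : Q →* M // ∀ x ∈ F, f x = 1} * p ≤ p ^ r) := by
  apply base_p_main p M hM r Q B htf hr hfin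
  intro g
  obtain ⟨k, hk⟩ := hp (QuotientGroup.mk g)
  refine ⟨k, ?_⟩
  rw [← QuotientGroup.mk_pow, QuotientGroup.eq_one_iff] at hk
  exact hk

end Pool.Agent.H652.SR
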