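import Mathlib
import Pool.Agent.H652.SR.Defs
import Pool.Agent.H652.SR.Jbasep
import Pool.Agent.H652.SR.Jsylow

set_option autoImplicit false

open scoped IsMulCommutative

namespace Pool.Agent.H652.SR

namespace BM

section M
variable {p : ℕ} [hp : Fact p.Prime] {M : Type} [CommGroup M]

private theorem finM (hM : Nat.card M = p) : Finite M :=
  Nat.finite_of_card_ne_zero (by rw [hM]; exact hp.out.ne_zero)

private theorem fix_triv (hM : Nat.card M = p) (α : MulAut M) (hα : α ≠ 1) (m : M) (h : α m = m) :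
    m = 1 := by
  have : Finite M := finM hM
  let F : Subgroup M :=
    { carrier := {x | α x = x}
      one_mem' := map_one α
      mul_mem' := by
        intro a b ha hb
        show α (a * b) = a * b
        rw [map_mul]
        exact congrArg₂ _ ha hb
      inv_mem' := by
        intro a ha
        show α a⁻¹ = a⁻¹
        rw [map_inv]
        exact congrArg _ ha }
  have hpc : Fact (Nat.card M).Prime := ⟨by rw [hM]; exact hp.out⟩
  rcases F.eq_bot_or_eq_top_of_prime_card with hF | hF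
  · have : m ∈ F := h
    rw [hF] at this
    exact Subgroup.mem_bot.1 this
  · exfalso
    apply hα
    ext x
    have : x ∈ F := by rw [hF]; exact Subgroup.mem_top x
    exact this

private theorem pow_triv (hM : Nat.card M = p) (k : ℕ) (hk : ¬ p ∣ k) (m : M) (h : m ^ k = 1) : m = 1 := by
  have h1 : orderOf m ∣ p := by rw [← hM]; exact orderOf_dvd_natCard m
  have h2 : orderOf m ∣ k := orderOf_dvd_of_pow_eq_one h
  rcases (Nat.dvd_prime hp.out).1 h1 with h3 | h3
  · exact orderOf_eq_one_iff.1 h3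
  · rw [h3] at h2
    exact absurd h2 hk

private theorem pow_p (hM : Nat.card M = p) (m : M) : m ^ p = 1 := by
  rw [← hM]; exact pow_card_eq_one'

private theorem card_aut (hM : Nat.card M = p) : Nat.card (MulAut M) = p - 1 := by
  have : Finite M := finM hM
  have : IsCyclic M := isCyclic_of_prime_card hM
  rw [IsCyclic.card_mulAut, hM, Nat.totient_prime hp.out]

private theorem exists_char (hM : Nat.card M = p) : ∃ χ : M →* ℂˣ, Function.Injective χ := by
  have : Finite M := finM hM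
  have hpc : Fact (Nat.card M).Prime := ⟨by rw [hM]; exact hp.out⟩
  have hnt : Nontrivial M := by
    rw [← Finite.one_lt_card_iff_nontrivial, hM]
    exact hp.out.one_lt
  obtain ⟨a, ha⟩ := exists_ne (1 : M)
  obtain ⟨χ, hχ⟩ := CommGroup.exists_apply_ne_one_of_hasEnoughRootsOfUnity M ℂ ha
  refine ⟨χ, ?_⟩
  rw [← MonoidHom.ker_eq_bot_iff]
  rcases χ.ker.eq_bot_or_eq_top_of_prime_card with h | h
  · exact h
  · exfalso
    apply hχ
    have : a ∈ χ.ker := by rw [h]; exact Subgroup.mem_top a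
    exact this

private theorem hom_card_le (C : Type) [CommGroup C] (htf : TF C) (c : ℕ)
    (hc : Module.rank ℤ (Additive C) = c) (hM : Nat.card M = p) :
    Finite (C →* M) ∧ Nat.card (C →* M) ≤ p ^ c := by
  obtain ⟨h1, h2⟩ := card_mod_pow C htf c hc p
  obtain ⟨χ, hχ⟩ := exists_char hM
  have hfac : ∀ f : C →* M, (powMonoidHom p : C →* C).range ≤ (χ.comp f).ker := by
    rintro f _ ⟨x, rfl⟩
    rw [MonoidHom.mem_ker, MonoidHom.comp_apply, powMonoidHom_apply, map_pow, pow_p hM, map_one]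
  let Φ : (C →* M) → ((C ⧸ (powMonoidHom p : C →* C).range) →* ℂˣ) :=
    fun f => QuotientGroup.lift _ (χ.comp f) (fun x hx => hfac f hx)
  have hΦ : Function.Injective Φ := by
    intro f g hfg
    ext x
    have h3 := congrArg (fun ψ : (C ⧸ (powMonoidHom p : C →* C).range) →* ℂˣ => ψ (QuotientGroup.mk x)) hfg
    have h4 : χ (f x) = χ (g x) := h3
    exact hχ h4
  have hfin : Finite ((C ⧸ (powMonoidHom p : C →* C).range) →* ℂˣ) := by
    apply Nat.finite_of_card_ne_zero
    rw [CommGroup.card_monoidHom_of_hasEnoughRootsOfUnity]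
    exact Nat.card_pos.ne'
  refine ⟨Finite.of_injective Φ hΦ, (Nat.card_le_card_of_injective Φ hΦ).trans ?_⟩
  rw [CommGroup.card_monoidHom_of_hasEnoughRootsOfUnity]
  exact h2

end M

private theorem hom_bound (P : Type) [Group P] (B : Subgroup P) [IsMulCommutative B] (r : ℕ)
    (hr : Module.rank ℤ (Additive B) = r) (hfin : B.index ≠ 0) (S : Subgroup P) [S.Normal]
    (hab : ∀ a b : P, a * b * a⁻¹ * b⁻¹ ∈ S)
    (htfS : ∀ (x : P) (n : ℕ), 0 < n → x ^ n ∈ S → x ∈ S) (p : ℕ) [hp : Fact p.Prime]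
    (M : Type) [CommGroup M] (hM : Nat.card M = p) :
    Finite {f : P →* M // ∀ x ∈ S, f x = 1} ∧
    Nat.card {f : P →* M // ∀ x ∈ S, f x = 1} ≤ p ^ r ∧
    ((∃ b : P, b ∈ B ∧ b ∈ S ∧ ¬ IsOfFinOrder b) →
      Nat.card {f : P →* M // ∀ x ∈ S, f x = 1} * p ≤ p ^ r) := by
  have hcomm : ∀ a b : P ⧸ S, a * b = b * a := by
    intro a b
    induction a using QuotientGroup.induction_on with | H a => ?_
    induction b using QuotientGroup.induction_on with | H b => ?_
    have h1 : ((a * b * a⁻¹ * b⁻¹ : P) : P ⧸ S) = 1 := (QuotientGroup.eq_one_iff _).2 (hab a b)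
    rw [QuotientGroup.mk_mul, QuotientGroup.mk_mul, QuotientGroup.mk_mul, QuotientGroup.mk_inv,
      QuotientGroup.mk_inv, mul_inv_eq_one, mul_inv_eq_iff_eq_mul] at h1
    exact h1
  let : CommGroup (P ⧸ S) := { (inferInstance : Group (P ⧸ S)) with mul_comm := hcomm }
  have htfC : TF (P ⧸ S) := by
    intro a ha
    induction a using QuotientGroup.induction_on with | H a => ?_
    rw [isOfFinOrder_iff_pow_eq_one] at ha
    obtain ⟨n, hn, h1⟩ := ha
    rw [QuotientGroup.eq_one_iff]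
    apply htfS a n hn
    rw [← QuotientGroup.eq_one_iff, QuotientGroup.mk_pow]
    exact h1
  have hidx : (B.map (QuotientGroup.mk' S)).index ≠ 0 := by
    intro h0
    have := Subgroup.index_map_dvd B (QuotientGroup.mk'_surjective S)
    rw [h0] at this
    exact hfin (Nat.eq_zero_of_zero_dvd this)
  have hrank := rank_of_index (P ⧸ S) htfC (B.map (QuotientGroup.mk' S)) hidx
  let f : B →* (B.map (QuotientGroup.mk' S)) := (QuotientGroup.mk' S).subgroupMap B
  have hf : Function.Surjective f := (QuotientGroup.mk' S).subgroupMap_surjective B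
  let fL : Additive B →ₗ[ℤ] Additive (B.map (QuotientGroup.mk' S)) :=
    (MonoidHom.toAdditive f).toIntLinearMap
  have hfL : Function.Surjective fL := hf
  have hsum := LinearMap.rank_eq_of_surjective hfL
  rw [hr, hrank] at hsum
  obtain ⟨c, hc⟩ : ∃ c : ℕ, Module.rank ℤ (Additive (P ⧸ S)) = c := by
    have h1 : Module.rank ℤ (Additive (P ⧸ S)) < Cardinal.aleph0 := by
      refine lt_of_le_of_lt ?_ (Cardinal.natCast_lt_aleph0 (n := r))
      rw [hsum]
      exact self_le_add_right _ _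
    exact Cardinal.lt_aleph0.1 h1
  obtain ⟨k, hk⟩ : ∃ k : ℕ, Module.rank ℤ (LinearMap.ker fL) = k := by
    have h1 : Module.rank ℤ (LinearMap.ker fL) < Cardinal.aleph0 := by
      refine lt_of_le_of_lt ?_ (Cardinal.natCast_lt_aleph0 (n := r))
      rw [hsum]
      exact self_le_add_left _ _
    exact Cardinal.lt_aleph0.1 h1
  have hck : r = c + k := by
    rw [hc, hk] at hsum
    exact_mod_cast hsum
  obtain ⟨hF, hcard⟩ := hom_card_le (P ⧸ S) htfC c hc hM
  let Φ : {f : P →* M // ∀ x ∈ S, f x = 1} → ((P ⧸ S) →* M) :=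
    fun f => QuotientGroup.lift S f.1 f.2
  have hΦ : Function.Injective Φ := by
    intro f g hfg
    apply Subtype.ext
    ext x
    exact congrArg (fun ψ : (P ⧸ S) →* M => ψ (QuotientGroup.mk x)) hfg
  have hle : Nat.card {f : P →* M // ∀ x ∈ S, f x = 1} ≤ p ^ c :=
    (Nat.card_le_card_of_injective Φ hΦ).trans hcard
  refine ⟨Finite.of_injective Φ hΦ, hle.trans ?_, ?_⟩
  · exact Nat.pow_le_pow_right hp.out.pos (by omega)
  · rintro ⟨b, hbB, hbS, hb⟩
    have hk1 : 1 ≤ k := by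
      rcases Nat.eq_zero_or_pos k with h0 | h0
      · exfalso
        subst h0
        rw [Nat.cast_zero, rank_eq_zero_iff] at hk
        have hmem : (Additive.ofMul (⟨b, hbB⟩ : B)) ∈ LinearMap.ker fL := by
          rw [LinearMap.mem_ker]
          apply Subtype.ext
          show QuotientGroup.mk' S b = 1
          rw [QuotientGroup.mk'_apply, QuotientGroup.eq_one_iff]
          exact hbS
        obtain ⟨a, ha0, ha⟩ := hk ⟨_, hmem⟩
        have h1 : a • (Additive.ofMul (⟨b, hbB⟩ : B)) = 0 := congrArg Subtype.val ha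
        have h2 : (⟨b, hbB⟩ : B) ^ a = 1 := h1
        have h3 : b ^ a = 1 := congrArg Subtype.val h2
        exact hb (isOfFinOrder_iff_zpow_eq_one.2 ⟨a, ha0, h3⟩)
      · exact h0
    calc Nat.card {f : P →* M // ∀ x ∈ S, f x = 1} * p ≤ p ^ c * p := Nat.mul_le_mul_right _ hle
      _ = p ^ (c + 1) := (pow_succ _ _).symm
      _ ≤ p ^ r := Nat.pow_le_pow_right hp.out.pos (by omega)

section Der
variable {Q : Type} [Group Q] {M : Type} [CommGroup M] {φ : Q →* MulAut M}

private theorem der_one {δ : Q → M} (hδ : δ ∈ Der φ) : δ 1 = 1 := by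
  have h := hδ 1 1
  rw [mul_one, map_one] at h
  have h2 : δ 1 = δ 1 * δ 1 := h
  exact left_eq_mul.1 h2

private theorem der_vanish {p : ℕ} [hp : Fact p.Prime] (hM : Nat.card M = p) (P : Subgroup Q)
    (hidx : ¬ p ∣ P.index) {δ : Q → M} (hδ : δ ∈ Der φ) (hP : ∀ x ∈ P, δ x = 1) (g₀ : Q)
    (hg₀ : φ g₀ ≠ 1) (h0 : δ g₀ = 1) : ∀ g, δ g = 1 := by
  have hi0 : P.index ≠ 0 := by
    intro h; rw [h] at hidx; exact hidx (dvd_zero p)
  have : P.FiniteIndex := ⟨hi0⟩
  have : Fintype (Q ⧸ P) := Fintype.ofFinite _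
  have hwd : ∀ a b : Q, QuotientGroup.leftRel P a b → δ a = δ b := by
    intro a b hab
    rw [QuotientGroup.leftRel_apply] at hab
    have h1 := hδ a (a⁻¹ * b)
    rw [mul_inv_cancel_left, hP _ hab, map_one, mul_one] at h1
    exact h1.symm
  let δ' : Q ⧸ P → M := Quotient.lift δ hwd
  have hact : ∀ (g : Q) (c : Q ⧸ P), δ' (g • c) = δ g * φ g (δ' c) := by
    intro g c
    induction c using QuotientGroup.induction_on with | H c => ?_
    exact hδ g c
  have hs : ∀ g : Q, ∏ c, δ' c = δ g ^ P.index * φ g (∏ c, δ' c) := by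
    intro g
    calc ∏ c, δ' c = ∏ c, δ' (g • c) :=
          (Equiv.prod_comp (MulAction.toPerm g : Equiv.Perm (Q ⧸ P)) δ').symm
      _ = ∏ c, (δ g * φ g (δ' c)) := Finset.prod_congr rfl fun c _ => hact g c
      _ = δ g ^ P.index * φ g (∏ c, δ' c) := by
          rw [Finset.prod_mul_distrib, Finset.prod_const, Finset.card_univ, map_prod,
            Subgroup.index, Nat.card_eq_fintype_card]
  have hs1 : ∏ c, δ' c = 1 := by
    apply fix_triv hM (φ g₀) hg₀
    have := hs g₀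
    rw [h0, one_pow, one_mul] at this
    exact this.symm
  intro g
  apply pow_triv hM P.index hidx
  have := hs g
  rw [hs1, map_one, mul_one] at this
  exact this.symm

private theorem hom_vanish {p : ℕ} [hp : Fact p.Prime] (hM : Nat.card M = p) (P : Subgroup Q)
    (hidx : ¬ p ∣ P.index) (f : Q →* M) (hP : ∀ x ∈ P, f x = 1) : ∀ g, f g = 1 := by
  intro g
  have hker : P ≤ f.ker := hP
  have h1 : f.ker.index ∣ P.index := Subgroup.index_dvd_of_le hker
  have h2 : ¬ p ∣ f.ker.index := fun h => hidx (h.trans h1)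
  apply pow_triv hM _ h2
  rw [← map_pow]
  have h3 : g ^ f.ker.index ∈ f.ker := Subgroup.pow_index_mem f.ker g
  exact h3

def resHom (P : Subgroup Q) (hPφ : P ≤ φ.ker) (δ : Q → M) (hδ : δ ∈ Der φ) : P →* M where
  toFun x := δ x
  map_one' := der_one hδ
  map_mul' x y := by
    have h1 := hδ x y
    have h2 : φ (x : Q) = 1 := hPφ x.2
    rw [h2] at h1
    exact h1

private theorem der_div {δ ε : Q → M} (hδ : δ ∈ Der φ) (hε : ε ∈ Der φ) : (fun g => δ g * (ε g)⁻¹) ∈ Der φ :=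
  mul_mem hδ (inv_mem hε)

private theorem count_extra {p : ℕ} [hp : Fact p.Prime] (hM : Nat.card M = p) (P : Subgroup Q)
    (hidx : ¬ p ∣ P.index) (hPφ : P ≤ φ.ker) (g₀ : Q) (hg₀ : φ g₀ ≠ 1) (F : Subgroup Q)
    (S : Subgroup P) (hS : ∀ δ ∈ DerRel φ F, ∀ x ∈ S, δ x = 1)
    (hfin : Finite {f : P →* M // ∀ x ∈ S, f x = 1}) :
    Finite (DerRel φ F) ∧ Nat.card (DerRel φ F) ≤ Nat.card {f : P →* M // ∀ x ∈ S, f x = 1} * p := by
  have : Finite M := finM hM
  let Φ : DerRel φ F → {f : P →* M // ∀ x ∈ S, f x = 1} × M := fun δ =>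
    (⟨resHom P hPφ δ.1 δ.2.1, fun x hx => hS δ.1 δ.2 x hx⟩, δ.1 g₀)
  have hΦ : Function.Injective Φ := by
    intro δ ε h
    have h1 := congrArg Prod.fst h
    have h2 : δ.1 g₀ = ε.1 g₀ := congrArg Prod.snd h
    have h3 : ∀ x : P, δ.1 x = ε.1 x := fun x =>
      congrArg (fun f : {f : P →* M // ∀ x ∈ S, f x = 1} => f.1 x) h1
    apply Subtype.ext
    funext g
    have h4 := der_vanish hM P hidx (der_div δ.2.1 ε.2.1) (fun x hx => by
      show δ.1 x * (ε.1 x)⁻¹ = 1
      rw [h3 ⟨x, hx⟩, mul_inv_cancel]) g₀ hg₀ (by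
      show δ.1 g₀ * (ε.1 g₀)⁻¹ = 1
      rw [h2, mul_inv_cancel]) g
    exact mul_inv_eq_one.1 h4
  refine ⟨Finite.of_injective Φ hΦ, ?_⟩
  have := Nat.card_le_card_of_injective Φ hΦ
  rwa [Nat.card_prod, hM] at this

private theorem count_noextra {p : ℕ} [hp : Fact p.Prime] (hM : Nat.card M = p) (P : Subgroup Q)
    (hidx : ¬ p ∣ P.index) (hPφ : P ≤ φ.ker) (g₀ : Q) (hg₀ : φ g₀ ≠ 1) (F : Subgroup Q)
    (hF : g₀ ∈ F)
    (S : Subgroup P) (hS : ∀ δ ∈ DerRel φ F, ∀ x ∈ S, δ x = 1)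
    (hfin : Finite {f : P →* M // ∀ x ∈ S, f x = 1}) :
    Finite (DerRel φ F) ∧ Nat.card (DerRel φ F) ≤ Nat.card {f : P →* M // ∀ x ∈ S, f x = 1} := by
  have : Finite M := finM hM
  let Φ : DerRel φ F → {f : P →* M // ∀ x ∈ S, f x = 1} := fun δ =>
    ⟨resHom P hPφ δ.1 δ.2.1, fun x hx => hS δ.1 δ.2 x hx⟩
  have hΦ : Function.Injective Φ := by
    intro δ ε h1
    have h2 : δ.1 g₀ = ε.1 g₀ := by rw [δ.2.2 _ hF, ε.2.2 _ hF]
    have h3 : ∀ x : P, δ.1 x = ε.1 x := fun x =>
      congrArg (fun f : {f : P →* M // ∀ x ∈ S, f x = 1} => f.1 x) h1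
    apply Subtype.ext
    funext g
    have h4 := der_vanish hM P hidx (der_div δ.2.1 ε.2.1) (fun x hx => by
      show δ.1 x * (ε.1 x)⁻¹ = 1
      rw [h3 ⟨x, hx⟩, mul_inv_cancel]) g₀ hg₀ (by
      show δ.1 g₀ * (ε.1 g₀)⁻¹ = 1
      rw [h2, mul_inv_cancel]) g
    exact mul_inv_eq_one.1 h4
  exact ⟨Finite.of_injective Φ hΦ, Nat.card_le_card_of_injective Φ hΦ⟩

end Der

private theorem setup (Q : Type) [Group Q] (B : Subgroup Q) [B.Normal] (hfin : B.index ≠ 0) (p : ℕ)
    [hp : Fact p.Prime] (M : Type) [CommGroup M] (hM : Nat.card M = p) (φ : Q →* MulAut M)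
    (hB : B ≤ φ.ker) : ∃ P : Subgroup Q, B ≤ P ∧ P ≤ φ.ker ∧ ¬ p ∣ P.index ∧
      (∀ x ∈ P, ∃ k : ℕ, x ^ p ^ k ∈ B) ∧
      (φ ≠ 1 → ∃ g, φ g ≠ 1 ∧ ∀ x, x ∈ P ↔ g * x * g⁻¹ ∈ P) := by
  have : B.FiniteIndex := ⟨hfin⟩
  have : Finite (Q ⧸ B) := inferInstance
  have : Finite M := finM hM
  let ψ : Q ⧸ B →* MulAut M := QuotientGroup.lift B φ (fun x hx => hB hx)
  have hψ : ∀ x : Q, ψ (QuotientGroup.mk' B x) = φ x := fun x => rfl
  let N : Subgroup (Q ⧸ B) := ψ.ker
  let S : Sylow p N := default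
  let R : Subgroup (Q ⧸ B) := S.1.map N.subtype
  have hRN : R ≤ N := Subgroup.map_subtype_le _
  refine ⟨R.comap (QuotientGroup.mk' B), ?_, ?_, ?_, ?_, ?_⟩
  · intro x hx
    rw [Subgroup.mem_comap]
    have : QuotientGroup.mk' B x = 1 := (QuotientGroup.eq_one_iff x).2 hx
    rw [this]
    exact one_mem R
  · intro x hx
    have : QuotientGroup.mk' B x ∈ N := hRN hx
    exact this
  · rw [Subgroup.index_comap_of_surjective _ (QuotientGroup.mk'_surjective B)]
    have h1 : R.index = S.1.index * N.index := Subgroup.index_map_subtype _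
    rw [h1, hp.out.dvd_mul, not_or]
    refine ⟨S.not_dvd_index, ?_⟩
    intro h
    have h2 : N.index = Nat.card ψ.range := Subgroup.index_ker ψ
    have h3 : Nat.card ψ.range ∣ Nat.card (MulAut M) := Subgroup.card_subgroup_dvd_card _
    rw [card_aut hM, ← h2] at h3
    have h4 := h.trans h3
    have h5 := Nat.le_of_dvd (by have := hp.out.two_le; omega) h4
    have := hp.out.two_le
    omega
  · intro x hx
    have hRp : IsPGroup p R := S.2.map N.subtype
    obtain ⟨k, hk⟩ := hRp ⟨QuotientGroup.mk' B x, hx⟩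
    refine ⟨k, ?_⟩
    have h1 : (QuotientGroup.mk' B x) ^ p ^ k = 1 := congrArg Subtype.val hk
    rw [← map_pow] at h1
    exact (QuotientGroup.eq_one_iff _).1 h1
  · intro hφ
    have hfr := Sylow.normalizer_sup_eq_top S
    have hN : N ≠ ⊤ := by
      intro h
      apply hφ
      ext1 x
      have : QuotientGroup.mk' B x ∈ N := by rw [h]; exact Subgroup.mem_top _
      exact this
    have h1 : ¬ (Subgroup.normalizer (R : Set (Q ⧸ B)) ≤ N) := by
      intro h
      apply hN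
      rw [eq_top_iff, ← hfr]
      exact sup_le h le_rfl
    obtain ⟨y, hy, hyN⟩ := SetLike.not_le_iff_exists.1 h1
    obtain ⟨g, rfl⟩ := QuotientGroup.mk'_surjective B y
    refine ⟨g, fun h => hyN h, fun x => ?_⟩
    rw [Subgroup.mem_comap, Subgroup.mem_comap, map_mul, map_mul, map_inv]
    exact Subgroup.mem_normalizer_iff.1 hy _

private theorem case_zero (Q : Type) [Group Q] (B : Subgroup Q) [B.Normal] [IsMulCommutative B]
    (htf : ∀ b ∈ B, IsOfFinOrder b → b = 1) (r : ℕ) (hr : Module.rank ℤ (Additive B) = r)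
    (p : ℕ) [hp : Fact p.Prime]
    (M : Type) [CommGroup M] (hM : Nat.card M = p) (φ : Q →* MulAut M) (b₀ : Q) (hb₀ : b₀ ∈ B)
    (hφ : φ b₀ ≠ 1) :
    ∃ F : Subgroup Q, Finite F ∧ Finite (DerRel φ F) ∧ Nat.card (DerRel φ F) ≤ p ^ r := by
  have : Finite M := finM hM
  have hcomm : ∀ a ∈ B, ∀ b ∈ B, a * b = b * a := fun a ha b hb =>
    setLike_mul_comm ha hb
  refine ⟨⊥, inferInstance, ?_⟩
  have hr1 : 1 ≤ r := by
    rcases Nat.eq_zero_or_pos r with h0 | h0
    · exfalso
      subst h0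
      rw [Nat.cast_zero, rank_eq_zero_iff] at hr
      obtain ⟨a, ha0, ha⟩ := hr (Additive.ofMul (⟨b₀, hb₀⟩ : B))
      have h2 : (⟨b₀, hb₀⟩ : B) ^ a = 1 := ha
      have h3 : b₀ ^ a = 1 := congrArg Subtype.val h2
      have h4 := htf b₀ hb₀ (isOfFinOrder_iff_zpow_eq_one.2 ⟨a, ha0, h3⟩)
      rw [h4, map_one] at hφ
      exact hφ rfl
    · exact h0
  have hkey : ∀ δ ∈ Der φ, δ b₀ = 1 → ∀ g, δ g = 1 := by
    intro δ hδ h0
    have hBz : ∀ b ∈ B, δ b = 1 := by
      intro b hb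
      have h1 := hδ b b₀
      have h2 := hδ b₀ b
      rw [hcomm b hb b₀ hb₀, h2, h0, map_one, one_mul, mul_one] at h1
      exact fix_triv hM (φ b₀) hφ _ h1
    intro g
    have h1 := hδ g (g⁻¹ * b₀ * g)
    have hmem : g⁻¹ * b₀ * g ∈ B := by
      have := ‹B.Normal›.conj_mem b₀ hb₀ g⁻¹
      rwa [inv_inv] at this
    rw [hBz _ hmem, map_one, mul_one] at h1
    have h2 := hδ b₀ g
    rw [h0, one_mul] at h2
    have h3 : g * (g⁻¹ * b₀ * g) = b₀ * g := by group
    rw [h3, h2] at h1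
    exact fix_triv hM (φ b₀) hφ _ h1
  let Φ : DerRel φ (⊥ : Subgroup Q) → M := fun δ => δ.1 b₀
  have hΦ : Function.Injective Φ := by
    intro δ ε h
    apply Subtype.ext
    funext g
    have h4 := hkey _ (der_div δ.2.1 ε.2.1) (by
      show δ.1 b₀ * (ε.1 b₀)⁻¹ = 1
      have h' : δ.1 b₀ = ε.1 b₀ := h
      rw [h', mul_inv_cancel]) g
    exact mul_inv_eq_one.1 h4
  refine ⟨Finite.of_injective Φ hΦ, (Nat.card_le_card_of_injective Φ hΦ).trans ?_⟩
  rw [hM]
  calc p = p ^ 1 := (pow_one p).symm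
    _ ≤ p ^ r := Nat.pow_le_pow_right hp.out.pos hr1

private theorem finite_ext {Q : Type} [Group Q] (T : Subgroup Q) (hT : Finite T) (g : Q)
    (hg : IsOfFinOrder g) (hn : ∀ x ∈ T, g * x * g⁻¹ ∈ T) :
    ∃ F : Subgroup Q, Finite F ∧ T ≤ F ∧ g ∈ F := by
  have hz : ∀ (i : ℕ), ∀ x ∈ T, g ^ i * x * (g ^ i)⁻¹ ∈ T := by
    intro i
    induction i with
    | zero => intro x hx; simpa using hx
    | succ i ih =>
      intro x hx
      have h1 := ih _ (hn x hx)
      have h2 : g ^ (i + 1) * x * (g ^ (i + 1))⁻¹ = g ^ i * (g * x * g⁻¹) * (g ^ i)⁻¹ := by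
        rw [pow_succ]; group
      rw [h2]
      exact h1
  obtain ⟨n, hn0, hgn⟩ := isOfFinOrder_iff_pow_eq_one.1 hg
  let F : Subgroup Q :=
    { carrier := {x | ∃ t ∈ T, ∃ i : ℕ, x = t * g ^ i}
      one_mem' := ⟨1, one_mem T, 0, by simp⟩
      mul_mem' := by
        rintro _ _ ⟨t, ht, i, rfl⟩ ⟨s, hs, j, rfl⟩
        refine ⟨t * (g ^ i * s * (g ^ i)⁻¹), mul_mem ht (hz i s hs), i + j, ?_⟩
        rw [pow_add]; group
      inv_mem' := by
        rintro _ ⟨t, ht, i, rfl⟩
        have hgi : g ^ i * g ^ (n * i - i) = 1 := by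
          rw [← pow_add]
          have : i + (n * i - i) = n * i := by
            have : i ≤ n * i := Nat.le_mul_of_pos_left _ hn0
            omega
          rw [this, pow_mul, hgn, one_pow]
        have hinv : (g ^ i)⁻¹ = g ^ (n * i - i) := inv_eq_of_mul_eq_one_right hgi
        refine ⟨g ^ (n * i - i) * t⁻¹ * (g ^ (n * i - i))⁻¹, hz _ _ (inv_mem ht), n * i - i, ?_⟩
        rw [mul_inv_rev, hinv]; group }
  refine ⟨F, ?_, ?_, ?_⟩
  · have hsurj : (F : Set Q) ⊆ (fun q : Q × Q => q.1 * q.2) '' ((T : Set Q) ×ˢ (Submonoid.powers g : Set Q)) := by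
      rintro _ ⟨t, ht, i, rfl⟩
      exact ⟨(t, g ^ i), ⟨ht, i, rfl⟩, rfl⟩
    have hTf : (T : Set Q).Finite := Set.toFinite _
    have hgf : (Submonoid.powers g : Set Q).Finite := finite_powers.2 hg
    exact ((hTf.prod hgf).image _).subset hsurj
  · intro t ht
    exact ⟨t, ht, 0, by simp⟩
  · exact ⟨1, one_mem T, 1, by simp⟩

end BM

open BM in

theorem base_M (Q : Type) [Group Q] (B : Subgroup Q) [B.Normal] [IsMulCommutative B]
    (htf : ∀ b ∈ B, IsOfFinOrder b → b = 1) (r : ℕ) (hr : Module.rank ℤ (Additive B) = r)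
    (hfin : B.index ≠ 0) (p : ℕ) [Fact p.Prime]
    (M : Type) [CommGroup M] (hM : Nat.card M = p) (φ : Q →* MulAut M) :
    ∃ F : Subgroup Q, Finite F ∧ Finite (DerRel φ F) ∧ Nat.card (DerRel φ F) ≤ p ^ r := by
  have hp : p.Prime := Fact.out
  have : Finite M := finM hM
  by_cases hB : B ≤ φ.ker
  swap
  · obtain ⟨b₀, hb₀, hφ⟩ := SetLike.not_le_iff_exists.1 hB
    exact case_zero Q B htf r hr p M hM φ b₀ hb₀ hφ
  obtain ⟨P, hBP, hPφ, hidx, hpg, hfrat⟩ := setup Q B hfin p M hM φ hB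

  have hr' : Module.rank ℤ (Additive (B.subgroupOf P)) = r := by
    rw [← hr]
    exact LinearEquiv.rank_eq
      (MulEquiv.toAdditive (Subgroup.subgroupOfEquivOfLe hBP)).toIntLinearEquiv
  have htf' : ∀ b ∈ B.subgroupOf P, IsOfFinOrder b → b = 1 := by
    intro b hb h
    apply Subtype.ext
    exact htf b.1 hb (P.isOfFinOrder_coe.2 h)
  have hfin' : (B.subgroupOf P).index ≠ 0 := by
    intro h
    apply hfin
    have h1 : (B.subgroupOf P).index * P.index = B.index := Subgroup.relIndex_mul_index hBP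
    rw [← h1, h, zero_mul]
  have hpg' : IsPGroup p (P ⧸ B.subgroupOf P) := by
    intro x
    induction x using QuotientGroup.induction_on with | H x => ?_
    obtain ⟨k, hk⟩ := hpg x.1 x.2
    refine ⟨k, ?_⟩
    rw [← QuotientGroup.mk_pow, QuotientGroup.eq_one_iff]
    exact hk
  obtain ⟨F, hF1, hF2, hF3, hF4⟩ := base_p P (B.subgroupOf P) htf' r hr' hfin' p hpg' M hM
  have hFfin : Finite (F.map P.subtype) :=
    Finite.of_surjective _ (P.subtype.subgroupMap_surjective F)
  by_cases hφ1 : φ = 1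
  ·
    refine ⟨F.map P.subtype, hFfin, ?_⟩
    let Φ : DerRel φ (F.map P.subtype) → {f : P →* M // ∀ x ∈ F, f x = 1} := fun δ =>
      ⟨resHom P hPφ δ.1 δ.2.1, fun x hx => δ.2.2 x ⟨x, hx, rfl⟩⟩
    have hΦ : Function.Injective Φ := by
      intro δ ε h
      have h3 : ∀ x : P, δ.1 x = ε.1 x := fun x =>
        congrArg (fun f : {f : P →* M // ∀ x ∈ F, f x = 1} => f.1 x) h
      apply Subtype.ext
      funext g
      have hd := der_div δ.2.1 ε.2.1
      let f : Q →* M :=
        { toFun := fun g => δ.1 g * (ε.1 g)⁻¹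
          map_one' := der_one hd
          map_mul' := by
            intro a b
            have h5 := hd a b
            have h6 : φ a = 1 := by rw [hφ1]; rfl
            rw [h6] at h5
            exact h5 }
      have h4 := hom_vanish hM P hidx f (fun x hx => by
        show δ.1 x * (ε.1 x)⁻¹ = 1
        rw [h3 ⟨x, hx⟩, mul_inv_cancel]) g
      exact mul_inv_eq_one.1 h4
    exact ⟨Finite.of_injective Φ hΦ, (Nat.card_le_card_of_injective Φ hΦ).trans hF3⟩
  obtain ⟨g, hg, hgP⟩ := hfrat hφ1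
  have hp2 : p ≠ 2 := by
    rintro rfl
    have h1 : Nat.card (MulAut M) = 1 := card_aut hM
    have : Subsingleton (MulAut M) := (Nat.card_eq_one_iff_unique.1 h1).1
    exact hg (Subsingleton.elim _ _)
  by_cases hcen : ∃ g : P, ∃ b ∈ B.subgroupOf P, g * b ≠ b * g
  · have h1 := hF4 hp2 hcen
    obtain ⟨h2, h3⟩ := count_extra hM P hidx hPφ g hg (F.map P.subtype) F
      (fun δ hδ x hx => hδ.2 x ⟨x, hx, rfl⟩) hF2
    exact ⟨F.map P.subtype, hFfin, h2, h3.trans h1⟩
  push Not at hcen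
  have hcen' : B.subgroupOf P ≤ Subgroup.center P := by
    intro b hb
    rw [Subgroup.mem_center_iff]
    intro x
    exact hcen x b hb
  obtain ⟨T, hTn, hTf, hTm, hTc⟩ := torsion_of_central P (B.subgroupOf P) hcen' htf' hfin'
  have hTfin : Finite (T.map P.subtype) :=
    Finite.of_surjective _ (P.subtype.subgroupMap_surjective T)

  have hgP2 : ∀ x ∈ P, g⁻¹ * x * g ∈ P := by
    intro x hx
    rw [hgP]
    have : g * (g⁻¹ * x * g) * g⁻¹ = x := by group
    rwa [this]
  have hconj : ∀ x ∈ T.map P.subtype, g * x * g⁻¹ ∈ T.map P.subtype := by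
    rintro _ ⟨x, hx, rfl⟩
    refine ⟨⟨g * x * g⁻¹, (hgP x).1 x.2⟩, ?_, rfl⟩
    rw [SetLike.mem_coe, hTm]
    have h1 : IsOfFinOrder (x : Q) := P.isOfFinOrder_coe.2 ((hTm x).1 hx)
    rw [← P.isOfFinOrder_coe]
    have h2 : IsOfFinOrder (MulAut.conj g (x : Q)) := (MulAut.conj g).toMonoidHom.isOfFinOrder h1
    exact h2
  have hconj' : ∀ x ∈ T.map P.subtype, g⁻¹ * x * g ∈ T.map P.subtype := by
    rintro _ ⟨x, hx, rfl⟩
    refine ⟨⟨g⁻¹ * x * g, hgP2 x x.2⟩, ?_, rfl⟩
    rw [SetLike.mem_coe, hTm]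
    have h1 : IsOfFinOrder (x : Q) := P.isOfFinOrder_coe.2 ((hTm x).1 hx)
    rw [← P.isOfFinOrder_coe]
    have h2 : IsOfFinOrder (MulAut.conj g⁻¹ (x : Q)) :=
      (MulAut.conj g⁻¹).toMonoidHom.isOfFinOrder h1
    rw [MulAut.conj_apply, inv_inv] at h2
    exact h2
  have hTtf : ∀ (x : P) (n : ℕ), 0 < n → x ^ n ∈ T → x ∈ T := by
    intro x n hn hx
    rw [hTm] at hx ⊢
    exact (isOfFinOrder_pow.1 hx).resolve_right (by omega)
  by_cases hgf : IsOfFinOrder g
  ·
    obtain ⟨F', hF'1, hF'2, hF'3⟩ := finite_ext (T.map P.subtype) hTfin g hgf hconj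
    obtain ⟨hb1, hb2, _⟩ := hom_bound P (B.subgroupOf P) r hr' hfin' T hTc hTtf p M hM
    obtain ⟨h2, h3⟩ := count_noextra hM P hidx hPφ g hg F' hF'3 T
      (fun δ hδ x hx => hδ.2 x (hF'2 ⟨x, hx, rfl⟩)) hb1
    exact ⟨F', hF'1, h2, h3.trans hb2⟩
  ·
    let c : P →* P :=
      { toFun := fun x => ⟨g * x * g⁻¹, (hgP x).1 x.2⟩
        map_one' := by apply Subtype.ext; simp
        map_mul' := by
          intro x y
          apply Subtype.ext
          show g * (x * y) * g⁻¹ = (g * x * g⁻¹) * (g * y * g⁻¹)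
          group }
    have hcT : ∀ x ∈ T, c x ∈ T := by
      intro x hx
      obtain ⟨y, hy, hyx⟩ := hconj x ⟨x, hx, rfl⟩
      have : y = c x := Subtype.ext hyx
      rwa [← this]

    have hq : ∀ a b : P, (QuotientGroup.mk a : P ⧸ T) * QuotientGroup.mk b =
        QuotientGroup.mk b * QuotientGroup.mk a := by
      intro a b
      have h1 : ((a * b * a⁻¹ * b⁻¹ : P) : P ⧸ T) = 1 := (QuotientGroup.eq_one_iff _).2 (hTc a b)
      rw [QuotientGroup.mk_mul, QuotientGroup.mk_mul, QuotientGroup.mk_mul, QuotientGroup.mk_inv,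
        QuotientGroup.mk_inv, mul_inv_eq_one, mul_inv_eq_iff_eq_mul] at h1
      exact h1
    let cT : P ⧸ T →* P ⧸ T := QuotientGroup.map T T c hcT
    have hcTm : ∀ x : P, cT (QuotientGroup.mk x) = QuotientGroup.mk (c x) := fun x => rfl
    let S : Subgroup P :=
      { carrier := {x | (QuotientGroup.mk (c x) : P ⧸ T) = QuotientGroup.mk x}
        one_mem' := by
          show (QuotientGroup.mk (c 1) : P ⧸ T) = QuotientGroup.mk 1
          rw [map_one]
        mul_mem' := by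
          intro a b ha hb
          show (QuotientGroup.mk (c (a * b)) : P ⧸ T) = QuotientGroup.mk (a * b)
          rw [map_mul, QuotientGroup.mk_mul, QuotientGroup.mk_mul]
          exact congrArg₂ _ ha hb
        inv_mem' := by
          intro a ha
          show (QuotientGroup.mk (c a⁻¹) : P ⧸ T) = QuotientGroup.mk a⁻¹
          rw [map_inv, QuotientGroup.mk_inv, QuotientGroup.mk_inv]
          exact congrArg _ ha }
    have hTS : T ≤ S := by
      intro x hx
      show (QuotientGroup.mk (c x) : P ⧸ T) = QuotientGroup.mk x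
      rw [(QuotientGroup.eq_one_iff x).2 hx, (QuotientGroup.eq_one_iff (c x)).2 (hcT x hx)]
    have hSn : S.Normal := by
      constructor
      intro x hx y
      have h1 : (y * x * y⁻¹ : P) = (y * x * y⁻¹ * x⁻¹) * x := by group
      rw [h1]
      exact mul_mem (hTS (hTc y x)) hx
    have hStf : ∀ (x : P) (n : ℕ), 0 < n → x ^ n ∈ S → x ∈ S := by
      intro x n hn hx
      have h1 : (QuotientGroup.mk (c (x ^ n)) : P ⧸ T) = QuotientGroup.mk (x ^ n) := hx
      rw [map_pow, QuotientGroup.mk_pow, QuotientGroup.mk_pow] at h1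
      have h2 : Commute (QuotientGroup.mk (c x) : P ⧸ T) (QuotientGroup.mk x)⁻¹ := by
        rw [← QuotientGroup.mk_inv]
        exact hq _ _
      have h3 : ((QuotientGroup.mk (c x) : P ⧸ T) * (QuotientGroup.mk x)⁻¹) ^ n = 1 := by
        rw [h2.mul_pow, h1, inv_pow, mul_inv_cancel]
      rw [← QuotientGroup.mk_inv, ← QuotientGroup.mk_mul, ← QuotientGroup.mk_pow,
        QuotientGroup.eq_one_iff] at h3
      have h4 := hTtf _ n hn h3
      rw [← QuotientGroup.eq_one_iff, QuotientGroup.mk_mul, QuotientGroup.mk_inv,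
        mul_inv_eq_one] at h4
      exact h4
    obtain ⟨hb1, _, hb3⟩ := hom_bound P (B.subgroupOf P) r hr' hfin' S (fun a b => hTS (hTc a b))
      hStf p M hM

    have hex : ∃ b : P, b ∈ B.subgroupOf P ∧ b ∈ S ∧ ¬ IsOfFinOrder b := by
      have hgB : g ^ B.index ∈ B := Subgroup.pow_index_mem B g
      refine ⟨⟨g ^ B.index, hBP hgB⟩, hgB, ?_, ?_⟩
      · have h1 : c ⟨g ^ B.index, hBP hgB⟩ = ⟨g ^ B.index, hBP hgB⟩ := by
          apply Subtype.ext
          show g * g ^ B.index * g⁻¹ = g ^ B.index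
          rw [← pow_succ', pow_succ, mul_inv_cancel_right]
        show (QuotientGroup.mk (c ⟨g ^ B.index, hBP hgB⟩) : P ⧸ T) = QuotientGroup.mk _
        rw [h1]
      · intro h
        have h1 : IsOfFinOrder (g ^ B.index) := P.isOfFinOrder_coe.2 h
        exact hgf ((isOfFinOrder_pow.1 h1).resolve_right hfin)
    obtain ⟨h2, h3⟩ := count_extra hM P hidx hPφ g hg (T.map P.subtype) S (by
      intro δ hδ x hx
      have hd := hδ.1
      have h1 : (QuotientGroup.mk (c x) : P ⧸ T) = QuotientGroup.mk x := hx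
      have h4 : c x * x⁻¹ ∈ T := by
        rw [← QuotientGroup.eq_one_iff, QuotientGroup.mk_mul, QuotientGroup.mk_inv, h1,
          mul_inv_cancel]
      have h5 : δ (c x * x⁻¹ : P) = 1 := hδ.2 _ ⟨_, h4, rfl⟩
      have h6 : resHom P hPφ δ hd (c x * x⁻¹) = 1 := h5
      rw [map_mul, map_inv, mul_inv_eq_one] at h6
      have h7 : δ (g * x * g⁻¹) = δ x := h6

      have h8 := hd g x
      have h9 := hd (g * x * g⁻¹) g
      have hker : φ (g * x * g⁻¹) = 1 := hPφ ((hgP x).1 x.2)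
      rw [inv_mul_cancel_right, h8, h7, hker] at h9
      have h10 : δ g * φ g (δ x) = δ x * δ g := h9
      rw [mul_comm (δ x)] at h10
      exact fix_triv hM (φ g) hg _ (mul_left_cancel h10)) hb1
    exact ⟨T.map P.subtype, hTfin, h2, h3.trans (hb3 hex)⟩

end Pool.Agent.H652.SR
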