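import Mathlib
import Pool.Agent.H652.SR.Defs
import Pool.Agent.H652.SR.Jsylow

set_option autoImplicit false

open scoped IsMulCommutative

namespace Pool.Agent.H652.SR

private theorem rank_of_rankOne (B : Type) [CommGroup B] (h : RankOne B) :
    Module.rank ℤ (Additive B) = (1 : ℕ) := by
  obtain ⟨hn, htf, _, hab⟩ := h
  have htf' : ∀ (a : Additive B) (m : ℤ), m ≠ 0 → m • a = 0 → a = 0 := by
    intro a m hm h0
    have h1 : (a.toMul) ^ m = 1 := by
      have := congrArg Additive.toMul h0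
      simpa using this
    exact congrArg Additive.ofMul (htf a.toMul (isOfFinOrder_iff_zpow_eq_one.2 ⟨m, hm, h1⟩))
  apply le_antisymm
  · by_contra hcon
    rw [not_le] at hcon
    have h2 : ((2 : ℕ) : Cardinal) ≤ Module.rank ℤ (Additive B) := by
      have := Order.succ_le_of_lt hcon
      rw [Cardinal.succ_natCast] at this
      exact_mod_cast this
    obtain ⟨f, hf⟩ := exists_linearIndependent_of_le_rank h2
    rw [Fintype.linearIndependent_iff] at hf
    have hne : ∀ i, (f i).toMul ≠ 1 := by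
      intro i hi
      have h3 : f i = 0 := congrArg Additive.ofMul hi
      have := hf (Pi.single i 1) (by simp [Pi.single_apply, h3]) i
      simp at this
    obtain ⟨m, n, hm, hn', hmn⟩ := hab (f 0).toMul (f 1).toMul (hne 0) (hne 1)
    have h4 : m • f 0 = n • f 1 := congrArg Additive.ofMul hmn
    have := hf ![m, -n] (by simp [Fin.sum_univ_two, h4]) 0
    exact hm (by simpa using this)
  · obtain ⟨a, ha⟩ := exists_ne (1 : B)
    refine natCast_le_rank_iff.2 ⟨fun _ => Additive.ofMul a, ?_⟩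
    rw [Fintype.linearIndependent_iff]
    intro g hg i
    by_contra hgi
    rw [Fin.sum_univ_one] at hg
    rw [Subsingleton.elim i 0] at hgi
    exact ha (congrArg Additive.toMul (htf' _ _ hgi hg))

private theorem index_ne_zero_mono {G : Type} [Group G] {H K : Subgroup G} (h : H ≤ K) (hH : H.index ≠ 0) :
    K.index ≠ 0 := by
  intro h0
  have := Subgroup.index_dvd_of_le h
  rw [h0] at this
  exact hH (zero_dvd_iff.1 this)

private theorem index_pow_rankOne (R : Type) [Group R] (h : RankOne R) (k : ℕ) (hk : 0 < k)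
    (K : Subgroup R) (hK : ∀ y : R, y ^ k ∈ K) : K.index ≠ 0 := by
  letI cg : CommGroup R := { (inferInstance : Group R) with mul_comm := h.2.2.1 }
  have h1 := finite_mod_pow R h.2.1 1 (rank_of_rankOne R h) k hk
  have h2 : (powMonoidHom k : R →* R).range ≤ K := by
    rintro _ ⟨y, rfl⟩
    exact hK y
  exact index_ne_zero_mono h2 Subgroup.index_ne_zero_of_finite

private theorem index_of_normal {G : Type} [Group G] (K N : Subgroup G) [N.Normal] [K.Normal]
    (h1 : K.relIndex N ≠ 0) (h2 : (K.map (QuotientGroup.mk' N)).index ≠ 0) : K.index ≠ 0 := by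
  have h3 : (K ⊔ N).index ≠ 0 := by
    have h4 := Subgroup.index_comap_of_surjective (K.map (QuotientGroup.mk' N))
      (QuotientGroup.mk'_surjective N)
    rw [Subgroup.comap_map_eq, QuotientGroup.ker_mk'] at h4
    rw [h4]
    exact h2
  rw [← Subgroup.relIndex_mul_index (le_sup_left : K ≤ K ⊔ N), Subgroup.relIndex_sup_left]
  exact mul_ne_zero h1 h3

private theorem pow_closure_normal {X : Type} [Group X] (k : ℕ) :
    (Subgroup.closure {x : X | ∃ y : X, x = y ^ k}).Normal := by
  constructor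
  intro a ha g
  induction ha using Subgroup.closure_induction with
  | mem x hx =>
    obtain ⟨y, rfl⟩ := hx
    exact Subgroup.subset_closure ⟨g * y * g⁻¹, by rw [conj_pow]⟩
  | one => simp
  | mul x y _ _ hx hy =>
    have : g * (x * y) * g⁻¹ = (g * x * g⁻¹) * (g * y * g⁻¹) := by group
    rw [this]
    exact mul_mem hx hy
  | inv x _ hx =>
    have : g * x⁻¹ * g⁻¹ = (g * x * g⁻¹)⁻¹ := by group
    rw [this]
    exact inv_mem hx

theorem PR.finite_pow {X : Type} [Group X] {c : ℕ} (h : PR X c) (k : ℕ) (hk : 0 < k) :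
    (Subgroup.closure {x : X | ∃ y : X, x = y ^ k}).index ≠ 0 := by
  induction h with
  | triv X h => exact Subgroup.index_ne_zero_of_finite
  | ext X N c hN hq ih =>
    haveI := pow_closure_normal (X := X) k
    apply index_of_normal _ N
    · change (Subgroup.subgroupOf _ N).index ≠ 0
      refine index_ne_zero_mono ?_ ih
      rw [Subgroup.closure_le]
      rintro _ ⟨y, rfl⟩
      change ((y ^ k : N) : X) ∈ Subgroup.closure {x : X | ∃ y : X, x = y ^ k}
      rw [Subgroup.coe_pow]
      exact Subgroup.subset_closure ⟨y, rfl⟩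
    · apply index_pow_rankOne _ hq k hk
      intro y
      obtain ⟨z, rfl⟩ := QuotientGroup.mk_surjective y
      exact ⟨z ^ k, Subgroup.subset_closure ⟨z, rfl⟩, rfl⟩

theorem fin_by_rankOne (W : Type) [Group W] (T : Subgroup W) [T.Normal] (hT : Finite T)
    (h : RankOne (W ⧸ T)) : ∃ V : Subgroup W, V.Normal ∧ V.index ≠ 0 ∧ RankOne V := by
  classical
  obtain ⟨hnt, htf, hcomm, hab⟩ := h
  set C : Subgroup W := Subgroup.centralizer (T : Set W) with hC
  have hCn : C.Normal := by rw [hC]; infer_instance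
  have hCT : ∀ c ∈ C, ∀ t ∈ T, c * t = t * c := by
    intro c hc t ht
    exact (Subgroup.mem_centralizer_iff.1 hc t ht).symm
  have hCi : C.index ≠ 0 := by
    have h1 : (MulAut.conjNormal : W →* MulAut T).ker ≤ C := by
      intro w hw
      rw [MonoidHom.mem_ker] at hw
      rw [hC, Subgroup.mem_centralizer_iff]
      intro t ht
      have h2 : (MulAut.conjNormal w (⟨t, ht⟩ : T)) = ⟨t, ht⟩ := by rw [hw]; rfl
      have h3 := congrArg Subtype.val h2
      rw [MulAut.conjNormal_apply] at h3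
      change w * t * w⁻¹ = t at h3
      rw [mul_inv_eq_iff_eq_mul] at h3
      exact h3.symm
    refine index_ne_zero_mono h1 ?_
    rw [Subgroup.index_ker]
    haveI : Finite (MulAut T) := Finite.of_injective (fun f : MulAut T => (f : T → T))
      (fun f g hfg => by ext x; exact congrArg Subtype.val (congrFun hfg x))
    exact Nat.card_pos.ne'

  have htors : ∀ w : W, ∀ j : ℤ, j ≠ 0 → w ^ j ∈ T → w ∈ T := by
    intro w j hj hw
    have h1 : ((w : W ⧸ T)) ^ j = 1 := by
      rw [← QuotientGroup.mk_zpow]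
      exact (QuotientGroup.eq_one_iff _).2 hw
    exact (QuotientGroup.eq_one_iff w).1 (htf _ (isOfFinOrder_iff_zpow_eq_one.2 ⟨j, hj, h1⟩))

  have hCab : ∀ a ∈ C, ∀ b ∈ C, a * b = b * a := by
    intro a ha b hb
    by_cases haT : a ∈ T
    · exact (hCT b hb a haT).symm
    by_cases hbT : b ∈ T
    · exact hCT a ha b hbT
    obtain ⟨m, n, hm, hn, hmn⟩ := hab (a : W ⧸ T) (b : W ⧸ T)
      (fun h => haT ((QuotientGroup.eq_one_iff a).1 h))
      (fun h => hbT ((QuotientGroup.eq_one_iff b).1 h))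

    letI cg : CommGroup (W ⧸ T) := { (inferInstance : Group (W ⧸ T)) with mul_comm := hcomm }
    obtain ⟨m', n', hcop, hmn'⟩ : ∃ m' n' : ℤ, IsCoprime m' n' ∧ a ^ m' * (b ^ n')⁻¹ ∈ T := by
      have hg0 : Int.gcd m n ≠ 0 := by
        rw [Ne, Int.gcd_eq_zero_iff]
        exact fun h => hm h.1
      obtain ⟨m', hm'⟩ : (Int.gcd m n : ℤ) ∣ m := Int.gcd_dvd_left _ _
      obtain ⟨n', hn'⟩ : (Int.gcd m n : ℤ) ∣ n := Int.gcd_dvd_right _ _
      have hgz : (Int.gcd m n : ℤ) ≠ 0 := by exact_mod_cast hg0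
      refine ⟨m', n', ?_, ?_⟩
      · have hbez := Int.gcd_eq_gcd_ab m n
        refine ⟨Int.gcdA m n, Int.gcdB m n, ?_⟩
        apply mul_left_cancel₀ hgz
        linear_combination (-(Int.gcdA m n)) * hm' - (Int.gcdB m n) * hn' - hbez
      · apply htors _ (Int.gcd m n) hgz
        rw [← QuotientGroup.eq_one_iff, QuotientGroup.mk_zpow, QuotientGroup.mk_mul,
          QuotientGroup.mk_inv, QuotientGroup.mk_zpow, QuotientGroup.mk_zpow, mul_zpow, inv_zpow,
          ← zpow_mul, ← zpow_mul, mul_comm m', mul_comm n', ← hm', ← hn', hmn, mul_inv_cancel]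
    set t := a ^ m' * (b ^ n')⁻¹ with ht
    set z := a * b * a⁻¹ * b⁻¹ with hz
    have hzT : z ∈ T := by
      rw [← QuotientGroup.eq_one_iff]
      rw [hz, QuotientGroup.mk_mul, QuotientGroup.mk_mul, QuotientGroup.mk_mul,
        QuotientGroup.mk_inv, QuotientGroup.mk_inv, mul_comm (a : W ⧸ T)]
      group
    have hza : Commute z a := (hCT a ha z hzT).symm
    have hzb : Commute z b := (hCT b hb z hzT).symm
    have hta : Commute t a := (hCT a ha t hmn').symm
    have htb : Commute t b := (hCT b hb t hmn').symm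
    have e1 : b ^ n' = t⁻¹ * a ^ m' := by rw [ht]; group
    have e2 : a ^ m' = t * b ^ n' := by rw [ht]; group
    have c1 : Commute a (b ^ n') := by
      rw [e1]
      exact (hta.inv_left.symm).mul_right ((Commute.refl a).zpow_right m')
    have c2 : Commute b (a ^ m') := by
      rw [e2]
      exact (htb.symm).mul_right ((Commute.refl b).zpow_right n')
    have z1 : z ^ n' = 1 := by
      have h1 : a * b * a⁻¹ = z * b := by rw [hz]; group
      have h2 : a * b ^ n' * a⁻¹ = z ^ n' * b ^ n' := by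
        rw [← conj_zpow, h1, hzb.mul_zpow]
      rw [c1.eq, mul_inv_cancel_right] at h2
      exact (mul_eq_right.1 h2.symm)
    have z2 : z ^ m' = 1 := by
      have h1 : b * a * b⁻¹ = z⁻¹ * a := by rw [hz]; group
      have h2 : b * a ^ m' * b⁻¹ = (z⁻¹) ^ m' * a ^ m' := by
        rw [← conj_zpow, h1, (hza.inv_left).mul_zpow]
      rw [c2.eq, mul_inv_cancel_right] at h2
      have h3 := (mul_eq_right.1 h2.symm)
      rwa [inv_zpow, inv_eq_one] at h3
    obtain ⟨u, v, huv⟩ := hcop
    have hz1 : z = 1 := by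
      rw [← zpow_one z, ← huv, zpow_add, mul_comm u, mul_comm v, zpow_mul, zpow_mul, z1, z2,
        one_zpow, one_zpow, mul_one]
    have h5 : a * b = z * (b * a) := by rw [hz]; group
    rw [h5, hz1, one_mul]

  set k := Nat.card T with hk
  have hk0 : 0 < k := Nat.card_pos
  have hkT : ∀ t ∈ T, t ^ k = 1 := by
    intro t ht
    have := pow_card_eq_one' (x := (⟨t, ht⟩ : T))
    exact congrArg Subtype.val this
  let V : Subgroup W :=
    { carrier := {w | ∃ c ∈ C, w = c ^ k}
      one_mem' := ⟨1, one_mem _, (one_pow k).symm⟩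
      mul_mem' := by
        rintro _ _ ⟨c, hc, rfl⟩ ⟨d, hd, rfl⟩
        exact ⟨c * d, mul_mem hc hd, ((show Commute c d from hCab c hc d hd).mul_pow k).symm⟩
      inv_mem' := by
        rintro _ ⟨c, hc, rfl⟩
        exact ⟨c⁻¹, inv_mem hc, (inv_pow c k).symm⟩ }
  have hVn : V.Normal := by
    constructor
    rintro _ ⟨c, hc, rfl⟩ g
    exact ⟨g * c * g⁻¹, hCn.conj_mem c hc g, (conj_pow).symm⟩
  have hVC : V ≤ C := by
    rintro _ ⟨c, hc, rfl⟩
    exact pow_mem hc k
  have hpow : ∀ w : W, w ^ (C.index * k) ∈ V := by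
    intro w
    rw [pow_mul]
    exact ⟨w ^ C.index, Subgroup.pow_index_mem C w, rfl⟩
  have hVtf : ∀ v ∈ V, ∀ j : ℤ, j ≠ 0 → v ^ j ∈ T → v = 1 := by
    rintro _ ⟨c, hc, rfl⟩ j hj hv
    apply hkT
    apply htors c (k * j) (mul_ne_zero (by exact_mod_cast hk0.ne') hj)
    rw [zpow_mul, zpow_natCast]
    exact hv
  refine ⟨V, hVn, ?_, ?_, ?_, ?_, ?_⟩
  · apply index_of_normal V T
    · have h1 := Subgroup.relIndex_dvd_card V T
      intro h0
      rw [h0, zero_dvd_iff] at h1
      exact hk0.ne' h1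
    · apply index_pow_rankOne _ ⟨hnt, htf, hcomm, hab⟩ (C.index * k)
        (Nat.mul_pos (Nat.pos_of_ne_zero hCi) hk0)
      intro y
      obtain ⟨w, rfl⟩ := QuotientGroup.mk_surjective y
      exact ⟨w ^ (C.index * k), hpow w, rfl⟩
  · obtain ⟨y, hy⟩ := exists_ne (1 : W ⧸ T)
    obtain ⟨w, rfl⟩ := QuotientGroup.mk_surjective y
    refine ⟨⟨⟨w ^ (C.index * k), hpow w⟩, 1, ?_⟩⟩
    intro h1
    have h2 : w ^ (C.index * k) = 1 := congrArg Subtype.val h1
    apply hy
    rw [QuotientGroup.eq_one_iff]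
    apply htors w ((C.index * k : ℕ) : ℤ)
      (by exact_mod_cast (Nat.mul_pos (Nat.pos_of_ne_zero hCi) hk0).ne')
    rw [zpow_natCast, h2]
    exact one_mem _
  · intro g hg
    obtain ⟨j, hj, hgj⟩ := isOfFinOrder_iff_zpow_eq_one.1 hg
    apply Subtype.ext
    apply hVtf g g.2 j hj
    have := congrArg Subtype.val hgj
    rw [Subgroup.coe_zpow] at this
    rw [this]
    exact one_mem _
  · intro a b
    exact Subtype.ext (hCab a (hVC a.2) b (hVC b.2))
  · intro a b ha hb
    have hane : ((a : W) : W ⧸ T) ≠ 1 := by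
      intro h
      apply ha
      apply Subtype.ext
      apply hVtf a a.2 1 one_ne_zero
      rw [zpow_one]
      exact (QuotientGroup.eq_one_iff _).1 h
    have hbne : ((b : W) : W ⧸ T) ≠ 1 := by
      intro h
      apply hb
      apply Subtype.ext
      apply hVtf b b.2 1 one_ne_zero
      rw [zpow_one]
      exact (QuotientGroup.eq_one_iff _).1 h
    obtain ⟨m, n, hm, hn, hmn⟩ := hab _ _ hane hbne
    refine ⟨m, n, hm, hn, ?_⟩
    have h1 : (a ^ m * (b ^ n)⁻¹ : V) = 1 := by
      apply Subtype.ext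
      apply hVtf _ (Subtype.mem _) 1 one_ne_zero
      rw [zpow_one, ← QuotientGroup.eq_one_iff, Subgroup.coe_mul, Subgroup.coe_inv,
        Subgroup.coe_zpow, Subgroup.coe_zpow, QuotientGroup.mk_mul,
        QuotientGroup.mk_inv, QuotientGroup.mk_zpow, QuotientGroup.mk_zpow, hmn, mul_inv_cancel]
    exact mul_inv_eq_one.1 h1

end Pool.Agent.H652.SR
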