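import Mathlib
import Pool.Agent.H652.SR.Defs

set_option autoImplicit false

open scoped IsMulCommutative

namespace Pool.Agent.H652.SR

theorem PCT.mono {X : Type} [Group X] {e e' : ℕ} (he : e ∣ e') (h : PCT e X) : PCT e' X := by
  induction h with
  | triv X h => exact PCT.triv X h
  | cyc X N hN hq ih => exact PCT.cyc X N ih hq
  | tor X N hN hq ih =>
    refine PCT.tor X N ih fun x => ?_
    obtain ⟨k, hk⟩ := hq x
    obtain ⟨d, rfl⟩ := he
    refine ⟨k, ?_⟩
    rw [mul_pow, pow_mul]
    exact N.pow_mem hk _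

private theorem PCT.of_injective_aux {X : Type} [Group X] {e : ℕ} (h : PCT e X) :
    ∀ (Y : Type) [Group Y] (f : Y →* X), Function.Injective f → PCT e Y := by
  induction h with
  | triv X h => exact fun Y _ f hf => PCT.triv Y hf.subsingleton
  | cyc X N hN hq ih =>
    intro Y _ f hf
    refine PCT.cyc Y (N.comap f) (ih _ (f.subgroupComap N) ?_) ?_
    · intro a b hab
      exact Subtype.ext (hf (congrArg Subtype.val hab))
    · refine isCyclic_of_injective (QuotientGroup.map (N.comap f) N f le_rfl) ?_
      rw [← MonoidHom.ker_eq_bot_iff, eq_bot_iff]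
      intro x hx
      induction x using QuotientGroup.induction_on with
      | H x =>
        rw [MonoidHom.mem_ker, QuotientGroup.map_mk, QuotientGroup.eq_one_iff] at hx
        rw [Subgroup.mem_bot, QuotientGroup.eq_one_iff]
        exact hx
  | tor X N hN hq ih =>
    intro Y _ f hf
    refine PCT.tor Y (N.comap f) (ih _ (f.subgroupComap N) ?_) fun x => ?_
    · intro a b hab
      exact Subtype.ext (hf (congrArg Subtype.val hab))
    · obtain ⟨k, hk⟩ := hq (f x)
      refine ⟨k, ?_⟩
      rw [Subgroup.mem_comap, map_pow]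
      exact hk

theorem PCT.of_injective {X Y : Type} [Group X] [Group Y] {e : ℕ} (h : PCT e X) (f : Y →* X)
    (hf : Function.Injective f) : PCT e Y :=
  h.of_injective_aux Y f hf

private theorem PCT.of_surjective_aux {X : Type} [Group X] {e : ℕ} (h : PCT e X) :
    ∀ (Y : Type) [Group Y] (f : X →* Y), Function.Surjective f → PCT e Y := by
  induction h with
  | triv X h => exact fun Y _ f hf => PCT.triv Y hf.subsingleton
  | @cyc X _ N hNn hN hq ih =>
    intro Y _ f hf
    have : (N.map f).Normal := hNn.map f hf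
    refine PCT.cyc Y (N.map f) (ih _ (f.subgroupMap N) (f.subgroupMap_surjective N)) ?_
    refine isCyclic_of_surjective (QuotientGroup.map N (N.map f) f (Subgroup.le_comap_map f N)) ?_
    intro y
    induction y using QuotientGroup.induction_on with
    | H y =>
      obtain ⟨x, rfl⟩ := hf y
      exact ⟨(x : X ⧸ N), rfl⟩
  | @tor X _ N hNn hN hq ih =>
    intro Y _ f hf
    have : (N.map f).Normal := hNn.map f hf
    refine PCT.tor Y (N.map f) (ih _ (f.subgroupMap N) (f.subgroupMap_surjective N)) fun y => ?_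
    obtain ⟨x, rfl⟩ := hf y
    obtain ⟨k, hk⟩ := hq x
    refine ⟨k, ?_⟩
    rw [← map_pow]
    exact Subgroup.mem_map_of_mem f hk

theorem PCT.of_surjective {X Y : Type} [Group X] [Group Y] {e : ℕ} (h : PCT e X) (f : X →* Y)
    (hf : Function.Surjective f) : PCT e Y :=
  h.of_surjective_aux Y f hf

private theorem PCT.extn_aux {Q : Type} [Group Q] {e : ℕ} (h : PCT e Q) :
    ∀ (X : Type) [Group X] (g : X →* Q), Function.Surjective g → PCT e g.ker → PCT e X := by
  have hker : ∀ {Q X : Type} [Group Q] [Group X] (g : X →* Q) (M : Subgroup Q), PCT e g.ker →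
      PCT e (g.subgroupComap M).ker := by
    intro Q X _ _ g M h1
    refine h1.of_injective
      { toFun := fun x => ⟨x.1.1, ?_⟩
        map_one' := rfl
        map_mul' := fun a b => rfl } ?_
    · have := x.2
      rw [MonoidHom.mem_ker] at this ⊢
      exact congrArg Subtype.val this
    · intro a b hab
      apply Subtype.ext
      apply Subtype.ext
      have h2 : (⟨a.1.1, _⟩ : g.ker) = ⟨b.1.1, _⟩ := hab
      exact (Subtype.mk.inj h2)
  have hsurj : ∀ {Q X : Type} [Group Q] [Group X] (g : X →* Q) (M : Subgroup Q),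
      Function.Surjective g → Function.Surjective (g.subgroupComap M) := by
    intro Q X _ _ g M hg y
    obtain ⟨x, hx⟩ := hg y.1
    exact ⟨⟨x, by rw [Subgroup.mem_comap, hx]; exact y.2⟩, Subtype.ext hx⟩
  induction h with
  | triv Q h =>
    intro X _ g hg h1
    refine h1.of_surjective g.ker.subtype fun x => ⟨⟨x, ?_⟩, rfl⟩
    rw [MonoidHom.mem_ker]
    exact Subsingleton.elim _ _
  | cyc Q M hM hq ih =>
    intro X _ g hg h1
    refine PCT.cyc X (M.comap g) (ih _ (g.subgroupComap M) (hsurj g M hg) (hker g M h1)) ?_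
    refine isCyclic_of_injective (QuotientGroup.map (M.comap g) M g le_rfl) ?_
    rw [← MonoidHom.ker_eq_bot_iff, eq_bot_iff]
    intro x hx
    induction x using QuotientGroup.induction_on with
    | H x =>
      rw [MonoidHom.mem_ker, QuotientGroup.map_mk, QuotientGroup.eq_one_iff] at hx
      rw [Subgroup.mem_bot, QuotientGroup.eq_one_iff]
      exact hx
  | tor Q M hM hq ih =>
    intro X _ g hg h1
    refine PCT.tor X (M.comap g) (ih _ (g.subgroupComap M) (hsurj g M hg) (hker g M h1))
      fun x => ?_
    obtain ⟨k, hk⟩ := hq (g x)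
    refine ⟨k, ?_⟩
    rw [Subgroup.mem_comap, map_pow]
    exact hk

theorem PCT.extn {X : Type} [Group X] {e : ℕ} (N : Subgroup X) [N.Normal] (h1 : PCT e N)
    (h2 : PCT e (X ⧸ N)) : PCT e X := by
  refine h2.extn_aux X (QuotientGroup.mk' N) (QuotientGroup.mk'_surjective N) ?_
  rw [QuotientGroup.ker_mk']
  exact h1

theorem PCT.of_index {X : Type} [Group X] {e : ℕ} (N : Subgroup X) [N.Normal] (h1 : PCT e N)
    (h2 : N.index ∣ e) : PCT e X := by
  refine PCT.tor X N h1 fun x => ⟨1, ?_⟩
  obtain ⟨d, rfl⟩ := h2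
  rw [pow_one, pow_mul]
  exact N.pow_mem (N.pow_index_mem x) _

end Pool.Agent.H652.SR
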