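import Mathlib
import Pool.Agent.H652.SR.Defs
import Pool.Agent.H652.SR.Jpcta

set_option autoImplicit false

open scoped IsMulCommutative

namespace Pool.Agent.H652.SR

private theorem PCT.good_aux {e : ℕ} (X : Type) [Group X] (h : PCT e X) :
    (∀ a b : X, a * b = b * a) →
    ∃ S : Finset X, ∀ a : X, ∃ k : ℕ, a ^ (e ^ k) ∈ Subgroup.closure (S : Set X) := by
  classical
  induction h with
  | triv X h =>
    intro _
    refine ⟨∅, fun a => ⟨0, ?_⟩⟩
    rw [Subsingleton.elim (a ^ (e ^ 0)) 1]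
    exact Subgroup.one_mem _
  | cyc X N hN hq ih =>
    intro hcomm
    obtain ⟨S, hS⟩ := ih (fun a b => Subtype.ext (hcomm a b))
    obtain ⟨q, hq⟩ := hq.exists_generator
    obtain ⟨t, rfl⟩ := QuotientGroup.mk_surjective q
    refine ⟨insert t (S.image N.subtype), fun a => ?_⟩
    have h1 := hq (QuotientGroup.mk a)
    rw [Subgroup.mem_zpowers_iff] at h1
    obtain ⟨j, hj⟩ := h1
    rw [← QuotientGroup.mk_zpow, QuotientGroup.eq] at hj
    obtain ⟨k, hk⟩ := hS ⟨(t ^ j)⁻¹ * a, hj⟩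
    refine ⟨k, ?_⟩
    have h2 : (((t ^ j)⁻¹ * a) ^ (e ^ k)) ∈ Subgroup.closure ((insert t (S.image N.subtype) : Finset X) : Set X) := by
      have h3 := Subgroup.mem_map_of_mem N.subtype hk
      rw [MonoidHom.map_closure] at h3
      have h4 : N.subtype '' (S : Set N) ⊆ ((insert t (S.image N.subtype) : Finset X) : Set X) := by
        rw [Finset.coe_insert, Finset.coe_image]
        exact Set.subset_insert _ _
      exact Subgroup.closure_mono h4 h3
    have h5 : a = t ^ j * ((t ^ j)⁻¹ * a) := by group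
    have h6 : t ∈ Subgroup.closure ((insert t (S.image N.subtype) : Finset X) : Set X) :=
      Subgroup.subset_closure (by simp)
    have hc : Commute (t ^ j) ((t ^ j)⁻¹ * a) := hcomm _ _
    rw [h5, hc.mul_pow]
    exact Subgroup.mul_mem _ (Subgroup.pow_mem _ (Subgroup.zpow_mem _ h6 _) _) h2
  | tor X N hN hq ih =>
    intro hcomm
    obtain ⟨S, hS⟩ := ih (fun a b => Subtype.ext (hcomm a b))
    refine ⟨S.image N.subtype, fun a => ?_⟩
    obtain ⟨k, hk⟩ := hq a
    obtain ⟨k', hk'⟩ := hS ⟨a ^ (e ^ k), hk⟩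
    refine ⟨k + k', ?_⟩
    have h3 := Subgroup.mem_map_of_mem N.subtype hk'
    rw [MonoidHom.map_closure, ← Finset.coe_image] at h3
    rw [pow_add, pow_mul]
    exact h3

theorem PCT.good {A : Type} [CommGroup A] {e : ℕ} (h : PCT e A) :
    ∃ S : Finset A, ∀ a : A, ∃ k : ℕ, a ^ (e ^ k) ∈ Subgroup.closure (S : Set A) :=
  PCT.good_aux A h mul_comm

private theorem PCT.closure_aux {A : Type} [CommGroup A] (e : ℕ) (S : Finset A) :
    PCT e (Subgroup.closure (S : Set A)) := by
  classical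
  induction S using Finset.induction_on with
  | empty =>
    apply PCT.triv
    rw [Finset.coe_empty, Subgroup.closure_empty]
    infer_instance
  | insert s S hs ih =>
    have hle : Subgroup.closure (S : Set A) ≤ Subgroup.closure ((insert s S : Finset A) : Set A) := by
      apply Subgroup.closure_mono
      rw [Finset.coe_insert]
      exact Set.subset_insert _ _
    have hs' : s ∈ Subgroup.closure ((insert s S : Finset A) : Set A) :=
      Subgroup.subset_closure (by simp)
    apply PCT.cyc _ ((Subgroup.closure (S : Set A)).subgroupOf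
      (Subgroup.closure ((insert s S : Finset A) : Set A)))
    · exact ih.of_injective (Subgroup.subgroupOfEquivOfLe hle).toMonoidHom
        (Subgroup.subgroupOfEquivOfLe hle).injective
    · refine ⟨⟨QuotientGroup.mk ⟨s, hs'⟩, ?_⟩⟩
      intro x
      obtain ⟨⟨b, hb⟩, rfl⟩ := QuotientGroup.mk_surjective x
      have hb' := hb
      rw [Finset.coe_insert, Set.insert_eq, Subgroup.closure_union, Subgroup.mem_sup] at hb'
      obtain ⟨y, hy, z, hz, hyz⟩ := hb'
      rw [← Subgroup.zpowers_eq_closure, Subgroup.mem_zpowers_iff] at hy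
      obtain ⟨j, hj⟩ := hy
      refine ⟨j, ?_⟩
      show (QuotientGroup.mk (⟨s, hs'⟩ ^ j) : _ ⧸ ((Subgroup.closure (S : Set A)).subgroupOf
        (Subgroup.closure ((insert s S : Finset A) : Set A)))) = _
      rw [QuotientGroup.eq, Subgroup.mem_subgroupOf]
      show ((s ^ j)⁻¹ * b) ∈ _
      rw [← hyz, hj, inv_mul_cancel_left]
      exact hz

theorem PCT.of_good {A : Type} [CommGroup A] {e : ℕ} (S : Finset A)
    (h : ∀ a : A, ∃ k : ℕ, a ^ (e ^ k) ∈ Subgroup.closure (S : Set A)) : PCT e A :=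
  PCT.tor A (Subgroup.closure (S : Set A)) (PCT.closure_aux e S) h

theorem PCT.not_div {A : Type} [CommGroup A] [Nontrivial A] (htf : TF A) {e : ℕ} (he : 0 < e)
    (h : PCT e A) (p : ℕ) (hp : p.Prime) (hpe : ¬ p ∣ e) :
    (powMonoidHom p : A →* A).range ≠ ⊤ := by
  intro htop
  obtain ⟨S, hS⟩ := h.good
  set D := Subgroup.closure (S : Set A) with hD
  have hdiv : ∀ d ∈ D, ∃ d' ∈ D, d' ^ p = d := by
    intro d hd
    have h1 : d ∈ (powMonoidHom p : A →* A).range := by rw [htop]; exact Subgroup.mem_top _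
    obtain ⟨a, ha⟩ := h1
    have ha' : a ^ p = d := ha
    obtain ⟨k, hk⟩ := hS a
    have hcop : IsCoprime ((e ^ k : ℕ) : ℤ) ((p : ℕ) : ℤ) := by
      rw [Nat.isCoprime_iff_coprime]
      exact (Nat.Coprime.pow_left k ((Nat.Prime.coprime_iff_not_dvd hp).mpr hpe).symm)
    obtain ⟨u, v, huv⟩ := hcop
    refine ⟨(a ^ (e ^ k)) ^ u * d ^ v, Subgroup.mul_mem _ (Subgroup.zpow_mem _ hk _)
      (Subgroup.zpow_mem _ hd _), ?_⟩
    have h2 : ((a ^ (e ^ k)) ^ u * d ^ v) ^ p = d ^ (u * ((e ^ k : ℕ) : ℤ) + v * (p : ℤ)) := by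
      rw [mul_pow, zpow_add, ← ha']
      congr 1
      · rw [← zpow_natCast a (e ^ k), ← zpow_mul, ← zpow_natCast _ p, ← zpow_mul,
          ← zpow_natCast a p, ← zpow_mul]
        congr 1
        ring
      · rw [← zpow_natCast _ p, ← zpow_mul]
    rw [h2, huv, zpow_one]

  let N : Submodule ℤ (Additive A) := AddSubgroup.toIntSubmodule (Subgroup.toAddSubgroup D)
  have hmemN : ∀ x : A, Additive.ofMul x ∈ N ↔ x ∈ D := fun x => Iff.rfl
  have hfg : N.FG := by
    rw [Submodule.fg_iff_addSubgroup_fg]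
    have : D.FG := ⟨S, rfl⟩
    exact (Subgroup.fg_iff_add_fg D).mp this
  obtain ⟨r, hr1, hr2⟩ := Submodule.exists_sub_one_mem_and_smul_eq_zero_of_fg_of_le_smul
    (Ideal.span {(p : ℤ)}) N hfg (by
      intro x hx
      obtain ⟨d', hd', hdd⟩ := hdiv x.toMul hx
      rw [Submodule.ideal_span_singleton_smul]
      refine ⟨Additive.ofMul d', hd', ?_⟩
      show (p : ℤ) • Additive.ofMul d' = x
      rw [← ofMul_zpow, zpow_natCast, hdd]
      rfl)
  have hr0 : r ≠ 0 := by
    rintro rfl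
    rw [Ideal.mem_span_singleton] at hr1
    have h1 : (p : ℤ) ∣ 1 := by
      have := hr1
      rwa [zero_sub, dvd_neg] at this
    have h2 : p ∣ 1 := by exact_mod_cast h1
    exact hp.one_lt.ne' (Nat.dvd_one.mp h2)
  have hD1 : ∀ d ∈ D, d = 1 := by
    intro d hd
    apply htf
    rw [isOfFinOrder_iff_zpow_eq_one]
    refine ⟨r, hr0, ?_⟩
    have := hr2 (Additive.ofMul d) hd
    rw [← ofMul_zpow] at this
    exact this
  obtain ⟨a, ha⟩ := exists_ne (1 : A)
  apply ha
  apply htf
  obtain ⟨k, hk⟩ := hS a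
  rw [isOfFinOrder_iff_pow_eq_one]
  exact ⟨e ^ k, by positivity, hD1 _ hk⟩

end Pool.Agent.H652.SR
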