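import Mathlib
import Pool.Agent.H652.SR.Defs

set_option autoImplicit false

open scoped IsMulCommutative

namespace Pool.Agent.H652.SR

private theorem hc_inj {G H : Type} [Group G] [Group H] {n : ℕ} (h : HasChain H n)
    (f : H →* G) (hf : Function.Injective f) : HasChain G n := by
  obtain ⟨m, L, hL, s, hs, hc⟩ := h
  refine ⟨m, fun i => (L i).map f, ?_, s, ?_, hc⟩
  · intro i hi
    refine ⟨Subgroup.map_mono (hL i hi).1, ?_⟩
    rintro _ ⟨x, hx, rfl⟩ _ ⟨g, hg, rfl⟩
    refine ⟨g * x * g⁻¹, (hL i hi).2 x hx g hg, by simp⟩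
  · intro i hi
    obtain ⟨h1, g, hg, hk⟩ := hs i hi
    refine ⟨h1, f g, ⟨g, hg, rfl⟩, fun k hk0 hmem => hk k hk0 ?_⟩
    rw [← map_pow, Subgroup.mem_map_iff_mem hf] at hmem
    exact hmem

private theorem hc_surj {G H : Type} [Group G] [Group H] {n : ℕ} (h : HasChain H n)
    (f : G →* H) (hf : Function.Surjective f) : HasChain G n := by
  obtain ⟨m, L, hL, s, hs, hc⟩ := h
  refine ⟨m, fun i => (L i).comap f, ?_, s, ?_, hc⟩
  · intro i hi
    refine ⟨Subgroup.comap_mono (hL i hi).1, ?_⟩
    intro x hx g hg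
    rw [Subgroup.mem_comap] at hx hg ⊢
    rw [map_mul, map_mul, map_inv]
    exact (hL i hi).2 _ hx _ hg
  · intro i hi
    obtain ⟨h1, g, hg, hk⟩ := hs i hi
    obtain ⟨g', rfl⟩ := hf g
    refine ⟨h1, g', hg, fun k hk0 hmem => hk k hk0 ?_⟩
    rw [Subgroup.mem_comap, map_pow] at hmem
    exact hmem

theorem HasChain.mono {G : Type} [Group G] {m n : ℕ} (h : HasChain G n) (hm : m ≤ n) :
    HasChain G m := by
  obtain ⟨m', L, hL, s, hs, hc⟩ := h
  obtain ⟨t, hts, htc⟩ := Finset.exists_subset_card_eq (hm.trans hc.ge)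
  exact ⟨m', L, hL, t, fun i hi => hs i (hts hi), htc⟩

theorem SHB.mono {G : Type} [Group G] {m n : ℕ} (h : SHB G m) (hm : m ≤ n) : SHB G n :=
  fun k hk => (h k hk).trans hm

theorem SHB.of_injective {G H : Type} [Group G] [Group H] {n : ℕ} (h : SHB G n) (f : H →* G)
    (hf : Function.Injective f) : SHB H n :=
  fun m hm => h m (hc_inj hm f hf)

theorem SHB.of_surjective {G H : Type} [Group G] [Group H] {n : ℕ} (h : SHB G n) (f : G →* H)
    (hf : Function.Surjective f) : SHB H n :=
  fun m hm => h m (hc_surj hm f hf)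

theorem HasTop.chain {G : Type} [Group G] {n : ℕ} (h : HasTop G n) : HasChain G n := by
  obtain ⟨m, L, hL, _, s, hs, hc⟩ := h
  exact ⟨m, L, hL, s, hs, hc⟩

theorem HasChain.top_of_comm {A : Type} [CommGroup A] {n : ℕ} (h : HasChain A n) :
    HasTop A n := by
  obtain ⟨m, L, hL, s, hs, hc⟩ := h
  refine ⟨m + 1, fun i => if i ≤ m then L i else ⊤, ?_, ?_, s, ?_, hc⟩
  · intro i hi
    have him : i ≤ m := by omega
    refine ⟨?_, ?_⟩
    · simp only [if_pos him]
      split_ifs with h2
      · exact (hL i (by omega)).1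
      · exact le_top
    · intro x hx g _
      rwa [mul_comm g x, mul_inv_cancel_right]
  · simp
  · intro i hi
    obtain ⟨h1, h2⟩ := hs i hi
    refine ⟨by omega, ?_⟩
    simp only [if_pos h1.le, if_pos (show i + 1 ≤ m by omega)]
    exact h2

theorem HasChain.of_surjective {G H : Type} [Group G] [Group H] {n : ℕ} (h : HasChain H n)
    (f : G →* H) (hf : Function.Surjective f) : HasChain G n := hc_surj h f hf

theorem HasChain.of_injective {G H : Type} [Group G] [Group H] {n : ℕ} (h : HasChain H n)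
    (f : H →* G) (hf : Function.Injective f) : HasChain G n := hc_inj h f hf

end Pool.Agent.H652.SR
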