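import Mathlib
import Pool.Agent.H652.SR.Defs
import Pool.Agent.H652.SR.Jshba

set_option autoImplicit false

open scoped IsMulCommutative

namespace Pool.Agent.H652.SR

private lemma ext_core {G : Type} [Group G] (N : Subgroup G) [N.Normal] {a b : ℕ}
    (m1 : ℕ) (L1 : ℕ → Subgroup N)
    (h1 : ∀ i < m1, L1 i ≤ L1 (i + 1) ∧ ∀ x ∈ L1 i, ∀ g ∈ L1 (i + 1), g * x * g⁻¹ ∈ L1 i)
    (t1 : L1 m1 = ⊤) (s1 : Finset ℕ) (hs1 : ∀ i ∈ s1, i < m1 ∧ NT (L1 i) (L1 (i + 1)))
    (c1 : s1.card = a)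
    (m2 : ℕ) (L2 : ℕ → Subgroup (G ⧸ N))
    (h2 : ∀ i < m2, L2 i ≤ L2 (i + 1) ∧ ∀ x ∈ L2 i, ∀ g ∈ L2 (i + 1), g * x * g⁻¹ ∈ L2 i)
    (s2 : Finset ℕ) (hs2 : ∀ i ∈ s2, i < m2 ∧ NT (L2 i) (L2 (i + 1)))
    (c2 : s2.card = b) :
    ∃ (m : ℕ) (L : ℕ → Subgroup G),
    (∀ i < m, L i ≤ L (i + 1) ∧ ∀ x ∈ L i, ∀ g ∈ L (i + 1), g * x * g⁻¹ ∈ L i) ∧
    (L m = (L2 m2).comap (QuotientGroup.mk' N)) ∧
    ∃ s : Finset ℕ, (∀ i ∈ s, i < m ∧ NT (L i) (L (i + 1))) ∧ s.card = a + b := by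
  classical
  set L : ℕ → Subgroup G := fun i => if i ≤ m1 then (L1 i).map N.subtype else
    (L2 (i - m1 - 1)).comap (QuotientGroup.mk' N) with hL
  have hLa : ∀ i, i ≤ m1 → L i = (L1 i).map N.subtype := fun i hi => by simp only [hL, if_pos hi]
  have hLb : ∀ j, L (m1 + 1 + j) = (L2 j).comap (QuotientGroup.mk' N) := fun j => by
    have h : ¬ (m1 + 1 + j ≤ m1) := by omega
    have h' : m1 + 1 + j - m1 - 1 = j := by omega
    simp only [hL, if_neg h, h']
  have hcase : ∀ i, i < m1 ∨ i = m1 ∨ ∃ j, i = m1 + 1 + j := by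
    intro i
    rcases lt_trichotomy i m1 with h | h | h
    · exact Or.inl h
    · exact Or.inr (Or.inl h)
    · exact Or.inr (Or.inr ⟨i - m1 - 1, by omega⟩)
  refine ⟨m1 + 1 + m2, L, ?_, hLb m2, s1 ∪ s2.map (addLeftEmbedding (m1 + 1)), ?_, ?_⟩
  · intro i hi
    rcases hcase i with h | h | ⟨j, h⟩
    · rw [hLa i h.le, hLa (i + 1) h]
      refine ⟨Subgroup.map_mono (h1 i h).1, ?_⟩
      rintro _ ⟨x, hx, rfl⟩ _ ⟨g, hg, rfl⟩
      exact ⟨g * x * g⁻¹, (h1 i h).2 x hx g hg, by simp⟩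
    · subst h
      rw [hLa i le_rfl, show i + 1 = i + 1 + 0 from rfl, hLb 0, t1]
      constructor
      · rintro _ ⟨x, _, rfl⟩
        rw [Subgroup.mem_comap]
        have : (QuotientGroup.mk' N) (N.subtype x) = 1 := by
          simp
        rw [this]
        exact one_mem _
      · rintro _ ⟨x, _, rfl⟩ g _
        exact ⟨⟨g * x * g⁻¹, Subgroup.Normal.conj_mem inferInstance _ x.2 g⟩, trivial, rfl⟩
    · subst h
      have hj : j < m2 := by omega
      rw [hLb j, show m1 + 1 + j + 1 = m1 + 1 + (j + 1) by ring, hLb (j + 1)]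
      refine ⟨Subgroup.comap_mono (h2 j hj).1, ?_⟩
      intro x hx g hg
      rw [Subgroup.mem_comap] at hx hg ⊢
      rw [map_mul, map_mul, map_inv]
      exact (h2 j hj).2 _ hx _ hg
  · intro i hi
    rw [Finset.mem_union, Finset.mem_map] at hi
    rcases hi with hi | ⟨j, hj, rfl⟩
    · obtain ⟨him, g, hg, hgk⟩ := hs1 i hi
      refine ⟨by omega, ?_⟩
      rw [hLa i him.le, hLa (i + 1) him]
      refine ⟨N.subtype g, ⟨g, hg, rfl⟩, ?_⟩
      rintro k hk ⟨x, hx, hxk⟩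
      rw [← map_pow] at hxk
      have := N.subtype_injective hxk
      rw [this] at hx
      exact hgk k hk hx
    · obtain ⟨hjm, g, hg, hgk⟩ := hs2 j hj
      simp only [addLeftEmbedding_apply]
      refine ⟨by omega, ?_⟩
      rw [hLb j, show m1 + 1 + j + 1 = m1 + 1 + (j + 1) by ring, hLb (j + 1)]
      obtain ⟨g', rfl⟩ := QuotientGroup.mk'_surjective N g
      refine ⟨g', hg, fun k hk hk' => ?_⟩
      rw [Subgroup.mem_comap, map_pow] at hk'
      exact hgk k hk hk'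
  · rw [Finset.card_union_of_disjoint, Finset.card_map, c1, c2]
    rw [Finset.disjoint_left]
    intro i hi hi'
    rw [Finset.mem_map] at hi'
    obtain ⟨j, _, hj⟩ := hi'
    have := (hs1 i hi).1
    simp only [addLeftEmbedding_apply] at hj
    omega

theorem HasTop.ext {G : Type} [Group G] (N : Subgroup G) [N.Normal] {a b : ℕ}
    (h1 : HasTop N a) (h2 : HasTop (G ⧸ N) b) : HasTop G (a + b) := by
  obtain ⟨m1, L1, h1, t1, s1, hs1, c1⟩ := h1
  obtain ⟨m2, L2, h2, t2, s2, hs2, c2⟩ := h2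
  obtain ⟨m, L, h, t, s, hs, c⟩ := ext_core N m1 L1 h1 t1 s1 hs1 c1 m2 L2 h2 s2 hs2 c2
  refine ⟨m, L, h, ?_, s, hs, c⟩
  rw [t, t2, Subgroup.comap_top]

theorem HasTop.extChain {G : Type} [Group G] (N : Subgroup G) [N.Normal] {a b : ℕ}
    (h1 : HasTop N a) (h2 : HasChain (G ⧸ N) b) : HasChain G (a + b) := by
  obtain ⟨m1, L1, h1, t1, s1, hs1, c1⟩ := h1
  obtain ⟨m2, L2, h2, s2, hs2, c2⟩ := h2
  obtain ⟨m, L, h, t, s, hs, c⟩ := ext_core N m1 L1 h1 t1 s1 hs1 c1 m2 L2 h2 s2 hs2 c2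
  exact ⟨m, L, h, s, hs, c⟩

private lemma split_aux {G : Type} [Group G] (K M : Subgroup G)
    (h : ∀ x ∈ K, ∀ g ∈ M, g * x * g⁻¹ ∈ K) {x n : G} (hx : x ∈ K) (hn : n ∈ M) (j : ℕ) :
    (x * n) ^ j * (n ^ j)⁻¹ ∈ K := by
  induction j with
  | zero => simp
  | succ j ih =>
    have h1 : (x * n) ^ (j + 1) * (n ^ (j + 1))⁻¹ =
        ((x * n) ^ j * (n ^ j)⁻¹) * (n ^ j * x * (n ^ j)⁻¹) := by
      rw [pow_succ, pow_succ]
      group
    rw [h1]
    exact mul_mem ih (h x hx _ (pow_mem hn j))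

theorem HasChain.split {G : Type} [Group G] (N : Subgroup G) [N.Normal] {n : ℕ}
    (h : HasChain G n) : ∃ a b : ℕ, HasChain N a ∧ HasChain (G ⧸ N) b ∧ a + b = n := by
  classical
  obtain ⟨m, L, hL, s, hs, hn⟩ := h
  set L1 : ℕ → Subgroup N := fun i => (L i).comap N.subtype with hL1
  set L2 : ℕ → Subgroup (G ⧸ N) := fun i => (L i).map (QuotientGroup.mk' N) with hL2
  refine ⟨(s.filter (fun i => NT (L1 i) (L1 (i + 1)))).card,
    (s.filter (fun i => ¬ NT (L1 i) (L1 (i + 1)))).card, ?_, ?_, ?_⟩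
  · refine ⟨m, L1, ?_, s.filter (fun i => NT (L1 i) (L1 (i + 1))), ?_, rfl⟩
    · intro i hi
      refine ⟨Subgroup.comap_mono (hL i hi).1, ?_⟩
      intro x hx g hg
      exact (hL i hi).2 _ hx _ hg
    · intro i hi
      rw [Finset.mem_filter] at hi
      exact ⟨(hs i hi.1).1, hi.2⟩
  · refine ⟨m, L2, ?_, s.filter (fun i => ¬ NT (L1 i) (L1 (i + 1))), ?_, rfl⟩
    · intro i hi
      refine ⟨Subgroup.map_mono (hL i hi).1, ?_⟩
      rintro _ ⟨x, hx, rfl⟩ _ ⟨g, hg, rfl⟩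
      exact ⟨g * x * g⁻¹, (hL i hi).2 x hx g hg, by simp⟩
    · intro i hi
      rw [Finset.mem_filter] at hi
      obtain ⟨his, hnt⟩ := hi
      obtain ⟨him, g, hg, hgk⟩ := hs i his
      refine ⟨him, QuotientGroup.mk' N g, ⟨g, hg, rfl⟩, ?_⟩
      rintro k hk ⟨x, hx, hxk⟩
      rw [← map_pow] at hxk
      have hmem : x⁻¹ * g ^ k ∈ N := by
        rw [← QuotientGroup.eq]
        exact hxk
      have hx' : x ∈ L (i + 1) := (hL i him).1 hx
      have hmem2 : x⁻¹ * g ^ k ∈ L (i + 1) := mul_mem (inv_mem hx') (pow_mem hg k)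
      apply hnt
      by_contra hnt'
      rw [NT] at hnt'
      push Not at hnt'
      obtain ⟨j, hj, hjn⟩ := hnt' ⟨x⁻¹ * g ^ k, hmem⟩ hmem2
      have h3 := split_aux (L i) (L (i + 1)) (hL i him).2 hx hmem2 j
      have h4 : (x⁻¹ * g ^ k) ^ j ∈ L i := hjn
      have h5 := mul_mem h3 h4
      rw [inv_mul_cancel_right, mul_inv_cancel_left, ← pow_mul] at h5
      exact hgk (k * j) (Nat.mul_pos hk hj) h5
  · rw [← hn]
    exact Finset.card_filter_add_card_filter_not _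

open scoped commutatorElement in
private lemma top_aux (k : ℕ) : ∀ (G : Type) [Group G], derivedSeries G k = ⊥ → ∀ {n : ℕ},
    HasChain G n → HasTop G n := by
  induction k with
  | zero =>
    intro G _ hG n h
    rw [derivedSeries_zero] at hG
    have hsub : Subsingleton G := by
      refine ⟨fun a b => ?_⟩
      have ha : a ∈ (⊥ : Subgroup G) := hG ▸ Subgroup.mem_top a
      have hb : b ∈ (⊥ : Subgroup G) := hG ▸ Subgroup.mem_top b
      rw [Subgroup.mem_bot] at ha hb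
      rw [ha, hb]
    obtain ⟨m, L, hL, s, hs, hn⟩ := h
    refine ⟨m, fun _ => ⊤, fun i _ => ⟨le_rfl, fun _ _ _ _ => Subgroup.mem_top _⟩, rfl, s, ?_, hn⟩
    intro i hi
    obtain ⟨_, g, _, hgk⟩ := hs i hi
    exact absurd (by rw [Subsingleton.elim (g ^ 1) 1]; exact one_mem _) (hgk 1 one_pos)
  | succ k ih =>
    intro G _ hG n h
    have hnorm : (derivedSeries G k).Normal := inferInstance
    obtain ⟨a, b, ha, hb, hab⟩ := HasChain.split (derivedSeries G k) h
    have hcomm : ∀ x y : derivedSeries G k, x * y = y * x := by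
      intro x y
      have h1 : ⁅(x : G), (y : G)⁆ ∈ ⁅derivedSeries G k, derivedSeries G k⁆ :=
        Subgroup.commutator_mem_commutator x.2 y.2
      rw [← derivedSeries_succ, hG, Subgroup.mem_bot, commutatorElement_eq_one_iff_mul_comm] at h1
      exact Subtype.ext h1
    have ha' : HasTop (derivedSeries G k) a := by
      letI : CommGroup (derivedSeries G k) :=
        { (inferInstance : Group (derivedSeries G k)) with mul_comm := hcomm }
      exact HasChain.top_of_comm ha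
    have hb' : HasTop (G ⧸ derivedSeries G k) b := by
      refine ih (G ⧸ derivedSeries G k) ?_ hb
      rw [← map_derivedSeries_eq (QuotientGroup.mk'_surjective (derivedSeries G k)) k,
        QuotientGroup.map_mk'_self]
    rw [← hab]
    exact HasTop.ext _ ha' hb'

theorem HasChain.top {G : Type} [Group G] (hs : Group.IsSolvable G) {n : ℕ} (h : HasChain G n) :
    HasTop G n := by
  obtain ⟨k, hk⟩ := hs.solvable
  exact top_aux k G hk h

end Pool.Agent.H652.SR
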