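import Mathlib
import Pool.Agent.H652.SR.Defs
import Pool.Agent.H652.SR.Jshba
import Pool.Agent.H652.SR.Jshbb

set_option autoImplicit false

open scoped IsMulCommutative

namespace Pool.Agent.H652.SR

theorem SHB.ext {G : Type} [Group G] (N : Subgroup G) [N.Normal] {a b : ℕ}
    (h1 : SHB N a) (h2 : SHB (G ⧸ N) b) : SHB G (a + b) := by
  intro m hm
  obtain ⟨x, y, hx, hy, rfl⟩ := hm.split N
  have hx' := h1 x hx
  have hy' := h2 y hy
  omega

theorem HasChain.of_index {G : Type} [Group G] (H : Subgroup G) (hH : H.index ≠ 0) {n : ℕ}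
    (h : HasChain G n) : HasChain H n := by
  obtain ⟨m, L, hL, s, hs, hc⟩ := h
  refine ⟨m, fun i => (L i).subgroupOf H, ?_, s, ?_, hc⟩
  · intro i hi
    obtain ⟨h1, h2⟩ := hL i hi
    refine ⟨fun x hx => ?_, fun x hx g hg => ?_⟩
    · rw [Subgroup.mem_subgroupOf] at hx ⊢
      exact h1 hx
    · rw [Subgroup.mem_subgroupOf] at hx hg ⊢
      exact h2 _ hx _ hg
  · intro i hi
    obtain ⟨h1, g, hg, hk⟩ := hs i hi
    refine ⟨h1, ?_⟩
    obtain ⟨j, hj, -, hjH⟩ := Subgroup.exists_pow_mem_of_index_ne_zero hH g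
    refine ⟨⟨g ^ j, hjH⟩, ?_, ?_⟩
    · rw [Subgroup.mem_subgroupOf]
      exact pow_mem hg j
    · intro k hk0 hmem
      rw [Subgroup.mem_subgroupOf] at hmem
      refine hk (j * k) (Nat.mul_pos hj hk0) ?_
      rw [pow_mul]
      exact hmem

theorem SHB.of_index {G : Type} [Group G] (H : Subgroup G) (hH : H.index ≠ 0) {n : ℕ}
    (h : SHB H n) : SHB G n := by
  intro m hm
  exact h m (HasChain.of_index H hH hm)

theorem SHB.of_torsion {G : Type} [Group G] (h : ∀ g : G, IsOfFinOrder g) : SHB G 0 := by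
  rintro m ⟨k, L, hL, s, hs, hc⟩
  have : s = ∅ := by
    rw [Finset.eq_empty_iff_forall_notMem]
    intro i hi
    obtain ⟨-, g, -, hg⟩ := hs i hi
    obtain ⟨j, hj, hj1⟩ := (isOfFinOrder_iff_pow_eq_one.1 (h g))
    exact hg j hj (by rw [hj1]; exact one_mem _)
  rw [this] at hc
  simp at hc
  omega

theorem SHB.subsingleton {G : Type} [Group G] (h : SHB G 0) (htf : TF G) : Subsingleton G := by
  by_contra hne
  rw [not_subsingleton_iff_nontrivial] at hne
  obtain ⟨g, hg⟩ := exists_ne (1 : G)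
  have hfin : ¬ IsOfFinOrder g := fun hf => hg (htf g hf)
  have hch : HasChain G 1 := by
    refine ⟨1, fun i => if i = 0 then ⊥ else Subgroup.zpowers g, ?_, {0}, ?_, by simp⟩
    · intro i hi
      have hi0 : i = 0 := by omega
      subst hi0
      refine ⟨by simp, ?_⟩
      intro x hx y _
      have hx' : x = 1 := by simpa using hx
      simp [hx']
    · intro i hi
      have hi0 : i = 0 := by simpa using hi
      subst hi0
      refine ⟨by omega, g, ?_, ?_⟩
      · simp
      · intro k hk hmem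
        have hmem' : g ^ k = 1 := by simpa using hmem
        exact hfin (isOfFinOrder_iff_pow_eq_one.2 ⟨k, hk, hmem'⟩)
  have := h 1 hch
  omega

theorem SHB.ker {G : Type} [Group G] (hs : Group.IsSolvable G) {n m : ℕ} (h : SHB G n) (N : Subgroup G) [N.Normal]
    (h2 : HasChain (G ⧸ N) m) : m ≤ n ∧ SHB N (n - m) := by
  have hN : ∀ a, HasChain N a → a + m ≤ n := fun a ha =>
    h _ ((ha.top inferInstance).extChain N h2)
  have h0 : HasChain N 0 := ⟨0, fun _ => ⊥, fun i hi => absurd hi (Nat.not_lt_zero i), ∅,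
    fun i hi => absurd hi (Finset.notMem_empty i), Finset.card_empty⟩
  have hm := hN 0 h0
  refine ⟨by omega, fun a ha => ?_⟩
  have := hN a ha
  omega

end Pool.Agent.H652.SR
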