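import Mathlib
import Pool.Agent.H652.SR.Defs
import Pool.Agent.H652.SR.Jshba

set_option autoImplicit false

open scoped IsMulCommutative

namespace Pool.Agent.H652.SR

theorem SHB.of_rank {A : Type} [CommGroup A] (r : ℕ) (h : Module.rank ℤ (Additive A) ≤ r) :
    SHB A r := by
  rintro n ⟨m, L, hL, s, hs, rfl⟩
  have hmono : ∀ i j, i ≤ j → j ≤ m → L i ≤ L j := by
    intro i j hij
    induction j, hij using Nat.le_induction with
    | base => intro _; exact le_rfl
    | succ j _ ih => intro hj; exact (ih (by omega)).trans (hL j (by omega)).1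
  have hch : ∀ i : s, ∃ g ∈ L (i.1 + 1), ∀ k : ℕ, 0 < k → g ^ k ∉ L i.1 := fun i => (hs i.1 i.2).2
  choose g hg hgk using hch
  have hli : LinearIndependent ℤ (fun i : s => Additive.ofMul (g i)) := by
    rw [linearIndependent_iff']
    intro t c hsum
    by_contra hcon
    push Not at hcon
    obtain ⟨i₁, hi₁t, hi₁⟩ := hcon
    set T := t.filter (fun i => c i ≠ 0) with hT
    have hTne : T.Nonempty := ⟨i₁, Finset.mem_filter.mpr ⟨hi₁t, hi₁⟩⟩
    obtain ⟨i₀, hi₀T, hmax⟩ := T.exists_max_image (fun i => (i : ℕ)) hTne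
    obtain ⟨hi₀t, hi₀⟩ := Finset.mem_filter.mp hi₀T
    have hi₀m := (hs i₀.1 i₀.2).1

    have hother : ∀ i ∈ t.erase i₀, c i • Additive.ofMul (g i) ∈ (L i₀.1).toAddSubgroup := by
      intro i hi
      obtain ⟨hne, hit⟩ := Finset.mem_erase.mp hi
      by_cases hc : c i = 0
      · rw [hc, zero_smul]
        exact AddSubgroup.zero_mem _
      · have h1 := hmax i (Finset.mem_filter.mpr ⟨hit, hc⟩)
        have h2 : (i : ℕ) < i₀ := lt_of_le_of_ne h1 fun h => hne (Subtype.ext h)
        apply AddSubgroup.zsmul_mem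
        show g i ∈ L i₀.1
        exact hmono (i.1 + 1) i₀.1 h2 hi₀m.le (hg i)
    have h1 : c i₀ • Additive.ofMul (g i₀) ∈ (L i₀.1).toAddSubgroup := by
      have h2 := Finset.add_sum_erase t (fun i => c i • Additive.ofMul (g i)) hi₀t
      rw [hsum] at h2
      have h3 : c i₀ • Additive.ofMul (g i₀) =
          -(∑ i ∈ t.erase i₀, c i • Additive.ofMul (g i)) := eq_neg_of_add_eq_zero_left h2
      rw [h3]
      exact AddSubgroup.neg_mem _ (AddSubgroup.sum_mem _ hother)
    have h2 : g i₀ ^ (c i₀) ∈ L i₀.1 := h1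
    apply hgk i₀ (c i₀).natAbs (Int.natAbs_pos.mpr hi₀)
    rcases Int.natAbs_eq (c i₀) with h3 | h3
    · rw [h3, zpow_natCast] at h2
      exact h2
    · rw [h3, zpow_neg, zpow_natCast] at h2
      exact (Subgroup.inv_mem_iff _).mp h2
  have h1 := hli.cardinal_le_rank
  have h2 : (s.card : Cardinal) ≤ r := by
    refine le_trans (le_of_eq ?_) (h1.trans h)
    simp
  exact_mod_cast h2

theorem HasChain.of_rank {A : Type} [CommGroup A] (r : ℕ)
    (h : (r : Cardinal) ≤ Module.rank ℤ (Additive A)) : HasChain A r := by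
  obtain ⟨b, hb⟩ := Module.le_rank_iff.mp h
  set L : ℕ → Subgroup A := fun i =>
    Subgroup.closure {x | ∃ j : Fin r, (j : ℕ) < i ∧ x = Additive.toMul (b j)} with hL
  refine ⟨r, L, fun i _ => ⟨?_, ?_⟩, Finset.range r, fun i hi => ⟨Finset.mem_range.mp hi, ?_⟩,
    Finset.card_range r⟩
  · apply Subgroup.closure_mono
    rintro x ⟨j, hj, rfl⟩
    exact ⟨j, by omega, rfl⟩
  · intro x hx g _
    rw [mul_comm g x, mul_inv_cancel_right]
    exact hx
  · have hir : i < r := Finset.mem_range.mp hi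
    refine ⟨Additive.toMul (b ⟨i, hir⟩), Subgroup.subset_closure ⟨⟨i, hir⟩, by simp, rfl⟩, ?_⟩
    intro k hk hmem
    have hspan : ∀ x ∈ L i, Additive.ofMul x ∈
        Submodule.span ℤ (b '' (Set.univ \ {(⟨i, hir⟩ : Fin r)})) := by
      intro x hx
      induction hx using Subgroup.closure_induction with
      | mem x hx =>
        obtain ⟨j, hj, rfl⟩ := hx
        apply Submodule.subset_span
        refine ⟨j, ⟨Set.mem_univ _, ?_⟩, rfl⟩
        intro h
        rw [Set.mem_singleton_iff] at h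
        subst h
        simp at hj
      | one => exact Submodule.zero_mem _
      | mul x y _ _ ihx ihy => exact Submodule.add_mem _ ihx ihy
      | inv x _ ihx => exact Submodule.neg_mem _ ihx
    have h1 := hspan _ hmem
    have h2 : Additive.ofMul ((Additive.toMul (b ⟨i, hir⟩)) ^ k) = (k : ℤ) • b ⟨i, hir⟩ := by
      rw [ofMul_pow, ofMul_toMul, natCast_zsmul]
    rw [h2] at h1
    have h3 := hb.eq_zero_of_smul_mem_span ⟨i, hir⟩ (k : ℤ) h1
    omega

theorem SHB.rank_le {A : Type} [CommGroup A] {r : ℕ} (h : SHB A r) :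
    Module.rank ℤ (Additive A) ≤ r := by
  by_contra hcon
  rw [not_le] at hcon
  have h1 : ((r + 1 : ℕ) : Cardinal) ≤ Module.rank ℤ (Additive A) := by
    rw [← Nat.succ_eq_add_one, Cardinal.nat_succ]
    exact Order.succ_le_of_lt hcon
  have h2 := h (r + 1) (HasChain.of_rank (r + 1) h1)
  omega

end Pool.Agent.H652.SR
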