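import Mathlib
import Pool.Agent.H652.SR.Defs
import Pool.Agent.H652.SR.Jshba
import Pool.Agent.H652.SR.Jshbb
import Pool.Agent.H652.SR.Jshbc
import Pool.Agent.H652.SR.Jshbd

set_option autoImplicit false

open scoped IsMulCommutative

namespace Pool.Agent.H652.SR

private lemma RankOne.of_equiv {T S : Type} [Group T] [Group S] (e : T ≃* S) (h : RankOne T) :
    RankOne S := by
  obtain ⟨h1, h2, h3, h4⟩ := h
  have inj := e.symm.injective
  refine ⟨e.symm.toEquiv.nontrivial, ?_, ?_, ?_⟩
  · intro g hg
    have h5 : e.symm g = 1 := h2 _ (MonoidHom.isOfFinOrder e.symm.toMonoidHom hg)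
    exact inj (by rw [h5, map_one])
  · intro a b
    exact inj (by rw [map_mul, map_mul, h3])
  · intro a b ha hb
    obtain ⟨m, n, hm, hn, hmn⟩ := h4 (e.symm a) (e.symm b)
      (fun h => ha (inj (by rw [h, map_one]))) (fun h => hb (inj (by rw [h, map_one])))
    exact ⟨m, n, hm, hn, inj (by rw [map_zpow, map_zpow, hmn])⟩

private lemma PR.of_equiv_aux {X : Type} [Group X] {c : ℕ} (h : PR X c) :
    ∀ (Y : Type) [Group Y], (X ≃* Y) → PR Y c := by
  induction h with
  | triv X h =>
    intro Y _ e
    exact PR.triv Y (e.symm.toEquiv.subsingleton)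
  | ext X N c hN hq ih =>
    intro Y _ e
    have hnorm : (N.map (e : X →* Y)).Normal := Subgroup.Normal.map inferInstance _ e.surjective
    exact PR.ext Y (N.map (e : X →* Y)) c (ih _ (e.subgroupMap N))
      (hq.of_equiv (QuotientGroup.congr N _ e rfl))

theorem PR.of_equiv {X Y : Type} [Group X] [Group Y] (e : X ≃* Y) {c : ℕ} (h : PR X c) :
    PR Y c := by
  exact PR.of_equiv_aux h Y e

private lemma PR.extn_aux {Q : Type} [Group Q] {b : ℕ} (h : PR Q b) :
    ∀ (K : Type) [Group K] (X : Type) [Group X] (i : K →* X) (f : X →* Q) (a : ℕ),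
      Function.Injective i → Function.Surjective f → (∀ x, f x = 1 ↔ ∃ k, i k = x) → PR K a →
      PR X (a + b) := by
  induction h with
  | triv Q h =>
    intro K _ X _ i f a hi hf hex hK
    have hs : Function.Surjective i := by
      intro x
      exact (hex x).1 (Subsingleton.elim _ _)
    exact PR.of_equiv (MulEquiv.ofBijective i ⟨hi, hs⟩) hK
  | ext Q M c hM hq ih =>
    intro K _ X _ i f a hi hf hex hK
    have hφ : Function.Surjective ((QuotientGroup.mk' M).comp f) :=
      (QuotientGroup.mk'_surjective M).comp hf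
    obtain ⟨L, hL⟩ : ∃ L : Subgroup X, L = ((QuotientGroup.mk' M).comp f).ker := ⟨_, rfl⟩
    have hLn : L.Normal := by rw [hL]; infer_instance
    have hmem : ∀ x, x ∈ L ↔ f x ∈ M := by
      intro x
      rw [hL, MonoidHom.mem_ker, MonoidHom.comp_apply, QuotientGroup.mk'_apply,
        QuotientGroup.eq_one_iff]
    have hPL : PR L (a + c) := by
      refine ih K L (i.codRestrict L ?_) ((f.comp L.subtype).codRestrict M ?_) a ?_ ?_ ?_ hK
      · intro k
        rw [hmem, (hex _).2 ⟨k, rfl⟩]
        exact M.one_mem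
      · intro x
        exact (hmem _).1 x.2
      · intro x y hxy
        exact hi (congrArg Subtype.val hxy)
      · intro y
        obtain ⟨x, hx⟩ := hf y.1
        refine ⟨⟨x, (hmem x).2 (by rw [hx]; exact y.2)⟩, ?_⟩
        exact Subtype.ext hx
      · intro x
        constructor
        · intro hx
          have h1 : f x.1 = 1 := congrArg Subtype.val hx
          obtain ⟨k, hk⟩ := (hex _).1 h1
          exact ⟨k, Subtype.ext hk⟩
        · rintro ⟨k, rfl⟩
          apply Subtype.ext
          exact (hex _).2 ⟨k, rfl⟩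
    have hqL : RankOne (X ⧸ L) := by
      subst hL
      exact hq.of_equiv (QuotientGroup.quotientKerEquivOfSurjective _ hφ).symm
    exact PR.ext X L (a + c) hPL hqL

theorem PR.extn {X : Type} [Group X] (N : Subgroup X) [N.Normal] {a b : ℕ} (h1 : PR N a)
    (h2 : PR (X ⧸ N) b) : PR X (a + b) := by
  refine PR.extn_aux h2 N X N.subtype (QuotientGroup.mk' N) a N.subtype_injective
    (QuotientGroup.mk'_surjective N) ?_ h1
  intro x
  rw [QuotientGroup.mk'_apply, QuotientGroup.eq_one_iff]
  constructor
  · intro hx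
    exact ⟨⟨x, hx⟩, rfl⟩
  · rintro ⟨k, rfl⟩
    exact k.2

theorem PR.tf {X : Type} [Group X] {c : ℕ} (h : PR X c) : TF X := by
  induction h with
  | triv X h =>
    intro g _
    exact Subsingleton.elim _ _
  | ext X N c hN hq ih =>
    intro g hg
    have h1 : (QuotientGroup.mk' N) g = 1 := hq.2.1 _ (MonoidHom.isOfFinOrder _ hg)
    rw [QuotientGroup.mk'_apply, QuotientGroup.eq_one_iff] at h1
    have h2 : (⟨g, h1⟩ : N) = 1 := ih _ ((N.subtype_injective.isOfFinOrder_iff (f := N.subtype)).1 hg)
    exact congrArg Subtype.val h2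

private lemma RankOne.shb {T : Type} [Group T] (h : RankOne T) : SHB T 1 := by
  classical
  let _ : CommGroup T := { (inferInstance : Group T) with mul_comm := h.2.2.1 }
  refine SHB.of_rank (A := T) 1 ?_
  refine rank_le ?_
  intro s hs
  by_contra hcard
  push Not at hcard
  obtain ⟨a, ha, b, hb, hab⟩ := Finset.one_lt_card.1 hcard
  have hinj : Function.Injective (![(⟨a, ha⟩ : s), ⟨b, hb⟩]) := by
    intro x y hxy
    fin_cases x <;> fin_cases y <;> simp_all
  have h2 := hs.comp _ hinj
  have h3 : LinearIndependent ℤ ![a, b] := by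
    convert h2 using 1
    funext x
    fin_cases x <;> rfl
  rw [LinearIndependent.pair_iff] at h3
  have ha0 : a ≠ 0 := by
    intro h0
    have := h3 1 0 (by rw [h0]; simp)
    exact one_ne_zero this.1
  have hb0 : b ≠ 0 := by
    intro h0
    have := h3 0 1 (by rw [h0]; simp)
    exact one_ne_zero this.2
  obtain ⟨m, n, hm, hn, hmn⟩ := h.2.2.2 (Additive.toMul a) (Additive.toMul b)
    (fun h => ha0 h) (fun h => hb0 h)
  have h4 : m • a = n • b := hmn
  have h5 := h3 m (-n) (by rw [neg_smul, h4, add_neg_cancel])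
  exact hm h5.1

theorem PR.shb {X : Type} [Group X] {c : ℕ} (h : PR X c) : SHB X c := by
  induction h with
  | triv X h =>
    refine SHB.of_torsion fun g => ?_
    have : g = 1 := Subsingleton.elim _ _
    rw [this]
    exact IsOfFinOrder.one
  | ext X N c hN hq ih =>
    exact SHB.ext N ih hq.shb

theorem PR.top {X : Type} [Group X] {c : ℕ} (h : PR X c) : HasTop X c := by
  induction h with
  | triv X h =>
    refine ⟨0, fun _ => ⊤, ?_, rfl, ∅, ?_, rfl⟩
    · intro i hi
      omega
    · intro i hi
      simp at hi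
  | ext X N c hN hq ih =>
    refine HasTop.ext N ih ?_
    obtain ⟨h1, h2, h3, h4⟩ := hq
    refine ⟨1, fun i => if i = 0 then ⊥ else ⊤, ?_, ?_, {0}, ?_, rfl⟩
    · intro i hi
      have : i = 0 := by omega
      subst this
      constructor
      · simp
      · intro x hx g _
        change x ∈ (⊥ : Subgroup (X ⧸ N)) at hx
        change g * x * g⁻¹ ∈ (⊥ : Subgroup (X ⧸ N))
        rw [Subgroup.mem_bot] at hx ⊢
        rw [hx]; group
    · simp
    · intro i hi
      rw [Finset.mem_singleton] at hi
      subst hi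
      refine ⟨zero_lt_one, ?_⟩
      obtain ⟨g, hg⟩ := exists_ne (1 : X ⧸ N)
      refine ⟨g, by simp, ?_⟩
      intro k hk hgk
      change g ^ k ∈ (⊥ : Subgroup (X ⧸ N)) at hgk
      rw [Subgroup.mem_bot] at hgk
      exact hg (h2 g (isOfFinOrder_iff_pow_eq_one.2 ⟨k, hk, hgk⟩))

end Pool.Agent.H652.SR
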