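import Mathlib
import Pool.Agent.H652.SR.Defs
import Pool.Agent.H652.SR.Jfpow
import Pool.Agent.H652.SR.Jpcta
import Pool.Agent.H652.SR.Jpctb
import Pool.Agent.H652.SR.Jpra

set_option autoImplicit false

open scoped IsMulCommutative

namespace Pool.Agent.H652.SR

private theorem RankOne.of_inj {S T : Type} [Group S] [Group T] (h : RankOne T) (f : S →* T)
    (hf : Function.Injective f) (hne : Nontrivial S) : RankOne S := by
  obtain ⟨_, h2, h3, h4⟩ := h
  refine ⟨hne, ?_, ?_, ?_⟩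
  · intro g hg
    apply hf
    rw [map_one]
    exact h2 _ (f.isOfFinOrder hg)
  · intro a b
    apply hf
    rw [map_mul, map_mul]
    exact h3 _ _
  · intro a b ha hb
    have ha' : f a ≠ 1 := fun h => ha (hf (by rw [h, map_one]))
    have hb' : f b ≠ 1 := fun h => hb (hf (by rw [h, map_one]))
    obtain ⟨m, n, hm, hn, h⟩ := h4 _ _ ha' hb'
    refine ⟨m, n, hm, hn, hf ?_⟩
    rw [map_zpow, map_zpow]
    exact h

private theorem tf_zpow {V : Type} [Group V] (h : TF V) {a : V} {d : ℤ} (hd : d ≠ 0) (ha : a ^ d = 1) :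
    a = 1 := by
  apply h
  rw [isOfFinOrder_iff_pow_eq_one]
  refine ⟨d.natAbs, Int.natAbs_pos.2 hd, ?_⟩
  rcases Int.natAbs_eq d with h1 | h1
  · rw [h1, zpow_natCast] at ha
    exact ha
  · rw [h1, zpow_neg, zpow_natCast, inv_eq_one] at ha
    exact ha

private theorem RankOne.cyc {V : Type} [Group V] (h : RankOne V) (a b : V) :
    ∃ (x : V) (i j : ℤ), a = x ^ i ∧ b = x ^ j := by
  obtain ⟨_, h2, h3, h4⟩ := h
  by_cases ha : a = 1
  · exact ⟨b, 0, 1, by rw [zpow_zero, ha], by rw [zpow_one]⟩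
  by_cases hb : b = 1
  · exact ⟨a, 1, 0, by rw [zpow_one], by rw [zpow_zero, hb]⟩
  obtain ⟨m, n, hm, hn, hmn⟩ := h4 a b ha hb
  have hd : ((Int.gcd m n : ℕ) : ℤ) ≠ 0 := by
    have : Int.gcd m n ≠ 0 := by
      rw [Ne, Int.gcd_eq_zero_iff]
      exact fun h => hm h.1
    exact_mod_cast this
  obtain ⟨m', hm'⟩ := Int.gcd_dvd_left m n
  obtain ⟨n', hn'⟩ := Int.gcd_dvd_right m n
  have hcop : ∃ u v : ℤ, u * m' + v * n' = 1 := by
    refine ⟨Int.gcdA m n, Int.gcdB m n, ?_⟩
    have h5 := Int.gcd_eq_gcd_ab m n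
    have h6 : ((Int.gcd m n : ℕ) : ℤ) * (Int.gcdA m n * m' + Int.gcdB m n * n') =
        ((Int.gcd m n : ℕ) : ℤ) * 1 := by
      calc ((Int.gcd m n : ℕ) : ℤ) * (Int.gcdA m n * m' + Int.gcdB m n * n')
          = (((Int.gcd m n : ℕ) : ℤ) * m') * Int.gcdA m n +
            (((Int.gcd m n : ℕ) : ℤ) * n') * Int.gcdB m n := by ring
        _ = m * Int.gcdA m n + n * Int.gcdB m n := by rw [← hm', ← hn']
        _ = ((Int.gcd m n : ℕ) : ℤ) * 1 := by rw [mul_one, h5]
    exact mul_left_cancel₀ hd h6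
  obtain ⟨u, v, huv⟩ := hcop
  have hcomm : Commute a b := h3 a b
  have hkey : a ^ m' = b ^ n' := by
    have h7 : (a ^ m' * (b ^ n')⁻¹) ^ ((Int.gcd m n : ℕ) : ℤ) = 1 := by
      have hc2 : Commute (a ^ m') ((b ^ n')⁻¹) := h3 _ _
      rw [hc2.mul_zpow, inv_zpow, ← zpow_mul, ← zpow_mul, mul_comm m', mul_comm n', ← hm', ← hn',
        hmn, mul_inv_cancel]
    have h8 := tf_zpow h2 hd h7
    exact mul_inv_eq_one.1 h8
  have hc3 : Commute (a ^ v) (b ^ u) := h3 _ _
  refine ⟨a ^ v * b ^ u, n', m', ?_, ?_⟩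
  · rw [hc3.mul_zpow, ← zpow_mul, ← zpow_mul, mul_comm u n', zpow_mul b n' u, ← hkey, ← zpow_mul,
      ← zpow_add]
    rw [show v * n' + m' * u = 1 by linarith [huv, mul_comm u m'], zpow_one]
  · rw [hc3.mul_zpow, ← zpow_mul, ← zpow_mul, mul_comm v m', zpow_mul a m' v, hkey, ← zpow_mul,
      ← zpow_add]
    rw [show n' * v + u * m' = 1 by linarith [huv, mul_comm v n'], zpow_one]

private theorem ab_core {Q : Type} [CommGroup Q] (p : ℕ) (hp : p.Prime) (T : Subgroup Q)
    (hT : ∀ t ∈ T, t ^ p = 1) (htf : ∀ w, w ^ p ∈ T → w ∈ T)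
    (hne : ∃ w : Q, ∀ y : Q, w⁻¹ * y ^ p ∉ T)
    (hfin : (powMonoidHom p : Q →* Q).range.index ≠ 0) :
    p * Nat.card T ≤ (powMonoidHom p : Q →* Q).range.index := by
  set R : Subgroup Q := (powMonoidHom p : Q →* Q).range with hR
  have h1 : R.relIndex (T ⊔ R) * (T ⊔ R).index = R.index := Subgroup.relIndex_mul_index le_sup_right
  have h2 : R.relIndex (T ⊔ R) = Nat.card T := by
    rw [Subgroup.relIndex_sup_right, ← Subgroup.inf_relIndex_right]
    have : R ⊓ T = ⊥ := by
      rw [eq_bot_iff]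
      rintro x ⟨⟨y, rfl⟩, hx⟩
      rw [Subgroup.mem_bot]
      exact hT _ (htf y hx)
    rw [this, Subgroup.relIndex_bot_left]
  have h3 : (T ⊔ R).index ≠ 0 := by
    intro h0
    rw [h0, mul_zero] at h1
    exact hfin h1.symm
  haveI : (T ⊔ R).FiniteIndex := ⟨h3⟩
  haveI : Finite (Q ⧸ (T ⊔ R)) := Subgroup.finite_quotient_of_finiteIndex
  have h4 : p ≤ (T ⊔ R).index := by
    obtain ⟨w, hw⟩ := hne
    have hw' : (QuotientGroup.mk w : Q ⧸ (T ⊔ R)) ≠ 1 := by
      intro h
      rw [QuotientGroup.eq_one_iff, Subgroup.mem_sup] at h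
      obtain ⟨t, ht, _, ⟨y, rfl⟩, hyw⟩ := h
      apply hw y
      have e : w⁻¹ * y ^ p = t⁻¹ := by
        rw [← hyw]
        simp only [powMonoidHom_apply, mul_inv_rev]
        rw [mul_right_comm, inv_mul_cancel, one_mul]
      rw [e]
      exact T.inv_mem ht
    have hwp : (QuotientGroup.mk w : Q ⧸ (T ⊔ R)) ^ p = 1 := by
      rw [← QuotientGroup.mk_pow, QuotientGroup.eq_one_iff]
      exact (le_sup_right : R ≤ T ⊔ R) ⟨w, rfl⟩
    have ho : orderOf (QuotientGroup.mk w : Q ⧸ (T ⊔ R)) = p := by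
      haveI : Fact p.Prime := ⟨hp⟩
      exact orderOf_eq_prime hwp hw'
    have hdvd := orderOf_dvd_natCard (QuotientGroup.mk w : Q ⧸ (T ⊔ R))
    rw [ho] at hdvd
    exact Nat.le_of_dvd Nat.card_pos hdvd
  calc p * Nat.card T = Nat.card T * p := mul_comm _ _
    _ ≤ Nat.card T * (T ⊔ R).index := Nat.mul_le_mul_left _ h4
    _ = R.index := by rw [← h2, h1]

private theorem core {H V : Type} [Group H] [Group V] (ψ : H →* V) (hψ : Function.Surjective ψ)
    (B : Subgroup H) [hBn : B.Normal] (hBA : B ≤ ψ.ker) (hV : RankOne V) (p : ℕ) (hp : p.Prime)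
    (hcomm : ∀ h : H, ∀ a ∈ ψ.ker, h * a * h⁻¹ * a⁻¹ ∈ B) (hexp : ∀ a ∈ ψ.ker, a ^ p ∈ B)
    (e : ℕ) (he : 0 < e) (hpct : PCT e V) (hpe : ¬ p ∣ e)
    (hfin : ∀ M : Subgroup H, (∀ a : H, a ^ p ∈ M) → M.index ≠ 0) :
    ∃ M : Subgroup H, M.Normal ∧ (∀ a b : H, a * b * a⁻¹ * b⁻¹ ∈ M) ∧ (∀ a : H, a ^ p ∈ M) ∧
      p * B.relIndex ψ.ker ≤ M.index := by

  have hcent : ∀ a ∈ ψ.ker, ∀ h : H,
      (QuotientGroup.mk h : H ⧸ B) * QuotientGroup.mk a =
        QuotientGroup.mk a * QuotientGroup.mk h := by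
    intro a ha h
    rw [← mul_inv_eq_one, mul_inv_rev, ← mul_assoc]
    have := hcomm h a ha
    rw [← QuotientGroup.eq_one_iff] at this
    exact this
  have hQ : ∀ x y : H ⧸ B, x * y = y * x := by
    intro x y
    induction x using QuotientGroup.induction_on with
    | H a =>
      induction y using QuotientGroup.induction_on with
      | H b =>
        obtain ⟨x, i, j, hi, hj⟩ := hV.cyc (ψ a) (ψ b)
        obtain ⟨x, rfl⟩ := hψ x
        have hu : (x ^ i)⁻¹ * a ∈ ψ.ker := by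
          rw [MonoidHom.mem_ker, map_mul, map_inv, map_zpow, hi, inv_mul_cancel]
        have hv : (x ^ j)⁻¹ * b ∈ ψ.ker := by
          rw [MonoidHom.mem_ker, map_mul, map_inv, map_zpow, hj, inv_mul_cancel]
        obtain ⟨u, hu', hua⟩ : ∃ u ∈ ψ.ker, a = x ^ i * u := ⟨_, hu, by group⟩
        obtain ⟨v, hv', hvb⟩ : ∃ v ∈ ψ.ker, b = x ^ j * v := ⟨_, hv, by group⟩
        have c1 := hcent u hu' (x ^ j)
        have c2 := hcent v hv' (x ^ i)
        have c3 := hcent u hu' v
        have c4 : (QuotientGroup.mk (x ^ i) : H ⧸ B) * QuotientGroup.mk (x ^ j) =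
            QuotientGroup.mk (x ^ j) * QuotientGroup.mk (x ^ i) := by
          rw [← QuotientGroup.mk_mul, ← QuotientGroup.mk_mul, ← zpow_add, ← zpow_add, add_comm]
        rw [hua, hvb, QuotientGroup.mk_mul, QuotientGroup.mk_mul]
        generalize (QuotientGroup.mk (x ^ i) : H ⧸ B) = X1 at *
        generalize (QuotientGroup.mk (x ^ j) : H ⧸ B) = X2 at *
        generalize (QuotientGroup.mk u : H ⧸ B) = U at *
        generalize (QuotientGroup.mk v : H ⧸ B) = W at *
        calc X1 * U * (X2 * W) = X1 * (U * X2) * W := by simp only [mul_assoc]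
          _ = X1 * (X2 * U) * W := by rw [c1]
          _ = (X1 * X2) * (U * W) := by simp only [mul_assoc]
          _ = (X2 * X1) * (W * U) := by rw [c4, c3]
          _ = X2 * (X1 * W) * U := by simp only [mul_assoc]
          _ = X2 * (W * X1) * U := by rw [c2]
          _ = X2 * W * (X1 * U) := by simp only [mul_assoc]
  obtain ⟨Q, instQ, π, hπ, hker⟩ : ∃ (Q : Type) (_ : CommGroup Q) (π : H →* Q),
      Function.Surjective π ∧ π.ker = B := by
    refine ⟨H ⧸ B, { (inferInstance : Group (H ⧸ B)) with mul_comm := hQ },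
      QuotientGroup.mk' B, QuotientGroup.mk'_surjective B, QuotientGroup.ker_mk' B⟩
  let T : Subgroup Q := ψ.ker.map π
  have hTmem : ∀ h : H, π h ∈ T → h ∈ ψ.ker := by
    rintro h ⟨a, ha, hah⟩
    have : a⁻¹ * h ∈ B := by
      rw [← hker, MonoidHom.mem_ker, map_mul, map_inv, hah, inv_mul_cancel]
    have h2 : h = a * (a⁻¹ * h) := by group
    rw [h2]
    exact ψ.ker.mul_mem ha (hBA this)
  have hT : ∀ t ∈ T, t ^ p = 1 := by
    rintro _ ⟨a, ha, rfl⟩
    rw [← map_pow, ← MonoidHom.mem_ker, hker]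
    exact hexp a ha
  have htf : ∀ w, w ^ p ∈ T → w ∈ T := by
    intro w hw
    obtain ⟨h, rfl⟩ := hπ w
    rw [← map_pow] at hw
    have h1 := hTmem _ hw
    rw [MonoidHom.mem_ker, map_pow] at h1
    have h2 : ψ h = 1 := hV.2.1 _ (isOfFinOrder_iff_pow_eq_one.2 ⟨p, hp.pos, h1⟩)
    exact ⟨h, h2, rfl⟩
  have hne : ∃ w : Q, ∀ y : Q, w⁻¹ * y ^ p ∉ T := by
    haveI : Nontrivial V := hV.1
    have h1 : ∃ v : V, ∀ y : V, y ^ p ≠ v := by
      letI : CommGroup V := { ‹Group V› with mul_comm := hV.2.2.1 }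
      have h2 := PCT.not_div (A := V) hV.2.1 he hpct p hp hpe
      by_contra hcon
      push Not at hcon
      apply h2
      rw [eq_top_iff]
      intro v _
      obtain ⟨y, hy⟩ := hcon v
      exact ⟨y, hy⟩
    obtain ⟨v, hv⟩ := h1
    obtain ⟨h, rfl⟩ := hψ v
    refine ⟨π h, ?_⟩
    intro y hy
    obtain ⟨g, rfl⟩ := hπ y
    rw [← map_pow, ← map_inv, ← map_mul] at hy
    have h3 := hTmem _ hy
    rw [MonoidHom.mem_ker, map_mul, map_inv, map_pow, inv_mul_eq_one] at h3
    exact hv _ h3.symm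
  have hidx : ((powMonoidHom p : Q →* Q).range.comap π).index =
      (powMonoidHom p : Q →* Q).range.index := Subgroup.index_comap_of_surjective _ hπ
  have hpow : ∀ a : H, a ^ p ∈ (powMonoidHom p : Q →* Q).range.comap π := by
    intro a
    exact ⟨π a, by rw [powMonoidHom_apply, map_pow]⟩
  have hfin' : (powMonoidHom p : Q →* Q).range.index ≠ 0 := by
    rw [← hidx]
    exact hfin _ hpow
  refine ⟨(powMonoidHom p : Q →* Q).range.comap π, inferInstance, ?_, hpow, ?_⟩
  · intro a b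
    have : π (a * b * a⁻¹ * b⁻¹) = 1 := by
      simp only [map_mul, map_inv]
      rw [mul_inv_cancel_comm, mul_inv_cancel]
    rw [Subgroup.mem_comap, this]
    exact Subgroup.one_mem _
  · rw [hidx, ← hker, Subgroup.relIndex_ker]
    exact ab_core p hp T hT htf hne hfin'

private theorem stepA {X : Type} [Group X] (N : Subgroup X) [hNn : N.Normal] (c : ℕ) (hN : PR N c)
    (L M : Subgroup N) (hL : L.index ≠ 0) (hML : M ≤ L)
    (hn : ∀ g ∈ L, ∀ m ∈ M, g * m * g⁻¹ ∈ M)
    (hc : ∀ a ∈ L, ∀ b ∈ L, a * b * a⁻¹ * b⁻¹ ∈ M) (hr : M.relIndex L ≠ 0) :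
    ∃ Y : Subgroup X, Y.index ≠ 0 ∧ L.map N.subtype ≤ Y ∧
      (∀ y ∈ Y, ∀ m ∈ M.map N.subtype, y * m * y⁻¹ ∈ M.map N.subtype) ∧
      (∀ y ∈ Y, ∀ l ∈ L.map N.subtype, y * l * y⁻¹ * l⁻¹ ∈ M.map N.subtype) := by
  have hM : M.index ≠ 0 := by
    rw [← Subgroup.relIndex_mul_index hML]
    exact mul_ne_zero hr hL
  obtain ⟨k, hkdef⟩ : ∃ k, k = (M.index).factorial := ⟨_, rfl⟩
  have hk : 0 < k := by rw [hkdef]; exact Nat.factorial_pos _
  obtain ⟨P', hP'def⟩ : ∃ P', P' = Subgroup.closure {x : N | ∃ y : N, x = y ^ k} := ⟨_, rfl⟩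
  have hP'i : P'.index ≠ 0 := by
    rw [hP'def]
    exact PR.finite_pow hN k hk
  have hP'M : P' ≤ M := by
    rw [hP'def, Subgroup.closure_le]
    rintro _ ⟨y, rfl⟩
    apply Subgroup.pow_mem_of_index_ne_zero_of_dvd hM
    intro m hm1 hm2
    rw [hkdef]
    exact Nat.dvd_factorial hm1 hm2
  haveI hP'c : P'.Characteristic := by
    rw [Subgroup.characteristic_iff_le_comap]
    intro φ
    rw [hP'def, Subgroup.closure_le]
    rintro _ ⟨y, rfl⟩
    show φ (y ^ k) ∈ Subgroup.closure {x : N | ∃ y : N, x = y ^ k}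
    apply Subgroup.subset_closure
    exact ⟨φ y, map_pow φ y k⟩
  haveI hPn : (P'.map N.subtype).Normal := ConjAct.normal_of_characteristic_of_normal
  have hPM : P'.map N.subtype ≤ M.map N.subtype := Subgroup.map_mono hP'M
  have hMN : M.map N.subtype ≤ N := Subgroup.map_subtype_le M
  have hLN : L.map N.subtype ≤ N := Subgroup.map_subtype_le L
  have hMLX : M.map N.subtype ≤ L.map N.subtype := Subgroup.map_mono hML
  generalize hPX : P'.map N.subtype = P at *
  have hPmem : ∀ n : N, (n : X) ∈ P ↔ n ∈ P' := by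
    intro n
    rw [← hPX]
    constructor
    · rintro ⟨m, hm, hmn⟩
      have : m = n := Subtype.ext hmn
      rwa [← this]
    · intro h
      exact ⟨n, h, rfl⟩
  let Y : Subgroup X :=
    { carrier := {y | (∀ m, m ∈ M.map N.subtype ↔ y * m * y⁻¹ ∈ M.map N.subtype) ∧
        ∀ l ∈ L.map N.subtype, y * l * y⁻¹ * l⁻¹ ∈ M.map N.subtype}
      one_mem' := by
        constructor
        · intro m
          simp
        · intro l _
          simp
      mul_mem' := by
        rintro x y ⟨hx1, hx2⟩ ⟨hy1, hy2⟩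
        constructor
        · intro m
          rw [hy1 m, hx1 (y * m * y⁻¹)]
          have : x * (y * m * y⁻¹) * x⁻¹ = x * y * m * (x * y)⁻¹ := by group
          rw [this]
        · intro l hl
          have h1 := hy2 l hl
          have h3 := (hx1 _).1 h1
          have h4 := hx2 l hl
          have : x * y * l * (x * y)⁻¹ * l⁻¹ =
              (x * (y * l * y⁻¹ * l⁻¹) * x⁻¹) * (x * l * x⁻¹ * l⁻¹) := by group
          rw [this]
          exact Subgroup.mul_mem _ h3 h4
      inv_mem' := by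
        rintro y ⟨hy1, hy2⟩
        constructor
        · intro m
          rw [hy1 (y⁻¹ * m * y⁻¹⁻¹)]
          have : y * (y⁻¹ * m * y⁻¹⁻¹) * y⁻¹ = m := by group
          rw [this]
        · intro l hl
          have h1 := hy2 l hl
          have h2 : y⁻¹ * l * y⁻¹⁻¹ * l⁻¹ = (y⁻¹ * (y * l * y⁻¹ * l⁻¹) * y)⁻¹ := by group
          rw [h2]
          apply Subgroup.inv_mem
          rw [hy1]
          have : y * (y⁻¹ * (y * l * y⁻¹ * l⁻¹) * y) * y⁻¹ = y * l * y⁻¹ * l⁻¹ := by group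
          rw [this]
          exact h1 }
  have hYmem : ∀ z : X, (∀ n ∈ N, z * n * z⁻¹ * n⁻¹ ∈ P) → z ∈ Y := by
    intro z hz
    constructor
    · intro m
      constructor
      · intro hm
        have h1 := hPM (hz m (hMN hm))
        have : z * m * z⁻¹ = (z * m * z⁻¹ * m⁻¹) * m := by group
        rw [this]
        exact Subgroup.mul_mem _ h1 hm
      · intro hm
        have hmN : m ∈ N := by
          have h1 := hNn.conj_mem _ (hMN hm) z⁻¹
          have : z⁻¹ * (z * m * z⁻¹) * z⁻¹⁻¹ = m := by group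
          rwa [this] at h1
        have h1 := hPM (hz m hmN)
        have : m = (z * m * z⁻¹ * m⁻¹)⁻¹ * (z * m * z⁻¹) := by group
        rw [this]
        exact Subgroup.mul_mem _ (Subgroup.inv_mem _ h1) hm
    · intro l hl
      exact hPM (hz l (hLN hl))
  haveI : P'.FiniteIndex := ⟨hP'i⟩
  haveI : Finite (N ⧸ P') := Subgroup.finite_quotient_of_finiteIndex
  let f : X → ((N ⧸ P') → (N ⧸ P')) := fun x q =>
    QuotientGroup.mk (⟨x * (q.out : N) * x⁻¹, hNn.conj_mem _ (q.out : N).2 x⟩ : N)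
  have hf : ∀ x y : X, f x = f y → x⁻¹ * y ∈ Y := by
    intro x y hxy
    apply hYmem
    have key : ∀ q : N ⧸ P', ((q.out : N) : X)⁻¹ * (x⁻¹ * y) * ((q.out : N) : X) *
        (x⁻¹ * y)⁻¹ ∈ P := by
      intro q
      have h1 := congrFun hxy q
      have h2 := QuotientGroup.eq.1 h1
      rw [← hPmem] at h2
      have h3 := hPn.conj_mem _ h2 x⁻¹
      have e : ((q.out : N) : X)⁻¹ * (x⁻¹ * y) * ((q.out : N) : X) * (x⁻¹ * y)⁻¹ =
          x⁻¹ * ((x * ((q.out : N) : X) * x⁻¹)⁻¹ * (y * ((q.out : N) : X) * y⁻¹)) * x⁻¹⁻¹ := by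
        group
      rw [e]
      exact h3
    generalize x⁻¹ * y = z at *
    intro n hn
    obtain ⟨r, hr⟩ := QuotientGroup.mk_out_eq_mul P' (⟨n, hn⟩ : N)
    have hk := key (QuotientGroup.mk (⟨n, hn⟩ : N))
    rw [hr] at hk
    have hrP : (((r : P') : N) : X) ∈ P := (hPmem _).2 r.2
    have hk' : (n * (((r : P') : N) : X))⁻¹ * z * (n * (((r : P') : N) : X)) * z⁻¹ ∈ P := hk
    generalize (((r : P') : N) : X) = ρ at *
    have h4 : n⁻¹ * z * n * z⁻¹ ∈ P := by
      have h5 := hPn.conj_mem _ hrP z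
      have e : n⁻¹ * z * n * z⁻¹ =
          ρ * ((n * ρ)⁻¹ * z * (n * ρ) * z⁻¹) * (z * ρ * z⁻¹)⁻¹ := by group
      rw [e]
      exact P.mul_mem (P.mul_mem hrP hk') (P.inv_mem h5)
    have h6 := hPn.conj_mem _ h4 n
    have e : z * n * z⁻¹ * n⁻¹ = n * (n⁻¹ * z * n * z⁻¹) * n⁻¹ := by group
    rw [e]
    exact h6
  have hfinY : Finite (X ⧸ Y) := by
    apply Finite.of_injective (fun q : X ⧸ Y => f q.out)
    intro q q' h
    have h1 := hf _ _ h
    rw [← QuotientGroup.eq, QuotientGroup.out_eq', QuotientGroup.out_eq'] at h1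
    exact h1
  refine ⟨Y, Subgroup.index_ne_zero_of_finite, ?_, ?_, ?_⟩
  · rintro _ ⟨a, ha, rfl⟩
    constructor
    · intro m
      constructor
      · rintro ⟨b, hb, rfl⟩
        exact ⟨a * b * a⁻¹, hn a ha b hb, rfl⟩
      · rintro ⟨b, hb, hbm⟩
        have h1 := hn a⁻¹ (L.inv_mem ha) b hb
        refine ⟨_, h1, ?_⟩
        have : N.subtype (a⁻¹ * b * a⁻¹⁻¹) = (N.subtype a)⁻¹ * N.subtype b * (N.subtype a) := by
          simp
        rw [this, hbm]
        group
    · rintro _ ⟨b, hb, rfl⟩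
      exact ⟨a * b * a⁻¹ * b⁻¹, hc a ha b hb, rfl⟩
  · rintro y ⟨hy1, _⟩ m hm
    exact (hy1 m).1 hm
  · rintro y ⟨_, hy2⟩ l hl
    exact hy2 l hl

private theorem bp_aux {X : Type} [Group X] {c : ℕ} (h : PR X c) (e : ℕ) (he : 0 < e)
    (p : ℕ) (hp : p.Prime) (hpe : ¬ p ∣ e) : PCT e X →
    ∃ L M : Subgroup X, L.index ≠ 0 ∧ M ≤ L ∧ (∀ g ∈ L, ∀ m ∈ M, g * m * g⁻¹ ∈ M) ∧
      (∀ a ∈ L, ∀ b ∈ L, a * b * a⁻¹ * b⁻¹ ∈ M) ∧ (∀ a ∈ L, a ^ p ∈ M) ∧
      M.relIndex L ≠ 0 ∧ p ^ c ≤ M.relIndex L := by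
  induction h with
  | triv X hX =>
    intro _
    refine ⟨⊤, ⊤, ?_, le_rfl, fun _ _ _ _ => Subgroup.mem_top _, fun _ _ _ _ => Subgroup.mem_top _,
      fun _ _ => Subgroup.mem_top _, ?_, ?_⟩
    · rw [Subgroup.index_top]; exact one_ne_zero
    · rw [Subgroup.relIndex_top_right, Subgroup.index_top]; exact one_ne_zero
    · rw [Subgroup.relIndex_top_right, Subgroup.index_top, pow_zero]
  | ext X N c hN hq ih =>
    intro hX
    obtain ⟨L, M, hL, hML, hn, hc, hexp, hr, hcard⟩ :=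
      ih (PCT.of_injective hX N.subtype N.subtype_injective)
    obtain ⟨Y, hY, hLY, hY1, hY2⟩ := stepA N c hN L M hL hML hn hc hr
    have hLN : L.map N.subtype ≤ N := Subgroup.map_subtype_le L
    have hMLX : M.map N.subtype ≤ L.map N.subtype := Subgroup.map_mono hML
    have hrel : (M.map N.subtype).relIndex (L.map N.subtype) = M.relIndex L :=
      Subgroup.relIndex_map_map_of_injective _ _ N.subtype_injective
    have hexpX : ∀ a ∈ L.map N.subtype, a ^ p ∈ M.map N.subtype := by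
      rintro _ ⟨a, ha, rfl⟩
      exact ⟨a ^ p, hexp a ha, map_pow _ _ _⟩

    haveI hLYn : ((L.map N.subtype).subgroupOf Y).Normal := by
      constructor
      intro l hl y
      rw [Subgroup.mem_subgroupOf] at hl ⊢
      have h1 := hMLX (hY2 y y.2 l hl)
      have e : ((y * l * y⁻¹ : Y) : X) = ((y : X) * l * (y : X)⁻¹ * (l : X)⁻¹) * l := by
        push_cast
        group
      rw [e]
      exact Subgroup.mul_mem _ h1 hl
    let g : Y →* X ⧸ N := (QuotientGroup.mk' N).comp Y.subtype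
    have hgl : (L.map N.subtype).subgroupOf Y ≤ g.ker := by
      intro l hl
      rw [Subgroup.mem_subgroupOf] at hl
      exact (QuotientGroup.eq_one_iff (l : X)).2 (hLN hl)
    let G : Y ⧸ (L.map N.subtype).subgroupOf Y →* X ⧸ N := QuotientGroup.lift _ g hgl
    have hT : Finite G.ker := by
      haveI : L.FiniteIndex := ⟨hL⟩
      haveI : Finite (N ⧸ L) := Subgroup.finite_quotient_of_finiteIndex
      have hout : ∀ w : G.ker, ((w.1.out : Y) : X) ∈ N := by
        intro w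
        have h1 := w.2
        rw [MonoidHom.mem_ker, ← QuotientGroup.out_eq' w.1] at h1
        exact (QuotientGroup.eq_one_iff _).1 h1
      apply Finite.of_injective (fun w : G.ker =>
        (QuotientGroup.mk (⟨((w.1.out : Y) : X), hout w⟩ : N) : N ⧸ L))
      intro w w' h
      have h1 := QuotientGroup.eq.1 h
      apply Subtype.ext
      rw [← QuotientGroup.out_eq' w.1, ← QuotientGroup.out_eq' w'.1, QuotientGroup.eq,
        Subgroup.mem_subgroupOf]
      exact ⟨_, h1, rfl⟩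
    have hnt : Nontrivial ((Y ⧸ (L.map N.subtype).subgroupOf Y) ⧸ G.ker) := by
      by_contra hcon
      rw [not_nontrivial_iff_subsingleton] at hcon
      have hYN : Y ≤ N := by
        intro y hy
        have h1 : (QuotientGroup.mk (QuotientGroup.mk (⟨y, hy⟩ : Y) :
            Y ⧸ (L.map N.subtype).subgroupOf Y) :
            (Y ⧸ (L.map N.subtype).subgroupOf Y) ⧸ G.ker) = 1 := Subsingleton.elim _ _
        rw [QuotientGroup.eq_one_iff, MonoidHom.mem_ker] at h1
        exact (QuotientGroup.eq_one_iff y).1 h1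
      have hNi : N.index ≠ 0 := by
        intro h0
        have := Subgroup.index_dvd_of_le hYN
        rw [h0, zero_dvd_iff] at this
        exact hY this
      haveI : N.FiniteIndex := ⟨hNi⟩
      haveI : Finite (X ⧸ N) := Subgroup.finite_quotient_of_finiteIndex
      obtain ⟨⟨a, b, hab⟩, htf, _, _⟩ := hq
      exact hab ((htf a (isOfFinOrder_of_finite a)).trans (htf b (isOfFinOrder_of_finite b)).symm)
    have hR : RankOne ((Y ⧸ (L.map N.subtype).subgroupOf Y) ⧸ G.ker) :=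
      hq.of_inj (QuotientGroup.kerLift G) (QuotientGroup.kerLift_injective G) hnt
    obtain ⟨V, hVn, hVi, hVR⟩ := fin_by_rankOne _ G.ker hT hR

    let K1 : Subgroup Y := V.comap (QuotientGroup.mk' ((L.map N.subtype).subgroupOf Y))
    have hK1 : K1.index ≠ 0 := by
      rw [Subgroup.index_comap_of_surjective _ (QuotientGroup.mk'_surjective _)]
      exact hVi
    let ψ : K1 →* V := (QuotientGroup.mk' ((L.map N.subtype).subgroupOf Y)).subgroupComap V
    have hψ : Function.Surjective ψ :=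
      MonoidHom.subgroupComap_surjective_of_surjective _ _ (QuotientGroup.mk'_surjective _)
    let ι : K1 →* X := Y.subtype.comp K1.subtype
    have hι : Function.Injective ι := Y.subtype_injective.comp K1.subtype_injective
    have hιr : ι.range.index ≠ 0 := by
      have h1 : ι.range = K1.map Y.subtype := by
        rw [MonoidHom.range_comp, Subgroup.range_subtype]
      rw [h1, Subgroup.index_map_subtype]
      exact mul_ne_zero hK1 hY
    have hιY : ∀ h : K1, ι h ∈ Y := fun h => h.1.2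
    have hψker : ψ.ker = (L.map N.subtype).comap ι := by
      ext h
      rw [MonoidHom.mem_ker, Subgroup.mem_comap]
      constructor
      · intro hh
        have h1 : (QuotientGroup.mk' ((L.map N.subtype).subgroupOf Y)) (h : Y) = 1 :=
          congrArg Subtype.val hh
        exact (QuotientGroup.eq_one_iff (h : Y)).1 h1
      · intro hh
        apply Subtype.ext
        exact (QuotientGroup.eq_one_iff (h : Y)).2 hh
    have hLr : L.map N.subtype ≤ ι.range := by
      intro l hl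
      refine ⟨⟨⟨l, hLY hl⟩, ?_⟩, rfl⟩
      show (QuotientGroup.mk' ((L.map N.subtype).subgroupOf Y)) (⟨l, hLY hl⟩ : Y) ∈ V
      have : (QuotientGroup.mk' ((L.map N.subtype).subgroupOf Y)) (⟨l, hLY hl⟩ : Y) = 1 :=
        (QuotientGroup.eq_one_iff _).2 hl
      rw [this]
      exact V.one_mem
    haveI hBn : ((M.map N.subtype).comap ι).Normal := by
      constructor
      intro m hm h
      rw [Subgroup.mem_comap] at hm ⊢
      rw [map_mul, map_mul, map_inv]
      exact hY1 _ (hιY h) _ hm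
    have hBA : (M.map N.subtype).comap ι ≤ ψ.ker := by
      rw [hψker]
      exact Subgroup.comap_mono hMLX
    have hcomm : ∀ h : K1, ∀ a ∈ ψ.ker, h * a * h⁻¹ * a⁻¹ ∈ (M.map N.subtype).comap ι := by
      intro h a ha
      rw [hψker, Subgroup.mem_comap] at ha
      rw [Subgroup.mem_comap, map_mul, map_mul, map_mul, map_inv, map_inv]
      exact hY2 _ (hιY h) _ ha
    have hexp' : ∀ a ∈ ψ.ker, a ^ p ∈ (M.map N.subtype).comap ι := by
      intro a ha
      rw [hψker, Subgroup.mem_comap] at ha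
      rw [Subgroup.mem_comap, map_pow]
      exact hexpX _ ha
    have hpctV : PCT e V := by
      have h1 : PCT e K1 := PCT.of_injective hX ι hι
      exact h1.of_surjective ψ hψ
    have hPRX : PR X (c + 1) := PR.ext X N c hN hq
    have hfin : ∀ M' : Subgroup K1, (∀ a : K1, a ^ p ∈ M') → M'.index ≠ 0 := by
      intro M' hM'
      have h1 : (Subgroup.closure {x : X | ∃ y : X, x = y ^ ((ι.range.index).factorial * p)}) ≤
          M'.map ι := by
        rw [Subgroup.closure_le]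
        rintro _ ⟨y, rfl⟩
        have h2 : y ^ (ι.range.index).factorial ∈ ι.range := by
          apply Subgroup.pow_mem_of_index_ne_zero_of_dvd hιr
          intro m hm1 hm2
          exact Nat.dvd_factorial hm1 hm2
        obtain ⟨h, hh⟩ := h2
        refine ⟨h ^ p, hM' h, ?_⟩
        rw [map_pow, hh, pow_mul]
      have h2 := PR.finite_pow hPRX ((ι.range.index).factorial * p)
        (Nat.mul_pos (Nat.factorial_pos _) hp.pos)
      have h3 : (M'.map ι).index ≠ 0 := by
        intro h0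
        have := Subgroup.index_dvd_of_le h1
        rw [h0, zero_dvd_iff] at this
        exact h2 this
      rw [Subgroup.index_map_of_injective _ hι] at h3
      exact left_ne_zero_of_mul h3
    obtain ⟨M', hM'n, hM'c, hM'p, hM'i⟩ := core ψ hψ ((M.map N.subtype).comap ι) hBA hVR p hp
      hcomm hexp' e he hpctV hpe hfin
    have hidx : (M'.map ι).relIndex ι.range = M'.index := by
      rw [MonoidHom.range_eq_map, Subgroup.relIndex_map_map_of_injective _ _ hι,
        Subgroup.relIndex_top_right]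
    refine ⟨ι.range, M'.map ι, hιr, ?_, ?_, ?_, ?_, ?_, ?_⟩
    · rw [MonoidHom.range_eq_map]
      exact Subgroup.map_mono le_top
    · rintro _ ⟨h, rfl⟩ _ ⟨m, hm, rfl⟩
      exact ⟨h * m * h⁻¹, hM'n.conj_mem m hm h, by rw [map_mul, map_mul, map_inv]⟩
    · rintro _ ⟨a, rfl⟩ _ ⟨b, rfl⟩
      exact ⟨a * b * a⁻¹ * b⁻¹, hM'c a b, by rw [map_mul, map_mul, map_mul, map_inv, map_inv]⟩
    · rintro _ ⟨a, rfl⟩
      exact ⟨a ^ p, hM'p a, map_pow _ _ _⟩
    · rw [hidx]
      exact hfin M' hM'p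
    · rw [hidx]
      refine le_trans ?_ hM'i
      have h5 : ((M.map N.subtype).comap ι).relIndex ψ.ker = M.relIndex L := by
        rw [hψker, Subgroup.relIndex_comap, Subgroup.map_comap_eq, inf_eq_right.2 hLr, hrel]
      rw [h5, pow_succ, mul_comm]
      exact Nat.mul_le_mul_left _ hcard

theorem bp {X : Type} [Group X] {c : ℕ} (h : PR X c) (e : ℕ) (he : 0 < e) (h2 : PCT e X)
    (p : ℕ) (hp : p.Prime) (hpe : ¬ p ∣ e) :
    ∃ L M : Subgroup X, L.index ≠ 0 ∧ M ≤ L ∧ (∀ g ∈ L, ∀ m ∈ M, g * m * g⁻¹ ∈ M) ∧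
      (∀ a ∈ L, ∀ b ∈ L, a * b * a⁻¹ * b⁻¹ ∈ M) ∧ (∀ a ∈ L, a ^ p ∈ M) ∧
      M.relIndex L ≠ 0 ∧ p ^ c ≤ M.relIndex L :=
  bp_aux h e he p hp hpe h2

end Pool.Agent.H652.SR
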