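import Mathlib
import Pool.Agent.H652.SR.Defs

set_option autoImplicit false

open scoped IsMulCommutative

namespace Pool.Agent.H652.SR

def Lif (p m : ℕ) (N : Matrix (Fin m) (Fin m) (ZMod p)) : Prop :=
  ∃ M : Matrix (Fin m) (Fin m) ℤ, M.map (Int.castRingHom (ZMod p)) = N ∧ ∃ s : ℕ, M.det = (p : ℤ) ^ s

private theorem Lif.mul {p m : ℕ} {A B : Matrix (Fin m) (Fin m) (ZMod p)} (hA : Lif p m A)
    (hB : Lif p m B) : Lif p m (A * B) := by
  obtain ⟨M, hM, s, hs⟩ := hA
  obtain ⟨M', hM', s', hs'⟩ := hB
  refine ⟨M * M', ?_, s + s', ?_⟩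
  · rw [Matrix.map_mul, hM, hM']
  · rw [Matrix.det_mul, hs, hs', pow_add]

private theorem Lif.one {p m : ℕ} : Lif p m 1 := ⟨1, by simp, 0, by simp⟩

private theorem Lif.transvec {p m : ℕ} (i j : Fin m) (hij : i ≠ j) (c : ZMod p) :
    Lif p m (Matrix.transvection i j c) := by
  obtain ⟨d, hd⟩ := ZMod.intCast_surjective c
  refine ⟨Matrix.transvection i j d, ?_, 0, ?_⟩
  · unfold Matrix.transvection
    rw [Matrix.map_add _ (fun a b => map_add _ a b), Matrix.map_single, Matrix.map_one _ (map_zero _) (map_one _)]
    simp [hd]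
  · rw [Matrix.det_transvection_of_ne _ _ hij]; simp

private theorem Lif.zero_entry {p m : ℕ} (i0 : Fin m) :
    Lif p m (Matrix.diagonal (Function.update 1 i0 0)) := by
  refine ⟨Matrix.diagonal (Function.update 1 i0 (p : ℤ)), ?_, 1, ?_⟩
  · rw [Matrix.diagonal_map (map_zero _)]
    congr 1
    ext j
    by_cases hj : j = i0
    · subst hj; simp
    · simp [Function.update_of_ne hj]
  · rw [Matrix.det_diagonal, Finset.prod_update_of_mem (Finset.mem_univ i0)]
    simp

private theorem Lif.entry {p m : ℕ} [Fact p.Prime] (i i0 : Fin m) (hi : i ≠ i0) (d : ZMod p) :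
    Lif p m (Matrix.diagonal (Function.update (Function.update 1 i d) i0 0)) := by
  by_cases hd : d = 0
  · have : (Matrix.diagonal (Function.update (Function.update 1 i d) i0 0) :
        Matrix (Fin m) (Fin m) (ZMod p)) = Matrix.diagonal (Function.update 1 i 0) *
          Matrix.diagonal (Function.update 1 i0 0) := by
      rw [Matrix.diagonal_mul_diagonal]
      congr 1
      ext j
      by_cases hj : j = i0
      · subst hj; simp
      · rw [Function.update_of_ne hj, hd, Function.update_of_ne hj]
        simp
    rw [this]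
    exact (Lif.zero_entry i).mul (Lif.zero_entry i0)
  · have : (Matrix.diagonal (Function.update (Function.update 1 i d) i0 0) :
        Matrix (Fin m) (Fin m) (ZMod p)) = Matrix.diagonal (Function.update 1 i0 0) *
          Matrix.transvection i i0 1 * Matrix.transvection i0 i (d - 1) *
          Matrix.transvection i i0 (-1 / d) := by
      unfold Matrix.transvection
      have e1 : (Matrix.diagonal (Function.update 1 i0 0) : Matrix (Fin m) (Fin m) (ZMod p)) * (1 + Matrix.single i i0 1) =
          Matrix.diagonal (Function.update 1 i0 0) + Matrix.single i i0 1 := by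
        rw [mul_add, mul_one]
        congr 1
        ext x y
        rw [Matrix.diagonal_mul]
        by_cases hx : x = i
        · subst hx; rw [Function.update_of_ne hi]; simp
        · simp [Ne.symm hx]
      have e2 : (Matrix.diagonal (Function.update 1 i0 0) : Matrix (Fin m) (Fin m) (ZMod p)) * Matrix.single i0 i (d - 1) = 0 := by
        ext x y
        rw [Matrix.diagonal_mul]
        by_cases hx : x = i0
        · subst hx; simp
        · simp [Ne.symm hx]
      have e3 : (Matrix.diagonal (Function.update 1 i0 0) : Matrix (Fin m) (Fin m) (ZMod p)) * Matrix.single i i0 (-1/d) =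
          Matrix.single i i0 (-1/d) := by
        ext x y
        rw [Matrix.diagonal_mul]
        by_cases hx : x = i
        · subst hx; rw [Function.update_of_ne hi]; simp
        · simp [Ne.symm hx]
      have e4 : ((Matrix.diagonal (Function.update 1 i0 0) : Matrix (Fin m) (Fin m) (ZMod p)) +
          Matrix.single i i0 1) * (1 + Matrix.single i0 i (d - 1)) =
          Matrix.diagonal (Function.update 1 i0 0) + Matrix.single i i0 1 + Matrix.single i i (d - 1) := by
        rw [mul_add, mul_one, add_mul, e2, Matrix.single_mul_single_same, zero_add, one_mul]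
      have e5 : ((Matrix.diagonal (Function.update 1 i0 0) : Matrix (Fin m) (Fin m) (ZMod p)) +
          Matrix.single i i0 1 + Matrix.single i i (d - 1)) * (1 + Matrix.single i i0 (-1/d)) =
          Matrix.diagonal (Function.update 1 i0 0) + Matrix.single i i (d - 1) +
            (Matrix.single i i0 (1 + (-1/d) + (d-1) * (-1/d))) := by
        rw [mul_add, mul_one, add_mul, add_mul, e3, Matrix.single_mul_single_of_ne _ _ _ _ hi.symm,
          Matrix.single_mul_single_same, Matrix.single_add, Matrix.single_add]
        abel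
      rw [e1, e4, e5]
      have e6 : 1 + (-1/d) + (d-1) * (-1/d) = 0 := by field_simp; ring
      rw [e6, Matrix.single_zero, add_zero]
      ext a b
      rw [Matrix.add_apply, Matrix.diagonal_apply, Matrix.diagonal_apply, Matrix.single_apply]
      by_cases hab : a = b
      · subst hab
        by_cases ha0 : a = i0
        · subst ha0; simp [hi]
        · by_cases hai : a = i
          · subst hai
            simp [Function.update_of_ne ha0]
          · simp [Function.update_of_ne ha0, Function.update_of_ne hai, Ne.symm hai]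
      · by_cases hai : i = a
        · subst hai; simp [hab]
        · simp [hab, hai]
    rw [this]
    exact (((Lif.zero_entry i0).mul (Lif.transvec i i0 hi 1)).mul (Lif.transvec i0 i hi.symm _)).mul
      (Lif.transvec i i0 hi _)

private theorem Lif.diag {p m : ℕ} [Fact p.Prime] (D : Fin m → ZMod p) (i0 : Fin m) (h0 : D i0 = 0) :
    Lif p m (Matrix.diagonal D) := by
  have key : ∀ S : Finset (Fin m), i0 ∉ S →
      Lif p m (Matrix.diagonal (fun j => if j ∈ S then D j else if j = i0 then 0 else 1)) := by
    intro S
    induction S using Finset.induction_on with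
    | empty =>
      intro _
      have := Lif.zero_entry (p := p) i0
      convert this using 2
      ext j
      by_cases hj : j = i0
      · subst hj; simp
      · rw [Function.update_of_ne hj]; simp [hj]
    | insert i S hi ih =>
      intro hi0
      rw [Finset.mem_insert, not_or] at hi0
      have h1 := (ih hi0.2).mul (Lif.entry (p := p) i i0 (Ne.symm hi0.1) (D i))
      rw [Matrix.diagonal_mul_diagonal] at h1
      convert h1 using 2
      ext j
      by_cases hj0 : j = i0
      · subst hj0
        simp [hi0.1, hi0.2]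
      · rw [Function.update_of_ne hj0]
        by_cases hji : j = i
        · subst hji
          simp [hi, hj0]
        · rw [Function.update_of_ne hji]
          simp [hji]
  have h1 := key (Finset.univ.erase i0) (by simp)
  convert h1 using 2
  ext j
  by_cases hj : j = i0
  · subst hj; simp [h0]
  · simp [hj]

private theorem zmod2_aux : ∀ x : ZMod 2, x ≠ 0 → x = 1 := by decide

private theorem lif_of_det_zero {p m : ℕ} [Fact p.Prime] (N : Matrix (Fin m) (Fin m) (ZMod p))
    (h : N.det = 0 ∨ p = 2) : Lif p m N := by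
  apply Matrix.diagonal_transvection_induction (fun N => Lif p m N) N
  · intro D hD
    by_cases hex : ∃ i0, D i0 = 0
    · obtain ⟨i0, h0⟩ := hex
      exact Lif.diag D i0 h0
    · push Not at hex
      rcases h with h | h
      · rw [h, Matrix.det_diagonal, Finset.prod_eq_zero_iff] at hD
        obtain ⟨i, -, hi⟩ := hD
        exact absurd hi (hex i)
      · subst h
        have : D = 1 := by
          ext i
          have h1 := hex i
          exact zmod2_aux _ h1
        rw [this]
        simpa using Lif.one
  · intro t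
    exact Lif.transvec t.i t.j t.hij t.c
  · intro A B hA hB
    exact hA.mul hB

private theorem index_closure {A : Type} [AddCommGroup A] {m : ℕ} (b : Module.Basis (Fin m) ℤ A)
    (p : ℕ) [Fact p.Prime] (M : Matrix (Fin m) (Fin m) ℤ) (s : ℕ) (hM : M.det = (p : ℤ) ^ s) :
    (AddSubgroup.closure (Set.range (fun i => ∑ j, M i j • b j))).index = p ^ s := by
  set c : Fin m → A := fun i => ∑ j, M i j • b j with hc
  have hp : (p : ℤ) ≠ 0 := by exact_mod_cast (Fact.out : p.Prime).ne_zero
  have hdet : M.det ≠ 0 := by rw [hM]; exact pow_ne_zero _ hp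
  have hrow : LinearIndependent ℤ (fun i => M i) := Matrix.linearIndependent_rows_of_det_ne_zero hdet
  have hcc : c = (fun i => b.equivFun.symm (M i)) := by
    ext i
    rw [Module.Basis.equivFun_symm_apply]
  have hli : LinearIndependent ℤ c := by
    rw [hcc]
    exact hrow.map' b.equivFun.symm.toLinearMap (LinearEquiv.ker _)
  haveI : Module.Free ℤ A := Module.Free.of_basis b
  haveI : Module.Finite ℤ A := Module.Finite.of_basis b
  have h1 := Submodule.natAbs_det_basis_change b (Submodule.span ℤ (Set.range c))
    (Module.Basis.span hli)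
  have h2 : b.det ((↑) ∘ (Module.Basis.span hli)) = M.det := by
    rw [Module.Basis.det_apply, ← Matrix.det_transpose M]
    congr 1
    ext i j
    rw [Module.Basis.toMatrix_apply, Matrix.transpose_apply, Function.comp_apply,
      Module.Basis.span_apply, hcc]
    simp only
    rw [← Module.Basis.equivFun_apply, LinearEquiv.apply_symm_apply]
  rw [h2, hM] at h1
  rw [← Submodule.span_int_eq_addSubgroupClosure]
  have h3 : (Submodule.span ℤ (Set.range c)).toAddSubgroup.index =
    Nat.card (A ⧸ Submodule.span ℤ (Set.range c)) := rfl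
  rw [h3, ← h1, Int.natAbs_pow, Int.natAbs_natCast]

private theorem core (A : Type) [AddCommGroup A] (m : ℕ) (b : Module.Basis (Fin m) ℤ A) (p : ℕ)
    [Fact p.Prime] (V : Type) [AddCommGroup V] [Module (ZMod p) V] [Finite V]
    (q : A →+ V) (hq : Function.Surjective q) (f : ℕ)
    (hf : Nat.card V = p ^ f) (hf2 : (p - 1) * f ≤ m) (k : ℕ) (hk : k ≤ m) (j : ℕ)
    (W : AddSubgroup V) (hW : Nat.card W = p ^ j) (u : Fin k → V)
    (hk2 : 2 ^ k ≤ p ^ j) :
    ∃ c : Fin m → A, (∀ i : Fin k, q (c (Fin.castLE hk i)) = u i) ∧
      (W ⊔ AddSubgroup.closure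
        {v : V | ∃ i : Fin m, k ≤ (i : ℕ) ∧ v = q (c i)} = ⊤) ∧
      ∃ s : ℕ, (AddSubgroup.closure (Set.range c)).index = p ^ s := by
  classical
  have hp : p.Prime := Fact.out
  have : Module.Finite (ZMod p) V := Module.Finite.of_finite
  have hcardZ : Nat.card (ZMod p) = p := Nat.card_zmod p
  have hrank : Module.finrank (ZMod p) V = f := by
    have h1 := Module.natCard_eq_pow_finrank (K := ZMod p) (V := V)
    rw [hf, hcardZ] at h1
    exact (Nat.pow_right_injective hp.two_le h1).symm
  set W' : Submodule (ZMod p) V := AddSubgroup.toZModSubmodule p W with hW'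
  have hrankW : Module.finrank (ZMod p) W' = j := by
    have h1 := Module.natCard_eq_pow_finrank (K := ZMod p) (V := W')
    have h2 : Nat.card W' = Nat.card W := rfl
    rw [h2, hW, hcardZ] at h1
    exact (Nat.pow_right_injective hp.two_le h1).symm
  have hjf : j ≤ f := by
    rw [← hrank, ← hrankW]; exact Submodule.finrank_le W'
  have hrankQ : Module.finrank (ZMod p) (V ⧸ W') = f - j := by
    have := Submodule.finrank_quotient_add_finrank W'
    rw [hrank, hrankW] at this
    omega

  have hkj : k ≤ (p - 1) * j := by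
    have h1 : p ≤ 2 ^ (p - 1) := by
      have := Nat.lt_two_pow_self (n := p - 1)
      omega
    have h2 : 2 ^ k ≤ 2 ^ ((p - 1) * j) := by
      calc 2 ^ k ≤ p ^ j := hk2
        _ ≤ (2 ^ (p - 1)) ^ j := Nat.pow_le_pow_left h1 j
        _ = 2 ^ ((p - 1) * j) := by rw [pow_mul]
    exact (Nat.pow_le_pow_iff_right (by norm_num)).mp h2
  have hroom : k + (f - j) ≤ m := by
    refine le_trans ?_ hf2
    obtain ⟨q, hq⟩ : ∃ q, p = q + 2 := ⟨p - 2, by have := hp.two_le; omega⟩
    obtain ⟨r, hr⟩ : ∃ r, f = j + r := ⟨f - j, by omega⟩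
    have h4 : p - 1 = q + 1 := by omega
    rw [h4] at hkj ⊢
    rw [hr]
    have h3 : j + r - j = r := by omega
    rw [h3]
    nlinarith

  let β := Module.finBasisOfFinrankEq (ZMod p) (V ⧸ W') hrankQ
  have hlift : ∀ l : Fin (f - j), ∃ v : V, W'.mkQ v = β l := fun l =>
    W'.mkQ_surjective (β l)
  choose β' hβ' using hlift
  let v : Fin m → V := fun i => if h : (i : ℕ) < k then u ⟨i, h⟩ else
    if h2 : (i : ℕ) - k < f - j then β' ⟨(i : ℕ) - k, h2⟩ else 0

  let π : (Fin m → ZMod p) →ₗ[ZMod p] V :=
    Fintype.linearCombination (ZMod p) (fun j => q (b j))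
  have hπ : ∀ x : Fin m → ℤ, π (fun j => ((x j : ℤ) : ZMod p)) =
      q (∑ j, x j • b j) := by
    intro x
    simp only [π, Fintype.linearCombination_apply]
    rw [map_sum]
    refine Finset.sum_congr rfl ?_
    intro i _
    rw [map_zsmul]
    exact Int.cast_smul_eq_zsmul (ZMod p) (x i) _
  have hπs : Function.Surjective π := by
    intro y
    obtain ⟨a, rfl⟩ := hq y
    refine ⟨fun j => ((b.repr a j : ℤ) : ZMod p), ?_⟩
    rw [hπ, b.sum_repr]
  obtain ⟨σ, hσ⟩ := LinearMap.exists_rightInverse_of_surjective π (LinearMap.range_eq_top.mpr hπs)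
  have hσ' : ∀ y, π (σ y) = y := fun y => LinearMap.congr_fun hσ y
  let N : Matrix (Fin m) (Fin m) (ZMod p) := fun i => σ (v i)
  have hN : N.det = 0 ∨ p = 2 ∨ m = 0 := by
    by_cases hp2 : p = 2
    · exact Or.inr (Or.inl hp2)
    by_cases hm : m = 0
    · exact Or.inr (Or.inr hm)
    left
    have hfm : f < m := by
      rcases Nat.eq_zero_or_pos f with h0 | h0
      · rw [h0]; exact Nat.pos_of_ne_zero hm
      · have h3 : 3 ≤ p := by
          have := hp.two_le
          omega
        have : 2 * f ≤ (p - 1) * f := Nat.mul_le_mul_right f (by omega)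
        omega
    by_contra hdet
    have hli : LinearIndependent (ZMod p) (fun i => N i) :=
      Matrix.linearIndependent_rows_of_det_ne_zero hdet
    have hli2 : LinearIndependent (ZMod p) v := by
      have : (fun i => N i) = σ ∘ v := rfl
      rw [this] at hli
      exact LinearIndependent.of_comp σ hli
    have := hli2.fintype_card_le_finrank
    rw [hrank, Fintype.card_fin] at this
    omega
  have hLif : Lif p m N := by
    rcases hN with h | h | h
    · exact lif_of_det_zero N (Or.inl h)
    · exact lif_of_det_zero N (Or.inr h)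
    · subst h
      have : N = 1 := by ext i; exact i.elim0
      rw [this]; exact Lif.one
  obtain ⟨M, hMN, s, hs⟩ := hLif
  let c : Fin m → A := fun i => ∑ j, M i j • b j
  have hcv : ∀ i, q (c i) = v i := by
    intro i
    have h1 := hπ (M i)
    have h2 : (fun j => ((M i j : ℤ) : ZMod p)) = σ (v i) := by
      ext j
      have : (M.map (Int.castRingHom (ZMod p))) i j = N i j := by rw [hMN]
      simpa using this
    rw [h2, hσ'] at h1
    exact h1.symm
  refine ⟨c, ?_, ?_, s, index_closure b p M s hs⟩
  · intro i
    rw [hcv]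
    simp [v]
  · rw [eq_top_iff]
    intro x _
    set T : AddSubgroup V := AddSubgroup.closure
        {v : V | ∃ i : Fin m, k ≤ (i : ℕ) ∧ v = q (c i)} with hT
    have hβT : ∀ l, β' l ∈ T := by
      intro l
      apply AddSubgroup.subset_closure
      refine ⟨⟨k + l, by have := l.2; omega⟩, by simp, ?_⟩
      rw [hcv]
      have h1 : ¬ (k + (l : ℕ) < k) := by omega
      have h2 : k + (l : ℕ) - k = l := by omega
      simp only [v, h1, dif_neg, not_false_eq_true]
      have h3 : k + (l : ℕ) - k < f - j := by rw [h2]; exact l.2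
      rw [dif_pos h3]
      congr 1
      exact Fin.ext h2.symm
    have hx := β.sum_repr (W'.mkQ x)
    set y : V := ∑ l, β.repr (W'.mkQ x) l • β' l with hy
    have hyT : y ∈ T := by
      apply AddSubgroup.sum_mem
      intro l _
      exact ZMod.smul_mem (hβT l) _
    have hxy : x - y ∈ W' := by
      rw [← Submodule.ker_mkQ W', LinearMap.mem_ker, map_sub, hy, map_sum]
      rw [sub_eq_zero]
      rw [← hx]
      refine Finset.sum_congr rfl ?_
      intro l _
      rw [map_smul, hβ']
      simp
    have hxy' : x - y ∈ W := hxy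
    have : x = (x - y) + y := by abel
    rw [this]
    exact AddSubgroup.add_mem_sup hxy' hyT

theorem lattice_lift (A : Type) [AddCommGroup A] (m : ℕ) (b : Module.Basis (Fin m) ℤ A) (p : ℕ)
    [Fact p.Prime] (B : AddSubgroup A) (hB : ∀ a : A, p • a ∈ B) (f : ℕ)
    (hf : Nat.card (A ⧸ B) = p ^ f) (hf2 : (p - 1) * f ≤ m) (k : ℕ) (hk : k ≤ m) (j : ℕ)
    (W : AddSubgroup (A ⧸ B)) (hW : Nat.card W = p ^ j) (u : Fin k → A ⧸ B)
    (hk2 : 2 ^ k ≤ p ^ j) :
    ∃ c : Fin m → A, (∀ i : Fin k, (QuotientAddGroup.mk (c (Fin.castLE hk i)) : A ⧸ B) = u i) ∧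
      (W ⊔ AddSubgroup.closure
        {v : A ⧸ B | ∃ i : Fin m, k ≤ (i : ℕ) ∧ v = (QuotientAddGroup.mk (c i) : A ⧸ B)} = ⊤) ∧
      ∃ s : ℕ, (AddSubgroup.closure (Set.range c)).index = p ^ s := by
  have hp : p.Prime := Fact.out
  have : Finite (A ⧸ B) := Nat.finite_of_card_ne_zero (by rw [hf]; exact pow_ne_zero _ hp.ne_zero)
  letI : Module (ZMod p) (A ⧸ B) := QuotientAddGroup.zmodModule hB
  exact core A m b p (A ⧸ B) (QuotientAddGroup.mk' B) (QuotientAddGroup.mk'_surjective B) f hf hf2
    k hk j W hW u hk2

end Pool.Agent.H652.SR
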