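import Mathlib
import Pool.Agent.H652.SR.Defs
import Pool.Agent.H652.SR.Jlattice
import Pool.Agent.H652.SR.Jsylow

set_option autoImplicit false

open scoped IsMulCommutative

namespace Pool.Agent.H652.SR

private theorem K1 (M : Type) [AddCommGroup M] (m : ℕ) (b : Module.Basis (Fin m) ℤ M) (p : ℕ)
    [hp : Fact p.Prime] (τ : Module.End ℤ M) (hτ : (τ + 1) ^ p = 1) (hinj : ∀ a, τ a = 0 → a = 0) :
    (∀ a : M, p • a ∈ (LinearMap.range τ).toAddSubgroup) ∧
    (∀ a : M, ∃ a' : M, (τ ^ (p - 1)) a = p • a') ∧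
    ∃ f : ℕ, Nat.card (M ⧸ (LinearMap.range τ).toAddSubgroup) = p ^ f ∧ (p - 1) * f ≤ m := by
  have hpp := hp.out
  obtain ⟨q, hq⟩ : ∃ q, p = q + 1 := ⟨p - 1, by have := hpp.one_lt; omega⟩
  have hq1 : 1 ≤ q := by have := hpp.one_lt; omega
  have hE : ∀ a : M, ∑ i ∈ Finset.range p, (p.choose (i + 1)) • (τ ^ i) a = 0 := by
    intro a
    have h1 : τ * ∑ i ∈ Finset.range p, (p.choose (i + 1)) • τ ^ i = 0 := by
      have h2 := (Commute.one_right τ).add_pow p
      rw [hτ, Finset.sum_range_succ'] at h2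
      simp only [one_pow, mul_one, pow_zero, Nat.choose_zero_right, Nat.cast_one] at h2
      rw [eq_comm, add_eq_right] at h2
      rw [Finset.mul_sum, ← h2]
      refine Finset.sum_congr rfl fun i _ => ?_
      rw [pow_succ', mul_smul_comm, nsmul_eq_mul, (Nat.cast_commute _ _).eq]
    apply hinj
    have h5 := DFunLike.congr_fun h1 a
    rw [Module.End.mul_apply, LinearMap.sum_apply] at h5
    simpa using h5
  have hdvd : ∀ i, i + 1 < p → ∃ d, p.choose (i + 1) = p * d := by
    intro i hi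
    exact hpp.dvd_choose_self (by omega) hi

  have h2 : ∀ a : M, ∃ a' : M, (τ ^ (p - 1)) a = p • a' := by
    intro a
    have h := hE a
    rw [hq, Finset.sum_range_succ] at h
    have e1 : (q + 1).choose (q + 1) = 1 := Nat.choose_self _
    rw [e1, one_smul] at h
    have h3 : ∑ i ∈ Finset.range q, ((q + 1).choose (i + 1)) • (τ ^ i) a =
        p • ∑ i ∈ Finset.range q, ((q + 1).choose (i + 1) / p) • (τ ^ i) a := by
      rw [Finset.smul_sum]
      refine Finset.sum_congr rfl fun i hi => ?_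
      obtain ⟨d, hd⟩ := hdvd i (by rw [Finset.mem_range] at hi; omega)
      rw [smul_smul, ← hq, hd, Nat.mul_div_cancel_left _ hpp.pos]
    rw [h3] at h
    refine ⟨-∑ i ∈ Finset.range q, ((q + 1).choose (i + 1) / p) • (τ ^ i) a, ?_⟩
    rw [smul_neg, eq_neg_iff_add_eq_zero, add_comm]
    rw [show p - 1 = q by omega]
    exact h

  have h1 : ∀ k, k ≤ p - 1 → ∀ a : M, p • a ∈ LinearMap.range (τ ^ k) := by
    intro k
    induction k with
    | zero => intro _ a; exact ⟨p • a, by simp⟩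
    | succ k ih =>
      intro hk a
      have ih' := ih (by omega)
      have h := hE a
      rw [hq, Finset.sum_range_succ'] at h
      simp only [zero_add, pow_zero, Module.End.one_apply, Nat.choose_one_right] at h
      rw [← hq] at h
      have h3 : p • a = -∑ i ∈ Finset.range q, (p.choose (i + 1 + 1)) • (τ ^ (i + 1)) a := by
        rw [eq_neg_iff_add_eq_zero, add_comm]; exact h
      rw [h3]
      apply Submodule.neg_mem
      apply Submodule.sum_mem
      intro i hi
      rw [Finset.mem_range] at hi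
      by_cases hi2 : i + 1 + 1 < p
      · obtain ⟨d, hd⟩ := hdvd (i + 1) hi2
        rw [hd, mul_smul]
        obtain ⟨w, hw⟩ := ih' (d • (τ ^ i) a)
        refine ⟨w, ?_⟩
        rw [pow_succ', Module.End.mul_apply, hw, map_nsmul, map_nsmul, pow_succ',
          Module.End.mul_apply]
      · have e1 : i + 1 + 1 = p := by omega
        rw [e1, Nat.choose_self, one_smul]
        refine ⟨(τ ^ (i - k)) a, ?_⟩
        rw [← Module.End.mul_apply, ← pow_add]
        congr 2
        omega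
  have hfree : Module.Free ℤ M := Module.Free.of_basis b
  have hfin : Module.Finite ℤ M := Module.Finite.of_basis b
  have hrank : Module.finrank ℤ M = m := by
    rw [Module.finrank_eq_card_basis b, Fintype.card_fin]
  have hP : (nsmulAddMonoidHom (α := M) p).range.index = p ^ m := by
    rw [AddSubgroup.index_range_nsmul, hrank]
  have hidx : ∀ k, (LinearMap.range (τ ^ k)).toAddSubgroup.index =
      ((LinearMap.range τ).toAddSubgroup.index) ^ k := by
    intro k
    induction k with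
    | zero =>
      have : (LinearMap.range (τ ^ 0)).toAddSubgroup = ⊤ := by
        rw [eq_top_iff]
        intro a _
        exact ⟨a, by simp⟩
      rw [this]; simp
    | succ k ih =>
      have h3 : (LinearMap.range (τ ^ (k + 1))).toAddSubgroup =
          ((LinearMap.range (τ ^ k)).toAddSubgroup).map τ.toAddMonoidHom := by
        ext a
        constructor
        · rintro ⟨w, rfl⟩
          exact ⟨(τ ^ k) w, ⟨w, rfl⟩, by rw [pow_succ', Module.End.mul_apply]; rfl⟩
        · rintro ⟨_, ⟨w, rfl⟩, rfl⟩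
          exact ⟨w, by rw [pow_succ', Module.End.mul_apply]; rfl⟩
      have hinj' : Function.Injective τ.toAddMonoidHom :=
        (injective_iff_map_eq_zero _).2 hinj
      rw [h3, AddSubgroup.index_map_of_injective _ hinj', ih, pow_succ]
      rfl
  have hle : ∀ k, k ≤ p - 1 → (nsmulAddMonoidHom (α := M) p).range ≤
      (LinearMap.range (τ ^ k)).toAddSubgroup := by
    rintro k hk _ ⟨a, rfl⟩
    exact h1 k hk a
  refine ⟨fun a => by simpa using h1 1 (by omega) a, h2, ?_⟩
  have h3 : (LinearMap.range τ).toAddSubgroup.index ∣ p ^ m := by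
    rw [← hP]
    have := AddSubgroup.index_dvd_of_le (hle 1 (by omega))
    rwa [pow_one] at this
  obtain ⟨f, -, hf⟩ := (Nat.dvd_prime_pow hpp).1 h3
  refine ⟨f, hf, ?_⟩
  have h4 : (LinearMap.range (τ ^ (p - 1))).toAddSubgroup.index ∣ p ^ m := by
    rw [← hP]
    exact AddSubgroup.index_dvd_of_le (hle (p - 1) le_rfl)
  rw [hidx, hf, ← pow_mul] at h4
  have := (Nat.pow_dvd_pow_iff_le_right hpp.one_lt).1 h4
  rw [mul_comm]; exact this

private theorem gens (G : Type) [Group G] : ∀ (n : ℕ) (H : Subgroup G), H.index = n → n ≠ 0 →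
    ∃ (k : ℕ) (g : Fin k → G), H ⊔ Subgroup.closure (Set.range g) = ⊤ ∧ 2 ^ k ≤ n := by
  intro n
  induction n using Nat.strong_induction_on with
  | _ n ih =>
    intro H hH hn
    by_cases htop : H = ⊤
    · refine ⟨0, Fin.elim0, ?_, ?_⟩
      · rw [htop]; simp
      · simp; omega
    · obtain ⟨g0, hg0⟩ : ∃ g0, g0 ∉ H := by
        by_contra hcon
        push Not at hcon
        exact htop (eq_top_iff.2 fun g _ => hcon g)
      set H' : Subgroup G := H ⊔ Subgroup.closure {g0} with hH'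
      have hle : H ≤ H' := le_sup_left
      have hg0' : g0 ∈ H' := (le_sup_right : Subgroup.closure {g0} ≤ H')
        (Subgroup.subset_closure rfl)
      have hmul : H.relIndex H' * H'.index = n := by
        rw [Subgroup.relIndex_mul_index hle, hH]
      have h1 : H.relIndex H' ≠ 0 := by
        intro h; rw [h, zero_mul] at hmul; exact hn hmul.symm
      have h2 : H'.index ≠ 0 := by
        intro h; rw [h, mul_zero] at hmul; exact hn hmul.symm
      have h3 : H.relIndex H' ≠ 1 := by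
        intro h
        rw [Subgroup.relIndex_eq_one] at h
        exact hg0 (h hg0')
      have h4 : 2 ≤ H.relIndex H' := by omega
      have h5 : 2 * H'.index ≤ n := by rw [← hmul]; gcongr
      obtain ⟨k, g, hg, hk⟩ := ih H'.index (by omega) H' rfl h2
      refine ⟨k + 1, Fin.cons g0 g, ?_, ?_⟩
      · rw [Fin.range_cons, Set.insert_eq, Subgroup.closure_union, ← sup_assoc]
        exact hg
      · rw [pow_succ]; omega

private theorem keyK (Q : Type) [Group Q] (A : Subgroup Q) [hAn : A.Normal] (hfin : A.index ≠ 0)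
    (M : Type) [AddCommGroup M] (e : M → Q) (hadd : ∀ a b, e (a + b) = e a * e b)
    (hinj : Function.Injective e) (hA : ∀ q, q ∈ A ↔ ∃ a, e a = q) (m : ℕ) (hm : 0 < m)
    (b : Module.Basis (Fin m) ℤ M) (p : ℕ) [hp : Fact p.Prime] (x : Q)
    (hfix : ∀ a, x * e a = e a * x → a = 0) (hxp : x ^ p = 1)
    (hnorm : ∀ g : Q, ∃ j : ℕ, g * x * g⁻¹ * (x ^ j)⁻¹ ∈ A) :
    ∃ F : Subgroup Q, Finite F ∧ ∃ y : Fin m → Q, F ⊔ Subgroup.closure (Set.range y) = ⊤ := by
  have hpp := hp.out
  have he0 : e 0 = 1 := by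
    have := hadd 0 0
    rw [add_zero] at this
    simpa using this
  have hneg : ∀ a, e (-a) = (e a)⁻¹ := by
    intro a
    have h := hadd a (-a)
    rw [add_neg_cancel, he0] at h
    exact (inv_eq_of_mul_eq_one_right h.symm).symm
  have hsub : ∀ a b, e (a - b) = e a * (e b)⁻¹ := by
    intro a b
    rw [sub_eq_add_neg, hadd, hneg]
  have hcommA : ∀ a b, e a * e b = e b * e a := by
    intro a b
    rw [← hadd, ← hadd, add_comm]
  have heA : ∀ a, e a ∈ A := fun a => (hA _).2 ⟨a, rfl⟩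

  have hx1 : x ≠ 1 := by
    intro h
    have : b ⟨0, hm⟩ = 0 := hfix _ (by rw [h]; simp)
    exact b.ne_zero ⟨0, hm⟩ this
  have hord : orderOf x = p := orderOf_eq_prime hxp hx1

  have hσ : ∀ a, ∃ a', e a' = x * e a * x⁻¹ := fun a => (hA _).1 (hAn.conj_mem _ (heA a) x)
  choose σ hσe using hσ
  let σ' : M →+ M := AddMonoidHom.mk' σ (by
    intro a c
    apply hinj
    rw [hσe, hadd, hadd, hσe, hσe]
    group)
  let S : Module.End ℤ M := σ'.toIntLinearMap
  have hS : ∀ a, e (S a) = x * e a * x⁻¹ := hσe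
  have hSp : ∀ (k : ℕ) (a : M), e ((S ^ k) a) = x ^ k * e a * (x ^ k)⁻¹ := by
    intro k
    induction k with
    | zero => intro a; simp
    | succ k ih =>
      intro a
      rw [pow_succ, Module.End.mul_apply, ih, hS, pow_succ]
      group
  let τ : Module.End ℤ M := S - 1
  have hτe : ∀ a, e (τ a) = x * e a * x⁻¹ * (e a)⁻¹ := by
    intro a
    show e (S a - a) = _
    rw [hsub, hS]
  have hτ1 : (τ + 1) ^ p = 1 := by
    have : τ + 1 = S := sub_add_cancel S 1
    rw [this]
    ext a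
    apply hinj
    rw [hSp, hxp]; simp
  have hτinj : ∀ a, τ a = 0 → a = 0 := by
    intro a h
    apply hfix
    have h1 := hτe a
    rw [h, he0] at h1
    have h2 : x * e a * x⁻¹ = e a := by
      rw [eq_comm, mul_inv_eq_one] at h1; exact h1
    rw [mul_inv_eq_iff_eq_mul] at h2
    exact h2
  obtain ⟨hB, hpow, f, hf, hf2⟩ := K1 M m b p τ hτ1 hτinj
  set B : AddSubgroup M := (LinearMap.range τ).toAddSubgroup with hBdef

  have hxA : ∀ z ∈ Subgroup.zpowers x, z ∈ A → z = 1 := by
    intro z hz hzA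
    obtain ⟨a, rfl⟩ := (hA z).1 hzA
    obtain ⟨k, hk⟩ := Subgroup.mem_zpowers_iff.1 hz
    have : a = 0 := hfix a (by rw [← hk]; exact (Commute.self_zpow x k).eq)
    rw [this, he0]
  have hxnA : x ∉ A := fun h => hx1 (hxA x (Subgroup.mem_zpowers x) h)

  have hβ : ∀ g : Q, ∃ z ∈ Subgroup.zpowers x, ∃ a : M, g * z * g⁻¹ = e a * x := by
    intro g
    obtain ⟨j, hj⟩ := hnorm g
    have hjp : ¬ p ∣ j := by
      rintro ⟨t, rfl⟩
      rw [pow_mul, hxp, one_pow, inv_one, mul_one] at hj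
      have h1 := hAn.conj_mem _ hj g⁻¹
      apply hxnA
      have h2 : g⁻¹ * (g * x * g⁻¹) * g⁻¹⁻¹ = x := by group
      rwa [h2] at h1
    have hcop : Nat.Coprime j p := (Nat.Coprime.symm ((Nat.Prime.coprime_iff_not_dvd hpp).2 hjp))
    obtain ⟨j', hj'⟩ := Nat.exists_mul_mod_eq_one_of_coprime hcop hpp.one_lt
    refine ⟨x ^ j', Subgroup.npow_mem_zpowers x j', ?_⟩
    have hxjj : x ^ (j * j') = x := by
      rw [← Nat.div_add_mod (j * j') p, hj'.2, pow_add, pow_mul, hxp]; simp
    have hmem : g * x ^ j' * g⁻¹ * x⁻¹ ∈ A := by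
      rw [← QuotientGroup.eq_one_iff] at hj ⊢
      have h1 : ((g * x * g⁻¹ : Q) : Q ⧸ A) = ((x : Q) : Q ⧸ A) ^ j := by
        have h2 : ((g * x * g⁻¹ * (x ^ j)⁻¹ : Q) : Q ⧸ A) =
            ((g * x * g⁻¹ : Q) : Q ⧸ A) * (((x : Q) : Q ⧸ A) ^ j)⁻¹ := by push_cast; rfl
        rw [h2, mul_inv_eq_one] at hj
        exact hj
      have h3 : g * x ^ j' * g⁻¹ = (g * x * g⁻¹) ^ j' := by rw [conj_pow]
      rw [h3]
      have h4 : (((g * x * g⁻¹) ^ j' * x⁻¹ : Q) : Q ⧸ A) =
          ((g * x * g⁻¹ : Q) : Q ⧸ A) ^ j' * ((x : Q) : Q ⧸ A)⁻¹ := by push_cast; rfl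
      rw [h4, h1, ← pow_mul]
      have h5 : ((x : Q) : Q ⧸ A) ^ (j * j') = ((x : Q) : Q ⧸ A) := by
        rw [← QuotientGroup.mk_pow, hxjj]
      rw [h5, mul_inv_cancel]
    obtain ⟨a, ha⟩ := (hA _).1 hmem
    exact ⟨a, by rw [ha]; group⟩
  choose z hz β hβz using hβ

  have huniq : ∀ (g w : Q) (a : M), w ∈ Subgroup.zpowers x → g * w * g⁻¹ = e a * x → a = β g := by
    intro g w a hw hwa
    have h1 : g * (z g * w⁻¹) * g⁻¹ ∈ A := by
      have h2 : g * (z g * w⁻¹) * g⁻¹ = (g * z g * g⁻¹) * (g * w * g⁻¹)⁻¹ := by group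
      rw [h2, hβz, hwa]
      have h3 : e (β g) * x * (e a * x)⁻¹ = e (β g - a) := by rw [hsub]; group
      rw [h3]; exact heA _
    have h2 : z g * w⁻¹ ∈ A := by
      have := hAn.conj_mem _ h1 g⁻¹
      have h3 : g⁻¹ * (g * (z g * w⁻¹) * g⁻¹) * g⁻¹⁻¹ = z g * w⁻¹ := by group
      rwa [h3] at this
    have h3 : z g * w⁻¹ = 1 := hxA _ (Subgroup.mul_mem _ (hz g) (Subgroup.inv_mem _ hw)) h2
    have h4 : z g = w := mul_inv_eq_one.1 h3
    apply hinj
    have h5 := hβz g
    rw [h4, hwa] at h5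
    exact mul_right_cancel h5

  have hβtr : ∀ (a : M) (g : Q), β (e a * g) = β g - τ a := by
    intro a g
    symm
    apply huniq (e a * g) (z g) _ (hz g)
    rw [hsub, hτe]
    have h1 : e a * g * z g * (e a * g)⁻¹ = e a * (g * z g * g⁻¹) * (e a)⁻¹ := by group
    rw [h1, hβz]
    have h2 : e (β g) * (x * e a * x⁻¹ * (e a)⁻¹)⁻¹ * x = e (β g) * e a * (x * (e a)⁻¹) := by group
    rw [h2, hcommA (β g) a]
    group

  set F : Subgroup Q := Subgroup.normalizer (Subgroup.zpowers x : Set Q) with hF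
  have hxF : x ∈ F := by
    rw [hF, Subgroup.mem_normalizer_iff]
    intro n
    constructor
    · intro h
      exact Subgroup.mul_mem _ (Subgroup.mul_mem _ (Subgroup.mem_zpowers x) h)
        (Subgroup.inv_mem _ (Subgroup.mem_zpowers x))
    · intro h
      have h1 := Subgroup.mul_mem _ (Subgroup.mul_mem _ (Subgroup.inv_mem _
        (Subgroup.mem_zpowers x)) h) (Subgroup.mem_zpowers x)
      have h2 : x⁻¹ * (x * n * x⁻¹) * x = n := by group
      rwa [h2] at h1
  have hFA : ∀ a, e a ∈ F → a = 0 := by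
    intro a ha
    rw [hF, Subgroup.mem_normalizer_iff] at ha
    have h1 : e a * x * (e a)⁻¹ ∈ Subgroup.zpowers x := (ha x).1 (Subgroup.mem_zpowers x)
    have h2 : e a * x * (e a)⁻¹ * x⁻¹ ∈ A := by
      have h3 : e a * x * (e a)⁻¹ * x⁻¹ = e a * (x * (e a)⁻¹ * x⁻¹) := by group
      rw [h3]
      exact A.mul_mem (heA a) (hAn.conj_mem _ (A.inv_mem (heA a)) x)
    have h3 := hxA _ (Subgroup.mul_mem _ h1 (Subgroup.inv_mem _ (Subgroup.mem_zpowers x))) h2
    apply hfix
    have h4 : e a * x * (e a)⁻¹ = x := mul_inv_eq_one.1 h3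
    rw [mul_inv_eq_iff_eq_mul] at h4
    exact h4.symm
  have hQAfin : Finite (Q ⧸ A) := by
    have : A.FiniteIndex := ⟨hfin⟩
    infer_instance
  have hFfin : Finite F := by
    apply Finite.of_injective (fun f : F => ((f : Q) : Q ⧸ A))
    intro f1 f2 h12
    have h1 : (f1 : Q)⁻¹ * (f2 : Q) ∈ A := QuotientGroup.eq.1 h12
    obtain ⟨a, ha⟩ := (hA _).1 h1
    have h2 : a = 0 := hFA a (by rw [ha]; exact F.mul_mem (F.inv_mem f1.2) f2.2)
    rw [h2, he0] at ha
    exact Subtype.ext (inv_mul_eq_one.1 ha.symm)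

  have hzgen : ∀ g, Subgroup.zpowers (z g) = Subgroup.zpowers x := by
    intro g
    apply le_antisymm
    · rw [Subgroup.zpowers_le]; exact hz g
    · have hzne : z g ≠ 1 := by
        intro h
        have h1 := hβz g
        rw [h] at h1
        have h2 : x = e (-(β g)) := by
          rw [hneg]
          have h3 : e (β g) * x = 1 := by rw [← h1]; group
          exact eq_inv_of_mul_eq_one_right h3
        exact hxnA (h2 ▸ heA _)
      have hzp : (z g) ^ p = 1 := by
        obtain ⟨k, hk⟩ := Subgroup.mem_zpowers_iff.1 (hz g)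
        rw [← hk, ← zpow_natCast, ← zpow_mul, mul_comm, zpow_mul, zpow_natCast, hxp, one_zpow]
      have hcard : Nat.card (Subgroup.zpowers (z g)) = Nat.card (Subgroup.zpowers x) := by
        rw [Nat.card_zpowers, Nat.card_zpowers, hord, orderOf_eq_prime hzp hzne]
      have hfinx : Finite (Subgroup.zpowers x) :=
        Nat.finite_of_card_ne_zero (by rw [Nat.card_zpowers, hord]; exact hpp.ne_zero)
      have hle : Subgroup.zpowers (z g) ≤ Subgroup.zpowers x := by
        rw [Subgroup.zpowers_le]; exact hz g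
      exact (Subgroup.eq_of_le_of_card_ge hle hcard.ge).ge
  have hP3 : ∀ g h : Q, β g - β h ∈ B → h⁻¹ * g ∈ A ⊔ F := by
    rintro g h ⟨a, ha⟩
    have h1 : β (e a * g) = β h := by rw [hβtr, ha]; abel
    set g' := e a * g with hg'
    have h2 : g' * z g' * g'⁻¹ = h * z h * h⁻¹ := by rw [hβz, hβz, h1]
    set w := h⁻¹ * g' with hw
    have h3 : w * z g' * w⁻¹ = z h := by
      have h4 : w * z g' * w⁻¹ = h⁻¹ * (g' * z g' * g'⁻¹) * h := by rw [hw]; group
      rw [h4, h2]; group
    have hwF : w ∈ F := by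
      rw [hF, Subgroup.mem_normalizer_iff]
      intro n
      constructor
      · intro hn
        have hn' : n ∈ Subgroup.zpowers (z g') := by rw [hzgen]; exact hn
        obtain ⟨k, hk⟩ := Subgroup.mem_zpowers_iff.1 hn'
        have h5 : w * n * w⁻¹ = (z h) ^ k := by rw [← h3, conj_zpow, hk]
        rw [h5]
        exact Subgroup.zpow_mem _ (hz h) k
      · intro hn
        have hn' : w * n * w⁻¹ ∈ Subgroup.zpowers (z h) := by rw [hzgen]; exact hn
        obtain ⟨k, hk⟩ := Subgroup.mem_zpowers_iff.1 hn'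
        have h5 : n = (z g') ^ k := by
          rw [← h3, conj_zpow] at hk
          have := mul_right_cancel hk
          exact (mul_left_cancel this).symm
        rw [h5]
        exact Subgroup.zpow_mem _ (hz g') k
    have h6 : h⁻¹ * g = (h⁻¹ * (e a)⁻¹ * h⁻¹⁻¹) * w := by rw [hw, hg']; group
    rw [h6]
    exact Subgroup.mul_mem _ ((le_sup_left : A ≤ A ⊔ F) (hAn.conj_mem _ (A.inv_mem (heA a)) h⁻¹))
      ((le_sup_right : F ≤ A ⊔ F) hwF)

  have hMBfin : Finite (M ⧸ B) :=
    Nat.finite_of_card_ne_zero (by rw [hf]; exact pow_ne_zero _ hpp.ne_zero)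
  set W : AddSubgroup (M ⧸ B) :=
    AddSubgroup.closure (Set.range fun g : Q => (QuotientAddGroup.mk (β g) : M ⧸ B)) with hWdef
  obtain ⟨j, hj, hWj⟩ : ∃ j, j ≤ f ∧ Nat.card W = p ^ j := by
    have := AddSubgroup.card_addSubgroup_dvd_card W
    rw [hf] at this
    exact (Nat.dvd_prime_pow hpp).1 this
  set H : Subgroup Q := A ⊔ F with hH
  have hHidx : H.index ≠ 0 := by
    intro h0
    have := Subgroup.index_dvd_of_le (le_sup_left : A ≤ H)
    rw [h0] at this
    exact hfin (Nat.eq_zero_of_zero_dvd this)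
  have hcard : H.index ≤ p ^ j := by
    rw [← hWj]
    show Nat.card (Q ⧸ H) ≤ Nat.card W
    apply Nat.card_le_card_of_injective (fun q : Q ⧸ H =>
      (⟨(QuotientAddGroup.mk (β q.out) : M ⧸ B), AddSubgroup.subset_closure ⟨q.out, rfl⟩⟩ : W))
    intro q q' hqq
    have h1 : (QuotientAddGroup.mk (β q.out) : M ⧸ B) = QuotientAddGroup.mk (β q'.out) :=
      congrArg Subtype.val hqq
    rw [QuotientAddGroup.eq] at h1
    have h2 : β q'.out - β q.out ∈ B := by
      have : β q'.out - β q.out = -β q.out + β q'.out := by abel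
      rw [this]; exact h1
    have h3 := hP3 _ _ h2
    rw [← QuotientGroup.out_eq' q, ← QuotientGroup.out_eq' q']
    exact QuotientGroup.eq.2 h3
  obtain ⟨k, g, hg, hk⟩ := gens Q H.index H rfl hHidx
  have hk2 : 2 ^ k ≤ p ^ j := hk.trans hcard
  have hkm : k ≤ m := by
    have h1 : p ≤ 2 ^ (p - 1) := by
      have := Nat.lt_two_pow_self (n := p - 1)
      omega
    have h2 : 2 ^ k ≤ 2 ^ m := by
      calc 2 ^ k ≤ p ^ j := hk2
        _ ≤ p ^ f := Nat.pow_le_pow_right hpp.pos hj
        _ ≤ (2 ^ (p - 1)) ^ f := Nat.pow_le_pow_left h1 f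
        _ = 2 ^ ((p - 1) * f) := by rw [pow_mul]
        _ ≤ 2 ^ m := Nat.pow_le_pow_right (by norm_num) hf2
    exact (Nat.pow_le_pow_iff_right (by norm_num)).1 h2
  obtain ⟨c, hc1, hc2, s, hs⟩ := lattice_lift M m b p B hB f hf hf2 k hkm j W hWj
    (fun i => (QuotientAddGroup.mk (β (g i)) : M ⧸ B)) hk2
  have hex : ∀ i : Fin k, ∃ a : M, τ a = β (g i) - c (Fin.castLE hkm i) := by
    intro i
    have h1 := hc1 i
    rw [QuotientAddGroup.eq] at h1
    have h2 : β (g i) - c (Fin.castLE hkm i) = -c (Fin.castLE hkm i) + β (g i) := by abel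
    rw [h2]
    exact h1
  choose a ha using hex
  have hβc : ∀ i : Fin k, β (e (a i) * g i) = c (Fin.castLE hkm i) := by
    intro i
    rw [hβtr, ha]; abel
  let y : Fin m → Q := fun i => if h : (i : ℕ) < k then e (a ⟨i, h⟩) * g ⟨i, h⟩ else e (c i)
  refine ⟨F, hFfin, y, ?_⟩
  set L : Subgroup Q := F ⊔ Subgroup.closure (Set.range y) with hL
  have hFL : F ≤ L := le_sup_left
  have hyL : ∀ i, y i ∈ L := fun i =>
    (le_sup_right : Subgroup.closure (Set.range y) ≤ L) (Subgroup.subset_closure ⟨i, rfl⟩)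
  have hxL : ∀ w ∈ Subgroup.zpowers x, w ∈ L := by
    intro w hw
    have : Subgroup.zpowers x ≤ L := by rw [Subgroup.zpowers_le]; exact hFL hxF
    exact this hw
  have hAL : A ⊔ L = ⊤ := by
    rw [eq_top_iff, ← hg]
    apply sup_le
    · exact sup_le le_sup_left (hFL.trans le_sup_right)
    · rw [Subgroup.closure_le]
      rintro _ ⟨i, rfl⟩
      have h1 : g i = (e (a i))⁻¹ * y (Fin.castLE hkm i) := by
        have h2 : y (Fin.castLE hkm i) = e (a i) * g i := by
          have hi : ((Fin.castLE hkm i : Fin m) : ℕ) < k := i.2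
          show (if h : ((Fin.castLE hkm i : Fin m) : ℕ) < k then e (a ⟨_, h⟩) * g ⟨_, h⟩
            else e (c _)) = _
          rw [dif_pos hi]
          rfl
        rw [h2]; group
      show g i ∈ A ⊔ L
      rw [h1]
      exact Subgroup.mul_mem _ ((le_sup_left : A ≤ A ⊔ L) (A.inv_mem (heA _)))
        ((le_sup_right : L ≤ A ⊔ L) (hyL _))

  let D : AddSubgroup M :=
    { carrier := {v | e v ∈ L}
      zero_mem' := by show e 0 ∈ L; rw [he0]; exact L.one_mem
      add_mem' := by
        intro u v hu hv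
        show e (u + v) ∈ L
        rw [hadd]; exact L.mul_mem hu hv
      neg_mem' := by
        intro u hu
        show e (-u) ∈ L
        rw [hneg]; exact L.inv_mem hu }
  have hD : ∀ v, v ∈ D ↔ e v ∈ L := fun v => Iff.rfl
  have hβL : ∀ l ∈ L, β l ∈ D := by
    intro l hl
    rw [hD]
    have h1 : e (β l) = l * z l * l⁻¹ * x⁻¹ := by rw [hβz]; group
    rw [h1]
    exact L.mul_mem (L.mul_mem (L.mul_mem hl (hxL _ (hz l))) (L.inv_mem hl))
      (L.inv_mem (hFL hxF))
  have hcD : ∀ i, c i ∈ D := by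
    intro i
    by_cases hi : (i : ℕ) < k
    · have h1 : c i = β (y i) := by
        have h2 : y i = e (a ⟨i, hi⟩) * g ⟨i, hi⟩ := dif_pos hi
        rw [h2, hβc]
        rfl
      rw [h1]
      exact hβL _ (hyL i)
    · rw [hD]
      have h2 : y i = e (c i) := dif_neg hi
      rw [← h2]
      exact hyL i
  have hτD : ∀ v ∈ D, τ v ∈ D := by
    intro v hv
    rw [hD, hτe]
    have hxL' := hFL hxF
    exact L.mul_mem (L.mul_mem (L.mul_mem hxL' hv) (L.inv_mem hxL')) (L.inv_mem hv)
  have hτkD : ∀ (k : ℕ), ∀ v ∈ D, (τ ^ k) v ∈ D := by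
    intro k
    induction k with
    | zero => intro v hv; simpa using hv
    | succ k ih =>
      intro v hv
      rw [pow_succ', Module.End.mul_apply]
      exact hτD _ (ih v hv)

  have hWD : ∀ v : M, ∃ d ∈ D, ∃ w : M, v = d + τ w := by
    have h1 : (⊤ : AddSubgroup (M ⧸ B)) ≤ D.map (QuotientAddGroup.mk' B) := by
      rw [← hc2]
      apply sup_le
      · rw [hWdef, AddSubgroup.closure_le]
        rintro _ ⟨q, rfl⟩
        have hq : q ∈ A ⊔ L := by rw [hAL]; trivial
        obtain ⟨q1, hq1, q2, hq2, rfl⟩ := Subgroup.mem_sup_of_normal_left.1 hq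
        obtain ⟨v, rfl⟩ := (hA q1).1 hq1
        refine ⟨β q2, hβL _ hq2, ?_⟩
        show (QuotientAddGroup.mk (β q2) : M ⧸ B) = QuotientAddGroup.mk (β (e v * q2))
        rw [hβtr, QuotientAddGroup.eq]
        refine ⟨-v, ?_⟩
        rw [map_neg]; abel
      · rw [AddSubgroup.closure_le]
        rintro _ ⟨i, -, rfl⟩
        exact ⟨c i, hcD i, rfl⟩
    intro v
    obtain ⟨d, hd, hdv⟩ := h1 (show (QuotientAddGroup.mk v : M ⧸ B) ∈ ⊤ from trivial)
    have hdv' : (QuotientAddGroup.mk d : M ⧸ B) = QuotientAddGroup.mk v := hdv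
    rw [QuotientAddGroup.eq] at hdv'
    obtain ⟨w, hw⟩ := hdv'
    exact ⟨d, hd, w, by rw [hw]; abel⟩
  have hWDk : ∀ (k : ℕ) (v : M), ∃ d ∈ D, ∃ w : M, v = d + (τ ^ k) w := by
    intro k
    induction k with
    | zero => intro v; exact ⟨0, D.zero_mem, v, by simp⟩
    | succ k ih =>
      intro v
      obtain ⟨d, hd, w, hw⟩ := ih v
      obtain ⟨d', hd', w', hw'⟩ := hWD w
      refine ⟨d + (τ ^ k) d', D.add_mem hd (hτkD k d' hd'), w', ?_⟩
      rw [hw, hw', map_add, pow_succ, Module.End.mul_apply]; abel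
  have hWp : ∀ v : M, ∃ d ∈ D, ∃ w : M, v = d + p • w := by
    intro v
    obtain ⟨d, hd, w, hw⟩ := hWDk (p - 1) v
    obtain ⟨w', hw'⟩ := hpow w
    exact ⟨d, hd, w', by rw [hw, hw']⟩
  have hWps : ∀ (t : ℕ) (v : M), ∃ d ∈ D, ∃ w : M, v = d + (p ^ t) • w := by
    intro t
    induction t with
    | zero => intro v; exact ⟨0, D.zero_mem, v, by simp⟩
    | succ t ih =>
      intro v
      obtain ⟨d, hd, w, hw⟩ := ih v
      obtain ⟨d', hd', w', hw'⟩ := hWp w
      refine ⟨d + (p ^ t) • d', D.add_mem hd (D.nsmul_mem hd' _), w', ?_⟩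
      rw [hw, hw', smul_add, smul_smul, pow_succ]; abel
  have hDtop : ∀ v, v ∈ D := by
    intro v
    obtain ⟨d, hd, w, hw⟩ := hWps s v
    rw [hw]
    apply D.add_mem hd
    have h1 : (AddSubgroup.closure (Set.range c)).index • w ∈ AddSubgroup.closure (Set.range c) :=
      AddSubgroup.nsmul_index_mem _ w
    rw [hs] at h1
    have h2 : AddSubgroup.closure (Set.range c) ≤ D := by
      rw [AddSubgroup.closure_le]
      rintro _ ⟨i, rfl⟩
      exact hcD i
    exact h2 h1
  have hAleL : A ≤ L := by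
    intro q hq
    obtain ⟨v, rfl⟩ := (hA q).1 hq
    exact hDtop v
  rw [← hAL, eq_comm, sup_eq_right]
  exact hAleL

private theorem L1 (M N : Type) [AddCommGroup M] [AddCommGroup N] (m : ℕ) (b : Module.Basis (Fin m) ℤ N)
    (φ : N →+ M) (hφ : Function.Injective φ) (n : ℕ) (hfin : n ≠ 0)
    (hmem : ∀ a : M, ∃ v : N, φ v = n • a)
    (htf : ∀ (n : ℕ) (a : M), n ≠ 0 → n • a = 0 → a = 0) :
    Nonempty (Module.Basis (Fin m) ℤ M) := by
  have : IsAddTorsionFree M := ⟨by
    intro n hn a c hac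
    have h1 : n • (a - c) = 0 := by
      rw [smul_sub]; exact sub_eq_zero.2 hac
    exact sub_eq_zero.1 (htf n _ hn h1)⟩
  have : Module.Finite ℤ N := Module.Finite.of_basis b
  have : Module.Free ℤ N := Module.Free.of_basis b
  choose ψ hψ using hmem
  let ψ' : M →+ N := AddMonoidHom.mk' ψ (by
    intro a c
    apply hφ
    rw [map_add, hψ, hψ, hψ, smul_add])
  have hψinj : Function.Injective ψ'.toIntLinearMap := by
    intro a c hac
    have h1 : ψ a = ψ c := hac
    have h2 : n • a = n • c := by rw [← hψ, ← hψ, h1]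
    have h1 : n • (a - c) = 0 := by
      rw [smul_sub]; exact sub_eq_zero.2 h2
    exact sub_eq_zero.1 (htf n _ hfin h1)
  have : Module.Finite ℤ M := Module.Finite.of_injective ψ'.toIntLinearMap hψinj
  have : Module.Free ℤ M := Module.free_of_finite_type_torsion_free'
  have hN : Module.finrank ℤ N = m := by
    rw [Module.finrank_eq_card_basis b, Fintype.card_fin]
  have h1 : Module.finrank ℤ M ≤ m := by
    rw [← hN]
    exact LinearMap.finrank_le_finrank_of_injective hψinj
  have h2 : m ≤ Module.finrank ℤ M := by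
    rw [← hN]
    have : Function.Injective φ.toIntLinearMap := hφ
    exact LinearMap.finrank_le_finrank_of_injective this
  exact ⟨Module.finBasisOfFinrankEq ℤ M (le_antisymm h1 h2)⟩

private theorem lift_lem (Q : Type) [Group Q] (T : Subgroup Q) [T.Normal] (hT : Finite T) (m : ℕ)
    (F' : Subgroup (Q ⧸ T)) (hF' : Finite F') (y' : Fin m → Q ⧸ T)
    (h : F' ⊔ Subgroup.closure (Set.range y') = ⊤) :
    ∃ F : Subgroup Q, Finite F ∧ ∃ y : Fin m → Q, F ⊔ Subgroup.closure (Set.range y) = ⊤ := by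
  choose y hy using fun i => QuotientGroup.mk'_surjective T (y' i)
  refine ⟨F'.comap (QuotientGroup.mk' T), ?_, y, ?_⟩
  · have h1 : ((F'.comap (QuotientGroup.mk' T) : Subgroup Q) : Set Q).Finite := by
      rw [Subgroup.coe_comap]
      apply Set.Finite.preimage'
      · exact Set.toFinite _
      · intro q _
        obtain ⟨g, rfl⟩ := QuotientGroup.mk'_surjective T q
        have h2 : (QuotientGroup.mk' T) ⁻¹' {(QuotientGroup.mk' T) g} ⊆
            (fun t => g * t) '' (T : Set Q) := by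
          intro w hw
          have h3 : (QuotientGroup.mk' T) g = (QuotientGroup.mk' T) w := (Set.mem_singleton_iff.1 hw).symm
          have h4 : g⁻¹ * w ∈ T := QuotientGroup.eq.1 h3
          exact ⟨g⁻¹ * w, h4, by group⟩
        exact ((Set.toFinite (T : Set Q)).image _).subset h2
    exact h1.to_subtype
  · set L := F'.comap (QuotientGroup.mk' T) ⊔ Subgroup.closure (Set.range y) with hL
    have hTL : T ≤ L := by
      refine le_trans ?_ (le_sup_left)
      intro t ht
      rw [Subgroup.mem_comap]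
      have : (QuotientGroup.mk' T) t = 1 := (QuotientGroup.eq_one_iff t).2 ht
      rw [this]; exact F'.one_mem
    have hmap : L.map (QuotientGroup.mk' T) = ⊤ := by
      rw [hL, Subgroup.map_sup, Subgroup.map_comap_eq_self_of_surjective
        (QuotientGroup.mk'_surjective T), MonoidHom.map_closure, ← Set.range_comp]
      have : (QuotientGroup.mk' T) ∘ y = y' := funext hy
      rw [this, h]
    rw [eq_top_iff]
    intro g _
    obtain ⟨l, hl, hlg⟩ : (QuotientGroup.mk' T) g ∈ L.map (QuotientGroup.mk' T) := by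
      rw [hmap]; trivial
    have h4 : l⁻¹ * g ∈ T := QuotientGroup.eq.1 hlg
    have h5 : g = l * (l⁻¹ * g) := by group
    rw [h5]
    exact L.mul_mem hl (hTL h4)

private theorem tf_of_basis (Q : Type) [Group Q] (B : Subgroup Q) [IsMulCommutative B] (m : ℕ)
    (b : Module.Basis (Fin m) ℤ (Additive B)) : ∀ c ∈ B, IsOfFinOrder c → c = 1 := by
  intro c hc hfo
  have : Module.Free ℤ (Additive B) := Module.Free.of_basis b
  obtain ⟨n, hn, hcn⟩ := isOfFinOrder_iff_pow_eq_one.1 hfo
  set v : Additive B := Additive.ofMul ⟨c, hc⟩ with hv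
  have h1 : (n : ℤ) • v = 0 := by
    rw [natCast_zsmul]
    apply Additive.toMul.injective
    rw [toMul_nsmul, toMul_zero]
    apply Subtype.ext
    rw [SubmonoidClass.coe_pow]
    exact hcn
  have h2 : b.repr v = 0 := by
    have h3 : (n : ℤ) • b.repr v = 0 := by rw [← map_smul, h1, map_zero]
    ext i
    have h4 := DFunLike.congr_fun h3 i
    rw [Finsupp.smul_apply, Finsupp.zero_apply, smul_eq_mul] at h4
    rcases mul_eq_zero.1 h4 with h5 | h5
    · exfalso; have : n = 0 := by exact_mod_cast h5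
      omega
    · simpa using h5
  have h3 : v = 0 := by
    rw [← b.repr.map_eq_zero_iff]; exact h2
  have h4 : (⟨c, hc⟩ : B) = 1 := by
    have := congrArg Additive.toMul h3
    exact this
  exact congrArg Subtype.val h4

private theorem data1 (Q : Type) [Group Q] (B C : Subgroup Q) [hC : C.Normal] (hBC : B ≤ C)
    (hcent : ∀ c ∈ C, ∀ v ∈ B, c * v = v * c)
    (htf : ∀ b ∈ B, IsOfFinOrder b → b = 1) (hfin : B.index ≠ 0) :
    ∃ T : Subgroup Q, T.Normal ∧ Finite T ∧ T ≤ C ∧ (∀ g ∈ C, IsOfFinOrder g → g ∈ T) ∧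
      (∀ g ∈ T, IsOfFinOrder g) ∧ (∀ a ∈ C, ∀ c ∈ C, a * c * a⁻¹ * c⁻¹ ∈ T) := by
  obtain ⟨T0, hT0n, hT0f, hT0, hT0c⟩ := torsion_of_central ↥C (B.subgroupOf C)
    (by
      intro v hv
      rw [Subgroup.mem_center_iff]
      intro c
      exact Subtype.ext (hcent c c.2 v hv))
    (by
      intro v hv hfo
      have h1 : IsOfFinOrder (v : Q) := by
        rw [← Submonoid.isOfFinOrder_coe] at hfo
        exact hfo
      exact Subtype.ext (htf v hv h1))
    (by
      intro h
      have h1 := Subgroup.relIndex_mul_index hBC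
      have h2 : B.relIndex C = 0 := h
      rw [h2, zero_mul] at h1
      exact hfin h1.symm)
  have hmem : ∀ g : Q, g ∈ T0.map C.subtype ↔ g ∈ C ∧ IsOfFinOrder g := by
    intro g
    constructor
    · rintro ⟨t, ht, rfl⟩
      refine ⟨t.2, ?_⟩
      have := (hT0 t).1 ht
      rw [← Submonoid.isOfFinOrder_coe] at this
      exact this
    · rintro ⟨hg, hfo⟩
      refine ⟨⟨g, hg⟩, (hT0 _).2 ?_, rfl⟩
      rw [← Submonoid.isOfFinOrder_coe]
      exact hfo
  refine ⟨T0.map C.subtype, ⟨?_⟩, ?_, ?_, ?_, ?_, ?_⟩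
  · intro t ht g
    rw [hmem] at ht ⊢
    refine ⟨hC.conj_mem _ ht.1 g, ?_⟩
    obtain ⟨n, hn, htn⟩ := isOfFinOrder_iff_pow_eq_one.1 ht.2
    exact isOfFinOrder_iff_pow_eq_one.2 ⟨n, hn, by rw [conj_pow, htn]; simp⟩
  · have h1 : ((T0.map C.subtype : Subgroup Q) : Set Q).Finite := by
      rw [Subgroup.coe_map]
      exact (Set.toFinite (T0 : Set C)).image _
    exact h1.to_subtype
  · intro t ht; exact ((hmem t).1 ht).1
  · intro g hg hfo; exact (hmem g).2 ⟨hg, hfo⟩
  · intro g hg; exact ((hmem g).1 hg).2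
  · intro a ha c hc
    exact ⟨_, hT0c ⟨a, ha⟩ ⟨c, hc⟩, rfl⟩

private theorem data2 (Q : Type) [Group Q] (B C : Subgroup Q) [IsMulCommutative B] [B.Normal] (hBC : B ≤ C)
    (m : ℕ) (b : Module.Basis (Fin m) ℤ (Additive B)) (hfin : B.index ≠ 0)
    (T : Subgroup Q) [T.Normal] (hTf : ∀ g ∈ C, IsOfFinOrder g → g ∈ T)
    (hTfo : ∀ g ∈ T, IsOfFinOrder g) (hTc : ∀ a ∈ C, ∀ c ∈ C, a * c * a⁻¹ * c⁻¹ ∈ T) :
    ∃ (M : Type) (_ : AddCommGroup M) (e : M → Q ⧸ T), (∀ a c, e (a + c) = e a * e c) ∧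
      Function.Injective e ∧ (∀ q, q ∈ C.map (QuotientGroup.mk' T) ↔ ∃ a, e a = q) ∧
      Nonempty (Module.Basis (Fin m) ℤ M) ∧ (∀ (n : ℕ) (a : M), n ≠ 0 → n • a = 0 → a = 0) ∧
      (∀ a : M, ∃ c ∈ B, ((c : Q) : Q ⧸ T) = e (B.index • a)) := by
  set A : Subgroup (Q ⧸ T) := C.map (QuotientGroup.mk' T) with hA
  have hBtf := tf_of_basis Q B m b
  have hcomm : IsMulCommutative A := ⟨⟨by
    rintro ⟨_, a, ha, rfl⟩ ⟨_, c, hc, rfl⟩
    apply Subtype.ext
    show ((a * c : Q) : Q ⧸ T) = ((c * a : Q) : Q ⧸ T)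
    rw [QuotientGroup.eq]
    have h1 : (a * c)⁻¹ * (c * a) = c⁻¹ * a⁻¹ * c⁻¹⁻¹ * a⁻¹⁻¹ := by group
    rw [h1]
    exact hTc _ (C.inv_mem hc) _ (C.inv_mem ha)⟩⟩
  have hmemA : ∀ c ∈ B, (QuotientGroup.mk' T) c ∈ A := fun c hc => ⟨c, hBC hc, rfl⟩
  let φ0 : B →* A :=
    { toFun := fun c => ⟨(QuotientGroup.mk' T) c, hmemA c c.2⟩
      map_one' := by apply Subtype.ext; simp
      map_mul' := by intro a c; apply Subtype.ext; simp }
  let φ : Additive B →+ Additive A := MonoidHom.toAdditive φ0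
  have hφe : ∀ v : Additive B, ((Additive.toMul (φ v) : A) : Q ⧸ T) =
      (((Additive.toMul v : B) : Q) : Q ⧸ T) := fun v => rfl
  have hφinj : Function.Injective φ := by
    rw [injective_iff_map_eq_zero]
    intro v hv
    have h1 := hφe v
    rw [hv] at h1
    have h2 : ((((Additive.toMul v : B) : Q)) : Q ⧸ T) = 1 := h1.symm
    rw [QuotientGroup.eq_one_iff] at h2
    have h3 := hBtf _ (Additive.toMul v).2 (hTfo _ h2)
    apply Additive.toMul.injective
    exact Subtype.ext h3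
  have htf : ∀ (n : ℕ) (a : Additive A), n ≠ 0 → n • a = 0 → a = 0 := by
    intro n a hn hna
    obtain ⟨⟨_, c, hc, rfl⟩, ha⟩ : ∃ q : A, q = Additive.toMul a := ⟨_, rfl⟩
    have h1 : (Additive.toMul a) ^ n = 1 := by
      have := congrArg Additive.toMul hna
      rwa [toMul_nsmul] at this
    rw [← ha] at h1
    have h2 : (((c ^ n : Q)) : Q ⧸ T) = 1 := congrArg Subtype.val h1
    rw [QuotientGroup.eq_one_iff] at h2
    have h3 : IsOfFinOrder c := (hTfo _ h2).of_pow hn
    have h4 : c ∈ T := hTf c hc h3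
    apply Additive.toMul.injective
    rw [← ha]
    apply Subtype.ext
    exact (QuotientGroup.eq_one_iff c).2 h4
  have hpow : ∀ a : Additive A, ∃ v : Additive B, φ v = B.index • a := by
    intro a
    obtain ⟨⟨_, c, hc, rfl⟩, ha⟩ : ∃ q : A, q = Additive.toMul a := ⟨_, rfl⟩
    have h1 : c ^ B.index ∈ B := Subgroup.pow_index_mem B c
    refine ⟨Additive.ofMul ⟨c ^ B.index, h1⟩, ?_⟩
    apply Additive.toMul.injective
    rw [toMul_nsmul, ← ha]
    apply Subtype.ext
    rfl
  refine ⟨Additive A, inferInstance, fun a => ((Additive.toMul a : A) : Q ⧸ T), ?_, ?_, ?_, ?_, htf,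
    ?_⟩
  · intro a c; rfl
  · intro a c hac
    apply Additive.toMul.injective
    exact Subtype.ext hac
  · intro q
    constructor
    · intro hq; exact ⟨Additive.ofMul ⟨q, hq⟩, rfl⟩
    · rintro ⟨a, rfl⟩; exact (Additive.toMul a).2
  · exact L1 _ _ m b φ hφinj B.index hfin hpow htf
  · intro a
    obtain ⟨v, hv⟩ := hpow a
    refine ⟨(Additive.toMul v : B), (Additive.toMul v).2, ?_⟩
    rw [← hv]
    rfl

theorem slick (Q : Type) [Group Q] (B : Subgroup Q) [B.Normal] [IsMulCommutative B]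
    (hfin : B.index ≠ 0) (m : ℕ) (b : Module.Basis (Fin m) ℤ (Additive B))
    (h : (∀ g : Q, ∀ c ∈ B, g * c = c * g) ∨
      ∃ (p : ℕ) (x : Q), p.Prime ∧ (∀ c ∈ B, x * c = c * x → c = 1) ∧
        (∀ c ∈ B, x ^ p * c = c * x ^ p) ∧
        ∀ g : Q, ∃ j : ℕ, ∀ c ∈ B,
          (g * x * g⁻¹ * (x ^ j)⁻¹) * c = c * (g * x * g⁻¹ * (x ^ j)⁻¹)) :
    ∃ F : Subgroup Q, Finite F ∧ ∃ y : Fin m → Q, F ⊔ Subgroup.closure (Set.range y) = ⊤ := by
  have hBtf := tf_of_basis Q B m b
  rcases Nat.eq_zero_or_pos m with hm | hm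
  ·
    subst hm
    have hsub : Subsingleton (Additive B) := b.repr.toEquiv.subsingleton
    have hB : B = ⊥ := by
      rw [Subgroup.eq_bot_iff_forall]
      intro c hc
      have h1 : (⟨c, hc⟩ : B) = 1 := by
        have := hsub.elim (Additive.ofMul (⟨c, hc⟩ : B)) (Additive.ofMul 1)
        exact Additive.ofMul.injective this
      exact congrArg Subtype.val h1
    rw [hB, Subgroup.index_bot] at hfin
    have : Finite Q := Nat.finite_of_card_ne_zero hfin
    exact ⟨⊤, inferInstance, fun _ => 1, top_sup_eq _⟩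
  rcases h with h | ⟨p, x, hpp, hx1, hx2, hx3⟩
  · obtain ⟨T, hTn, hTfin, -, hTf, hTfo, hTc⟩ := data1 Q B ⊤ le_top
      (fun c _ v hv => h c v hv) hBtf hfin
    obtain ⟨M, inst, e, hadd, hinj, hA, ⟨bM⟩, -, -⟩ := data2 Q B ⊤ le_top m b hfin T hTf hTfo hTc
    apply lift_lem Q T hTfin m ⊥ inferInstance (fun i => e (bM i))
    set L : Subgroup (Q ⧸ T) := ⊥ ⊔ Subgroup.closure (Set.range fun i => e (bM i)) with hL
    have he0 : e 0 = 1 := by
      have := hadd 0 0
      rw [add_zero] at this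
      simpa using this
    have hneg : ∀ a, e (-a) = (e a)⁻¹ := by
      intro a
      have h := hadd a (-a)
      rw [add_neg_cancel, he0] at h
      exact (inv_eq_of_mul_eq_one_right h.symm).symm
    let D : AddSubgroup M :=
      { carrier := {v | e v ∈ L}
        zero_mem' := by show e 0 ∈ L; rw [he0]; exact L.one_mem
        add_mem' := by
          intro u v hu hv
          show e (u + v) ∈ L
          rw [hadd]; exact L.mul_mem hu hv
        neg_mem' := by
          intro u hu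
          show e (-u) ∈ L
          rw [hneg]; exact L.inv_mem hu }
    have h1 : AddSubgroup.closure (Set.range bM) ≤ D := by
      rw [AddSubgroup.closure_le]
      rintro _ ⟨i, rfl⟩
      exact (le_sup_right : Subgroup.closure (Set.range fun i => e (bM i)) ≤ L)
        (Subgroup.subset_closure ⟨i, rfl⟩)
    have h2 : ∀ v : M, v ∈ AddSubgroup.closure (Set.range bM) := by
      intro v
      rw [← Submodule.span_int_eq_addSubgroupClosure, Submodule.mem_toAddSubgroup, bM.span_eq]
      trivial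
    rw [eq_top_iff]
    intro q _
    obtain ⟨g, rfl⟩ := QuotientGroup.mk'_surjective T q
    obtain ⟨v, hv⟩ := (hA _).1 ⟨g, trivial, rfl⟩
    rw [← hv]
    exact h1 (h2 v)
  · have hp : Fact p.Prime := ⟨hpp⟩
    set C : Subgroup Q := Subgroup.centralizer (B : Set Q) with hC
    have hBC : B ≤ C := by
      intro c hc
      rw [hC, Subgroup.mem_centralizer_iff]
      intro v hv
      exact congrArg Subtype.val (mul_comm (⟨v, hv⟩ : B) ⟨c, hc⟩)
    have hmemC : ∀ g, g ∈ C ↔ ∀ c ∈ B, g * c = c * g := by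
      intro g
      rw [hC, Subgroup.mem_centralizer_iff]
      exact ⟨fun h c hc => (h c hc).symm, fun h c hc => (h c hc).symm⟩
    have hCn : C.Normal := ⟨by
      intro g hg q
      rw [hmemC] at hg ⊢
      intro c hc
      have h1 : q⁻¹ * c * q⁻¹⁻¹ ∈ B := (inferInstance : B.Normal).conj_mem c hc q⁻¹
      have h2 := hg _ h1
      have h3 : q * g * q⁻¹ * c = q * (g * (q⁻¹ * c * q⁻¹⁻¹)) * q⁻¹ := by group
      rw [h3, h2]; group⟩
    obtain ⟨T, hTn, hTfin, hTC, hTf, hTfo, hTc⟩ := data1 Q B C hBC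
      (fun c hc v hv => (hmemC c).1 hc v hv) hBtf hfin
    obtain ⟨M, inst, e, hadd, hinj, hA, ⟨bM⟩, htfM, hpow⟩ :=
      data2 Q B C hBC m b hfin T hTf hTfo hTc
    have he0 : e 0 = 1 := by
      have := hadd 0 0
      rw [add_zero] at this
      simpa using this
    have hnsmul : ∀ (n : ℕ) (a : M), e (n • a) = e a ^ n := by
      intro n
      induction n with
      | zero => intro a; simp [he0]
      | succ n ih => intro a; rw [succ_nsmul, hadd, ih, pow_succ]
    have hBinj : ∀ c ∈ B, ((c : Q) : Q ⧸ T) = 1 → c = 1 := by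
      intro c hc h1
      rw [QuotientGroup.eq_one_iff] at h1
      exact hBtf c hc (hTfo c h1)
    have hfix : ∀ a, ((x : Q) : Q ⧸ T) * e a = e a * ((x : Q) : Q ⧸ T) → a = 0 := by
      intro a ha
      obtain ⟨c, hc, hce⟩ := hpow a
      have h1 : ((x : Q) : Q ⧸ T) * ((c : Q) : Q ⧸ T) = ((c : Q) : Q ⧸ T) * ((x : Q) : Q ⧸ T) := by
        rw [hce, hnsmul]
        have : Commute ((x : Q) : Q ⧸ T) (e a) := ha
        exact (this.pow_right _).eq
      have h2 : x * c * x⁻¹ * c⁻¹ ∈ B :=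
        B.mul_mem ((inferInstance : B.Normal).conj_mem c hc x) (B.inv_mem hc)
      have h3 : ((x * c * x⁻¹ * c⁻¹ : Q) : Q ⧸ T) = 1 := by
        have h4 : ((x * c * x⁻¹ * c⁻¹ : Q) : Q ⧸ T) =
            ((x : Q) : Q ⧸ T) * ((c : Q) : Q ⧸ T) * ((x : Q) : Q ⧸ T)⁻¹ * ((c : Q) : Q ⧸ T)⁻¹ := rfl
        rw [h4, h1]; group
      have h4 := hBinj _ h2 h3
      have h5 : x * c = c * x := by
        have h6 : x * c * x⁻¹ = c := mul_inv_eq_one.1 h4
        exact mul_inv_eq_iff_eq_mul.1 h6
      have h6 : c = 1 := hx1 c hc h5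
      apply htfM B.index a hfin
      apply hinj
      rw [← hce, h6, he0]
      rfl
    have hxp : ((x : Q) : Q ⧸ T) ^ p = 1 := by
      have h1 : x ^ p ∈ C := by rw [hmemC]; exact hx2
      obtain ⟨a, ha⟩ := (hA ((x ^ p : Q) : Q ⧸ T)).1 ⟨x ^ p, h1, rfl⟩
      have h2 : a = 0 := by
        apply hfix
        rw [ha]
        show ((x * x ^ p : Q) : Q ⧸ T) = ((x ^ p * x : Q) : Q ⧸ T)
        rw [(Commute.self_pow x p).eq]
      rw [h2, he0] at ha
      rw [← QuotientGroup.mk_pow]
      exact ha.symm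
    have hnorm : ∀ g : Q ⧸ T, ∃ j : ℕ, g * ((x : Q) : Q ⧸ T) * g⁻¹ * (((x : Q) : Q ⧸ T) ^ j)⁻¹ ∈
        C.map (QuotientGroup.mk' T) := by
      intro g
      obtain ⟨g, rfl⟩ := QuotientGroup.mk'_surjective T g
      obtain ⟨j, hj⟩ := hx3 g
      exact ⟨j, g * x * g⁻¹ * (x ^ j)⁻¹, (hmemC _).2 hj, rfl⟩
    have hAn : (C.map (QuotientGroup.mk' T)).Normal :=
      Subgroup.Normal.map hCn _ (QuotientGroup.mk'_surjective T)
    have hAidx : (C.map (QuotientGroup.mk' T)).index ≠ 0 := by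
      intro h0
      have h1 := Subgroup.index_map_dvd C (QuotientGroup.mk'_surjective T)
      rw [h0] at h1
      have h2 : C.index = 0 := Nat.eq_zero_of_zero_dvd h1
      have h3 := Subgroup.index_dvd_of_le hBC
      rw [h2] at h3
      exact hfin (Nat.eq_zero_of_zero_dvd h3)
    obtain ⟨F', hF', y', hy'⟩ := keyK (Q ⧸ T) (C.map (QuotientGroup.mk' T)) hAidx M e hadd hinj hA
      m hm bM p ((x : Q) : Q ⧸ T) hfix hxp hnorm
    exact lift_lem Q T hTfin m F' hF' y' hy'

end Pool.Agent.H652.SR
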