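import Mathlib
import Pool.Agent.H652.SR.Defs
import Pool.Agent.H652.SR.Jshba
import Pool.Agent.H652.SR.Jshbc
import Pool.Agent.H652.SR.Jshbd
import Pool.Agent.H652.SR.Jslick

set_option autoImplicit false

open scoped IsMulCommutative

namespace Pool.Agent.H652.SR

private theorem case1_aux1 {K : Type} [Group K] (P : Subgroup K) (Z : Set K) (s : K)
    (hs : s ∈ P ⊔ Subgroup.closure Z) :
    ∃ T : Set K, T.Finite ∧ T ⊆ P ∧ s ∈ Subgroup.closure (T ∪ Z) := by
  have h1 : P ⊔ Subgroup.closure Z = Subgroup.closure ((P : Set K) ∪ Z) := by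
    rw [Subgroup.closure_union, Subgroup.closure_eq]
  rw [h1] at hs
  induction hs using Subgroup.closure_induction with
  | mem x hx =>
    rcases hx with hx | hx
    · exact ⟨{x}, Set.finite_singleton x, by simpa using hx,
        Subgroup.subset_closure (Or.inl rfl)⟩
    · exact ⟨∅, Set.finite_empty, Set.empty_subset _, Subgroup.subset_closure (Or.inr hx)⟩
  | one => exact ⟨∅, Set.finite_empty, Set.empty_subset _, Subgroup.one_mem _⟩
  | mul x y _ _ ihx ihy =>
    obtain ⟨T1, hT1, hT1P, h1⟩ := ihx
    obtain ⟨T2, hT2, hT2P, h2⟩ := ihy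
    refine ⟨T1 ∪ T2, hT1.union hT2, Set.union_subset hT1P hT2P, ?_⟩
    refine Subgroup.mul_mem _ (Subgroup.closure_mono ?_ h1) (Subgroup.closure_mono ?_ h2)
    · exact Set.union_subset_union_left _ Set.subset_union_left
    · exact Set.union_subset_union_left _ Set.subset_union_right
  | inv x _ ihx =>
    obtain ⟨T1, hT1, hT1P, h1⟩ := ihx
    exact ⟨T1, hT1, hT1P, Subgroup.inv_mem _ h1⟩

private theorem case1_aux2 {K : Type} [Group K] (P : Subgroup K) (Z : Set K) (S : Set K) (hS : S.Finite)
    (hs : S ⊆ (P ⊔ Subgroup.closure Z : Subgroup K)) :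
    ∃ T : Set K, T.Finite ∧ T ⊆ P ∧ S ⊆ Subgroup.closure (T ∪ Z) := by
  induction S, hS using Set.Finite.induction_on with
  | empty => exact ⟨∅, Set.finite_empty, Set.empty_subset _, Set.empty_subset _⟩
  | @insert a S _ _ ih =>
    obtain ⟨T1, hT1, hT1P, h1⟩ := ih (fun x hx => hs (Set.mem_insert_of_mem _ hx))
    obtain ⟨T2, hT2, hT2P, h2⟩ := case1_aux1 P Z a (hs (Set.mem_insert _ _))
    refine ⟨T1 ∪ T2, hT1.union hT2, Set.union_subset hT1P hT2P, ?_⟩
    intro x hx
    rcases Set.mem_insert_iff.1 hx with rfl | hx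
    · exact Subgroup.closure_mono (Set.union_subset_union_left _ Set.subset_union_right) h2
    · exact Subgroup.closure_mono (Set.union_subset_union_left _ Set.subset_union_left) (h1 hx)

theorem case1 (n : ℕ) (K : Type) [Group K] (hfg : Group.FG K) (hs : Group.IsSolvable K) (htf : TF K)
    (hn : SHB K n) (hc : Case1 K)
    (IH : ∀ n' < n, ∀ (L : Type) [Group L], Group.FG L → Group.IsSolvable L → TF L → SHB L n' →
      NGen L n') : NGen K n := by
  obtain ⟨Q, instQ, f, hf, m, hm, B, hBn, hBc, hBi, ⟨b⟩, hcond⟩ := hc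
  obtain ⟨F, hFfin, y, hy⟩ := slick Q B hBi m b hcond
  have hB : HasChain B m := by
    apply HasChain.of_rank
    rw [rank_eq_card_basis b]
    simp
  have hQ : HasChain Q m := hB.of_injective B.subtype B.subtype_injective
  let e : K ⧸ f.ker ≃* Q := QuotientGroup.quotientKerEquivOfSurjective f hf
  have hKN : HasChain (K ⧸ f.ker) m := hQ.of_injective e.symm.toMonoidHom e.symm.injective
  obtain ⟨hmn, hN⟩ := SHB.ker hs hn f.ker hKN
  have hP : SHB (F.comap f : Subgroup K) (n - m) := by
    have hle : f.ker ≤ F.comap f := by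
      intro x hx
      rw [Subgroup.mem_comap, (MonoidHom.mem_ker).1 hx]
      exact F.one_mem
    apply SHB.of_index (f.ker.subgroupOf (F.comap f))
    ·
      have hk : f.ker.subgroupOf (F.comap f) = (f.comp (F.comap f).subtype).ker := by
        rfl
      rw [hk, Subgroup.index_ker]
      have hfin : Finite (f.comp (F.comap f).subtype).range := by
        have : (f.comp (F.comap f).subtype).range ≤ F := by
          rintro _ ⟨x, rfl⟩
          exact x.2
        exact Finite.of_injective _ (Subgroup.inclusion_injective this)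
      exact Nat.card_ne_zero.2 ⟨⟨1⟩, hfin⟩
    · exact hN.of_injective (Subgroup.subgroupOfEquivOfLe hle).toMonoidHom
        (Subgroup.subgroupOfEquivOfLe hle).injective
  choose z hz using fun i => hf (y i)
  have hPz : F.comap f ⊔ Subgroup.closure (Set.range z) = ⊤ := by
    rw [eq_top_iff]
    intro k _
    have hk : f k ∈ F ⊔ Subgroup.closure (Set.range y) := by rw [hy]; trivial
    have hyz : Subgroup.closure (Set.range y) = (Subgroup.closure (Set.range z)).map f := by
      rw [MonoidHom.map_closure]
      congr 1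
      ext x
      constructor
      · rintro ⟨i, rfl⟩
        exact ⟨z i, ⟨i, rfl⟩, hz i⟩
      · rintro ⟨_, ⟨i, rfl⟩, rfl⟩
        exact ⟨i, (hz i).symm⟩
    have hF : F = (F.comap f).map f := by
      rw [Subgroup.map_comap_eq_self_of_surjective hf]
    rw [hyz, hF, ← Subgroup.map_sup] at hk
    obtain ⟨k', hk', hkk⟩ := hk
    have h2 : k = k' * (k'⁻¹ * k) := by group
    rw [h2]
    refine Subgroup.mul_mem _ hk' ?_
    have h3 : k'⁻¹ * k ∈ F.comap f := by
      rw [Subgroup.mem_comap, map_mul, map_inv, hkk]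
      simp [F.one_mem]
    exact (le_sup_left : F.comap f ≤ F.comap f ⊔ Subgroup.closure (Set.range z)) h3
  obtain ⟨S, hS⟩ := hfg
  obtain ⟨T, hT, hTP, hST⟩ := case1_aux2 (F.comap f) (Set.range z) (S : Set K) S.finite_toSet
    (by rw [hPz]; intro x _; trivial)
  have hle0 : Subgroup.closure T ≤ F.comap f := (Subgroup.closure_le _).2 hTP
  have hfg0 : Group.FG (Subgroup.closure T) :=
    (Group.fg_iff_subgroup_fg _).2 ⟨hT.toFinset, by simp⟩
  have hs0 : Group.IsSolvable (Subgroup.closure T) := by infer_instance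
  have htf0 : TF (Subgroup.closure T) := by
    intro g hg
    have := htf (g : K) ((Subgroup.subtype_injective _).isOfFinOrder_iff.2 hg)
    exact Subtype.ext this
  have hsh0 : SHB (Subgroup.closure T) (n - m) :=
    hP.of_injective (Subgroup.inclusion hle0) (Subgroup.inclusion_injective hle0)
  obtain ⟨x, hx⟩ := IH (n - m) (by omega) (Subgroup.closure T) hfg0 hs0 htf0 hsh0
  have hgen : NGen K ((n - m) + m) := by
    refine ⟨Fin.append (fun i => (x i : K)) z, ?_⟩
    rw [eq_top_iff, ← hS, Subgroup.closure_le]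
    refine hST.trans ?_
    rw [SetLike.coe_subset_coe, Subgroup.closure_le]
    apply Set.union_subset
    · have h1 : Subgroup.closure T ≤ Subgroup.closure (Set.range (Fin.append (fun i => (x i : K)) z)) := by
        have h2 : Subgroup.closure T = (⊤ : Subgroup (Subgroup.closure T)).map
            (Subgroup.closure T).subtype := by
          rw [← MonoidHom.range_eq_map, Subgroup.range_subtype]
        refine h2.le.trans ?_
        rw [← hx, MonoidHom.map_closure, Subgroup.closure_le]
        rintro _ ⟨_, ⟨i, rfl⟩, rfl⟩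
        apply Subgroup.subset_closure
        exact ⟨Fin.castAdd m i, by simp⟩
      exact Subgroup.subset_closure.trans h1
    · rintro _ ⟨i, rfl⟩
      apply Subgroup.subset_closure
      exact ⟨Fin.natAdd (n - m) i, by simp⟩
  have : n - m + m = n := by omega
  rw [this] at hgen
  exact hgen

end Pool.Agent.H652.SR
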