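import Mathlib
import Pool.Agent.H652.SR.Defs

set_option autoImplicit false

open scoped IsMulCommutative

namespace Pool.Agent.H652.SR

theorem LC.quot {G : Type} [Group G] {n : ℕ} (h : LC G n) (N : Subgroup G) [N.Normal] :
    LC (G ⧸ N) n := by
  intro M _ _ _ φ hφ
  obtain ⟨h1, h2⟩ := h M (φ.comp (QuotientGroup.mk' N)) (by
    intro B hB
    refine hφ B (fun g b hb => ?_)
    obtain ⟨g', rfl⟩ := QuotientGroup.mk'_surjective N g
    exact hB g' b hb)
  let F : Der φ → Der (φ.comp (QuotientGroup.mk' N)) := fun δ =>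
    ⟨fun g => δ.1 (QuotientGroup.mk' N g), fun g g' => by
      have := δ.2 (QuotientGroup.mk' N g) (QuotientGroup.mk' N g')
      rw [← map_mul] at this
      exact this⟩
  have hF : Function.Injective F := by
    intro δ δ' hδ
    apply Subtype.ext
    funext g
    obtain ⟨g', rfl⟩ := QuotientGroup.mk'_surjective N g
    exact congrFun (congrArg Subtype.val hδ) g'
  have := h1
  exact ⟨Finite.of_injective F hF, (Nat.card_le_card_of_injective F hF).trans h2⟩

theorem g1 (Q : Type) [Group Q] (A : Subgroup Q) [A.Normal] [IsMulCommutative A]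
    (hfinA : Finite A) (hne : A ≠ ⊥)
    (hmin : ∀ B : Subgroup Q, B.Normal → B ≤ A → B = ⊥ ∨ B = A) (n : ℕ) (hLC : LC Q n)
    (x : Fin n → Q) (hx : Subgroup.closure (Set.range x) ⊔ A = ⊤) :
    ∃ y : Fin n → Q, (∀ i, y i * (x i)⁻¹ ∈ A) ∧ Subgroup.closure (Set.range y) = ⊤ := by
  classical
  by_contra hcon
  push Not at hcon
  have : Nontrivial A := (Subgroup.nontrivial_iff_ne_bot A).mpr hne
  have hcomm : ∀ a ∈ A, ∀ b ∈ A, a * b = b * a := by
    intro a ha b hb
    have := mul_comm (⟨a, ha⟩ : A) ⟨b, hb⟩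
    exact congrArg Subtype.val this
  obtain ⟨h1, h2⟩ := hLC A (MulAut.conjNormal (H := A)) (by
    intro B hB
    have hnorm : (B.map A.subtype).Normal := by
      constructor
      rintro b ⟨b', hb', rfl⟩ g
      refine ⟨MulAut.conjNormal g b', hB g b' hb', ?_⟩
      simp
    rcases hmin _ hnorm (Subgroup.map_subtype_le B) with h | h
    · left
      rwa [Subgroup.map_eq_bot_iff_of_injective _ A.subtype_injective] at h
    · right
      rw [eq_top_iff]
      intro b _
      have : (b : Q) ∈ B.map A.subtype := by rw [h]; exact b.2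
      obtain ⟨b', hb', hb''⟩ := this
      have : b' = b := Subtype.ext hb''
      rwa [← this])

  let L : (Fin n → A) → Subgroup Q := fun a => Subgroup.closure (Set.range (fun i => (a i : Q) * x i))
  have hLsup : ∀ a, L a ⊔ A = ⊤ := by
    intro a
    rw [eq_top_iff, ← hx]
    refine sup_le ?_ le_sup_right
    rw [Subgroup.closure_le]
    rintro _ ⟨i, rfl⟩
    have h1 : (a i : Q) * x i ∈ L a ⊔ A :=
      (le_sup_left : L a ≤ L a ⊔ A) (Subgroup.subset_closure ⟨i, rfl⟩)
    have h2 : (a i : Q) ∈ L a ⊔ A := (le_sup_right : A ≤ L a ⊔ A) (a i).2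
    have := mul_mem (inv_mem h2) h1
    rwa [inv_mul_cancel_left] at this
  have hLne : ∀ a, L a ≠ ⊤ := by
    intro a
    refine hcon _ (fun i => ?_)
    rw [mul_inv_cancel_right]
    exact (a i).2
  have hdec : ∀ a (q : Q), ∃ α : A, (α : Q)⁻¹ * q ∈ L a := by
    intro a q
    have : q ∈ A ⊔ L a := by rw [sup_comm, hLsup]; trivial
    rw [Subgroup.mem_sup_of_normal_left] at this
    obtain ⟨α, hα, l, hl, rfl⟩ := this
    refine ⟨⟨α, hα⟩, ?_⟩
    simpa using hl
  have hLbot : ∀ a, L a ⊓ A = ⊥ := by
    intro a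
    have hnorm : (L a ⊓ A).Normal := by
      constructor
      intro b hb g
      obtain ⟨α, hα⟩ := hdec a g⁻¹

      have hb2 : b ∈ A := hb.2
      have hb1 : b ∈ L a := hb.1
      set l := (α : Q)⁻¹ * g⁻¹ with hl
      have hg : g = l⁻¹ * (α : Q)⁻¹ := by rw [hl]; group
      have e : g * b * g⁻¹ = l⁻¹ * b * l := by
        rw [hg]
        have := hcomm _ α.2 b hb2
        have h3 : (α : Q)⁻¹ * b * α = b := by
          rw [mul_assoc, ← this, inv_mul_cancel_left]
        calc l⁻¹ * (α : Q)⁻¹ * b * (l⁻¹ * (α : Q)⁻¹)⁻¹ = l⁻¹ * ((α : Q)⁻¹ * b * α) * l := by group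
          _ = l⁻¹ * b * l := by rw [h3]
      refine Subgroup.mem_inf.mpr ⟨?_, Subgroup.Normal.conj_mem inferInstance b hb2 g⟩
      rw [e]
      exact mul_mem (mul_mem (inv_mem hα) hb1) hα
    rcases hmin _ hnorm inf_le_right with h | h
    · exact h
    · exfalso
      apply hLne a
      rw [← hLsup a, left_eq_sup]
      exact inf_eq_right.mp h
  have huniq : ∀ a (q : Q) (α β : A), (α : Q)⁻¹ * q ∈ L a → (β : Q)⁻¹ * q ∈ L a → α = β := by
    intro a q α β hα hβ
    have h1 : (α : Q)⁻¹ * β ∈ L a ⊓ A := by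
      refine Subgroup.mem_inf.mpr ⟨?_, mul_mem (inv_mem α.2) β.2⟩
      have := mul_mem hα (inv_mem hβ)
      have e : (α : Q)⁻¹ * q * ((β : Q)⁻¹ * q)⁻¹ = (α : Q)⁻¹ * β := by group
      rwa [e] at this
    rw [hLbot, Subgroup.mem_bot, inv_mul_eq_one] at h1
    exact Subtype.ext h1
  choose π hπ using hdec
  have hder : ∀ a, π a ∈ Der (MulAut.conjNormal (H := A)) := by
    intro a g h
    refine huniq a (g * h) _ _ (hπ a (g * h)) ?_
    have hg := hπ a g
    have hh := hπ a h
    set α := π a g
    set β := π a h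
    have e : (((α * MulAut.conjNormal g β : A) : Q))⁻¹ * (g * h)
        = ((α : Q)⁻¹ * g) * ((β : Q)⁻¹ * h) := by
      rw [Subgroup.coe_mul, MulAut.conjNormal_apply]
      have hc : (α : Q)⁻¹ * (g * β * g⁻¹) = (g * β * g⁻¹) * (α : Q)⁻¹ :=
        hcomm _ (inv_mem α.2) _ (Subgroup.Normal.conj_mem inferInstance _ β.2 g)
      have hc2 : (α : Q) * (g * β * g⁻¹) = (g * β * g⁻¹) * (α : Q) :=
        hcomm _ α.2 _ (Subgroup.Normal.conj_mem inferInstance _ β.2 g)
      rw [hc2, mul_inv_rev]
      group
    rw [e]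
    exact mul_mem hg hh
  have hπx : ∀ a i, π a (x i) = (a i)⁻¹ := by
    intro a i
    refine huniq a (x i) _ _ (hπ a (x i)) ?_
    rw [Subgroup.coe_inv, inv_inv]
    exact Subgroup.subset_closure ⟨i, rfl⟩
  have hπA : ∀ a (b : A), π a (b : Q) = b := by
    intro a b
    refine huniq a b _ _ (hπ a b) ?_
    rw [inv_mul_cancel]
    exact one_mem _
  let F : Option (Fin n → A) → Der (MulAut.conjNormal (H := A) : Q →* MulAut A) := fun o =>
    match o with
    | none => 1
    | some a => ⟨π a, hder a⟩
  have hF : Function.Injective F := by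
    have hne1 : ∀ a, F (some a) ≠ 1 := by
      intro a ha
      obtain ⟨b, hb⟩ := exists_ne (1 : A)
      apply hb
      have := congrFun (congrArg Subtype.val ha) (b : Q)
      rw [← hπA a b]
      exact this
    intro o o' h
    rcases o with _ | a <;> rcases o' with _ | a'
    · rfl
    · exact absurd h.symm (hne1 a')
    · exact absurd h (hne1 a)
    · congr 1
      funext i
      have := congrFun (congrArg Subtype.val h) (x i)
      have h2 : π a (x i) = π a' (x i) := this
      rw [hπx, hπx] at h2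
      exact inv_injective h2
  have := h1
  have h3 := Nat.card_le_card_of_injective F hF
  have : Finite (Fin n → A) := inferInstance
  rw [Finite.card_option, Nat.card_fun, Nat.card_fin] at h3
  omega

private theorem exists_min_normal (Q : Type) [Group Q] (A : Subgroup Q) [A.Normal] (hfinA : Finite A)
    (hne : A ≠ ⊥) : ∃ B : Subgroup Q, B.Normal ∧ B ≤ A ∧ B ≠ ⊥ ∧
      ∀ C : Subgroup Q, C.Normal → C ≤ B → C = ⊥ ∨ C = B := by
  classical
  let S : Set (Subgroup Q) := {B | B.Normal ∧ B ≤ A ∧ B ≠ ⊥}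
  have hS : S.Nonempty := ⟨A, inferInstance, le_rfl, hne⟩
  obtain ⟨B, hB, hBmin⟩ := WellFounded.has_min (measure (fun B : Subgroup Q => Nat.card B)).wf S hS
  refine ⟨B, hB.1, hB.2.1, hB.2.2, fun C hC hCB => ?_⟩
  by_contra hcon
  push Not at hcon
  have h1 := hBmin C ⟨hC, hCB.trans hB.2.1, hcon.1⟩
  apply h1
  show Nat.card C < Nat.card B
  have : Finite B := Finite.of_injective _ (Subgroup.inclusion_injective hB.2.1)
  by_contra hge
  push Not at hge
  exact hcon.2 (Subgroup.eq_of_le_of_card_ge hCB hge)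

theorem g1_abelian (Q : Type) [Group Q] (A : Subgroup Q) [A.Normal] [IsMulCommutative A]
    (hfinA : Finite A) (n : ℕ) (hLC : LC Q n)
    (x : Fin n → Q) (hx : Subgroup.closure (Set.range x) ⊔ A = ⊤) :
    ∃ y : Fin n → Q, (∀ i, y i * (x i)⁻¹ ∈ A) ∧ Subgroup.closure (Set.range y) = ⊤ := by
  classical
  obtain ⟨N, hN⟩ : ∃ N, Nat.card A = N := ⟨_, rfl⟩
  induction N using Nat.strong_induction_on generalizing Q with
  | _ N ih =>
    by_cases hA : A = ⊥
    · refine ⟨x, fun i => by rw [mul_inv_cancel]; exact one_mem _, ?_⟩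
      rwa [hA, sup_bot_eq] at hx
    obtain ⟨B, hBn, hBA, hBne, hBmin⟩ := exists_min_normal Q A hfinA hA
    have := hBn
    have hcommA : ∀ a ∈ A, ∀ b ∈ A, a * b = b * a := by
      intro a ha b hb
      have := mul_comm (⟨a, ha⟩ : A) ⟨b, hb⟩
      exact congrArg Subtype.val this
    let p := QuotientGroup.mk' B
    have hps : Function.Surjective p := QuotientGroup.mk'_surjective B
    have hpB : ∀ q, p q = 1 ↔ q ∈ B := fun q => QuotientGroup.eq_one_iff q
    have hAn : (A.map p).Normal := Subgroup.Normal.map inferInstance p hps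
    have hAc : IsMulCommutative (A.map p) := by
      refine ⟨⟨?_⟩⟩
      rintro ⟨_, a, ha, rfl⟩ ⟨_, b, hb, rfl⟩
      apply Subtype.ext
      show p a * p b = p b * p a
      rw [← map_mul, ← map_mul, hcommA a ha b hb]
    let f : A → A.map p := fun a => ⟨p a, ⟨a, a.2, rfl⟩⟩
    have hfs : Function.Surjective f := by
      rintro ⟨_, a, ha, rfl⟩
      exact ⟨⟨a, ha⟩, rfl⟩
    have hAf : Finite (A.map p) := Finite.of_surjective f hfs
    have hcard : Nat.card (A.map p) < N := by
      rw [← hN]
      by_contra hge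
      push Not at hge
      have hbij : Function.Bijective f := by
        rw [Nat.bijective_iff_surjective_and_card]
        exact ⟨hfs, le_antisymm hge (Nat.card_le_card_of_surjective f hfs)⟩
      apply hBne
      rw [Subgroup.eq_bot_iff_forall]
      intro b hb
      have h1 : f ⟨b, hBA hb⟩ = f 1 := by
        apply Subtype.ext
        show p b = p 1
        rw [map_one, hpB]
        exact hb
      exact congrArg Subtype.val (hbij.1 h1)
    have hclos : ∀ z : Fin n → Q, Subgroup.closure (Set.range (fun i => p (z i)))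
        = (Subgroup.closure (Set.range z)).map p := by
      intro z
      rw [MonoidHom.map_closure]
      congr 1
      exact Set.range_comp p z
    obtain ⟨y', hy', hy'c⟩ := ih (Nat.card (A.map p)) hcard (Q ⧸ B) (A.map p) hAf (hLC.quot B)
      (fun i => p (x i)) (by
        rw [hclos, ← Subgroup.map_sup, hx]
        exact Subgroup.map_top_of_surjective p hps) rfl
    choose y'' hy'' using fun i => hps (y' i)
    have hy1 : ∀ i, y'' i * (x i)⁻¹ ∈ A := by
      intro i
      have h1 := hy' i
      rw [← hy'' i, ← map_inv, ← map_mul] at h1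
      obtain ⟨a, ha, ha'⟩ := h1
      have h2 : a⁻¹ * (y'' i * (x i)⁻¹) ∈ B := by
        rw [← hpB, map_mul, map_inv, ha', inv_mul_cancel]
      have := mul_mem ha (hBA h2)
      rwa [mul_inv_cancel_left] at this
    have hy2 : Subgroup.closure (Set.range y'') ⊔ B = ⊤ := by
      have h1 : (Subgroup.closure (Set.range y'')).map p = ⊤ := by
        rw [← hclos, ← hy'c]
        congr 1
        congr 1
        funext i
        exact hy'' i
      have h2 := congrArg (Subgroup.comap p) h1
      rw [Subgroup.comap_map_eq, Subgroup.comap_top, QuotientGroup.ker_mk'] at h2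
      exact h2
    have : IsMulCommutative B := by
      refine ⟨⟨?_⟩⟩
      rintro ⟨a, ha⟩ ⟨b, hb⟩
      apply Subtype.ext
      exact hcommA a (hBA ha) b (hBA hb)
    obtain ⟨y, hy, hyc⟩ := g1 Q B (Finite.of_injective _ (Subgroup.inclusion_injective hBA)) hBne
      hBmin n hLC y'' hy2
    refine ⟨y, fun i => ?_, hyc⟩
    have := mul_mem (hBA (hy i)) (hy1 i)
    have e : y i * (y'' i)⁻¹ * (y'' i * (x i)⁻¹) = y i * (x i)⁻¹ := by group
    rwa [e] at this

theorem ngen_of_finite (Q : Type) [Group Q] (hfin : Finite Q) (hs : IsSolvable Q) (n : ℕ)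
    (hLC : LC Q n) : ∃ x : Fin n → Q, Subgroup.closure (Set.range x) = ⊤ := by
  classical
  obtain ⟨N, hN⟩ : ∃ N, Nat.card Q = N := ⟨_, rfl⟩
  induction N using Nat.strong_induction_on generalizing Q with
  | _ N ih =>
    by_cases htriv : Subsingleton Q
    · exact ⟨fun _ => 1, Subsingleton.elim _ _⟩
    rw [not_subsingleton_iff_nontrivial] at htriv

    have hex : ∃ k, derivedSeries Q k = ⊥ := hs.solvable
    have hk := Nat.find_spec hex
    have hk0 : Nat.find hex ≠ 0 := by
      intro h0
      rw [h0, derivedSeries_zero] at hk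
      exact top_ne_bot hk
    obtain ⟨m, hm⟩ := Nat.exists_eq_succ_of_ne_zero hk0
    have hmne : derivedSeries Q m ≠ ⊥ := Nat.find_min hex (by omega)
    rw [hm] at hk
    let A := derivedSeries Q m
    have : A.Normal := derivedSeries_normal Q m
    have hAne : A ≠ ⊥ := hmne
    have : IsMulCommutative A := by
      refine ⟨⟨?_⟩⟩
      rintro ⟨a, ha⟩ ⟨b, hb⟩
      apply Subtype.ext
      show a * b = b * a
      rw [Nat.succ_eq_add_one, derivedSeries_succ, Subgroup.commutator_eq_bot_iff_le_centralizer] at hk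
      exact (Subgroup.mem_centralizer_iff.mp (hk ha) b hb).symm
    have hQf : Finite (Q ⧸ A) := inferInstance
    have hcard : Nat.card (Q ⧸ A) < N := by
      rw [← hN, Subgroup.card_eq_card_quotient_mul_card_subgroup A]
      have h1 : 0 < Nat.card (Q ⧸ A) := Nat.card_pos
      have h2 : 1 < Nat.card A := by
        rw [Subgroup.one_lt_card_iff_ne_bot]
        exact hAne
      nlinarith
    have hsol : Group.IsSolvable Q := hs
    have hsol2 : Group.IsSolvable (Q ⧸ A) :=
      Group.isSolvable_of_surjective (QuotientGroup.mk'_surjective A)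
    obtain ⟨x', hx'⟩ := ih (Nat.card (Q ⧸ A)) hcard (Q ⧸ A) hQf hsol2 (hLC.quot A) rfl
    let p := QuotientGroup.mk' A
    have hps : Function.Surjective p := QuotientGroup.mk'_surjective A
    choose x hx using fun i => hps (x' i)
    have hsup : Subgroup.closure (Set.range x) ⊔ A = ⊤ := by
      have h1 : (Subgroup.closure (Set.range x)).map p = ⊤ := by
        rw [MonoidHom.map_closure, ← hx']
        congr 1
        rw [← Set.range_comp]
        congr 1
        funext i
        exact hx i
      have h2 := congrArg (Subgroup.comap p) h1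
      rw [Subgroup.comap_map_eq, Subgroup.comap_top, QuotientGroup.ker_mk'] at h2
      exact h2
    obtain ⟨y, _, hy⟩ := g1_abelian Q A inferInstance n hLC x hsup
    exact ⟨y, hy⟩

end Pool.Agent.H652.SR

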