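import Mathlib
import Pool.Agent.H652.SR.Defs
import Pool.Agent.H652.SR.Jg1
import Pool.Agent.H652.SR.Jsylow

set_option autoImplicit false

open scoped IsMulCommutative

namespace Pool.Agent.H652.SR

section G2

variable {Q : Type} [Group Q] (A : Subgroup Q) [A.Normal] [IsMulCommutative A] {n : ℕ}
  (x : Fin n → Q)

def rho (a : Fin n → A) : FreeGroup (Fin n) →* Q := FreeGroup.lift fun i => (a i : Q) * x i

omit [A.Normal] [IsMulCommutative A] in
private lemma rho_of (a : Fin n → A) (i : Fin n) : rho A x a (FreeGroup.of i) = a i * x i := by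
  simp [rho]

private lemma rho_mem (a : Fin n → A) (w : FreeGroup (Fin n)) :
    rho A x a w * (rho A x 1 w)⁻¹ ∈ A := by
  have h : (QuotientGroup.mk' A).comp (rho A x a) = (QuotientGroup.mk' A).comp (rho A x 1) := by
    apply FreeGroup.ext_hom
    intro i
    simp only [MonoidHom.comp_apply, rho_of, map_mul, Pi.one_apply, OneMemClass.coe_one, map_one,
      one_mul]
    rw [(QuotientGroup.eq_one_iff (N := A) ((a i : Q))).2 (a i).2 |> (fun h => (h : QuotientGroup.mk' A (a i : Q) = 1))]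
    simp
  have h2 := DFunLike.congr_fun h w
  simp only [MonoidHom.comp_apply] at h2
  rw [← QuotientGroup.eq_one_iff]
  change QuotientGroup.mk' A _ = 1
  rw [map_mul, map_inv, h2, mul_inv_cancel]

def E (a : Fin n → A) (w : FreeGroup (Fin n)) : A :=
  ⟨rho A x a w * (rho A x 1 w)⁻¹, rho_mem A x a w⟩

private lemma rho_eq (a : Fin n → A) (w : FreeGroup (Fin n)) :
    rho A x a w = E A x a w * rho A x 1 w := by
  simp [E]

omit [A.Normal] in
private lemma comm' {u v : Q} (hu : u ∈ A) (hv : v ∈ A) : u * v = v * u := by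
  have := mul_comm (⟨u, hu⟩ : A) ⟨v, hv⟩
  exact congrArg Subtype.val this

private lemma conj_mem' {u : Q} (hu : u ∈ A) (q : Q) : q * u * q⁻¹ ∈ A :=
  (inferInstance : A.Normal).conj_mem u hu q

private lemma conjNormal_of_mem {u : Q} (hu : u ∈ A) (v : A) : MulAut.conjNormal u v = v := by
  ext
  rw [MulAut.conjNormal_apply, comm' A hu v.2]
  group

private lemma E_word (a : Fin n → A) (w w' : FreeGroup (Fin n)) :
    E A x a (w * w') = E A x a w * MulAut.conjNormal (rho A x 1 w) (E A x a w') := by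
  ext
  simp only [E, MulAut.conjNormal_apply, Subgroup.coe_mul, map_mul]
  group

private lemma E_one (w : FreeGroup (Fin n)) : E A x 1 w = 1 := by
  ext
  simp [E]

private lemma E_of (a : Fin n → A) (i : Fin n) : E A x a (FreeGroup.of i) = a i := by
  ext
  simp [E, rho_of]

private lemma E_word_one (a : Fin n → A) : E A x a 1 = 1 := by
  ext
  simp [E]

private lemma E_mul (a b : Fin n → A) (w : FreeGroup (Fin n)) :
    E A x (a * b) w = E A x a w * E A x b w := by
  let σ : FreeGroup (Fin n) →* Q := MonoidHom.mk' (fun w => E A x a w * rho A x b w) (by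
    intro w w'
    have h1 := rho_eq A x b w
    have h3 : (MulAut.conjNormal (rho A x 1 w) (E A x a w') : A) * E A x b w
        = E A x b w * MulAut.conjNormal (rho A x 1 w) (E A x a w') := mul_comm _ _
    have h2 := congrArg Subtype.val h3
    simp only [Subgroup.coe_mul, MulAut.conjNormal_apply] at h2
    rw [E_word, map_mul, Subgroup.coe_mul, MulAut.conjNormal_apply]
    calc (E A x a w : Q) * (rho A x 1 w * E A x a w' * (rho A x 1 w)⁻¹) *
          (rho A x b w * rho A x b w')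
        = (E A x a w : Q) * ((rho A x 1 w * E A x a w' * (rho A x 1 w)⁻¹) *
          E A x b w) * rho A x 1 w * rho A x b w' := by rw [h1]; group
      _ = _ := by rw [h2, h1]; group)
  have hσ : σ = rho A x (a * b) := by
    apply FreeGroup.ext_hom
    intro i
    change (E A x a (FreeGroup.of i) : Q) * rho A x b (FreeGroup.of i) = _
    rw [E_of, rho_of, rho_of]
    simp [mul_assoc]
  have h1 : (E A x a w : Q) * rho A x b w = rho A x (a * b) w := DFunLike.congr_fun hσ w
  rw [rho_eq A x b, rho_eq A x (a * b)] at h1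
  ext
  rw [Subgroup.coe_mul]
  rw [← mul_assoc] at h1
  exact (mul_right_cancel h1).symm

def EH (w : FreeGroup (Fin n)) : (Fin n → A) →* A where
  toFun a := E A x a w
  map_one' := E_one A x w
  map_mul' a b := E_mul A x a b w

abbrev SS : Subgroup (FreeGroup (Fin n)) := A.comap (rho A x 1)

private lemma rho_SS (a : Fin n → A) (s : SS A x) : rho A x a s ∈ A := by
  rw [rho_eq]
  exact A.mul_mem (E A x a s).2 s.2

def theta (a : Fin n → A) : SS A x →* A where
  toFun s := ⟨rho A x a s, rho_SS A x a s⟩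
  map_one' := by ext; simp
  map_mul' s t := by ext; simp

private lemma theta_eq (a : Fin n → A) (s : SS A x) : theta A x a s = E A x a s * theta A x 1 s := by
  ext
  simp only [theta, Subgroup.coe_mul]
  exact rho_eq A x a s

private lemma theta_mul (a b : Fin n → A) (s : SS A x) :
    theta A x (a * b) s = E A x a s * theta A x b s := by
  rw [theta_eq, E_mul, theta_eq A x b, mul_assoc]

private lemma E_eq_div (a : Fin n → A) (s : SS A x) : E A x a s = theta A x a s / theta A x 1 s := by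
  rw [theta_eq]; simp

def Eqv (f : SS A x →* A) : Prop :=
  ∀ (w : FreeGroup (Fin n)) (s : SS A x),
    f (MulAut.conjNormal w s) = MulAut.conjNormal (rho A x 1 w) (f s)

private lemma theta_eqv (a : Fin n → A) : Eqv A x (theta A x a) := by
  intro w s
  ext
  have h1 := rho_eq A x a w
  have h2 : rho A x a ((MulAut.conjNormal w s : SS A x) : FreeGroup (Fin n)) =
      rho A x a w * rho A x a s * (rho A x a w)⁻¹ := by
    rw [MulAut.conjNormal_apply]; simp
  change rho A x a ((MulAut.conjNormal w s : SS A x) : FreeGroup (Fin n)) = _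
  rw [h2, MulAut.conjNormal_apply]
  change _ = rho A x 1 w * rho A x a s * (rho A x 1 w)⁻¹
  have h3 := conj_mem' A (rho_SS A x a s) (rho A x 1 w)
  have h4 := comm' A (E A x a w).2 h3
  rw [h1]
  calc (E A x a w : Q) * rho A x 1 w * rho A x a s * ((E A x a w : Q) * rho A x 1 w)⁻¹
      = ((E A x a w : Q) * (rho A x 1 w * rho A x a s * (rho A x 1 w)⁻¹)) * (E A x a w : Q)⁻¹ := by
        group
    _ = _ := by rw [h4]; group

private lemma Eqv.mul {f g : SS A x →* A} (hf : Eqv A x f) (hg : Eqv A x g) : Eqv A x (f * g) := by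
  intro w s
  rw [MonoidHom.mul_apply, MonoidHom.mul_apply, hf, hg, map_mul]

private lemma Eqv.div {f g : SS A x →* A} (hf : Eqv A x f) (hg : Eqv A x g) : Eqv A x (f / g) := by
  intro w s
  rw [MonoidHom.div_apply, MonoidHom.div_apply, hf, hg, map_div]

def ES (a : Fin n → A) : SS A x →* A := theta A x a / theta A x 1

private lemma ES_apply (a : Fin n → A) (s : SS A x) : ES A x a s = E A x a s := by
  rw [ES, MonoidHom.div_apply, E_eq_div]

private lemma ES_eqv (a : Fin n → A) : Eqv A x (ES A x a) := (theta_eqv A x a).div A x (theta_eqv A x 1)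

end G2

section G2

variable {Q : Type} [Group Q] (A : Subgroup Q) [A.Normal] [IsMulCommutative A] {n : ℕ}
  (x : Fin n → Q)

private lemma exists_decomp (hx : Subgroup.closure (Set.range x) ⊔ A = ⊤) (a : Fin n → A) (q : Q) :
    ∃ (u : A) (w : FreeGroup (Fin n)), q = u * rho A x a w := by
  have h1 : Subgroup.closure (Set.range x) ≤ (rho A x 1).range := by
    rw [Subgroup.closure_le]
    rintro _ ⟨i, rfl⟩
    exact ⟨FreeGroup.of i, by simp [rho_of]⟩
  have h2 : q ∈ A ⊔ (rho A x 1).range := by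
    have : q ∈ (⊤ : Subgroup Q) := Subgroup.mem_top q
    rw [← hx] at this
    rw [sup_comm]
    exact (sup_le_sup_right h1 A) this
  rw [Subgroup.mem_sup_of_normal_left] at h2
  obtain ⟨u, hu, v, ⟨w, rfl⟩, rfl⟩ := h2
  refine ⟨⟨u, hu⟩ * (E A x a w)⁻¹, w, ?_⟩
  rw [rho_eq A x a]
  simp

private lemma irr_image (hx : Subgroup.closure (Set.range x) ⊔ A = ⊤)
    (hirr : ∀ B : Subgroup Q, B.Normal → B ≤ A → B ≠ ⊥ → ∀ a ∈ A, ∃ k : ℕ, 0 < k ∧ a ^ k ∈ B)
    (f : SS A x →* A) (hf : Eqv A x f) (K : Subgroup (SS A x))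
    (hK : ∀ (w : FreeGroup (Fin n)), ∀ s ∈ K, MulAut.conjNormal w s ∈ K)
    (h1 : ∃ s ∈ K, f s ≠ 1) (a : A) : ∃ k : ℕ, 0 < k ∧ ∃ s ∈ K, f s = a ^ k := by
  set B : Subgroup Q := (K.map f).map A.subtype with hB
  have hBn : B.Normal := by
    constructor
    intro b hb q
    obtain ⟨_, ⟨s, hs, rfl⟩, rfl⟩ := hb
    obtain ⟨u, w, rfl⟩ := exists_decomp A x hx 1 q
    refine ⟨f (MulAut.conjNormal w s), ⟨_, hK w s hs, rfl⟩, ?_⟩
    rw [hf]
    simp only [Subgroup.subtype_apply, MulAut.conjNormal_apply]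
    have h3 := conj_mem' A (f s).2 (rho A x 1 w)
    have h4 := comm' A u.2 h3
    calc rho A x 1 w * (f s : Q) * (rho A x 1 w)⁻¹
        = (rho A x 1 w * (f s : Q) * (rho A x 1 w)⁻¹) * (u : Q) * (u : Q)⁻¹ := by group
      _ = _ := by rw [← h4]; group
  have hBA : B ≤ A := by
    rintro _ ⟨b, _, rfl⟩
    exact b.2
  have hB1 : B ≠ ⊥ := by
    intro h
    obtain ⟨s, hs, hs1⟩ := h1
    have : (f s : Q) ∈ B := ⟨f s, ⟨s, hs, rfl⟩, rfl⟩
    rw [h, Subgroup.mem_bot] at this
    exact hs1 (Subtype.ext this)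
  obtain ⟨k, hk, ⟨b, ⟨s, hs, h2⟩, h3⟩⟩ := hirr B hBn hBA hB1 a a.2
  refine ⟨k, hk, s, hs, ?_⟩
  rw [h2]
  ext
  simpa using h3

def Full (f g : SS A x →* A) : Prop :=
  ∀ u v : A, ∃ k : ℕ, 0 < k ∧ ∃ s, f s = u ^ k ∧ g s = v ^ k

private lemma ker_conj {f : SS A x →* A} (hf : Eqv A x f) :
    ∀ (w : FreeGroup (Fin n)), ∀ s ∈ f.ker, MulAut.conjNormal w s ∈ f.ker := by
  intro w s hs
  rw [MonoidHom.mem_ker] at hs ⊢
  rw [hf, hs, map_one]

private lemma full_of (hx : Subgroup.closure (Set.range x) ⊔ A = ⊤)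
    (hirr : ∀ B : Subgroup Q, B.Normal → B ≤ A → B ≠ ⊥ → ∀ a ∈ A, ∃ k : ℕ, 0 < k ∧ a ^ k ∈ B)
    {f g : SS A x →* A} (hf : Eqv A x f) (hg : Eqv A x g)
    (h1 : ∃ s, f s ≠ 1) (h2 : ∃ s, f s = 1 ∧ g s ≠ 1) : Full A x f g := by
  have hA := irr_image A x hx hirr f hf ⊤ (fun _ _ _ => Subgroup.mem_top _)
    (by obtain ⟨s, hs⟩ := h1; exact ⟨s, Subgroup.mem_top _, hs⟩)
  have hB := irr_image A x hx hirr g hg f.ker (ker_conj A x hf)
    (by obtain ⟨s, hs, hs'⟩ := h2; exact ⟨s, hs, hs'⟩)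
  intro u v
  obtain ⟨k, hk, s, _, hs⟩ := hA u
  obtain ⟨k', hk', t, ht, ht'⟩ := hB (g s)
  obtain ⟨l, hl, r, hr, hr'⟩ := hB v
  rw [MonoidHom.mem_ker] at ht hr
  refine ⟨k * k' * l, by positivity, (s ^ k' * t⁻¹) ^ l * r ^ (k * k'), ?_, ?_⟩
  · simp only [map_mul, map_pow, map_inv, hs, ht, hr]
    simp [pow_mul]
  · simp only [map_mul, map_pow, map_inv, ht', hr']
    rw [mul_inv_cancel, one_pow, one_mul, ← pow_mul]
    congr 1
    ring

private lemma pow_eq_one' (htf : ∀ a ∈ A, IsOfFinOrder a → a = 1) {a : A} {k : ℕ} (hk : 0 < k)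
    (h : a ^ k = 1) : a = 1 := by
  have := htf a a.2 (isOfFinOrder_iff_pow_eq_one.2 ⟨k, hk, by
    have := congrArg Subtype.val h
    simpa using this⟩)
  exact Subtype.ext this

private lemma eval_inj (hx : Subgroup.closure (Set.range x) ⊔ A = ⊤)
    (htf : ∀ a ∈ A, IsOfFinOrder a → a = 1)
    (hirr : ∀ B : Subgroup Q, B.Normal → B ≤ A → B ≠ ⊥ → ∀ a ∈ A, ∃ k : ℕ, 0 < k ∧ a ^ k ∈ B)
    {f g : SS A x →* A} (hf : Eqv A x f) (hg : Eqv A x g)
    (h : ∀ s, f s = 1 → g s = 1) {s₀ : SS A x} (h0 : f s₀ ≠ 1) (h1 : g s₀ = 1) (s : SS A x) :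
    g s = 1 := by
  obtain ⟨k, hk, t, ht, ht'⟩ := irr_image A x hx hirr f hf g.ker (ker_conj A x hg) ⟨s₀, h1, h0⟩ (f s)
  rw [MonoidHom.mem_ker] at ht
  have h2 := h (s ^ k * t⁻¹) (by rw [map_mul, map_pow, map_inv, ht', mul_inv_cancel])
  rw [map_mul, map_inv, ht, map_pow, inv_one, mul_one] at h2
  exact pow_eq_one' A htf hk h2

private lemma exp_range (hQ : Group.FG Q) (hx : Subgroup.closure (Set.range x) ⊔ A = ⊤)
    (hirr : ∀ B : Subgroup Q, B.Normal → B ≤ A → B ≠ ⊥ → ∀ a ∈ A, ∃ k : ℕ, 0 < k ∧ a ^ k ∈ B)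
    (a : Fin n → A) (h1 : ∃ s, theta A x a s ≠ 1) :
    ∃ k : ℕ, 0 < k ∧ ∀ u : A, ∃ s, theta A x a s = u ^ k := by
  classical
  obtain ⟨T, hT⟩ := hQ.out
  have hA : ∀ u : A, ∃ k : ℕ, 0 < k ∧ ∃ s, theta A x a s = u ^ k := by
    intro u
    obtain ⟨k, hk, s, _, hs⟩ := irr_image A x hx hirr (theta A x a) (theta_eqv A x a) ⊤
      (fun _ _ _ => Subgroup.mem_top _)
      (by obtain ⟨s, hs⟩ := h1; exact ⟨s, Subgroup.mem_top _, hs⟩) u
    exact ⟨k, hk, s, hs⟩
  choose kk hkk ss hss using hA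
  choose uu ww huw using exists_decomp A x hx a
  set k : ℕ := ∏ q ∈ T, kk (uu q) with hk
  have hkpos : 0 < k := Finset.prod_pos fun q _ => hkk _
  refine ⟨k, hkpos, ?_⟩
  let B : Subgroup Q :=
    { carrier := {q | ∃ (u : A) (w : FreeGroup (Fin n)), q = u * rho A x a w ∧
        ∃ s, theta A x a s = u ^ k}
      one_mem' := ⟨1, 1, by simp, 1, by simp⟩
      mul_mem' := by
        rintro _ _ ⟨u, w, rfl, s, hs⟩ ⟨u', w', rfl, s', hs'⟩
        refine ⟨u * MulAut.conjNormal (rho A x a w) u', w * w', ?_, s * MulAut.conjNormal w s', ?_⟩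
        · simp only [Subgroup.coe_mul, MulAut.conjNormal_apply, map_mul]
          group
        · rw [map_mul, theta_eqv, hs, mul_pow, hs', map_pow]
          congr 2
          rw [rho_eq A x a, map_mul]
          change _ = (MulAut.conjNormal (E A x a w : Q)) _
          rw [conjNormal_of_mem A (E A x a w).2]
          rfl
      inv_mem' := by
        rintro _ ⟨u, w, rfl, s, hs⟩
        refine ⟨(MulAut.conjNormal (rho A x a w⁻¹) u)⁻¹, w⁻¹, ?_,
          (MulAut.conjNormal w⁻¹ s)⁻¹, ?_⟩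
        · rw [Subgroup.coe_inv, MulAut.conjNormal_apply, (rho A x a).map_inv]
          group
        · rw [(theta A x a).map_inv, theta_eqv, hs, map_pow, inv_pow]
          congr 2
          rw [rho_eq A x a, map_mul]
          change _ = (MulAut.conjNormal (E A x a w⁻¹ : Q)) _
          rw [conjNormal_of_mem A (E A x a w⁻¹).2]
          rfl }
  have hB : ∀ q : Q, q ∈ B := by
    intro q
    have hq : q ∈ Subgroup.closure (T : Set Q) := by rw [hT]; exact Subgroup.mem_top q
    refine (Subgroup.closure_le B).2 ?_ hq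
    intro t ht
    refine ⟨uu t, ww t, huw t, ss (uu t) ^ (∏ q ∈ T.erase t, kk (uu q)), ?_⟩
    rw [map_pow, hss, ← pow_mul, Finset.mul_prod_erase T (fun q => kk (uu q)) ht]
  intro u
  obtain ⟨u', w, hu, s, hs⟩ := hB u
  have hw : w ∈ SS A x := by
    have h3 : rho A x a w = (u'⁻¹ * u : A) := by
      rw [Subgroup.coe_mul, Subgroup.coe_inv, hu]; group
    change rho A x 1 w ∈ A
    have h4 : rho A x 1 w = ((E A x a w)⁻¹ * (u'⁻¹ * u) : A) := by
      rw [Subgroup.coe_mul, ← h3, rho_eq A x a]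
      simp
    rw [h4]
    exact Subtype.mem _
  refine ⟨s * ⟨w, hw⟩ ^ k, ?_⟩
  rw [map_mul, hs, map_pow, ← mul_pow]
  congr 1
  ext
  rw [Subgroup.coe_mul, hu]
  rfl

end G2

private lemma rank_pi_ge (M : Type) [AddCommGroup M] (d n : ℕ) (hd : Module.rank ℤ M = d) :
    (n : Cardinal) * (d : Cardinal) ≤ Module.rank ℤ (Fin n → M) := by
  obtain ⟨v, hv⟩ := exists_linearIndependent_of_le_rank (R := ℤ) (M := M) (n := d) hd.ge
  have h := Pi.linearIndependent_single (R := ℤ) (Ms := fun _ : Fin n => M)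
    (ιs := fun _ => Fin d) (fun _ => v) (fun _ => hv)
  have := h.cardinal_le_rank
  simpa using this

section G2

variable {Q : Type} [Group Q] (A : Subgroup Q) [A.Normal] [IsMulCommutative A] {n : ℕ}
  (x : Fin n → Q)

private lemma exists_beta (hx : Subgroup.closure (Set.range x) ⊔ A = ⊤) (d : ℕ)
    (hd : Module.rank ℤ (Additive A) = d)
    (hrank : Module.rank ℤ (Additive (DerRel (MulAut.conjNormal : Q →* MulAut A) A)) + d
      < (n : Cardinal) * d) (s₀ : SS A x) :
    ∃ a : Fin n → A, E A x a s₀ = 1 ∧ ∃ s : SS A x, E A x a s ≠ 1 := by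
  by_contra hcon
  push Not at hcon
  choose uu ww huw using exists_decomp A x hx 1
  have claim1 : ∀ a : Fin n → A, E A x a s₀ = 1 → ∀ w w' : FreeGroup (Fin n),
      rho A x 1 w * (rho A x 1 w')⁻¹ ∈ A → E A x a w = E A x a w' := by
    intro a ha w w' h
    have h1 : w * w'⁻¹ ∈ SS A x := by
      change rho A x 1 (w * w'⁻¹) ∈ A
      simpa using h
    have h2 := hcon a ha ⟨_, h1⟩
    have h3 := E_word A x a (w * w'⁻¹) w'
    rw [inv_mul_cancel_right] at h3
    rw [h3]
    change _ = 1 at h2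
    rw [h2, one_mul, conjNormal_of_mem A h1]
  have claim2 : ∀ a : Fin n → A, E A x a s₀ = 1 →
      (fun q => E A x a (ww q)) ∈ DerRel (MulAut.conjNormal : Q →* MulAut A) A := by
    intro a ha
    refine ⟨?_, ?_⟩
    · intro g h
      change E A x a (ww (g * h)) = E A x a (ww g) * MulAut.conjNormal g (E A x a (ww h))
      have h1 : E A x a (ww (g * h)) = E A x a (ww g * ww h) := by
        apply claim1 a ha
        have e1 := huw (g * h)
        have e2 := huw g
        have e3 := huw h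
        have e4 : rho A x 1 (ww (g * h)) = (uu (g * h) : Q)⁻¹ * (g * h) := by
          rw [eq_inv_mul_iff_mul_eq]; exact e1.symm
        have e5 : rho A x 1 (ww g) = (uu g : Q)⁻¹ * g := by
          rw [eq_inv_mul_iff_mul_eq]; exact e2.symm
        have e6 : rho A x 1 (ww h) = (uu h : Q)⁻¹ * h := by
          rw [eq_inv_mul_iff_mul_eq]; exact e3.symm
        rw [map_mul, e4, e5, e6]
        have e7 : (uu (g * h) : Q)⁻¹ * (g * h) * ((uu g : Q)⁻¹ * g * ((uu h : Q)⁻¹ * h))⁻¹
            = (uu (g * h) : Q)⁻¹ * (g * (uu h : Q) * g⁻¹) * (uu g : Q) := by group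
        rw [e7]
        exact A.mul_mem (A.mul_mem (A.inv_mem (uu _).2) (conj_mem' A (uu h).2 g)) (uu g).2
      rw [h1, E_word]
      congr 1
      conv_rhs => rw [huw g, map_mul]
      change _ = (MulAut.conjNormal (uu g : Q)) _
      rw [conjNormal_of_mem A (uu g).2]
      rfl
    · intro q hq
      change E A x a (ww q) = 1
      rw [claim1 a ha (ww q) 1, E_word_one]
      rw [map_one, inv_one, mul_one]
      have e1 := huw q
      have e4 : rho A x 1 (ww q) = (uu q : Q)⁻¹ * q := by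
        rw [eq_inv_mul_iff_mul_eq]; exact e1.symm
      rw [e4]
      exact A.mul_mem (A.inv_mem (uu q).2) hq
  let ev : (Fin n → Additive A) →ₗ[ℤ] Additive A := AddMonoidHom.toIntLinearMap
    { toFun := fun v => Additive.ofMul (E A x (fun i => (v i).toMul) s₀)
      map_zero' := by
        change Additive.ofMul (E A x 1 s₀) = 0
        rw [E_one]; rfl
      map_add' := by
        intro v v'
        change Additive.ofMul (E A x ((fun i => (v i).toMul) * (fun i => (v' i).toMul)) s₀) = _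
        rw [E_mul]; rfl }
  have hev : ∀ v : LinearMap.ker ev, E A x (fun i => (v.1 i).toMul) s₀ = 1 := by
    intro v
    have := v.2
    rw [LinearMap.mem_ker] at this
    exact this
  let φ : LinearMap.ker ev →ₗ[ℤ] Additive (DerRel (MulAut.conjNormal : Q →* MulAut A) A) :=
    AddMonoidHom.toIntLinearMap
    { toFun := fun v => Additive.ofMul ⟨fun q => E A x (fun i => (v.1 i).toMul) (ww q),
        claim2 _ (hev v)⟩
      map_zero' := by
        apply Additive.toMul.injective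
        ext q
        change (E A x 1 (ww q) : Q) = 1
        rw [E_one]; rfl
      map_add' := by
        intro v v'
        apply Additive.toMul.injective
        ext q
        change (E A x ((fun i => (v.1 i).toMul) * (fun i => (v'.1 i).toMul)) (ww q) : Q) = _
        rw [E_mul]; rfl }
  have hφ : Function.Injective φ := by
    rw [injective_iff_map_eq_zero]
    intro v hv
    have h1 : ∀ q, E A x (fun i => (v.1 i).toMul) (ww q) = 1 := by
      intro q
      have h2 : ((φ v).toMul : Q → A) q = 1 := by rw [hv]; rfl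
      exact h2
    ext i
    have h3 : E A x (fun i => (v.1 i).toMul) (FreeGroup.of i) = 1 := by
      rw [← h1 (rho A x 1 (FreeGroup.of i))]
      apply claim1 _ (hev v)
      have e1 := huw (rho A x 1 (FreeGroup.of i))
      set r := rho A x 1 (FreeGroup.of i) with hr
      have e2 : r * (rho A x 1 (ww r))⁻¹ = uu r := by
        rw [mul_inv_eq_iff_eq_mul]; exact e1
      rw [e2]
      exact (uu r).2
    rw [E_of] at h3
    have h4 : v.1 i = 0 := h3
    rw [h4]
    rfl
  have h1 := LinearMap.rank_range_add_rank_ker ev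
  have h2 := rank_pi_ge (Additive A) d n hd
  have h3 : Module.rank ℤ (LinearMap.range ev) ≤ d := by
    rw [← hd]; exact Submodule.rank_le _
  have h4 := LinearMap.rank_le_of_injective φ hφ
  have h5 : Module.rank ℤ (Fin n → Additive A) ≤
      d + Module.rank ℤ (Additive (DerRel (MulAut.conjNormal : Q →* MulAut A) A)) := by
    rw [← h1]
    exact add_le_add h3 h4
  rw [add_comm] at h5
  exact absurd (h2.trans h5) (not_le.2 hrank)

end G2

private lemma int_combo {A : Type} [CommGroup A] (u : A) (M l : ℕ) (h : Nat.Coprime M l) :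
    ∃ α β : ℤ, u = (u ^ M) ^ α * (u ^ β) ^ l := by
  have h1 := Nat.gcd_eq_gcd_ab M l
  rw [Nat.Coprime] at h
  rw [h] at h1
  refine ⟨Nat.gcdA M l, Nat.gcdB M l, ?_⟩
  rw [← zpow_natCast, ← zpow_mul, ← zpow_natCast, ← zpow_mul, ← zpow_add,
    mul_comm (Nat.gcdB M l), ← h1]
  simp

private lemma comb {A S : Type} [CommGroup A] [Group S] (f g : S →* A) (N1 : ℕ) (hN1 : 0 < N1)
    (hf : ∀ u, ∃ s, f s = u ^ N1) (hg : ∀ u, ∃ s v, u = g s * v ^ N1)
    (hfull : ∀ u, ∃ k, 0 < k ∧ ∃ s, f s = u ^ k ∧ g s = u ^ k)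
    (e : ℕ) (he : 0 < e) (S₀ : Finset A)
    (hgood : ∀ a, ∃ k : ℕ, a ^ (e ^ k) ∈ Subgroup.closure (S₀ : Set A)) :
    ∃ c : ℕ, ∀ l : ℕ, l.Prime → ∀ u, ∃ s v, u = g s * (f s / g s) ^ c * v ^ l := by
  classical
  choose kk hkk ss hss1 hss2 using hfull
  set k0 : ℕ := ∏ a ∈ S₀, kk a with hk0
  have hk0pos : 0 < k0 := Finset.prod_pos fun a _ => hkk a
  have hcl : ∀ u ∈ Subgroup.closure (S₀ : Set A), ∃ s, f s = u ^ k0 ∧ g s = u ^ k0 := by
    intro u hu
    induction hu using Subgroup.closure_induction with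
    | mem a ha =>
      refine ⟨ss a ^ (∏ b ∈ S₀.erase a, kk b), ?_, ?_⟩
      · rw [map_pow, hss1, ← pow_mul, Finset.mul_prod_erase S₀ (fun q => kk q) ha]
      · rw [map_pow, hss2, ← pow_mul, Finset.mul_prod_erase S₀ (fun q => kk q) ha]
    | one => exact ⟨1, by simp, by simp⟩
    | mul a b _ _ iha ihb =>
      obtain ⟨s, h1, h2⟩ := iha
      obtain ⟨t, h3, h4⟩ := ihb
      exact ⟨s * t, by rw [map_mul, h1, h3, mul_pow], by rw [map_mul, h2, h4, mul_pow]⟩
    | inv a _ iha =>
      obtain ⟨s, h1, h2⟩ := iha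
      exact ⟨s⁻¹, by rw [map_inv, h1, inv_pow], by rw [map_inv, h2, inv_pow]⟩
  set m : ℕ := ∏ p ∈ (e * k0).primeFactors.filter (fun p => ¬ p ∣ N1), p with hm
  have hcop : Nat.Coprime N1 m := by
    rw [hm, Nat.coprime_prod_right_iff]
    intro p hp
    rw [Finset.mem_filter, Nat.mem_primeFactors] at hp
    exact ((Nat.Prime.coprime_iff_not_dvd hp.1.1).2 hp.2).symm
  obtain ⟨c, hc1, hc2⟩ := Nat.chineseRemainder hcop 0 1
  refine ⟨c, fun l hl u => ?_⟩
  by_cases h1 : l ∣ N1
  ·
    obtain ⟨t, rfl⟩ := h1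
    have h2 : l ∣ c := (dvd_mul_right l t).trans ((Nat.modEq_zero_iff_dvd).1 hc1)
    obtain ⟨r, rfl⟩ := h2
    obtain ⟨s, v, hsv⟩ := hg u
    refine ⟨s, ((f s / g s) ^ r)⁻¹ * v ^ t, ?_⟩
    rw [hsv, mul_comm l r, pow_mul (f s / g s) r l, mul_pow, inv_pow, mul_comm l t, pow_mul v t l]
    group
  · by_cases h2 : l ∣ e * k0
    ·
      have h3 : l ∣ m := by
        rw [hm]
        apply Finset.dvd_prod_of_mem (fun p => p)
        rw [Finset.mem_filter, Nat.mem_primeFactors]
        exact ⟨⟨hl, h2, by positivity⟩, h1⟩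
      have h4 : c ≡ 1 [MOD l] := hc2.of_dvd h3
      obtain ⟨t, ht⟩ : ∃ t : ℤ, (c : ℤ) = 1 + l * t := by
        have h5 := (Nat.modEq_iff_dvd.1 h4.symm)
        obtain ⟨t, ht⟩ := h5
        exact ⟨t, by push_cast at ht; linarith⟩
      obtain ⟨α, β, hab⟩ := int_combo u N1 l ((Nat.Prime.coprime_iff_not_dvd hl).2 h1).symm
      obtain ⟨s, hs⟩ := hf u
      refine ⟨s ^ α, ((f (s ^ α) / g (s ^ α)) ^ t)⁻¹ * u ^ β, ?_⟩
      have h6 : (f (s ^ α) / g (s ^ α)) ^ c =
          (f (s ^ α) / g (s ^ α)) * ((f (s ^ α) / g (s ^ α)) ^ t) ^ l := by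
        rw [← zpow_natCast, ht, zpow_add, zpow_one, mul_comm (l : ℤ) t, zpow_mul, zpow_natCast]
      rw [h6, mul_pow, inv_pow]
      have h7 : f (s ^ α) = (u ^ N1) ^ α := by rw [map_zpow, hs]
      have h8 : ∀ X Y G F : A, G * (F / G * X) * (X⁻¹ * Y) = F * Y := by
        intro X Y G F
        rw [div_eq_mul_inv]
        calc G * (F * G⁻¹ * X) * (X⁻¹ * Y) = (G * G⁻¹) * F * (X * X⁻¹) * Y := by
              simp only [mul_assoc, mul_left_comm, mul_comm]
          _ = _ := by simp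
      rw [h8, h7]
      exact hab
    ·
      obtain ⟨j, hj⟩ := hgood u
      obtain ⟨s, hs1, hs2⟩ := hcl _ hj
      rw [← pow_mul] at hs1 hs2
      have h3 : Nat.Coprime (e ^ j * k0) l := by
        have h4 := ((Nat.Prime.coprime_iff_not_dvd hl).2 h2).symm
        rw [Nat.coprime_mul_iff_left] at h4 ⊢
        exact ⟨h4.1.pow_left j, h4.2⟩
      obtain ⟨α, β, hab⟩ := int_combo u (e ^ j * k0) l h3
      refine ⟨s ^ α, u ^ β, ?_⟩
      rw [map_zpow, map_zpow, hs1, hs2]
      simpa using hab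

private lemma top_of_divisible {A : Type} [CommGroup A] (D : Subgroup A) (hfin : Finite (A ⧸ D))
    (h : ∀ l : ℕ, l.Prime → ∀ u : A, ∃ s ∈ D, ∃ v, u = s * v ^ l) : D = ⊤ := by
  classical
  by_contra hD
  have h1 : Nat.card (A ⧸ D) ≠ 1 := by
    rw [← Subgroup.index]
    exact fun h2 => hD (Subgroup.index_eq_one.1 h2)
  obtain ⟨l, hl, hdvd⟩ := Nat.exists_prime_and_dvd h1
  have : Fact l.Prime := ⟨hl⟩
  have := Fintype.ofFinite (A ⧸ D)
  rw [Nat.card_eq_fintype_card] at hdvd
  obtain ⟨q, hq⟩ := exists_prime_orderOf_dvd_card l hdvd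
  have hsurj : Function.Surjective (fun z : A ⧸ D => z ^ l) := by
    intro z
    obtain ⟨u, rfl⟩ := QuotientGroup.mk_surjective z
    obtain ⟨s, hs, v, hv⟩ := h l hl u
    refine ⟨(v : A ⧸ D), ?_⟩
    change ((v : A ⧸ D)) ^ l = _
    rw [hv, QuotientGroup.mk_mul, QuotientGroup.mk_pow, (QuotientGroup.eq_one_iff s).2 hs, one_mul]
  have hinj := Finite.injective_iff_surjective.2 hsurj
  have h2 : q ^ l = 1 := by rw [← hq]; exact pow_orderOf_eq_one q
  have h3 : q = 1 := hinj (by change q ^ l = 1 ^ l; rw [h2, one_pow])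
  rw [h3, orderOf_one] at hq
  exact hl.one_lt.ne hq

section G2

variable {Q : Type} [Group Q] (A : Subgroup Q) [A.Normal] [IsMulCommutative A] {n : ℕ}
  (x : Fin n → Q)

private lemma mod_step (htf : ∀ a ∈ A, IsOfFinOrder a → a = 1) (d : ℕ)
    (hd : Module.rank ℤ (Additive A) = d) (hLC : LC Q n)
    (hx : Subgroup.closure (Set.range x) ⊔ A = ⊤) (N : ℕ) (hN : 0 < N) :
    ∃ a : Fin n → A, ∀ u : A, ∃ s v, u = theta A x a s * v ^ N := by
  set A1 : Subgroup Q := ((powMonoidHom N : A →* A).range).map A.subtype with hA1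
  have hA1n : A1.Normal := by
    constructor
    rintro _ ⟨_, ⟨v, rfl⟩, rfl⟩ q
    refine ⟨_, ⟨MulAut.conjNormal q v, rfl⟩, ?_⟩
    simp only [powMonoidHom_apply, Subgroup.subtype_apply, Subgroup.coe_pow,
      MulAut.conjNormal_apply]
    rw [conj_pow]
  set π := QuotientGroup.mk' A1 with hπ
  have hπs : Function.Surjective π := QuotientGroup.mk'_surjective A1
  have : (A.map π).Normal := Subgroup.Normal.map inferInstance π hπs
  have : IsMulCommutative (A.map π) := inferInstance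
  have htfA : TF A := by
    intro a ha
    refine Subtype.ext (htf a a.2 ?_)
    exact (Submonoid.isOfFinOrder_coe (H := A.toSubmonoid)).2 ha
  have := finite_mod_pow A htfA d hd N hN
  have hfin : Finite (A.map π) := by
    let f : A →* A.map π := π.subgroupMap A
    have hker : (powMonoidHom N : A →* A).range ≤ f.ker := by
      rintro _ ⟨v, rfl⟩
      rw [MonoidHom.mem_ker]
      apply Subtype.ext
      change π ((v ^ N : A) : Q) = 1
      rw [hπ]
      exact (QuotientGroup.eq_one_iff _).2 ⟨_, ⟨v, rfl⟩, rfl⟩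
    refine Finite.of_surjective (QuotientGroup.lift _ f hker) ?_
    intro z
    obtain ⟨u, hu⟩ := MonoidHom.subgroupMap_surjective π A z
    exact ⟨(u : A ⧸ _), hu⟩
  have hx' : Subgroup.closure (Set.range (fun i => π (x i))) ⊔ A.map π = ⊤ := by
    have h1 : Set.range (fun i => π (x i)) = π '' Set.range x := by
      rw [← Set.range_comp]; rfl
    rw [h1, ← MonoidHom.map_closure, ← Subgroup.map_sup, hx]
    exact Subgroup.map_top_of_surjective π hπs
  obtain ⟨y, hy1, hy2⟩ := g1_abelian (Q ⧸ A1) (A.map π) hfin n (hLC.quot A1) _ hx'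
  choose a ha1 ha2 using hy1
  let a' : Fin n → A := fun i => ⟨a i, ha1 i⟩
  refine ⟨a', fun u => ?_⟩
  have h1 : ∀ z : Q ⧸ A1, ∃ w : FreeGroup (Fin n), π (rho A x a' w) = z := by
    intro z
    have h2 : Subgroup.closure (Set.range y) ≤ (π.comp (rho A x a')).range := by
      rw [Subgroup.closure_le]
      rintro _ ⟨i, rfl⟩
      refine ⟨FreeGroup.of i, ?_⟩
      rw [MonoidHom.comp_apply, rho_of, map_mul]
      change π (a i) * π (x i) = y i
      rw [ha2 i]
      group
    rw [hy2] at h2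
    exact h2 (Subgroup.mem_top z)
  obtain ⟨w, hw⟩ := h1 (π u)
  have h2 : (rho A x a' w)⁻¹ * u ∈ A1 := QuotientGroup.eq.1 hw
  obtain ⟨_, ⟨v, rfl⟩, hv⟩ := h2
  have hv' : (u : Q) = rho A x a' w * ((v ^ N : A) : Q) := by
    change ((v ^ N : A) : Q) = _ at hv
    rw [hv]; group
  have hw : w ∈ SS A x := by
    change rho A x 1 w ∈ A
    have h3 : rho A x a' w ∈ A := by
      have h4 : rho A x a' w = (u * (v ^ N)⁻¹ : A) := by
        rw [Subgroup.coe_mul, Subgroup.coe_inv, eq_mul_inv_iff_mul_eq]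
        exact hv'.symm
      rw [h4]; exact Subtype.mem _
    have h4 : rho A x 1 w = (E A x a' w : Q)⁻¹ * rho A x a' w := by
      rw [rho_eq A x a']; group
    rw [h4]
    exact A.mul_mem (A.inv_mem (Subtype.mem _)) h3
  refine ⟨⟨w, hw⟩, v, ?_⟩
  ext
  rw [Subgroup.coe_mul]
  exact hv'

theorem g2 (Q : Type) [Group Q] (hQ : Group.FG Q) (A : Subgroup Q) [A.Normal] [IsMulCommutative A]
    (htf : ∀ a ∈ A, IsOfFinOrder a → a = 1) (d : ℕ) (hd : Module.rank ℤ (Additive A) = d)
    (hirr : ∀ B : Subgroup Q, B.Normal → B ≤ A → B ≠ ⊥ → ∀ a ∈ A, ∃ k : ℕ, 0 < k ∧ a ^ k ∈ B)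
    (e : ℕ) (he : 0 < e) (S₀ : Finset Q) (hS₀ : ∀ s ∈ S₀, s ∈ A)
    (hgood : ∀ a ∈ A, ∃ k : ℕ, a ^ (e ^ k) ∈ Subgroup.closure (S₀ : Set Q))
    (n : ℕ) (hLC : LC Q n)
    (hrank : Module.rank ℤ (Additive (DerRel (MulAut.conjNormal : Q →* MulAut A) A)) + d
      < (n : Cardinal) * d)
    (x : Fin n → Q) (hx : Subgroup.closure (Set.range x) ⊔ A = ⊤) :
    ∃ y : Fin n → Q, (∀ i, y i * (x i)⁻¹ ∈ A) ∧ Subgroup.closure (Set.range y) = ⊤ := by
  classical

  obtain ⟨β0, _, s1, hs1⟩ := exists_beta A x hx d hd hrank 1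
  have he1 : ∃ a : Fin n → A, ∃ s, theta A x a s ≠ 1 := by
    by_contra hcon
    push Not at hcon
    apply hs1
    have := theta_eq A x β0 s1
    rw [hcon, hcon, mul_one] at this
    exact this.symm
  obtain ⟨a, s0, hs0⟩ := he1
  obtain ⟨N, hN, hNa⟩ := exp_range A x hQ hx hirr a ⟨s0, hs0⟩
  obtain ⟨a', ha'⟩ := mod_step A x htf d hd hLC hx N hN

  have hh : ∃ b : Fin n → A, (∀ u : A, ∃ s v, u = theta A x b s * v ^ N) ∧
      ∃ s, theta A x a s = 1 ∧ theta A x b s ≠ 1 := by
    obtain ⟨β, hβ0, t, ht⟩ := exists_beta A x hx d hd hrank s0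
    have h1 : ∃ s, theta A x a s = 1 ∧ ES A x β s ≠ 1 := by
      by_contra hcon
      push Not at hcon
      apply ht
      rw [← ES_apply]
      exact eval_inj A x hx htf hirr (theta_eqv A x a) (ES_eqv A x β) hcon hs0
        (by rw [ES_apply]; exact hβ0) t
    obtain ⟨s, hsa, hsβ⟩ := h1
    by_cases h2 : theta A x a' s = 1
    · refine ⟨β ^ N * a', ?_, s, hsa, ?_⟩
      · intro u
        obtain ⟨r, v, hv⟩ := ha' u
        refine ⟨r, (E A x β r)⁻¹ * v, ?_⟩
        rw [theta_mul]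
        have h3 : E A x (β ^ N) r = (E A x β r) ^ N := map_pow (EH A x r) β N
        rw [h3, mul_pow, inv_pow, hv]
        calc theta A x a' r * v ^ N = ((E A x β r) ^ N * ((E A x β r) ^ N)⁻¹) *
              (theta A x a' r * v ^ N) := by simp
          _ = _ := by simp only [mul_assoc, mul_left_comm]
      · rw [theta_mul, h2, mul_one]
        have h3 : E A x (β ^ N) s = (E A x β s) ^ N := map_pow (EH A x s) β N
        rw [h3]
        intro h4
        apply hsβ
        rw [ES_apply]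
        exact pow_eq_one' A htf hN h4
    · exact ⟨a', ha', s, hsa, h2⟩
  obtain ⟨b, hb1, hb2⟩ := hh
  have hfull := full_of A x hx hirr (theta_eqv A x a) (theta_eqv A x b) ⟨s0, hs0⟩ hb2

  set S1 : Finset A := S₀.subtype (fun s => s ∈ A) with hS1
  have hgood' : ∀ u : A, ∃ k : ℕ, u ^ (e ^ k) ∈ Subgroup.closure (S1 : Set A) := by
    intro u
    obtain ⟨k, hk⟩ := hgood u u.2
    refine ⟨k, ?_⟩
    have h1 : (Subgroup.closure (S1 : Set A)).map A.subtype = Subgroup.closure (S₀ : Set Q) := by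
      rw [MonoidHom.map_closure]
      congr 1
      ext q
      constructor
      · rintro ⟨r, hr, rfl⟩
        rw [hS1, Finset.mem_coe, Finset.mem_subtype] at hr
        exact hr
      · intro hq
        refine ⟨⟨q, hS₀ q hq⟩, ?_, rfl⟩
        rw [hS1, Finset.mem_coe, Finset.mem_subtype]
        exact hq
    rw [← h1] at hk
    obtain ⟨r, hr, hr'⟩ := hk
    have h2 : r = u ^ (e ^ k) := Subtype.ext hr'
    rw [← h2]
    exact hr
  obtain ⟨c, hc⟩ := comb (theta A x a) (theta A x b) N hN hNa hb1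
    (fun u => hfull u u) e he S1 hgood'
  set a'' : Fin n → A := (a / b) ^ c * b with ha''
  have hth : ∀ s, theta A x a'' s = theta A x b s * (theta A x a s / theta A x b s) ^ c := by
    intro s
    rw [ha'', theta_mul, mul_comm]
    congr 1
    have h3 : E A x ((a / b) ^ c) s = (E A x a s / E A x b s) ^ c := by
      have := map_pow (EH A x s) (a / b) c
      rw [map_div] at this
      exact this
    rw [h3, theta_eq A x a, theta_eq A x b]
    congr 1
    rw [mul_div_mul_right_eq_div]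
  have hne : ∃ s, theta A x a'' s ≠ 1 := by
    obtain ⟨k, hk, s, h1, h2⟩ := hfull (E A x β0 s1) (E A x β0 s1)
    refine ⟨s, ?_⟩
    rw [hth, h1, h2, div_self', one_pow, mul_one]
    exact fun h => hs1 (pow_eq_one' A htf hk h)
  obtain ⟨k, hk, hka⟩ := exp_range A x hQ hx hirr a'' hne
  have htfA : TF A := by
    intro a ha
    refine Subtype.ext (htf a a.2 ?_)
    exact (Submonoid.isOfFinOrder_coe (H := A.toSubmonoid)).2 ha
  have hfinq := finite_mod_pow A htfA d hd k hk
  have hfin : Finite (A ⧸ (theta A x a'').range) := by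
    have hle : (powMonoidHom k : A →* A).range ≤ (theta A x a'').range := by
      rintro _ ⟨v, rfl⟩
      obtain ⟨s, hs⟩ := hka v
      exact ⟨s, hs⟩
    let F : A ⧸ (powMonoidHom k : A →* A).range →* A ⧸ (theta A x a'').range :=
      QuotientGroup.lift _ (QuotientGroup.mk' (theta A x a'').range)
      (by rw [QuotientGroup.ker_mk']; exact hle)
    refine Finite.of_surjective F ?_
    intro z
    obtain ⟨u, rfl⟩ := QuotientGroup.mk_surjective z
    exact ⟨(u : A ⧸ _), rfl⟩
  have htop : (theta A x a'').range = ⊤ := by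
    apply top_of_divisible _ hfin
    intro l hl u
    obtain ⟨s, v, hv⟩ := hc l hl u
    exact ⟨theta A x a'' s, ⟨s, rfl⟩, v, by rw [hth]; exact hv⟩
  refine ⟨fun i => a'' i * x i, fun i => by simp, ?_⟩
  have hr : (rho A x a'').range ≤ Subgroup.closure (Set.range fun i => (a'' i : Q) * x i) := by
    rintro _ ⟨w, rfl⟩
    induction w using FreeGroup.induction_on with
    | C1 => rw [map_one]; exact one_mem _
    | of i =>
      change rho A x a'' (FreeGroup.of i) ∈ _
      rw [rho_of]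
      exact Subgroup.subset_closure ⟨i, rfl⟩
    | inv_of i _ =>
      change rho A x a'' (FreeGroup.of i)⁻¹ ∈ _
      rw [map_inv, rho_of]
      exact inv_mem (Subgroup.subset_closure ⟨i, rfl⟩)
    | mul w w' hw hw' =>
      rw [map_mul]
      exact mul_mem hw hw'
  rw [eq_top_iff]
  intro q _
  obtain ⟨u, w, rfl⟩ := exists_decomp A x hx a'' q
  refine mul_mem (hr ?_) (hr ⟨w, rfl⟩)
  obtain ⟨s, hs⟩ : u ∈ (theta A x a'').range := by rw [htop]; exact Subgroup.mem_top u
  refine ⟨s, ?_⟩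
  rw [← hs]
  rfl

end G2

end Pool.Agent.H652.SR
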