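import Mathlib
import Pool.Agent.H652.SR.Defs
import Pool.Agent.H652.SR.Jpra
import Pool.Agent.H652.SR.Jshba
import Pool.Agent.H652.SR.Jshbc

set_option autoImplicit false

open scoped IsMulCommutative

namespace Pool.Agent.H652.SR

private theorem ro_of_inj {T T' : Type} [Group T] [Group T'] (j : T' →* T) (hj : Function.Injective j)
    (hT : RankOne T) (hn : Nontrivial T') : RankOne T' := by
  obtain ⟨_, h2, h3, h4⟩ := hT
  refine ⟨hn, ?_, ?_, ?_⟩
  · intro g hg
    exact hj (by rw [h2 (j g) (MonoidHom.isOfFinOrder j hg), map_one])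
  · intro a b
    exact hj (by rw [map_mul, map_mul, h3])
  · intro a b ha hb
    obtain ⟨m, n, hm, hn, h⟩ := h4 (j a) (j b) (fun h => ha (hj (by rw [h, map_one])))
      (fun h => hb (hj (by rw [h, map_one])))
    exact ⟨m, n, hm, hn, hj (by rw [map_zpow, map_zpow, h])⟩

private theorem pr_of_rankOne {T : Type} [Group T] (h : RankOne T) : PR T 1 := by
  refine PR.ext T ⊥ 0 (PR.triv _ inferInstance) ?_
  have e : T ⧸ (⊥ : Subgroup T) ≃* T := QuotientGroup.quotientBot
  have := h.1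
  exact ro_of_inj e.toMonoidHom e.injective h e.toEquiv.nontrivial

private theorem ro_purify {A : Type} [CommGroup A] (htf : TF A) (a : A) (ha : a ≠ 1) (N : Subgroup A)
    (hN : ∀ x : A, x ∈ N ↔ ∃ k : ℕ, 0 < k ∧ x ^ k ∈ Subgroup.zpowers a) : RankOne N := by
  have htf' : ∀ x : A, ∀ n : ℤ, n ≠ 0 → x ^ n = 1 → x = 1 := fun x n hn h =>
    htf x (isOfFinOrder_iff_zpow_eq_one.2 ⟨n, hn, h⟩)
  refine ⟨⟨⟨a, (hN a).2 ⟨1, one_pos, by simp⟩⟩, 1, fun h => ha (congrArg Subtype.val h)⟩, ?_, ?_, ?_⟩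
  · intro g hg
    exact Subtype.ext (htf g (MonoidHom.isOfFinOrder N.subtype hg))
  · intro x y
    exact Subtype.ext (mul_comm _ _)
  · rintro ⟨x, hx⟩ ⟨y, hy⟩ hx1 hy1
    have hx1' : x ≠ 1 := fun h => hx1 (Subtype.ext h)
    have hy1' : y ≠ 1 := fun h => hy1 (Subtype.ext h)
    obtain ⟨k, hk, i, hi⟩ := (hN x).1 hx
    obtain ⟨l, hl, j, hj⟩ := (hN y).1 hy
    have hi' : a ^ i = x ^ (k : ℤ) := by rw [zpow_natCast]; exact hi
    have hj' : a ^ j = y ^ (l : ℤ) := by rw [zpow_natCast]; exact hj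
    have hk0 : (k : ℤ) ≠ 0 := by exact_mod_cast hk.ne'
    have hl0 : (l : ℤ) ≠ 0 := by exact_mod_cast hl.ne'
    have hi0 : i ≠ 0 := by
      rintro rfl
      rw [zpow_zero] at hi'
      exact hx1' (htf' x k hk0 hi'.symm)
    have hj0 : j ≠ 0 := by
      rintro rfl
      rw [zpow_zero] at hj'
      exact hy1' (htf' y l hl0 hj'.symm)
    refine ⟨k * j, l * i, mul_ne_zero hk0 hj0, mul_ne_zero hl0 hi0, Subtype.ext ?_⟩
    show x ^ ((k : ℤ) * j) = y ^ ((l : ℤ) * i)
    rw [zpow_mul, ← hi', zpow_mul, ← hj', ← zpow_mul, ← zpow_mul, mul_comm]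

private theorem ro_rank {A : Type} [CommGroup A] (htf : TF A) (a : A) (ha : a ≠ 1) (N : Subgroup A)
    (hN : ∀ x : A, x ∈ N ↔ ∃ k : ℕ, 0 < k ∧ x ^ k ∈ Subgroup.zpowers a) :
    Module.rank ℤ (Additive A) = Module.rank ℤ (Additive (A ⧸ N)) + 1 := by
  have hsurj : Function.Surjective
      ((MonoidHom.toAdditive (QuotientGroup.mk' N)).toIntLinearMap :
        Additive A →ₗ[ℤ] Additive (A ⧸ N)) := by
    intro q
    obtain ⟨x, hx⟩ := QuotientGroup.mk'_surjective N q.toMul
    exact ⟨Additive.ofMul x, congrArg Additive.ofMul hx⟩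
  rw [LinearMap.rank_eq_of_surjective hsurj]
  congr 1
  obtain ⟨K, hK⟩ : ∃ K : Submodule ℤ (Additive A), K = LinearMap.ker
    ((MonoidHom.toAdditive (QuotientGroup.mk' N)).toIntLinearMap :
        Additive A →ₗ[ℤ] Additive (A ⧸ N)) := ⟨_, rfl⟩
  have hKm : ∀ x : Additive A, x ∈ K ↔ x.toMul ∈ N := by
    intro x
    rw [hK, LinearMap.mem_ker]
    exact QuotientGroup.eq_one_iff x.toMul
  rw [← hK]
  have haK : Additive.ofMul a ∈ K := (hKm _).2 ((hN a).2 ⟨1, one_pos, by simp⟩)
  have hinj : Function.Injective (LinearMap.toSpanSingleton ℤ K ⟨Additive.ofMul a, haK⟩) := by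
    rw [injective_iff_map_eq_zero]
    intro n hn
    by_contra hn0
    apply ha
    refine htf a (isOfFinOrder_iff_zpow_eq_one.2 ⟨n, hn0, ?_⟩)
    have h1 := congrArg (fun z : K => (z : Additive A).toMul) hn
    exact h1
  have h1 : Module.rank ℤ (LinearMap.range (LinearMap.toSpanSingleton ℤ K ⟨Additive.ofMul a, haK⟩)) = 1 := by
    rw [rank_range_of_injective _ hinj, Module.rank_self]
  have h2 : Module.rank ℤ
      (K ⧸ LinearMap.range (LinearMap.toSpanSingleton ℤ K ⟨Additive.ofMul a, haK⟩)) = 0 := by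
    rw [rank_eq_zero_iff]
    intro q
    obtain ⟨⟨x, hx⟩, rfl⟩ := Submodule.Quotient.mk_surjective _ q
    obtain ⟨k, hk, i, hi⟩ := (hN _).1 ((hKm x).1 hx)
    refine ⟨k, by exact_mod_cast hk.ne', ?_⟩
    rw [← Submodule.Quotient.mk_smul, Submodule.Quotient.mk_eq_zero]
    refine ⟨i, Subtype.ext ?_⟩
    have h3 : a ^ i = x.toMul ^ (k : ℤ) := by rw [zpow_natCast]; exact hi
    exact congrArg Additive.ofMul h3
  rw [← Submodule.rank_quotient_add_rank
    (LinearMap.range (LinearMap.toSpanSingleton ℤ K ⟨Additive.ofMul a, haK⟩)), h1, h2, zero_add]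

theorem PR.of_abelian {A : Type} [CommGroup A] (htf : TF A) (r : ℕ)
    (hr : Module.rank ℤ (Additive A) = r) : PR A r := by
  induction r generalizing A with
  | zero =>
    refine PR.triv A ⟨fun a b => ?_⟩
    have key : ∀ x : A, x = 1 := by
      intro x
      rw [Nat.cast_zero, rank_eq_zero_iff] at hr
      obtain ⟨k, hk, hkx⟩ := hr (Additive.ofMul x)
      exact htf x (isOfFinOrder_iff_zpow_eq_one.2 ⟨k, hk, hkx⟩)
    rw [key a, key b]
  | succ r ih =>
    have hex : ∃ a : A, a ≠ 1 := by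
      by_contra hcon
      push Not at hcon
      have h0 : Module.rank ℤ (Additive A) = 0 := by
        rw [rank_eq_zero_iff]
        intro x
        exact ⟨1, one_ne_zero, hcon _⟩
      rw [h0] at hr
      exact absurd hr.symm (by exact_mod_cast Nat.succ_ne_zero r)
    obtain ⟨a, ha⟩ := hex
    obtain ⟨N, hN⟩ : ∃ N : Subgroup A, ∀ x : A, x ∈ N ↔
        ∃ k : ℕ, 0 < k ∧ x ^ k ∈ Subgroup.zpowers a := by
      refine ⟨{ carrier := {x | ∃ k : ℕ, 0 < k ∧ x ^ k ∈ Subgroup.zpowers a}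
                mul_mem' := ?_
                one_mem' := ?_
                inv_mem' := ?_ }, fun x => Iff.rfl⟩
      · rintro x y ⟨k, hk, hx⟩ ⟨l, hl, hy⟩
        refine ⟨k * l, Nat.mul_pos hk hl, ?_⟩
        rw [mul_pow, pow_mul, mul_comm k l, pow_mul y]
        exact mul_mem (pow_mem hx l) (pow_mem hy k)
      · exact ⟨1, one_pos, by rw [one_pow]; exact one_mem _⟩
      · rintro x ⟨k, hk, hx⟩
        exact ⟨k, hk, by rw [inv_pow]; exact inv_mem hx⟩
    have h1 : PR N 1 := pr_of_rankOne (ro_purify htf a ha N hN)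
    have h2 : TF (A ⧸ N) := by
      intro q hq
      obtain ⟨x, rfl⟩ := QuotientGroup.mk_surjective q
      obtain ⟨n, hn, hxn⟩ := isOfFinOrder_iff_pow_eq_one.1 hq
      rw [← QuotientGroup.mk_pow, QuotientGroup.eq_one_iff, hN] at hxn
      obtain ⟨k, hk, hxk⟩ := hxn
      rw [QuotientGroup.eq_one_iff, hN]
      exact ⟨n * k, Nat.mul_pos hn hk, by rw [pow_mul]; exact hxk⟩
    have h3 : Module.rank ℤ (Additive (A ⧸ N)) = r := by
      rw [ro_rank htf a ha N hN] at hr
      push_cast at hr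
      exact Cardinal.add_one_inj.1 hr
    have h4 : PR (A ⧸ N) r := ih h2 h3
    have h5 := PR.extn N h1 h4
    rwa [add_comm] at h5

theorem PR.subgroup {X : Type} [Group X] {c : ℕ} (h : PR X c) (L : Subgroup X) :
    ∃ c' ≤ c, PR L c' := by
  induction h with
  | triv X h => exact ⟨0, le_rfl, PR.triv L inferInstance⟩
  | ext X N c hN hq ih =>
    obtain ⟨c', hc', hP⟩ := ih (L.subgroupOf N)
    have e : L.subgroupOf N ≃* N.subgroupOf L :=
      { toFun := fun g => ⟨⟨g.1.1, g.2⟩, g.1.2⟩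
        invFun := fun g => ⟨⟨g.1.1, g.2⟩, g.1.2⟩
        left_inv := fun _ => rfl
        right_inv := fun _ => rfl
        map_mul' := fun _ _ => rfl }
    have hP' : PR (N.subgroupOf L) c' := PR.of_equiv e hP
    by_cases ht : Nontrivial (L ⧸ N.subgroupOf L)
    · refine ⟨c' + 1, by omega, PR.ext L (N.subgroupOf L) c' hP' ?_⟩
      have hle : N.subgroupOf L ≤ N.comap L.subtype := fun _ h => h
      refine ro_of_inj (QuotientGroup.map (N.subgroupOf L) N L.subtype hle) ?_ hq ht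
      rw [injective_iff_map_eq_one]
      intro q hq
      obtain ⟨x, rfl⟩ := QuotientGroup.mk_surjective q
      have hq' : (((x : X)) : X ⧸ N) = 1 := hq
      rw [QuotientGroup.eq_one_iff] at hq'
      rw [QuotientGroup.eq_one_iff]
      exact hq'
    · have hs : Subsingleton (L ⧸ N.subgroupOf L) := not_nontrivial_iff_subsingleton.1 ht
      have htop : N.subgroupOf L = ⊤ := QuotientGroup.subgroup_eq_top_of_subsingleton _ hs
      exact ⟨c', by omega, PR.of_equiv ((MulEquiv.subgroupCongr htop).trans Subgroup.topEquiv) hP'⟩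

theorem PR.of_index {X : Type} [Group X] {c : ℕ} (h : PR X c) (L : Subgroup X)
    (hL : L.index ≠ 0) : PR L c := by
  obtain ⟨c', hc', hP⟩ := PR.subgroup h L
  have h1 : HasChain L c := HasChain.of_index L hL (PR.top h).chain
  have h2 : c ≤ c' := hP.shb c h1
  have h3 : c' = c := le_antisymm hc' h2
  rwa [h3] at hP

private theorem ro_two {T : Type} [Group T] (h : RankOne T) (a b : T) :
    ∃ u v : ℤ, a ∈ Subgroup.zpowers (a ^ v * b ^ u) ∧ b ∈ Subgroup.zpowers (a ^ v * b ^ u) := by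
  obtain ⟨_, h2, h3, h4⟩ := h
  by_cases ha : a = 1
  · refine ⟨1, 0, ?_, ?_⟩
    · rw [ha]; exact one_mem _
    · rw [zpow_zero, one_mul, zpow_one]; exact Subgroup.mem_zpowers b
  by_cases hb : b = 1
  · refine ⟨0, 1, ?_, ?_⟩
    · rw [zpow_zero, mul_one, zpow_one]; exact Subgroup.mem_zpowers a
    · rw [hb]; exact one_mem _
  obtain ⟨m, n, hm, hn, hmn⟩ := h4 a b ha hb
  have hg : 0 < Int.gcd m n := Int.gcd_pos_of_ne_zero_left n hm
  obtain ⟨m', n', hcop, hm', hn'⟩ := Int.exists_gcd_one hg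
  have hcomm : Commute a b := h3 a b
  have h5 : a ^ m' = b ^ n' := by
    have h6 : (a ^ m' * (b ^ n')⁻¹) ^ (Int.gcd m n : ℤ) = 1 := by
      have hc : Commute (a ^ m') (b ^ n')⁻¹ := ((hcomm.zpow_zpow m' n')).inv_right
      rw [hc.mul_zpow, inv_zpow, ← zpow_mul, ← zpow_mul, ← hm', ← hn', hmn, mul_inv_cancel]
    have h7 := h2 _ (isOfFinOrder_iff_zpow_eq_one.2 ⟨_, by exact_mod_cast hg.ne', h6⟩)
    exact mul_inv_eq_one.1 h7
  obtain ⟨u, v, huv⟩ := Int.isCoprime_iff_gcd_eq_one.2 hcop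
  refine ⟨u, v, ⟨n', ?_⟩, ⟨m', ?_⟩⟩
  · show (a ^ v * b ^ u) ^ n' = a
    rw [(hcomm.zpow_zpow v u).mul_zpow, ← zpow_mul b, mul_comm u n', zpow_mul b, ← h5, ← zpow_mul,
      ← zpow_mul, ← zpow_add, show v * n' + m' * u = 1 by linarith, zpow_one]
  · show (a ^ v * b ^ u) ^ m' = b
    rw [(hcomm.zpow_zpow v u).mul_zpow, ← zpow_mul a, mul_comm v m', zpow_mul a, h5, ← zpow_mul,
      ← zpow_mul, ← zpow_add, show n' * v + u * m' = 1 by linarith, zpow_one]

private theorem ro_fin {T : Type} [Group T] (h : RankOne T) (S : Finset T) :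
    ∃ d : T, Subgroup.closure (S : Set T) = Subgroup.zpowers d := by
  classical
  induction S using Finset.induction_on with
  | empty => exact ⟨1, by simp⟩
  | insert g S _ ih =>
    obtain ⟨d, hd⟩ := ih
    obtain ⟨u, v, h1, h2⟩ := ro_two h g d
    refine ⟨g ^ v * d ^ u, ?_⟩
    rw [Finset.coe_insert, Set.insert_eq, Subgroup.closure_union, hd,
      ← Subgroup.zpowers_eq_closure]
    apply le_antisymm
    · rw [sup_le_iff, Subgroup.zpowers_le, Subgroup.zpowers_le]
      exact ⟨h1, h2⟩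
    · rw [Subgroup.zpowers_le]
      exact mul_mem (Subgroup.mem_sup_left (zpow_mem (Subgroup.mem_zpowers g) v))
        (Subgroup.mem_sup_right (zpow_mem (Subgroup.mem_zpowers d) u))

private theorem ngen_aux {X : Type} [Group X] {c : ℕ} (h : PR X c) : ∀ L : Subgroup X, L.FG →
    ∃ x : Fin c → X, Subgroup.closure (Set.range x) = L := by
  classical
  induction h with
  | triv X h =>
    intro L _
    refine ⟨fun i => i.elim0, ?_⟩
    ext z
    rw [Subsingleton.elim z 1]
    exact ⟨fun _ => one_mem _, fun _ => one_mem _⟩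
  | ext X N c hN hq ih =>
    intro L hL
    obtain ⟨S, hS⟩ := hL
    obtain ⟨t, ht⟩ := ro_fin hq (S.image (QuotientGroup.mk' N))
    have hmap : L.map (QuotientGroup.mk' N) = Subgroup.zpowers t := by
      rw [← ht, Finset.coe_image, ← MonoidHom.map_closure, hS]
    have htm : t ∈ L.map (QuotientGroup.mk' N) := by rw [hmap]; exact Subgroup.mem_zpowers t
    obtain ⟨x, hxL, hxt⟩ := htm
    have hk : ∀ g : X, ∃ k : ℤ, g ∈ L → (x ^ k)⁻¹ * g ∈ N := by
      intro g
      by_cases hg : g ∈ L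
      · have h1 : (QuotientGroup.mk' N) g ∈ Subgroup.zpowers t := by
          rw [← hmap]; exact ⟨g, hg, rfl⟩
        obtain ⟨k, hk⟩ := h1
        refine ⟨k, fun _ => ?_⟩
        have h2 : (QuotientGroup.mk' N) (x ^ k) = (QuotientGroup.mk' N) g := by
          rw [map_zpow, hxt]; exact hk
        exact QuotientGroup.eq.1 h2
      · exact ⟨0, fun h => absurd h hg⟩
    choose k hk using hk
    obtain ⟨ν, hν⟩ : ∃ ν : X → N, ∀ g ∈ L, (ν g : X) = (x ^ (k g))⁻¹ * g := by
      refine ⟨fun g => if h : (x ^ (k g))⁻¹ * g ∈ N then ⟨_, h⟩ else 1, ?_⟩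
      intro g hg
      simp only [hk g hg, dif_pos]
    have hSL : ∀ g ∈ S, g ∈ L := by
      intro g hg
      rw [← hS]; exact Subgroup.subset_closure hg
    obtain ⟨y, hy⟩ := ih (Subgroup.closure (ν '' (S : Set X)))
      ((Subgroup.fg_iff _).2 ⟨_, rfl, S.finite_toSet.image ν⟩)
    refine ⟨Fin.cons x (fun i => (y i : X)), ?_⟩
    apply le_antisymm
    · rw [Subgroup.closure_le, Fin.range_cons]
      intro z hz
      rcases hz with rfl | ⟨i, rfl⟩
      · exact hxL
      · have h1 : y i ∈ Subgroup.closure (ν '' (S : Set X)) := by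
          rw [← hy]; exact Subgroup.subset_closure ⟨i, rfl⟩
        have h2 : Subgroup.closure (ν '' (S : Set X)) ≤ L.comap N.subtype := by
          rw [Subgroup.closure_le]
          rintro _ ⟨g, hg, rfl⟩
          show (ν g : X) ∈ L
          rw [hν g (hSL g hg)]
          exact mul_mem (inv_mem (zpow_mem hxL _)) (hSL g hg)
        exact h2 h1
    · conv_lhs => rw [← hS]
      rw [Subgroup.closure_le]
      intro g hg
      have h1 : x ∈ Subgroup.closure (Set.range (Fin.cons x (fun i => (y i : X)) : Fin (c + 1) → X)) :=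
        Subgroup.subset_closure ⟨0, rfl⟩
      have h2 : Subgroup.closure (ν '' (S : Set X)) ≤
          (Subgroup.closure (Set.range (Fin.cons x (fun i => (y i : X)) : Fin (c + 1) → X))).comap
            N.subtype := by
        rw [← hy, Subgroup.closure_le]
        rintro _ ⟨i, rfl⟩
        exact Subgroup.subset_closure ⟨i.succ, rfl⟩
      have h3 : (ν g : X) ∈
          Subgroup.closure (Set.range (Fin.cons x (fun i => (y i : X)) : Fin (c + 1) → X)) :=
        h2 (Subgroup.subset_closure ⟨g, hg, rfl⟩)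
      have h4 : g = x ^ (k g) * ν g := by
        rw [hν g (hSL g hg), mul_inv_cancel_left]
      rw [h4]
      exact mul_mem (zpow_mem h1 _) h3

theorem PR.ngen {X : Type} [Group X] {c : ℕ} (h : PR X c) (L : Subgroup X) (hL : L.FG) :
    NGen L c := by
  obtain ⟨y, hy⟩ := ngen_aux h L hL
  have hyL : ∀ i, y i ∈ L := by
    intro i
    rw [← hy]; exact Subgroup.subset_closure ⟨i, rfl⟩
  refine ⟨fun i => ⟨y i, hyL i⟩, ?_⟩
  apply Subgroup.map_injective L.subtype_injective
  rw [MonoidHom.map_closure, ← Set.range_comp, ← MonoidHom.range_eq_map, Subgroup.range_subtype]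
  exact hy

end Pool.Agent.H652.SR
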