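import Mathlib
import Pool.Agent.H652.SR.Defs
import Pool.Agent.H652.SR.Jpra
import Pool.Agent.H652.SR.Jprb
import Pool.Agent.H652.SR.Jshba
import Pool.Agent.H652.SR.Jshbb
import Pool.Agent.H652.SR.Jshbc
import Pool.Agent.H652.SR.Jshbd

set_option autoImplicit false

open scoped IsMulCommutative

namespace Pool.Agent.H652.SR

private theorem VPT.of_equiv_aux {K : Type} [Group K] {n : ℕ} (h : VPT K n) :
    ∀ (L : Type) [Group L], (K ≃* L) → VPT L n := by
  induction h with
  | fin K hK =>
    intro L _ e
    exact VPT.fin L (Finite.of_equiv K e.toEquiv)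
  | ext K A r n htf hr h ih =>
    intro L _ e
    let B : Subgroup L := A.map (e : K →* L)
    haveI hBn : B.Normal := Subgroup.Normal.map inferInstance (e : K →* L) e.surjective
    haveI hBc : IsMulCommutative B := by
      refine ⟨⟨?_⟩⟩
      rintro ⟨_, a, ha, rfl⟩ ⟨_, b, hb, rfl⟩
      apply Subtype.ext
      have h1 : (⟨a, ha⟩ : A) * ⟨b, hb⟩ = ⟨b, hb⟩ * ⟨a, ha⟩ := mul_comm _ _
      have h2 : a * b = b * a := congrArg Subtype.val h1
      show (e a) * (e b) = (e b) * (e a)
      rw [← map_mul, ← map_mul, h2]
    have htf' : ∀ b ∈ B, IsOfFinOrder b → b = 1 := by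
      rintro _ ⟨a, ha, rfl⟩ hb
      have h1 : IsOfFinOrder a := by
        have := (e.symm : L →* K).isOfFinOrder hb
        simpa using this
      rw [htf a ha h1, map_one]
    have hr' : Module.rank ℤ (Additive B) = r := by
      rw [← hr]
      let e1 : A ≃* B := A.equivMapOfInjective (e : K →* L) e.injective
      let e2 : Additive A ≃+ Additive B := MulEquiv.toAdditive e1
      exact (LinearEquiv.rank_eq e2.toIntLinearEquiv).symm
    have hq : VPT (L ⧸ B) n := ih (L ⧸ B) (QuotientGroup.congr A B e rfl)
    exact VPT.ext L B r n htf' hr' hq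

theorem VPT.of_equiv {K L : Type} [Group K] [Group L] (e : K ≃* L) {n : ℕ} (h : VPT K n) :
    VPT L n :=
  VPT.of_equiv_aux h L e

theorem VPT.shb {K : Type} [Group K] {n : ℕ} (h : VPT K n) : SHB K n := by
  induction h with
  | fin K hK => exact SHB.of_torsion (fun g => isOfFinOrder_of_finite g)
  | ext K A r n htf hr h ih =>
    have h1 : SHB A r := SHB.of_rank r hr.le
    have := SHB.ext A h1 ih
    rwa [add_comm] at this

theorem VPT.chain {K : Type} [Group K] {n : ℕ} (h : VPT K n) : HasChain K n := by
  induction h with
  | fin K hK =>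
    exact ⟨0, fun _ => ⊥, fun i hi => absurd hi (Nat.not_lt_zero i), ∅,
      fun i hi => absurd hi (Finset.notMem_empty i), rfl⟩
  | ext K A r n htf hr h ih =>
    have h1 : HasChain A r := HasChain.of_rank r hr.ge
    have h2 : HasTop A r := h1.top_of_comm
    have := HasTop.extChain A h2 ih
    rwa [add_comm] at this

theorem VPT.exists_PR {K : Type} [Group K] {n : ℕ} (h : VPT K n) :
    ∃ X : Subgroup K, X.Normal ∧ X.index ≠ 0 ∧ PR X n := by
  induction h with
  | fin K hK =>
    refine ⟨⊥, inferInstance, ?_, ?_⟩
    · rw [Subgroup.index_bot]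
      exact Nat.card_pos.ne'
    · exact PR.triv _ inferInstance
  | ext K A r n htf hr h ih =>
    obtain ⟨X', hX'n, hX'i, hX'p⟩ := ih
    have hsurj : Function.Surjective (QuotientGroup.mk' A) := QuotientGroup.mk'_surjective A
    refine ⟨X'.comap (QuotientGroup.mk' A), hX'n.comap _, ?_, ?_⟩
    · rw [Subgroup.index_comap_of_surjective _ hsurj]
      exact hX'i
    · set X : Subgroup K := X'.comap (QuotientGroup.mk' A) with hX
      have hAX : A ≤ X := by
        intro a ha
        show QuotientGroup.mk' A a ∈ X'
        have : QuotientGroup.mk' A a = 1 := (QuotientGroup.eq_one_iff a).2 ha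
        rw [this]
        exact X'.one_mem
      let f : X →* X' :=
        { toFun := fun x => ⟨QuotientGroup.mk' A x, x.2⟩
          map_one' := by
            apply Subtype.ext
            exact map_one (QuotientGroup.mk' A)
          map_mul' := by
            intro x y
            apply Subtype.ext
            exact map_mul (QuotientGroup.mk' A) (x : K) (y : K) }
      have hf : Function.Surjective f := by
        rintro ⟨y, hy⟩
        obtain ⟨x, hx⟩ := hsurj y
        refine ⟨⟨x, ?_⟩, ?_⟩
        · show QuotientGroup.mk' A x ∈ X'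
          rw [hx]
          exact hy
        · exact Subtype.ext hx
      have hker : f.ker = A.subgroupOf X := by
        ext x
        rw [MonoidHom.mem_ker, Subgroup.mem_subgroupOf]
        constructor
        · intro h
          exact (QuotientGroup.eq_one_iff (x : K)).1 (congrArg Subtype.val h)
        · intro h
          exact Subtype.ext ((QuotientGroup.eq_one_iff (x : K)).2 h)
      have hA : PR A r := PR.of_abelian (A := A) (fun a ha => by
        have h1 : IsOfFinOrder (a : K) := A.subtype.isOfFinOrder ha
        exact Subtype.ext (htf a a.2 h1)) r hr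
      have hN : PR f.ker r := by
        rw [hker]
        exact PR.of_equiv (Subgroup.subgroupOfEquivOfLe hAX).symm hA
      have hQ : PR (X ⧸ f.ker) n :=
        PR.of_equiv (QuotientGroup.quotientKerEquivOfSurjective f hf).symm hX'p
      have := PR.extn f.ker hN hQ
      rwa [add_comm] at this

end Pool.Agent.H652.SR
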