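import Mathlib
import Pool.Agent.H652.SR.Defs
import Pool.Agent.H652.SR.Jvpta

set_option autoImplicit false

open scoped IsMulCommutative

namespace Pool.Agent.H652.SR

def CI (K : Type) [Group K] (n : ℕ) : Prop :=
  (n = 0 ∧ Finite K) ∨ ∃ (A : Subgroup K) (_ : A.Normal) (_ : IsMulCommutative A) (d m : ℕ),
      (∀ a ∈ A, IsOfFinOrder a → a = 1) ∧ Module.rank ℤ (Additive A) = d ∧ 1 ≤ d ∧ Irr A ∧
      n = m + d ∧ VPT (K ⧸ A) m

private theorem rank_congr_mulEquiv {A B : Type} [Group A] [Group B] [IsMulCommutative A]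
    [IsMulCommutative B] (e : A ≃* B) :
    Module.rank ℤ (Additive A) = Module.rank ℤ (Additive B) :=
  (MulEquiv.toAdditive e).toIntLinearEquiv.rank_eq

private theorem CI.transport {K L : Type} [Group K] [Group L] (e : K ≃* L) {n : ℕ} (h : CI K n) :
    CI L n := by
  rcases h with ⟨h0, hf⟩ | ⟨A, hA, hAc, d, m, htf, hr, hd, hirr, hn, hV⟩
  · exact Or.inl ⟨h0, Finite.of_equiv K e.toEquiv⟩
  · right
    have hB : (A.map e.toMonoidHom).Normal := Subgroup.Normal.map hA _ e.surjective
    refine ⟨A.map e.toMonoidHom, hB, inferInstance, d, m, ?_, ?_, hd, ?_, hn, ?_⟩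
    · rintro _ ⟨a, ha, rfl⟩ hfo
      have : IsOfFinOrder a :=
        (Function.Injective.isOfFinOrder_iff (f := e.toMonoidHom) e.injective).1 hfo
      rw [htf a ha this]
      simp
    · rw [← hr]
      exact (rank_congr_mulEquiv (e.subgroupMap A)).symm
    · intro C hC hCA hC0
      rintro _ ⟨a, ha, rfl⟩
      obtain ⟨k, hk, hk2⟩ := hirr (C.comap e.toMonoidHom) (hC.comap _) (by
        intro x hx
        obtain ⟨y, hy, hy2⟩ := hCA hx
        have : y = x := e.injective hy2
        exact this ▸ hy) (by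
        intro hbot
        apply hC0
        rw [Subgroup.eq_bot_iff_forall] at hbot ⊢
        intro x hx
        have := hbot (e.symm x) (by simpa using hx)
        have h2 : e (e.symm x) = e 1 := by rw [this]
        simpa using h2) a ha
      refine ⟨k, hk, ?_⟩
      simpa using hk2
    · exact VPT.of_equiv (QuotientGroup.congr A (A.map e.toMonoidHom) e rfl) hV

private theorem rank_aux {M : Type} [AddCommGroup M] (N N' : Submodule ℤ M) (h : N ≤ N') (d : ℕ)
    (hd : Module.rank ℤ N' = d) :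
    Module.rank ℤ N = d ↔ ∀ x ∈ N', ∃ a : ℤ, a ≠ 0 ∧ a • x ∈ N := by
  have h1 := rank_quotient_add_rank_of_isDomain (N.comap N'.subtype)
  have h2 : Module.rank ℤ (N.comap N'.subtype) = Module.rank ℤ N :=
    (Submodule.comapSubtypeEquivOfLe h).rank_eq
  have h3 : Module.rank ℤ (N' ⧸ (N.comap N'.subtype)) = 0 ↔
      ∀ x ∈ N', ∃ a : ℤ, a ≠ 0 ∧ a • x ∈ N := by
    rw [rank_eq_zero_iff]
    constructor
    · intro hq x hx
      obtain ⟨a, ha, ha2⟩ := hq (Submodule.Quotient.mk ⟨x, hx⟩)
      refine ⟨a, ha, ?_⟩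
      rw [← Submodule.Quotient.mk_smul, Submodule.Quotient.mk_eq_zero] at ha2
      simpa using ha2
    · intro hq x
      obtain ⟨⟨y, hy⟩, rfl⟩ := Submodule.Quotient.mk_surjective _ x
      obtain ⟨a, ha, ha2⟩ := hq y hy
      refine ⟨a, ha, ?_⟩
      rw [← Submodule.Quotient.mk_smul, Submodule.Quotient.mk_eq_zero]
      simpa using ha2
  rw [← h3]
  rw [h2, hd] at h1
  have hlt : Module.rank ℤ (N' ⧸ (N.comap N'.subtype)) < Cardinal.aleph0 := by
    refine lt_of_le_of_lt ?_ (Cardinal.natCast_lt_aleph0 (n := d))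
    rw [← h1]
    exact self_le_add_right _ _
  have hlt2 : Module.rank ℤ N < Cardinal.aleph0 := by
    refine lt_of_le_of_lt ?_ (Cardinal.natCast_lt_aleph0 (n := d))
    rw [← h1]
    exact self_le_add_left _ _
  obtain ⟨q, hq⟩ := Cardinal.lt_aleph0.1 hlt
  obtain ⟨s, hs⟩ := Cardinal.lt_aleph0.1 hlt2
  rw [hq, hs] at h1 ⊢
  norm_cast at h1 ⊢
  omega

def sub {K : Type} [Group K] (A B : Subgroup K) [IsMulCommutative A] : Submodule ℤ (Additive A) :=
  AddSubgroup.toIntSubmodule (Subgroup.toAddSubgroup (B.subgroupOf A))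

private theorem mem_sub {K : Type} [Group K] (A B : Subgroup K) [IsMulCommutative A] (x : Additive A) :
    x ∈ sub A B ↔ ((x.toMul : A) : K) ∈ B := Iff.rfl

private theorem rank_sub {K : Type} [Group K] (A B : Subgroup K) [IsMulCommutative A] [IsMulCommutative B]
    (h : B ≤ A) : Module.rank ℤ (sub A B) = Module.rank ℤ (Additive B) := by
  let e : sub A B ≃+ Additive B :=
    { toFun := fun x => Additive.ofMul ⟨((x.1.toMul : A) : K), x.2⟩
      invFun := fun x => ⟨Additive.ofMul ⟨(x.toMul : K), h x.toMul.2⟩, x.toMul.2⟩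
      left_inv := fun x => rfl
      right_inv := fun x => rfl
      map_add' := fun x y => rfl }
  exact e.toIntLinearEquiv.rank_eq

private theorem comm_of_le {K : Type} [Group K] {A B : Subgroup K} [IsMulCommutative A] (h : B ≤ A) :
    IsMulCommutative B := by
  rw [isMulCommutative_iff]
  intro a b
  have h1 := mul_comm' (⟨a, h a.2⟩ : A) ⟨b, h b.2⟩
  exact Subtype.ext (congrArg (fun z : A => (z : K)) h1)

def isol {K : Type} [Group K] (A B : Subgroup K) [IsMulCommutative A] : Subgroup K where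
  carrier := {a | a ∈ A ∧ ∃ k : ℕ, 0 < k ∧ a ^ k ∈ B}
  one_mem' := ⟨A.one_mem, 1, one_pos, by simp [B.one_mem]⟩
  mul_mem' := by
    rintro a b ⟨ha, k, hk, hk2⟩ ⟨hb, l, hl, hl2⟩
    refine ⟨A.mul_mem ha hb, k * l, Nat.mul_pos hk hl, ?_⟩
    have hc : Commute a b :=
      congrArg Subtype.val (mul_comm' (⟨a, ha⟩ : A) ⟨b, hb⟩)
    rw [hc.mul_pow, pow_mul, mul_comm k l, pow_mul]
    exact B.mul_mem (B.pow_mem hk2 _) (B.pow_mem hl2 _)
  inv_mem' := by
    rintro a ⟨ha, k, hk, hk2⟩
    refine ⟨A.inv_mem ha, k, hk, ?_⟩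
    rw [inv_pow]
    exact B.inv_mem hk2

private theorem mem_isol {K : Type} [Group K] (A B : Subgroup K) [IsMulCommutative A] (a : K) :
    a ∈ isol A B ↔ a ∈ A ∧ ∃ k : ℕ, 0 < k ∧ a ^ k ∈ B := Iff.rfl

private theorem isol_normal {K : Type} [Group K] (A B : Subgroup K) [IsMulCommutative A] (hA : A.Normal)
    (hB : B.Normal) : (isol A B).Normal := by
  constructor
  rintro a ⟨ha, k, hk, hk2⟩ g
  refine ⟨hA.conj_mem a ha g, k, hk, ?_⟩
  rw [conj_pow]
  exact hB.conj_mem _ hk2 g

private theorem exists_pow_of_zpow {K : Type} [Group K] {B : Subgroup K} {x : K} {a : ℤ} (ha : a ≠ 0)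
    (h : x ^ a ∈ B) : ∃ k : ℕ, 0 < k ∧ x ^ k ∈ B := by
  refine ⟨a.natAbs, Int.natAbs_pos.2 ha, ?_⟩
  rcases Int.natAbs_eq a with h1 | h1
  · rw [h1, zpow_natCast] at h
    exact h
  · rw [h1, zpow_neg, zpow_natCast] at h
    exact B.inv_mem_iff.1 h

private theorem ext_case {K : Type} [Group K] (A : Subgroup K) (hA : A.Normal) [IsMulCommutative A]
    (r n : ℕ) (htf : ∀ a ∈ A, IsOfFinOrder a → a = 1)
      (hr : Module.rank ℤ (Additive A) = r) (h : VPT (K ⧸ A) n) (ih : CI (K ⧸ A) n) :
    CI K (n + r) := by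
  classical
  by_cases hAb : A = ⊥
  ·
    have hr0 : r = 0 := by
      have : Subsingleton A := by rw [hAb]; infer_instance
      have : Subsingleton (Additive A) := this
      have h0 : Module.rank ℤ (Additive A) = 0 := rank_subsingleton' ℤ (Additive A)
      rw [h0] at hr
      exact_mod_cast hr.symm
    subst hr0
    have e : K ⧸ A ≃* K := by
      subst hAb
      exact QuotientGroup.quotientBot
    exact ih.transport e
  · have hex : ∃ d : ℕ, ∃ B : Subgroup K, B.Normal ∧ B ≤ A ∧ B ≠ ⊥ ∧ Module.rank ℤ (sub A B) = d := by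
      refine ⟨r, A, hA, le_rfl, hAb, ?_⟩
      rw [rank_sub A A le_rfl, hr]
    set d := Nat.find hex with hd
    obtain ⟨B, hBn, hBA, hB0, hBd⟩ := Nat.find_spec hex
    have hmin : ∀ (m : ℕ) (C : Subgroup K), C.Normal → C ≤ A → C ≠ ⊥ →
        Module.rank ℤ (sub A C) = m → d ≤ m :=
      fun m C h1 h2 h3 h4 => Nat.find_min' hex ⟨C, h1, h2, h3, h4⟩
    set A' := isol A B with hA'
    have hA'n : A'.Normal := isol_normal A B hA hBn
    have hA'A : A' ≤ A := fun x hx => hx.1
    have hBA' : B ≤ A' := fun x hx => ⟨hBA hx, 1, one_pos, by simpa using hx⟩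
    have hA'c : IsMulCommutative A' := comm_of_le hA'A
    have hpure : ∀ a ∈ A, ∀ k : ℕ, 0 < k → a ^ k ∈ A' → a ∈ A' := by
      rintro a ha k hk ⟨-, l, hl, hl2⟩
      exact ⟨ha, k * l, Nat.mul_pos hk hl, by rw [pow_mul]; exact hl2⟩
    have hmono : ∀ C D : Subgroup K, C ≤ D → sub A C ≤ sub A D := fun C D hCD x hx => hCD hx

    have hlt : Module.rank ℤ (sub A A') < Cardinal.aleph0 := by
      refine lt_of_le_of_lt (Submodule.rank_le _) ?_
      rw [hr]
      exact Cardinal.natCast_lt_aleph0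
    obtain ⟨d', hd'⟩ := Cardinal.lt_aleph0.1 hlt
    have hA'd : Module.rank ℤ (sub A A') = d := by
      have := (rank_aux (sub A B) (sub A A') (hmono _ _ hBA') d' hd').2 (by
        intro x hx
        obtain ⟨-, k, hk, hk2⟩ := hx
        refine ⟨k, by exact_mod_cast hk.ne', ?_⟩
        rw [mem_sub]
        simpa using hk2)
      rw [hBd] at this
      rw [hd', ← this]
    have hA'0 : A' ≠ ⊥ := fun h0 => hB0 (le_bot_iff.1 (h0 ▸ hBA'))
    have hd1 : 1 ≤ d := by
      by_contra hcon
      have hd0 : d = 0 := by omega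
      rw [← hd, hd0, Nat.cast_zero, rank_eq_zero_iff] at hBd
      apply hB0
      rw [Subgroup.eq_bot_iff_forall]
      intro x hx
      obtain ⟨a, ha, ha2⟩ := hBd ⟨Additive.ofMul ⟨x, hBA hx⟩, hx⟩
      apply htf x (hBA hx)
      have h1 : x ^ a = 1 := by
        have := congrArg (fun z : sub A B => ((z.1.toMul : A) : K)) ha2
        simpa using this
      obtain ⟨k, hk, hk2⟩ := exists_pow_of_zpow (B := ⊥) ha (by rw [h1]; exact Subgroup.one_mem _)
      exact isOfFinOrder_iff_pow_eq_one.2 ⟨k, hk, by simpa using hk2⟩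
    have hdr : d ≤ r := by
      apply hmin r A hA le_rfl hAb
      rw [rank_sub A A le_rfl, hr]
    right
    refine ⟨A', hA'n, hA'c, d, n + (r - d), fun a ha => htf a (hA'A ha), ?_, hd1, ?_, by omega, ?_⟩
    · rw [← rank_sub A A' hA'A, hA'd]
    · intro C hCn hCA' hC0 a ha
      have hltC : Module.rank ℤ (sub A C) < Cardinal.aleph0 := by
        refine lt_of_le_of_lt (Submodule.rank_le _) ?_
        rw [hr]
        exact Cardinal.natCast_lt_aleph0
      obtain ⟨c, hc⟩ := Cardinal.lt_aleph0.1 hltC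
      have h1 : d ≤ c := hmin c C hCn (hCA'.trans hA'A) hC0 hc
      have h2 : Module.rank ℤ (sub A C) ≤ Module.rank ℤ (sub A A') :=
        Submodule.rank_mono (hmono _ _ hCA')
      rw [hc, hA'd] at h2
      have h3 : c ≤ d := by exact_mod_cast h2
      have h4 : c = d := le_antisymm h3 h1
      obtain ⟨z, hz, hz2⟩ := (rank_aux (sub A C) (sub A A') (hmono _ _ hCA') d hA'd).1
        (by rw [hc, h4]) (Additive.ofMul ⟨a, hA'A ha⟩) ha
      apply exists_pow_of_zpow hz
      rw [mem_sub] at hz2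
      simpa using hz2
    ·
      have hAm : (A.map (QuotientGroup.mk' A')).Normal :=
        Subgroup.Normal.map hA _ (QuotientGroup.mk'_surjective A')
      refine VPT.ext (K ⧸ A') (A.map (QuotientGroup.mk' A')) (r - d) n ?_ ?_ ?_
      · rintro _ ⟨a, ha, rfl⟩ hfo
        obtain ⟨k, hk, hk2⟩ := isOfFinOrder_iff_pow_eq_one.1 hfo
        rw [← map_pow] at hk2
        have : a ^ k ∈ A' := (QuotientGroup.eq_one_iff _).1 hk2
        exact (QuotientGroup.eq_one_iff _).2 (hpure a ha k hk this)
      · let f : Additive A →+ Additive (A.map (QuotientGroup.mk' A')) :=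
          MonoidHom.toAdditive ((QuotientGroup.mk' A').subgroupMap A)
        have hf : Function.Surjective f.toIntLinearMap := by
          intro y
          obtain ⟨x, hx⟩ := (QuotientGroup.mk' A').subgroupMap_surjective A y.toMul
          exact ⟨Additive.ofMul x, congrArg Additive.ofMul hx⟩
        have hker : LinearMap.ker f.toIntLinearMap = sub A A' := by
          ext x
          rw [LinearMap.mem_ker, mem_sub]
          constructor
          · intro hx
            have h1 : ((((QuotientGroup.mk' A').subgroupMap A) x.toMul :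
                A.map (QuotientGroup.mk' A')) : K ⧸ A') = 1 :=
              congrArg (fun z : Additive (A.map (QuotientGroup.mk' A')) => (z.toMul : K ⧸ A')) hx
            exact (QuotientGroup.eq_one_iff _).1 h1
          · intro hx
            have h1 : ((((QuotientGroup.mk' A').subgroupMap A) x.toMul :
                A.map (QuotientGroup.mk' A')) : K ⧸ A') = 1 := (QuotientGroup.eq_one_iff _).2 hx
            exact congrArg Additive.ofMul (Subtype.ext h1)
        have h1 := LinearMap.rank_eq_of_surjective hf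
        rw [hr, hker, hA'd] at h1
        have hlt3 : Module.rank ℤ (Additive (A.map (QuotientGroup.mk' A'))) < Cardinal.aleph0 := by
          refine lt_of_le_of_lt ?_ (Cardinal.natCast_lt_aleph0 (n := r))
          rw [h1]
          exact self_le_add_right _ _
        obtain ⟨q, hq⟩ := Cardinal.lt_aleph0.1 hlt3
        rw [hq] at h1 ⊢
        norm_cast at h1 ⊢
        omega
      · exact VPT.of_equiv (QuotientGroup.quotientQuotientEquivQuotient A' A hA'A).symm h

theorem VPT.cases_irr {K : Type} [Group K] {n : ℕ} (h : VPT K n) :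
    (n = 0 ∧ Finite K) ∨ ∃ (A : Subgroup K) (_ : A.Normal) (_ : IsMulCommutative A) (d m : ℕ),
      (∀ a ∈ A, IsOfFinOrder a → a = 1) ∧ Module.rank ℤ (Additive A) = d ∧ 1 ≤ d ∧ Irr A ∧
      n = m + d ∧ VPT (K ⧸ A) m := by
  suffices hs : CI K n from hs
  induction h with
  | fin K h => exact Or.inl ⟨rfl, h⟩
  | ext K A r n htf hr h ih => exact ext_case A inferInstance r n htf hr h ih

end Pool.Agent.H652.SR
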