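import Mathlib
import Pool.Agent.H652.SR.Defs
import Pool.Agent.H652.SR.Jg1
import Pool.Agent.H652.SR.Jg2
import Pool.Agent.H652.SR.Jpcta
import Pool.Agent.H652.SR.Jpctb
import Pool.Agent.H652.SR.Jvptb

set_option autoImplicit false

open scoped IsMulCommutative

namespace Pool.Agent.H652.SR

theorem LC.of_surjective {G H : Type} [Group G] [Group H] {n : ℕ} (h : LC G n) (f : G →* H)
    (hf : Function.Surjective f) : LC H n := by
  intro M _ _ _ φ hφ
  obtain ⟨h1, h2⟩ := h M (φ.comp f) (by
    intro B hB
    apply hφ B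
    intro g b hb
    obtain ⟨g', rfl⟩ := hf g
    exact hB g' b hb)
  let j : Der φ → Der (φ.comp f) := fun δ => ⟨fun g => δ.1 (f g), by
    intro g h
    show δ.1 (f (g * h)) = _
    rw [map_mul]
    exact δ.2 (f g) (f h)⟩
  have hj : Function.Injective j := by
    intro a b hab
    apply Subtype.ext
    funext x
    obtain ⟨g, rfl⟩ := hf x
    exact congrFun (congrArg Subtype.val hab) g
  exact ⟨Finite.of_injective j hj, (Nat.card_le_card_of_injective j hj).trans h2⟩

private theorem case2_aux (K : Type) [Group K] (hfg : Group.FG K) (hs : Group.IsSolvable K) (n : ℕ)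
    (hLC : LC K n) (e : ℕ) (he : 0 < e) (hpct : PCT e K)
    (hGC : ∀ (Q : Type) [Group Q] (f : K →* Q), Function.Surjective f →
      ∀ (A : Subgroup Q) [A.Normal] [IsMulCommutative A] (d m : ℕ),
      (∀ a ∈ A, IsOfFinOrder a → a = 1) → Module.rank ℤ (Additive A) = d → 1 ≤ d → Irr A →
      m + d ≤ n → VPT (Q ⧸ A) m →
      Module.rank ℤ (Additive (DerRel (MulAut.conjNormal : Q →* MulAut A) A)) + d
        < (n : Cardinal) * d) (m : ℕ) :
    ∀ (Q : Type) [Group Q] (f : K →* Q), Function.Surjective f → VPT Q m → m ≤ n → NGen Q n := by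
  induction m using Nat.strong_induction_on with
  | _ m ih =>
    intro Q _ f hf hQ hmn
    have hsQ : Group.IsSolvable Q := Group.isSolvable_of_surjective hf
    have hLCQ : LC Q n := LC.of_surjective hLC f hf
    rcases hQ.cases_irr with ⟨-, hfin⟩ | ⟨A, hAn, hAc, d, m', htf, hd, hd1, hirr, hm, hvpt⟩
    · exact ngen_of_finite Q hfin hsQ n hLCQ
    · let f' : K →* Q ⧸ A := (QuotientGroup.mk' A).comp f
      have hf' : Function.Surjective f' := (QuotientGroup.mk'_surjective A).comp hf
      obtain ⟨x', hx'⟩ := ih m' (by omega) (Q ⧸ A) f' hf' hvpt (by omega)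
      have hlift : ∀ i, ∃ y : Q, QuotientGroup.mk' A y = x' i :=
        fun i => QuotientGroup.mk'_surjective A (x' i)
      choose x hx using hlift
      have hxA : Subgroup.closure (Set.range x) ⊔ A = ⊤ := by
        have h1 : Subgroup.map (QuotientGroup.mk' A) (Subgroup.closure (Set.range x)) = ⊤ := by
          rw [MonoidHom.map_closure, ← Set.range_comp, ← hx']
          congr 2
          funext i
          exact hx i
        have h2 := Subgroup.comap_map_eq (QuotientGroup.mk' A) (Subgroup.closure (Set.range x))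
        rw [h1, Subgroup.comap_top, QuotientGroup.ker_mk'] at h2
        exact h2.symm
      have hpA : PCT e A := (hpct.of_surjective f hf).of_injective A.subtype A.subtype_injective
      obtain ⟨S, hS⟩ := hpA.good
      classical
      have hFG : Group.FG Q := Group.fg_of_surjective hf
      obtain ⟨y, -, hy⟩ := g2 Q hFG A htf d hd hirr e he (S.image Subtype.val) (by
          intro s hs
          rw [Finset.mem_image] at hs
          obtain ⟨a, -, rfl⟩ := hs
          exact a.2) (by
          intro a ha
          obtain ⟨k, hk⟩ := hS ⟨a, ha⟩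
          refine ⟨k, ?_⟩
          have h1 : A.subtype ((⟨a, ha⟩ : A) ^ (e ^ k)) ∈
              Subgroup.map A.subtype (Subgroup.closure (S : Set A)) := ⟨_, hk, rfl⟩
          rw [MonoidHom.map_closure] at h1
          have h2 : (A.subtype '' (S : Set A)) = ((S.image Subtype.val : Finset Q) : Set Q) := by
            rw [Finset.coe_image]; rfl
          rw [h2] at h1
          exact h1) n hLCQ (hGC Q f hf A d m' htf hd hd1 hirr (by omega) hvpt) x hxA
      exact ⟨y, hy⟩

theorem case2 (K : Type) [Group K] (hfg : Group.FG K) (hs : Group.IsSolvable K) (n : ℕ)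
    (hLC : LC K n) (e : ℕ) (he : 0 < e) (hpct : PCT e K)
    (hGC : ∀ (Q : Type) [Group Q] (f : K →* Q), Function.Surjective f →
      ∀ (A : Subgroup Q) [A.Normal] [IsMulCommutative A] (d m : ℕ),
      (∀ a ∈ A, IsOfFinOrder a → a = 1) → Module.rank ℤ (Additive A) = d → 1 ≤ d → Irr A →
      m + d ≤ n → VPT (Q ⧸ A) m →
      Module.rank ℤ (Additive (DerRel (MulAut.conjNormal : Q →* MulAut A) A)) + d
        < (n : Cardinal) * d)
    (h : VPT K n) : NGen K n :=
  case2_aux K hfg hs n hLC e he hpct hGC n K (MonoidHom.id K) Function.surjective_id h le_rfl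

private theorem exists_prime_index_comm (C : Type) [CommGroup C] [Finite C] [Nontrivial C] :
    ∃ H : Subgroup C, (H.index).Prime := by
  obtain ⟨M, hM, -⟩ := (IsCoatomic.eq_top_or_exists_le_coatom (⊥ : Subgroup C)).resolve_left
    bot_ne_top
  refine ⟨M, ?_⟩
  have hnt : Nontrivial (C ⧸ M) := by
    rw [QuotientGroup.nontrivial_iff]
    exact hM.1
  have hsimple : IsSimpleGroup (C ⧸ M) := by
    refine ⟨fun H _ => ?_⟩
    have h1 : M ≤ H.comap (QuotientGroup.mk' M) := by
      intro x hx
      rw [Subgroup.mem_comap, QuotientGroup.mk'_apply, (QuotientGroup.eq_one_iff x).2 hx]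
      exact one_mem _
    rcases hM.le_iff.1 h1 with h2 | h2
    · right
      have h3 := Subgroup.map_comap_eq_self_of_surjective (QuotientGroup.mk'_surjective M) H
      rw [← h3, h2, ← MonoidHom.range_eq_map, MonoidHom.range_eq_top]
      exact QuotientGroup.mk'_surjective M
    · left
      have h3 := Subgroup.map_comap_eq_self_of_surjective (QuotientGroup.mk'_surjective M) H
      rw [← h3, h2, Subgroup.map_eq_bot_iff, QuotientGroup.ker_mk']
  exact IsSimpleGroup.prime_card

theorem exists_prime_index (K : Type) [Group K] (hs : Group.IsSolvable K) (X : Subgroup K) [X.Normal]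
    (hX : X.index ≠ 0) (hne : X ≠ ⊤) :
    ∃ H : Subgroup K, H.Normal ∧ X ≤ H ∧ (H.index).Prime := by
  have hnt : Nontrivial (K ⧸ X) := by
    rw [QuotientGroup.nontrivial_iff]
    exact hne
  have hfi : X.FiniteIndex := ⟨hX⟩
  have hfin : Finite (K ⧸ X) := Subgroup.finite_quotient_of_finiteIndex
  have hsQ : Group.IsSolvable (K ⧸ X) := Group.isSolvable_of_surjective (QuotientGroup.mk'_surjective X)
  have h1 : commutator (K ⧸ X) < ⊤ := Group.IsSolvable.commutator_lt_top_of_nontrivial _
  have hnt2 : Nontrivial (Abelianization (K ⧸ X)) := by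
    show Nontrivial ((K ⧸ X) ⧸ commutator (K ⧸ X))
    rw [QuotientGroup.nontrivial_iff]
    exact h1.ne
  have hfin2 : Finite (Abelianization (K ⧸ X)) :=
    Finite.of_surjective _ (QuotientGroup.mk'_surjective (commutator (K ⧸ X)))
  obtain ⟨H, hH⟩ := exists_prime_index_comm (Abelianization (K ⧸ X))
  let g : K →* Abelianization (K ⧸ X) := Abelianization.of.comp (QuotientGroup.mk' X)
  have hg : Function.Surjective g :=
    (QuotientGroup.mk'_surjective (commutator (K ⧸ X))).comp (QuotientGroup.mk'_surjective X)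
  refine ⟨H.comap g, inferInstance, ?_, ?_⟩
  · intro x hx
    rw [Subgroup.mem_comap]
    show Abelianization.of (QuotientGroup.mk' X x) ∈ H
    rw [QuotientGroup.mk'_apply, (QuotientGroup.eq_one_iff x).2 hx, map_one]
    exact one_mem _
  · rw [Subgroup.index_comap_of_surjective H hg]
    exact hH

end Pool.Agent.H652.SR
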