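import Mathlib
import Pool.Agent.H652.SR.Defs

set_option autoImplicit false

open scoped IsMulCommutative

namespace Pool.Agent.H652.SR

private theorem der_index (G : Type) [Group G] (hfg : Group.FG G)
    (ht : ∀ g : G, IsOfFinOrder g) (k : ℕ) : (derivedSeries G k).index ≠ 0 := by
  induction k with
  | zero => simp
  | succ k ih =>
    obtain ⟨H, hH⟩ : ∃ H, H = derivedSeries G k := ⟨_, rfl⟩
    have h1 : derivedSeries G (k + 1) = ⁅H, H⁆ := by rw [hH]; rfl
    rw [← hH] at ih
    have hfi : H.FiniteIndex := ⟨ih⟩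
    have hHfg : Group.FG H := inferInstance
    have htH : ∀ g : H, IsOfFinOrder g := by
      intro g
      rw [← Submonoid.isOfFinOrder_coe]
      exact ht g
    have hab : Finite (Abelianization H) := by
      have hfgA : Group.FG (Abelianization H) := by
        unfold Abelianization
        infer_instance
      apply CommGroup.finite_of_fg_isMulTorsion
      intro x
      obtain ⟨g, rfl⟩ := QuotientGroup.mk_surjective x
      exact (Abelianization.of (G := H)).isOfFinOrder (htH g)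
    have h2 : (_root_.commutator H).index ≠ 0 := by
      have : Finite (H ⧸ _root_.commutator H) := hab
      exact (Subgroup.finiteIndex_of_finite_quotient).index_ne_zero
    have h3 : ⁅H, H⁆.subgroupOf H = _root_.commutator H := by
      rw [← Subgroup.map_subtype_commutator, Subgroup.subgroupOf,
        Subgroup.comap_map_eq_self_of_injective H.subtype_injective]
    have h4 : ⁅H, H⁆ ≤ H := H.map_subtype_commutator.symm.trans_le (Subgroup.map_subtype_le _)
    rw [h1, ← Subgroup.relIndex_mul_index h4, Subgroup.relIndex, h3]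
    exact mul_ne_zero h2 ih

theorem finite_of_fg_torsion (G : Type) [Group G] (hfg : Group.FG G) (hs : Group.IsSolvable G)
    (ht : ∀ g : G, IsOfFinOrder g) : Finite G := by
  obtain ⟨n, hn⟩ := hs.solvable
  have := der_index G hfg ht n
  rw [hn, Subgroup.index_bot] at this
  exact Nat.finite_of_card_ne_zero this

private theorem pow_quot {K : Type} [Group K] (N : Subgroup K) [N.Normal] {a b : K} (hb : b ∈ N) {k : ℕ}
    (ha : a ^ k = 1) : (a * b) ^ k ∈ N := by
  rw [← QuotientGroup.eq_one_iff, QuotientGroup.mk_pow, QuotientGroup.mk_mul,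
    (QuotientGroup.eq_one_iff b).2 hb, mul_one, ← QuotientGroup.mk_pow, ha, QuotientGroup.mk_one]

theorem exists_maxtor (K : Type) [Group K] :
    ∃ T : Subgroup K, T.Normal ∧ (∀ t ∈ T, IsOfFinOrder t) ∧
      (∀ N : Subgroup K, N.Normal → (∀ t ∈ N, IsOfFinOrder t) → N ≤ T) ∧
      (∀ S : Subgroup K, S.Normal → T ≤ S →
        (∀ s ∈ S, ∃ k : ℕ, 0 < k ∧ s ^ k ∈ T) → S ≤ T) := by
  obtain ⟨F, hF⟩ : ∃ F : Set (Subgroup K), F = {N | N.Normal ∧ ∀ t ∈ N, IsOfFinOrder t} :=
    ⟨_, rfl⟩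
  have hne : F.Nonempty := ⟨⊥, by
    rw [hF]
    refine ⟨inferInstance, ?_⟩
    intro t ht
    rw [Subgroup.mem_bot] at ht
    rw [ht]
    exact IsOfFinOrder.one⟩
  have hdir : DirectedOn (· ≤ ·) F := by
    intro N1 h1 N2 h2
    rw [hF] at h1 h2
    obtain ⟨n1, t1⟩ := h1
    obtain ⟨n2, t2⟩ := h2
    refine ⟨N1 ⊔ N2, ?_, le_sup_left, le_sup_right⟩
    rw [hF]
    refine ⟨Subgroup.sup_normal N1 N2, ?_⟩
    intro x hx
    have hx' : x ∈ ((N1 ⊔ N2 : Subgroup K) : Set K) := hx
    rw [Subgroup.mul_normal] at hx'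
    obtain ⟨a, ha, b, hb, rfl⟩ := hx'
    obtain ⟨k, hk, hak⟩ := isOfFinOrder_iff_pow_eq_one.1 (t1 a ha)
    have := t2 _ (pow_quot N2 hb hak)
    exact this.of_pow hk.ne'
  have hmem : ∀ x, x ∈ sSup F ↔ ∃ N ∈ F, x ∈ N := fun x =>
    Subgroup.mem_sSup_of_directedOn hne hdir
  have htor : ∀ t ∈ sSup F, IsOfFinOrder t := by
    intro t ht
    obtain ⟨N, hN, htN⟩ := (hmem t).1 ht
    rw [hF] at hN
    exact hN.2 t htN
  have hmax : ∀ N : Subgroup K, N.Normal → (∀ t ∈ N, IsOfFinOrder t) → N ≤ sSup F := by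
    intro N hN ht
    exact le_sSup (by rw [hF]; exact ⟨hN, ht⟩)
  refine ⟨sSup F, ⟨?_⟩, htor, hmax, ?_⟩
  · intro n hn g
    obtain ⟨N, hN, hnN⟩ := (hmem n).1 hn
    refine (hmem _).2 ⟨N, hN, ?_⟩
    rw [hF] at hN
    exact hN.1.conj_mem n hnN g
  · intro S hS _ hpow
    apply hmax S hS
    intro s hs
    obtain ⟨k, hk, hsk⟩ := hpow s hs
    exact (htor _ hsk).of_pow hk.ne'

private theorem fg_comm {C : Type} [Group C] (c : C) (hc : c ∈ ⁅(⊤ : Subgroup C), (⊤ : Subgroup C)⁆) :
    ∃ F : Set C, F.Finite ∧ c ∈ ⁅Subgroup.closure F, Subgroup.closure F⁆ := by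
  rw [Subgroup.commutator_def] at hc
  induction hc using Subgroup.closure_induction with
  | mem x hx =>
    obtain ⟨g, _, h, _, rfl⟩ := hx
    refine ⟨{g, h}, by simp, ?_⟩
    exact Subgroup.commutator_mem_commutator (Subgroup.subset_closure (by simp))
      (Subgroup.subset_closure (by simp))
  | one => exact ⟨∅, Set.finite_empty, one_mem _⟩
  | mul x y _ _ ihx ihy =>
    obtain ⟨F1, h1, m1⟩ := ihx
    obtain ⟨F2, h2, m2⟩ := ihy
    refine ⟨F1 ∪ F2, h1.union h2, mul_mem ?_ ?_⟩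
    · exact Subgroup.commutator_mono (Subgroup.closure_mono Set.subset_union_left)
        (Subgroup.closure_mono Set.subset_union_left) m1
    · exact Subgroup.commutator_mono (Subgroup.closure_mono Set.subset_union_right)
        (Subgroup.closure_mono Set.subset_union_right) m2
  | inv x _ ih =>
    obtain ⟨F, h, m⟩ := ih
    exact ⟨F, h, inv_mem m⟩

theorem comm_torsion (C : Type) [Group C] (A : Subgroup C) (hA : A ≤ Subgroup.center C)
    (hs : Group.IsSolvable C) (ht : ∀ c : C, ∃ k : ℕ, 0 < k ∧ c ^ k ∈ A) (c : C)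
    (hc : c ∈ ⁅(⊤ : Subgroup C), (⊤ : Subgroup C)⁆) : IsOfFinOrder c := by
  obtain ⟨F, hFf, hcF⟩ := fg_comm c hc
  obtain ⟨C0, hC0⟩ : ∃ C0, C0 = Subgroup.closure F := ⟨_, rfl⟩
  rw [← hC0] at hcF
  have hfg : Group.FG C0 := by
    rw [hC0]
    exact (Group.fg_iff_subgroup_fg _).2 ((Subgroup.fg_iff _).2 ⟨F, rfl, hFf⟩)
  rw [← Subgroup.map_subtype_commutator] at hcF
  obtain ⟨c0, hc0, rfl⟩ := hcF
  have hfin : Finite (C0 ⧸ Subgroup.center C0) := by
    apply finite_of_fg_torsion _ inferInstance inferInstance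
    intro x
    obtain ⟨g, rfl⟩ := QuotientGroup.mk_surjective x
    obtain ⟨k, hk, hgk⟩ := ht g
    rw [isOfFinOrder_iff_pow_eq_one]
    refine ⟨k, hk, ?_⟩
    rw [← QuotientGroup.mk_pow, QuotientGroup.eq_one_iff, Subgroup.mem_center_iff]
    intro y
    have := Subgroup.mem_center_iff.1 (hA hgk) y
    exact Subtype.ext this
  have hfi : (Subgroup.center C0).FiniteIndex := Subgroup.finiteIndex_of_finite_quotient
  have h1 := Abelianization.commutator_subset_ker (MonoidHom.transferCenterPow C0) hc0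
  have h2 : c0 ^ (Subgroup.center C0).index = 1 := by
    simpa only [MonoidHom.mem_ker, Subtype.ext_iff] using! h1
  have h3 : IsOfFinOrder c0 :=
    isOfFinOrder_iff_pow_eq_one.2 ⟨_, Nat.pos_of_ne_zero hfi.index_ne_zero, h2⟩
  exact C0.subtype.isOfFinOrder h3

end Pool.Agent.H652.SR
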