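import Mathlib
import Pool.Agent.H652.SR.Defs
import Pool.Agent.H652.SR.Jfgtor

set_option autoImplicit false

open scoped IsMulCommutative

namespace Pool.Agent.H652.SR

private theorem pow_expand {R : Type} [Ring R] (x : R) (q : ℕ) :
    ∃ y, (1 + x) ^ q = 1 + (q : ℤ) • x + x * x * y := by
  induction q with
  | zero => exact ⟨0, by simp⟩
  | succ q ih =>
    obtain ⟨y, hy⟩ := ih
    refine ⟨y + y * x + (q : ℤ) • 1, ?_⟩
    rw [pow_succ, hy]
    push_cast
    simp only [mul_add, add_mul, mul_one, one_mul, add_smul, one_smul, smul_mul_assoc, mul_assoc,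
      mul_smul_comm]
    abel

private theorem step_dvd {R : Type} [Ring R] (tf : ∀ (m : ℤ) (x : R), m ≠ 0 → m • x = 0 → x = 0)
    {q : ℕ} (hq : q.Prime) {c : ℤ} (hc : c ≠ 0) (H : R) (h : (1 + (3 * c) • H) ^ q = 1) :
    ∃ K, H = (3 : ℤ) • K := by
  by_cases hq3 : q = 3
  · subst hq3
    have e1 : (1 + (3 * c) • H) ^ 3 = 1 + (9 * c) • (H + (3 : ℤ) • (c • (H * H) + (c ^ 2) • (H * H * H))) := by
      simp only [pow_succ, pow_zero, one_mul, mul_add, add_mul, mul_one, smul_mul_assoc,
        mul_smul_comm, smul_add, smul_smul, mul_assoc]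
      have e2 : (9 * c) • H = (3 * c) • H + (3 * c) • H + (3 * c) • H := by
        rw [← add_smul, ← add_smul]; congr 1; ring
      have e3 : (9 * (c * (3 * c))) • (H * H) = (3 * (c * (3 * c))) • (H * H) + (3 * (c * (3 * c))) • (H * H)
          + (3 * (c * (3 * c))) • (H * H) := by
        rw [← add_smul, ← add_smul]; congr 1; ring
      have e4 : (9 * (c * (3 * (c * c)))) • (H * (H * H)) = (3 * (c * (3 * (c * (3 * c))))) • (H * (H * H)) := by
        congr 1; ring
      rw [e2, e3, e4]
      abel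
    rw [e1] at h
    have h2 : (9 * c) • (H + (3 : ℤ) • (c • (H * H) + (c ^ 2) • (H * H * H))) = 0 := by
      have := add_eq_left.1 h
      exact this
    have h3 := tf _ _ (by positivity) h2
    refine ⟨-(c • (H * H) + (c ^ 2) • (H * H * H)), ?_⟩
    rw [smul_neg]
    exact eq_neg_of_add_eq_zero_left h3
  · obtain ⟨y, hy⟩ := pow_expand ((3 * c) • H) q
    rw [h] at hy
    have h1 : (3 * c) • ((q : ℤ) • H + (3 : ℤ) • (c • (H * H * y))) = 0 := by
      have h2 : (q : ℤ) • (3 * c) • H + (3 * c) • H * (3 * c) • H * y = 0 := by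
        rw [add_assoc] at hy
        exact (add_eq_left.1 hy.symm)
      rw [← h2]
      simp only [smul_mul_assoc, mul_smul_comm, smul_add, smul_smul]
      congr 2 <;> ring
    have h3 := tf _ _ (by positivity) h1
    have hcop : IsCoprime (q : ℤ) 3 := by
      have : Nat.Coprime q 3 := (Nat.coprime_primes hq Nat.prime_three).2 hq3
      exact_mod_cast Nat.isCoprime_iff_coprime.2 this
    obtain ⟨u, v, huv⟩ := hcop
    refine ⟨v • H - u • (c • (H * H * y)), ?_⟩
    have h4 : (q : ℤ) • H = -((3 : ℤ) • (c • (H * H * y))) := eq_neg_of_add_eq_zero_left h3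
    calc H = (u * q + v * 3) • H := by rw [huv, one_smul]
      _ = u • ((q : ℤ) • H) + (3 : ℤ) • (v • H) := by
          rw [add_smul, mul_smul, mul_comm v 3, mul_smul]
      _ = (3 : ℤ) • (v • H - u • (c • (H * H * y))) := by
          rw [h4, smul_sub, smul_neg, smul_comm u (3 : ℤ)]
          abel

private theorem mat_tf {n : ℕ} (m : ℤ) (x : Matrix (Fin n) (Fin n) ℤ) (hm : m ≠ 0) (h : m • x = 0) :
    x = 0 := by
  ext i j
  have := congrFun (congrFun h i) j
  simp only [Matrix.smul_apply, Matrix.zero_apply, smul_eq_mul, mul_eq_zero] at this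
  rcases this with h1 | h1
  · exact absurd h1 hm
  · exact h1

private theorem mink_prime {n : ℕ} {q : ℕ} (hq : q.Prime) (N : Matrix (Fin n) (Fin n) ℤ) (hN : N ^ q = 1)
    (h3 : ∃ H, N = 1 + (3 : ℤ) • H) : N = 1 := by
  have key : ∀ k : ℕ, ∃ H, N = 1 + ((3 : ℤ) ^ (k + 1)) • H := by
    intro k
    induction k with
    | zero => simpa using h3
    | succ k ih =>
      obtain ⟨H, hH⟩ := ih
      have hc : ((3 : ℤ) ^ k) ≠ 0 := by positivity
      obtain ⟨K, hK⟩ := step_dvd mat_tf hq hc H (by
        rw [← pow_succ', ← hH]; exact hN)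
      refine ⟨K, ?_⟩
      rw [hH, hK, smul_smul, ← pow_succ]
  ext i j
  have hd : ∀ k : ℕ, (3 : ℤ) ^ (k + 1) ∣ N i j - (1 : Matrix (Fin n) (Fin n) ℤ) i j := by
    intro k
    obtain ⟨H, hH⟩ := key k
    refine ⟨H i j, ?_⟩
    rw [hH, Matrix.add_apply, Matrix.smul_apply, smul_eq_mul]
    ring
  have hz : N i j - (1 : Matrix (Fin n) (Fin n) ℤ) i j = 0 := by
    apply Int.eq_zero_of_abs_lt_dvd (hd (N i j - (1 : Matrix (Fin n) (Fin n) ℤ) i j).natAbs)
    have h1 : (N i j - (1 : Matrix (Fin n) (Fin n) ℤ) i j).natAbs <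
        3 ^ ((N i j - (1 : Matrix (Fin n) (Fin n) ℤ) i j).natAbs + 1) := by
      calc (N i j - (1 : Matrix (Fin n) (Fin n) ℤ) i j).natAbs
          < 3 ^ (N i j - (1 : Matrix (Fin n) (Fin n) ℤ) i j).natAbs := Nat.lt_pow_self (by norm_num)
        _ ≤ _ := Nat.pow_le_pow_right (by norm_num) (by omega)
    rw [Int.abs_eq_natAbs]
    exact_mod_cast h1
  linarith

private theorem one_add_pow {n : ℕ} (N : Matrix (Fin n) (Fin n) ℤ) (h3 : ∃ H, N = 1 + (3 : ℤ) • H) (m : ℕ) :
    ∃ H, N ^ m = 1 + (3 : ℤ) • H := by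
  obtain ⟨H, hH⟩ := h3
  induction m with
  | zero => exact ⟨0, by simp⟩
  | succ m ih =>
    obtain ⟨K, hK⟩ := ih
    refine ⟨H + K + (3 : ℤ) • (K * H), ?_⟩
    rw [pow_succ, hK, hH]
    simp only [mul_add, add_mul, mul_one, one_mul, smul_mul_assoc, mul_smul_comm, smul_add]
    abel

private theorem mink_order {n : ℕ} (m : ℕ) (hm : 0 < m) (N : Matrix (Fin n) (Fin n) ℤ) (hN : N ^ m = 1)
    (h3 : ∃ H, N = 1 + (3 : ℤ) • H) : N = 1 := by
  induction m using Nat.strong_induction_on generalizing N with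
  | _ m ih =>
    by_cases hm1 : m = 1
    · rw [hm1, pow_one] at hN
      exact hN
    · obtain ⟨q, hq, m', rfl⟩ := Nat.exists_prime_and_dvd hm1
      have hm' : 0 < m' := Nat.pos_of_mul_pos_left hm
      have h1 : N ^ m' = 1 := by
        apply mink_prime hq _ _ (one_add_pow N h3 m')
        rw [← pow_mul, mul_comm]
        exact hN
      apply ih m' _ hm' N h1 h3
      have := hq.two_le
      nlinarith

private theorem bounded_mat {n : ℕ} {D : Type} [Group D] [Finite D] (M : D →* Matrix (Fin n) (Fin n) ℤ)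
    (hM : Function.Injective M) : Nat.card D ≤ 3 ^ (n * n) := by
  have hinj : Function.Injective (fun g : D => fun (i j : Fin n) => ((M g i j : ℤ) : ZMod 3)) := by
    intro g h hgh
    have h1 : ∀ i j, (3 : ℤ) ∣ M g i j - M h i j := by
      intro i j
      have := congrFun (congrFun hgh i) j
      simp only at this
      have h2 : ((M h i j : ℤ) : ZMod 3) = ((M g i j : ℤ) : ZMod 3) := this.symm
      exact (ZMod.intCast_eq_intCast_iff_dvd_sub _ _ 3).1 h2
    choose K hK using h1
    have h2 : M g = M h + (3 : ℤ) • (Matrix.of K) := by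
      ext i j
      have := hK i j
      simp only [Matrix.add_apply, Matrix.smul_apply, Matrix.of_apply, smul_eq_mul]
      linarith
    have h3 : M (h⁻¹ * g) = 1 + (3 : ℤ) • (M h⁻¹ * Matrix.of K) := by
      rw [map_mul, h2, mul_add, ← map_mul, inv_mul_cancel, map_one, mul_smul_comm]
    have h4 : M (h⁻¹ * g) = 1 := by
      apply mink_order (Nat.card D) Nat.card_pos _ _ ⟨_, h3⟩
      rw [← map_pow, pow_card_eq_one', map_one]
    have h5 : h⁻¹ * g = 1 := hM (by rw [h4, map_one])
    exact (inv_mul_eq_one.1 h5).symm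
  calc Nat.card D ≤ Nat.card (Fin n → Fin n → ZMod 3) := Nat.card_le_card_of_injective _ hinj
    _ = 3 ^ (n * n) := by
        rw [Nat.card_eq_fintype_card]
        simp [pow_mul]

private theorem bounded {V : Type} [AddCommGroup V] [IsAddTorsionFree V] {r : ℕ}
    (hr : Module.rank ℤ V = r) {D : Type} [Group D] [Finite D] (ρ : D →* Module.End ℤ V)
    (hρ : Function.Injective ρ) : Nat.card D ≤ 3 ^ (r * r) := by
  obtain ⟨s, hs, hli⟩ := exists_set_linearIndependent_of_isDomain (R := ℤ) (M := V)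
  have hsfin : s.Finite := by
    rw [← Cardinal.lt_aleph0_iff_set_finite, hs, hr]
    exact Cardinal.natCast_lt_aleph0
  have hrS : Module.rank ℤ (Submodule.span ℤ s) = r := by
    rw [rank_span_set hli, hs, hr]
  have hq : Module.rank ℤ (V ⧸ Submodule.span ℤ s) = 0 := by
    have h := rank_quotient_add_rank_of_isDomain (R := ℤ) (Submodule.span ℤ s)
    rw [hrS, hr] at h
    apply Cardinal.eq_of_add_eq_add_right (b := (r : Cardinal)) _ Cardinal.natCast_lt_aleph0
    rw [h, zero_add]
  rw [Module.rank_eq_zero_iff_isTorsion] at hq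
  have htor : ∀ v : V, ∃ m : ℤ, m ≠ 0 ∧ m • v ∈ Submodule.span ℤ s := by
    intro v
    obtain ⟨a, ha⟩ := @hq (Submodule.Quotient.mk v)
    refine ⟨a, nonZeroDivisors.coe_ne_zero a, ?_⟩
    rw [← Submodule.Quotient.mk_eq_zero]
    exact ha
  obtain ⟨A0, hA0⟩ : ∃ A0 : Submodule ℤ V, A0 =
      Submodule.span ℤ (Set.range (fun p : D × s => ρ p.1 (p.2 : V))) := ⟨_, rfl⟩
  have hsfin' : Finite s := hsfin
  have hfg : A0.FG := by
    rw [hA0]
    exact Submodule.fg_span (Set.finite_range _)
  have hfin : Module.Finite ℤ A0 := Module.Finite.iff_fg.2 hfg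
  have hsub : Submodule.span ℤ s ≤ A0 := by
    rw [hA0]
    apply Submodule.span_mono
    intro v hv
    exact ⟨(1, ⟨v, hv⟩), by simp⟩
  have hinv : ∀ g : D, ∀ v ∈ A0, ρ g v ∈ A0 := by
    intro g
    have : A0 ≤ A0.comap (ρ g) := by
      conv_lhs => rw [hA0]
      rw [Submodule.span_le]
      rintro _ ⟨p, rfl⟩
      change ρ g (ρ p.1 p.2) ∈ A0
      rw [hA0]
      apply Submodule.subset_span
      refine ⟨(g * p.1, p.2), ?_⟩
      simp only [map_mul, Module.End.mul_apply]
    intro v hv
    exact this hv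
  obtain ⟨ρ', hρ'⟩ : ∃ ρ' : D →* Module.End ℤ A0, ∀ g (v : A0), ((ρ' g v : A0) : V) = ρ g v := by
    refine ⟨{ toFun := fun g => (ρ g).restrict (hinv g)
              map_one' := ?_
              map_mul' := ?_ }, ?_⟩
    · ext v
      simp
    · intro g h
      ext v
      simp
    · intro g v
      rfl
  have hρ'inj : Function.Injective ρ' := by
    intro g h hgh
    apply hρ
    ext v
    obtain ⟨m, hm, hmv⟩ := htor v
    have h1 : ρ g (m • v) = ρ h (m • v) := by
      rw [← hρ' g ⟨m • v, hsub hmv⟩, ← hρ' h ⟨m • v, hsub hmv⟩, hgh]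
    rw [map_smul, map_smul] at h1
    exact smul_right_injective V hm h1
  have hle : Module.finrank ℤ A0 ≤ r := by
    have h1 : Module.rank ℤ A0 ≤ r := by
      rw [← hr]
      exact Submodule.rank_le A0
    rw [← Module.finrank_eq_rank] at h1
    exact_mod_cast h1
  have hfree : Module.Free ℤ A0 := inferInstance
  have b := Module.finBasis ℤ A0
  have hM := bounded_mat (((LinearMap.toMatrixAlgEquiv b).toMonoidHom : Module.End ℤ A0 →*
    Matrix (Fin (Module.finrank ℤ A0)) (Fin (Module.finrank ℤ A0)) ℤ).comp ρ')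
    ((LinearMap.toMatrixAlgEquiv b).injective.comp hρ'inj)
  refine hM.trans ?_
  exact Nat.pow_le_pow_right (by norm_num) (Nat.mul_le_mul hle hle)

theorem mink (A : Type) [CommGroup A] (htf : TF A) (r : ℕ)
    (hr : Module.rank ℤ (Additive A) = r) (G : Type) [Group G] (hs : Group.IsSolvable G)
    (ht : ∀ g : G, IsOfFinOrder g) (φ : G →* MulAut A) (hφ : Function.Injective φ) :
    Finite G := by
  have htfA : IsAddTorsionFree (Additive A) := by
    constructor
    intro n hn a b hab
    simp only at hab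
    have h1 : (Additive.toMul a / Additive.toMul b) ^ n = 1 := by
      rw [div_pow, div_eq_one]
      exact hab
    have h2 := htf _ (isOfFinOrder_iff_pow_eq_one.2 ⟨n, Nat.pos_of_ne_zero hn, h1⟩)
    have h3 := div_eq_one.1 h2
    exact h3
  obtain ⟨ρ, hρ⟩ : ∃ ρ : G →* Module.End ℤ (Additive A), ∀ g (a : A),
      ρ g (Additive.ofMul a) = Additive.ofMul (φ g a) := by
    refine ⟨{ toFun := fun g => (MonoidHom.toAdditive (φ g).toMonoidHom).toIntLinearMap
              map_one' := ?_
              map_mul' := ?_ }, ?_⟩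
    · ext v
      simp
    · intro g h
      ext v
      simp
    · intro g v
      rfl
  have hρinj : Function.Injective ρ := by
    intro g h hgh
    apply hφ
    ext a
    have := congrArg (fun f => f (Additive.ofMul a)) hgh
    simp only [hρ] at this
    exact this
  by_contra hinf
  rw [not_finite_iff_infinite] at hinf
  obtain ⟨S, hS⟩ := Infinite.exists_subset_card_eq G (3 ^ (r * r) + 1)
  obtain ⟨H, hH⟩ : ∃ H : Subgroup G, H = Subgroup.closure (S : Set G) := ⟨_, rfl⟩
  have hHfg : Group.FG H := by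
    rw [Group.fg_iff_subgroup_fg]
    exact ⟨S, hH.symm⟩
  have hHfin : Finite H := by
    apply finite_of_fg_torsion H hHfg inferInstance
    intro g
    exact (Subgroup.subtype_injective H).isOfFinOrder_iff.1 (ht g)
  have hb := bounded hr (ρ.comp H.subtype) (hρinj.comp H.subtype_injective)
  have hSH : S.card ≤ Nat.card H := by
    have hinj : Function.Injective (fun x : S => (⟨x.1, by
        rw [hH]; exact Subgroup.subset_closure x.2⟩ : H)) := by
      intro x y hxy
      apply Subtype.ext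
      have := congrArg Subtype.val hxy
      exact this
    have h1 := Nat.card_le_card_of_injective _ hinj
    have h2 : Nat.card S = S.card := by simp
    rw [h2] at h1
    exact h1
  omega

end Pool.Agent.H652.SR
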