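import Mathlib
import Pool.Agent.H652.SR.Defs
import Pool.Agent.H652.SR.Jsylow

set_option autoImplicit false

open scoped IsMulCommutative

namespace Pool.Agent.H652.SR

private theorem fba_conj {A : Type} [Group A] (F : Subgroup A) [F.Normal] [Finite F] :
    ∃ q : ℕ, 0 < q ∧ ∀ a : A, ∀ z ∈ F, Commute (a ^ q) z := by
  haveI : Finite (MulAut F) := by
    haveI : Finite (F → F) := inferInstance
    exact Finite.of_injective (fun φ : MulAut F => (φ : F → F)) (fun φ ψ h => by
      ext x
      exact congrArg Subtype.val (congrFun h x))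
  refine ⟨Nat.card (MulAut F), Nat.card_pos, ?_⟩
  intro a z hz
  have h1 : (MulAut.conjNormal (H := F)) (a ^ Nat.card (MulAut F)) = 1 := by
    rw [map_pow, pow_card_eq_one']
  have h2 := congrArg (fun φ : MulAut F => ((φ ⟨z, hz⟩ : F) : A)) h1
  simp only [MulAut.conjNormal_apply, MulAut.one_apply] at h2
  exact (mul_inv_eq_iff_eq_mul.1 h2)

private theorem fba_comm {A : Type} [Group A] (c d : A) (k : ℕ)
    (hc : Commute c (c * d * c⁻¹ * d⁻¹)) (hk : (c * d * c⁻¹ * d⁻¹) ^ k = 1) :
    Commute (c ^ k) d := by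
  set w := c * d * c⁻¹ * d⁻¹ with hw
  have h1 : c * d = w * d * c := by rw [hw]; group
  have h2 : ∀ n : ℕ, c ^ n * d = w ^ n * d * c ^ n := by
    intro n
    induction n with
    | zero => simp
    | succ n ih =>
      calc c ^ (n + 1) * d = c * (c ^ n * d) := by rw [pow_succ']; group
        _ = c * (w ^ n * d * c ^ n) := by rw [ih]
        _ = (c * w ^ n) * d * c ^ n := by group
        _ = (w ^ n * c) * d * c ^ n := by rw [(hc.pow_right n).eq]
        _ = w ^ n * (c * d) * c ^ n := by group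
        _ = w ^ n * (w * d * c) * c ^ n := by rw [h1]
        _ = w ^ (n + 1) * d * c ^ (n + 1) := by rw [pow_succ, pow_succ' c]; group
  have h3 := h2 k
  rw [hk, one_mul] at h3
  exact h3

theorem fin_by_ab (A : Type) [Group A] (B : Type) [CommGroup B] (htf : TF B) (r : ℕ)
    (hr : Module.rank ℤ (Additive B) = r) (f : A →* B) (hf : Function.Surjective f)
    (hker : Finite f.ker) :
    ∃ A1 : Subgroup A, A1.Characteristic ∧ A1.index ≠ 0 ∧ ∃ _ : IsMulCommutative A1,
      (∀ a ∈ A1, IsOfFinOrder a → a = 1) ∧ Module.rank ℤ (Additive A1) = r := by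
  classical
  obtain ⟨q, hq, hqc⟩ := fba_conj f.ker
  set k : ℕ := Nat.card f.ker with hk
  have hk0 : 0 < k := Nat.card_pos
  have hzk : ∀ z ∈ f.ker, z ^ k = 1 := by
    intro z hz
    have := pow_card_eq_one' (x := (⟨z, hz⟩ : f.ker))
    exact congrArg Subtype.val this
  have hfin : ∀ z : A, IsOfFinOrder z → z ∈ f.ker := by
    intro z hz
    rw [MonoidHom.mem_ker]
    exact htf _ (f.isOfFinOrder hz)

  have hcom : ∀ a b : A, Commute (a ^ (q * k)) (b ^ (q * k)) := by
    intro a b
    have h1 : ∀ x y : A, x * y * x⁻¹ * y⁻¹ ∈ f.ker := by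
      intro x y
      rw [MonoidHom.mem_ker]
      simp only [map_mul, map_inv]
      rw [mul_comm (f x) (f y)]
      group
    have h2 : Commute ((a ^ q) ^ k) (b ^ q) :=
      fba_comm (a ^ q) (b ^ q) k (hqc a _ (h1 _ _)) (hzk _ (h1 _ _))
    rw [pow_mul, pow_mul]
    exact h2.pow_right k
  set N : ℕ := q * k * k with hN
  have hN0 : 0 < N := by positivity
  set S : Set A := Set.range (fun a : A => a ^ (q * k)) with hS
  set E : Subgroup A := Subgroup.closure S with hE
  haveI hEc : IsMulCommutative E := by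
    apply Subgroup.isMulCommutative_closure
    rintro _ ⟨a, rfl⟩ _ ⟨b, rfl⟩
    exact (hcom a b).eq
  set A1 : Subgroup A := Subgroup.closure (Set.range (fun a : A => a ^ N)) with hA1

  have hpow : ∀ x ∈ A1, ∃ y ∈ E, y ^ k = x := by
    intro x hx
    have hle : A1 ≤ ((powMonoidHom k : E →* E).range).map E.subtype := by
      rw [hA1, Subgroup.closure_le]
      rintro _ ⟨a, rfl⟩
      have hmE : a ^ (q * k) ∈ E := Subgroup.subset_closure ⟨a, rfl⟩
      refine ⟨(⟨a ^ (q * k), hmE⟩ : E) ^ k, ⟨⟨a ^ (q * k), hmE⟩, rfl⟩, ?_⟩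
      simp only [Subgroup.subtype_apply, hN, pow_mul, SubmonoidClass.mk_pow]
    obtain ⟨_, ⟨y, rfl⟩, hy⟩ := hle hx
    exact ⟨y.1, y.2, hy⟩
  have htfA : ∀ a ∈ A1, IsOfFinOrder a → a = 1 := by
    intro a ha hfo
    obtain ⟨y, _, rfl⟩ := hpow a ha
    exact hzk y (hfin y (hfo.of_pow hk0.ne'))
  have hA1E : A1 ≤ E := by
    intro x hx
    obtain ⟨y, hy, rfl⟩ := hpow x hx
    exact pow_mem hy k
  have hchar : A1.Characteristic := by
    rw [Subgroup.characteristic_iff_map_le]
    intro φ
    rw [hA1, MonoidHom.map_closure, Subgroup.closure_le]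
    rintro _ ⟨_, ⟨a, rfl⟩, rfl⟩
    apply Subgroup.subset_closure
    exact ⟨φ a, by simp⟩
  have hAc : IsMulCommutative A1 := by
    rw [isMulCommutative_iff]
    intro a b
    have h0 := (isMulCommutative_iff.1 hEc) ⟨a.1, hA1E a.2⟩ ⟨b.1, hA1E b.2⟩
    have h1 : (a : A) * b = b * a := congrArg Subtype.val h0
    exact Subtype.ext h1
  have hidx : A1.index ≠ 0 := by
    haveI := hchar
    have h1 : (powMonoidHom N : B →* B).range ≤ A1.map f := by
      rintro _ ⟨b, rfl⟩
      obtain ⟨a, rfl⟩ := hf b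
      exact ⟨a ^ N, Subgroup.subset_closure ⟨a, rfl⟩, by simp⟩
    haveI h2 := finite_mod_pow B htf r hr N hN0
    have h3 : (powMonoidHom N : B →* B).range.index ≠ 0 := Subgroup.index_ne_zero_of_finite
    have h4 : (A1.map f).index ≠ 0 := fun h => h3 (by
      have := Subgroup.index_dvd_of_le h1
      rw [h] at this
      exact Nat.eq_zero_of_zero_dvd this)
    have h5 : (A1 ⊔ f.ker).index = (A1.map f).index := by
      rw [Subgroup.index_map, MonoidHom.range_eq_top.2 hf, Subgroup.index_top, mul_one]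
    have h6 := Subgroup.relIndex_mul_index (show A1 ≤ A1 ⊔ f.ker from le_sup_left)
    rw [← h6]
    apply mul_ne_zero
    · rw [sup_comm, Subgroup.relIndex_sup_right]
      unfold Subgroup.relIndex
      exact Subgroup.index_ne_zero_of_finite
    · rw [h5]; exact h4
  refine ⟨A1, hchar, hidx, hAc, htfA, ?_⟩

  set g : A1 →* B := f.comp A1.subtype with hg
  have hginj : Function.Injective g := by
    rw [injective_iff_map_eq_one]
    intro a ha
    have h1 : (a : A) ∈ f.ker := ha
    have h2 : IsOfFinOrder (a : A) := isOfFinOrder_iff_pow_eq_one.2 ⟨k, hk0, hzk _ h1⟩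
    exact Subtype.ext (htfA _ a.2 h2)
  apply le_antisymm
  · rw [← hr]
    exact LinearMap.rank_le_of_injective (MonoidHom.toAdditive g).toIntLinearMap hginj
  · rw [← hr]
    have hmem : ∀ b : B, b ^ N ∈ g.range := by
      intro b
      obtain ⟨a, rfl⟩ := hf b
      exact ⟨⟨a ^ N, Subgroup.subset_closure ⟨a, rfl⟩⟩, by simp [hg]⟩
    let e : A1 ≃* g.range := MonoidHom.ofInjective hginj
    let p : B →* g.range := (powMonoidHom N : B →* B).codRestrict g.range hmem
    have hp : Function.Injective p := by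
      rw [injective_iff_map_eq_one]
      intro b hb
      have h1 : b ^ N = 1 := congrArg Subtype.val hb
      exact htf b (isOfFinOrder_iff_pow_eq_one.2 ⟨N, hN0, h1⟩)
    let s : B →* A1 := e.symm.toMonoidHom.comp p
    have hs : Function.Injective s := e.symm.injective.comp hp
    exact LinearMap.rank_le_of_injective (MonoidHom.toAdditive s).toIntLinearMap hs

end Pool.Agent.H652.SR
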