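import Mathlib
import Pool.Agent.H652.SR.Defs
import Pool.Agent.H652.SR.Jpusha
import Pool.Agent.H652.SR.Jvpta

set_option autoImplicit false

open scoped IsMulCommutative

namespace Pool.Agent.H652.SR

private theorem VPT.push_aux (Q : Type) [iQ : Group Q] (n : ℕ) (h : VPT Q n) :
    ∀ (K : Type) [Group K] (g : K →* Q), Function.Surjective g → Finite g.ker → VPT K n := by
  induction h with
  | fin Q hfin =>
    intro K _ g hg hker
    refine VPT.fin K ?_
    haveI := hker
    haveI := hfin
    haveI : Finite (K ⧸ g.ker) :=
      Finite.of_equiv g.range (QuotientGroup.quotientKerEquivRange g).symm.toEquiv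
    exact Finite.of_equiv _ (Subgroup.groupEquivQuotientProdSubgroup (s := g.ker)).symm
  | ext Q A' r n htf hr h ih =>
    intro K _ g hg hker
    haveI := hker
    have hTF : TF A' := by
      intro b hb
      have h1 : IsOfFinOrder (b : Q) := (Subgroup.subtype A').isOfFinOrder hb
      exact Subtype.ext (htf b.1 b.2 h1)
    let f : A'.comap g →* A' := g.subgroupComap A'
    have hf : Function.Surjective f := g.subgroupComap_surjective_of_surjective A' hg
    have hfk : Finite f.ker := by
      refine Finite.of_injective (fun x : f.ker => (⟨x.1.1, ?_⟩ : g.ker)) ?_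
      · have h1 : f x.1 = 1 := x.2
        have h2 := congrArg Subtype.val h1
        exact h2
      · intro x y hxy
        have h1 := congrArg Subtype.val hxy
        exact Subtype.ext (Subtype.ext h1)
    obtain ⟨A1, hchar, hidx, hcomm, htf1, hr1⟩ := fin_by_ab (A'.comap g) A' hTF r hr f hf hfk
    haveI := hchar
    haveI := hcomm
    haveI hnorm : (A1.map (A'.comap g).subtype).Normal :=
      ConjAct.normal_of_characteristic_of_normal
    have hinj : Function.Injective (A'.comap g).subtype := Subgroup.subtype_injective _
    let e : A1 ≃* (A1.map (A'.comap g).subtype) := A1.equivMapOfInjective _ hinj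
    haveI hcomm' : IsMulCommutative (A1.map (A'.comap g).subtype) := by
      refine ⟨⟨fun a b => ?_⟩⟩
      apply e.symm.injective
      rw [map_mul, map_mul]
      exact hcomm.is_comm.comm _ _
    have hrank : Module.rank ℤ (Additive (A1.map (A'.comap g).subtype)) = r := by
      rw [← hr1]
      exact (LinearEquiv.rank_eq (MulEquiv.toAdditive e).toIntLinearEquiv).symm
    refine VPT.ext K (A1.map (A'.comap g).subtype) r n ?_ hrank ?_
    · rintro a ⟨a', ha', rfl⟩ hfin
      have h1 : IsOfFinOrder a' :=
        (Submonoid.isOfFinOrder_coe (H := (A'.comap g).toSubmonoid) (x := a')).1 hfin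
      rw [htf1 a' ha' h1, map_one]
    · have hle : A1.map (A'.comap g).subtype ≤ A'.comap g := by
        rintro _ ⟨a', _, rfl⟩
        exact a'.2
      refine ih (K ⧸ A1.map (A'.comap g).subtype) (QuotientGroup.map _ A' g hle) ?_ ?_
      · intro x
        obtain ⟨q, rfl⟩ := QuotientGroup.mk_surjective x
        obtain ⟨k, rfl⟩ := hg q
        exact ⟨QuotientGroup.mk k, rfl⟩
      · haveI : A1.FiniteIndex := ⟨hidx⟩
        haveI : Finite ((A'.comap g) ⧸ A1) := Subgroup.finite_quotient_of_finiteIndex
        have hle2 : A1 ≤ (A1.map (A'.comap g).subtype).comap (A'.comap g).subtype := by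
          intro a ha
          exact ⟨a, ha, rfl⟩
        haveI : A1.Normal := inferInstance
        let φ : (A'.comap g) ⧸ A1 →* K ⧸ A1.map (A'.comap g).subtype :=
          QuotientGroup.map _ _ (A'.comap g).subtype hle2
        have hsub : ((QuotientGroup.map (A1.map (A'.comap g).subtype) A' g hle).ker :
            Set (K ⧸ A1.map (A'.comap g).subtype)) ⊆ Set.range φ := by
          intro x hx
          obtain ⟨k, rfl⟩ := QuotientGroup.mk_surjective x
          have h1 : (QuotientGroup.mk (g k) : Q ⧸ A') = 1 := hx
          have h2 : g k ∈ A' := (QuotientGroup.eq_one_iff _).1 h1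
          exact ⟨QuotientGroup.mk ⟨k, h2⟩, rfl⟩
        exact ((Set.finite_range φ).subset hsub).to_subtype

theorem VPT.push (K : Type) [Group K] (F : Subgroup K) [F.Normal] (hF : Finite F) (n : ℕ)
    (h : VPT (K ⧸ F) n) : VPT K n := by
  refine VPT.push_aux (K ⧸ F) n h K (QuotientGroup.mk' F) (QuotientGroup.mk'_surjective F) ?_
  rw [QuotientGroup.ker_mk']
  exact hF

end Pool.Agent.H652.SR
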