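import Mathlib
import Pool.Agent.H652.SR.Defs
import Pool.Agent.H652.SR.Jfgtor
import Pool.Agent.H652.SR.Jmink
import Pool.Agent.H652.SR.Jpushb
import Pool.Agent.H652.SR.Jshba
import Pool.Agent.H652.SR.Jshbd
import Pool.Agent.H652.SR.Jvpta

set_option autoImplicit false

open scoped IsMulCommutative

namespace Pool.Agent.H652.SR

private theorem s1_aux_tf (K : Type) [Group K] (C : Subgroup K) (hN : C.Normal)
    (hC : ∀ a ∈ C, ∀ b ∈ C, a * b = b * a)
    (ht : ∀ N : Subgroup K, N.Normal → (∀ t ∈ N, IsOfFinOrder t) → N = ⊥) :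
    ∀ a ∈ C, IsOfFinOrder a → a = 1 := by
  let N : Subgroup K :=
    { carrier := {x | x ∈ C ∧ IsOfFinOrder x}
      mul_mem' := by
        rintro a b ⟨ha, ha'⟩ ⟨hb, hb'⟩
        exact ⟨C.mul_mem ha hb, Commute.isOfFinOrder_mul (hC a ha b hb) ha' hb'⟩
      one_mem' := ⟨C.one_mem, IsOfFinOrder.one⟩
      inv_mem' := by
        rintro a ⟨ha, ha'⟩
        exact ⟨C.inv_mem ha, ha'.inv⟩ }
  have hNn : N.Normal := by
    constructor
    rintro a ⟨ha, ha'⟩ g
    refine ⟨hN.conj_mem a ha g, ?_⟩
    have := (MulAut.conj g).toMonoidHom.isOfFinOrder ha'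
    simpa using this
  have h1 := ht N hNn (fun t h => h.2)
  intro a ha ha'
  have h2 : a ∈ N := ⟨ha, ha'⟩
  rw [h1] at h2
  exact Subgroup.mem_bot.1 h2

private theorem s1_aux_rank (K : Type) [Group K] (n : ℕ) (hn : SHB K n) (A : Subgroup K)
    [IsMulCommutative A] : ∃ r : ℕ, Module.rank ℤ (Additive A) = r := by
  have h1 : SHB A n := hn.of_injective A.subtype A.subtype_injective
  have h2 : Module.rank ℤ (Additive A) ≤ n := SHB.rank_le (A := A) h1
  have h3 : Module.rank ℤ (Additive A) < Cardinal.aleph0 :=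
    lt_of_le_of_lt h2 (Cardinal.natCast_lt_aleph0)
  obtain ⟨r, hr⟩ := Cardinal.lt_aleph0.1 h3
  exact ⟨r, hr⟩

private theorem s1_aux (d : ℕ) : ∀ (K : Type) [Group K], derivedSeries K d = ⊥ → ∀ (n : ℕ), SHB K n →
    (∀ N : Subgroup K, N.Normal → (∀ t ∈ N, IsOfFinOrder t) → N = ⊥) →
    ∃ m : ℕ, VPT K m := by
  induction d with
  | zero =>
    intro K _ hd n hn ht
    refine ⟨0, VPT.fin K ?_⟩
    rw [derivedSeries_zero] at hd
    have : Subsingleton K := by
      constructor
      intro a b
      have ha : a ∈ (⊤ : Subgroup K) := trivial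
      have hb : b ∈ (⊤ : Subgroup K) := trivial
      rw [hd, Subgroup.mem_bot] at ha hb
      rw [ha, hb]
    exact Finite.of_subsingleton
  | succ d ih =>
    intro K _ hd n hn ht
    have hsK : Group.IsSolvable K := ⟨⟨d + 1, hd⟩⟩

    obtain ⟨A, hA⟩ : ∃ A : Subgroup K, A = derivedSeries K d := ⟨_, rfl⟩
    have hAn : A.Normal := by rw [hA]; exact derivedSeries_normal K d
    have hAc : ∀ a ∈ A, ∀ b ∈ A, a * b = b * a := by
      intro a ha b hb
      have h1 : a * b * a⁻¹ * b⁻¹ ∈ ⁅A, A⁆ := Subgroup.commutator_mem_commutator ha hb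
      rw [hA, ← derivedSeries_succ, hd, Subgroup.mem_bot] at h1
      rw [mul_inv_eq_one, mul_inv_eq_iff_eq_mul] at h1
      exact h1
    have hAt := s1_aux_tf K A hAn hAc ht
    haveI hAcomm : IsMulCommutative A := ⟨⟨fun a b => Subtype.ext (hAc a a.2 b b.2)⟩⟩
    obtain ⟨r, hr⟩ := s1_aux_rank K n hn A

    obtain ⟨T', hT'n, hT't, -, hT's⟩ := exists_maxtor (K ⧸ A)
    obtain ⟨T, hT⟩ : ∃ T : Subgroup K, T = T'.comap (QuotientGroup.mk' A) := ⟨_, rfl⟩
    have hTn : T.Normal := by rw [hT]; exact hT'n.comap _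
    have hAT : A ≤ T := by
      intro a ha
      rw [hT, Subgroup.mem_comap]
      have : (QuotientGroup.mk' A) a = 1 := (QuotientGroup.eq_one_iff a).2 ha
      rw [this]
      exact T'.one_mem
    have hTt : ∀ t ∈ T, ∃ k : ℕ, 0 < k ∧ t ^ k ∈ A := by
      intro t htT
      rw [hT, Subgroup.mem_comap] at htT
      obtain ⟨k, hk, hk'⟩ := isOfFinOrder_iff_pow_eq_one.1 (hT't _ htT)
      refine ⟨k, hk, ?_⟩
      rw [← map_pow] at hk'
      exact (QuotientGroup.eq_one_iff _).1 hk'

    obtain ⟨m, hm⟩ : ∃ m : ℕ, VPT (K ⧸ T) m := by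
      refine ih (K ⧸ T) ?_ n (hn.of_surjective (QuotientGroup.mk' T)
        (QuotientGroup.mk'_surjective T)) ?_
      · rw [← map_derivedSeries_eq (QuotientGroup.mk'_surjective T) d, ← hA, eq_bot_iff]
        rintro x ⟨a, ha, rfl⟩
        rw [Subgroup.mem_bot]
        exact (QuotientGroup.eq_one_iff a).2 (hAT ha)
      · intro N hN hNt
        let S' : Subgroup K := N.comap (QuotientGroup.mk' T)
        have hS'n : S'.Normal := hN.comap _
        have hS := hT's (S'.map (QuotientGroup.mk' A))
          (hS'n.map _ (QuotientGroup.mk'_surjective A)) ?_ ?_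
        · rw [eq_bot_iff]
          intro x hx
          obtain ⟨y, rfl⟩ := QuotientGroup.mk'_surjective T x
          have hy : y ∈ S' := hx
          have h1 : (QuotientGroup.mk' A) y ∈ T' := hS ⟨y, hy, rfl⟩
          have h2 : y ∈ T := by rw [hT]; exact h1
          rw [Subgroup.mem_bot]
          exact (QuotientGroup.eq_one_iff y).2 h2
        · intro x hx
          obtain ⟨y, rfl⟩ := QuotientGroup.mk'_surjective A x
          refine ⟨y, ?_, rfl⟩
          have h2 : y ∈ T := by rw [hT]; exact hx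
          change (QuotientGroup.mk' T) y ∈ N
          have : (QuotientGroup.mk' T) y = 1 := (QuotientGroup.eq_one_iff y).2 h2
          rw [this]
          exact N.one_mem
        · rintro _ ⟨y, hy, rfl⟩
          have h1 := hNt _ hy
          obtain ⟨k, hk, hk'⟩ := isOfFinOrder_iff_pow_eq_one.1 h1
          refine ⟨k, hk, ?_⟩
          rw [← map_pow] at hk'
          have h2 : y ^ k ∈ T := (QuotientGroup.eq_one_iff _).1 hk'
          rw [← map_pow]
          rw [hT] at h2
          exact h2

    obtain ⟨C, hC⟩ : ∃ C : Subgroup K, C = T ⊓ Subgroup.centralizer (A : Set K) := ⟨_, rfl⟩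
    have hCn : C.Normal := by
      rw [hC]
      haveI := hTn
      haveI := hAn
      exact Subgroup.normal_inf_normal _ _
    have hCT : C ≤ T := by rw [hC]; exact inf_le_left
    have hAC : A ≤ C := by
      rw [hC]
      refine le_inf hAT ?_
      intro a ha
      rw [Subgroup.mem_centralizer_iff]
      intro b hb
      exact hAc b hb a ha
    have hCA : ∀ c ∈ C, ∀ a ∈ A, a * c = c * a := by
      intro c hc a ha
      rw [hC] at hc
      exact (Subgroup.mem_centralizer_iff.1 hc.2) a ha
    have hCc : ∀ a ∈ C, ∀ b ∈ C, a * b = b * a := by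
      have h1 : ⁅C, C⁆ = ⊥ := by
        haveI := hCn
        refine ht _ (Subgroup.commutator_normal C C) ?_
        intro t htc
        have h2 : (⁅(⊤ : Subgroup C), (⊤ : Subgroup C)⁆).map C.subtype = ⁅C, C⁆ := by
          rw [Subgroup.map_commutator, ← MonoidHom.range_eq_map, Subgroup.range_subtype]
        rw [← h2] at htc
        obtain ⟨c, hc, rfl⟩ := htc
        have h3 := comm_torsion C (A.subgroupOf C) ?_ inferInstance ?_ c hc
        · exact C.subtype.isOfFinOrder h3
        · intro a ha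
          rw [Subgroup.mem_center_iff]
          intro g
          exact Subtype.ext (hCA g g.2 a ha).symm
        · intro c
          obtain ⟨k, hk, hk'⟩ := hTt c (hCT c.2)
          exact ⟨k, hk, hk'⟩
      intro a ha b hb
      have h4 : a * b * a⁻¹ * b⁻¹ ∈ ⁅C, C⁆ := Subgroup.commutator_mem_commutator ha hb
      rw [h1, Subgroup.mem_bot] at h4
      rw [mul_inv_eq_one, mul_inv_eq_iff_eq_mul] at h4
      exact h4
    have hCt := s1_aux_tf K C hCn hCc ht
    haveI hCcomm : IsMulCommutative C := ⟨⟨fun a b => Subtype.ext (hCc a a.2 b b.2)⟩⟩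
    obtain ⟨r', hr'⟩ := s1_aux_rank K n hn C
    haveI := hCn
    haveI := hTn
    haveI := hAn

    let F : Subgroup (K ⧸ C) := T.map (QuotientGroup.mk' C)
    have hFn : F.Normal := hTn.map _ (QuotientGroup.mk'_surjective C)
    have hker : C ≤ (MulAut.conjNormal (H := A)).ker := by
      intro c hc
      rw [MonoidHom.mem_ker]
      ext a
      rw [MulAut.conjNormal_apply, MulAut.one_apply, ← hCA c hc a a.2, mul_assoc, mul_inv_cancel,
        mul_one]
    let φ : F →* MulAut A := (QuotientGroup.lift C (MulAut.conjNormal (H := A)) hker).comp F.subtype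
    have hFfin : Finite F := by
      refine mink A ?_ r hr F ?_ ?_ φ ?_
      · intro a ha
        exact Subtype.ext (hAt a a.2 (A.subtype.isOfFinOrder ha))
      · infer_instance
      · rintro ⟨f, t, htT, rfl⟩
        obtain ⟨k, hk, hk'⟩ := hTt t htT
        rw [isOfFinOrder_iff_pow_eq_one]
        refine ⟨k, hk, ?_⟩
        apply Subtype.ext
        change (QuotientGroup.mk' C t) ^ k = 1
        rw [← map_pow]
        exact (QuotientGroup.eq_one_iff _).2 (hAC hk')
      · rw [injective_iff_map_eq_one]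
        rintro ⟨f, t, htT, rfl⟩ hf
        apply Subtype.ext
        change (QuotientGroup.mk' C t) = 1
        refine (QuotientGroup.eq_one_iff _).2 ?_
        rw [hC]
        refine ⟨htT, ?_⟩
        change t ∈ Subgroup.centralizer (A : Set K)
        rw [Subgroup.mem_centralizer_iff]
        intro a ha
        have h1 : (MulAut.conjNormal (H := A)) t = 1 := hf
        have h2 := congrArg (fun ψ : MulAut A => ((ψ ⟨a, ha⟩ : A) : K)) h1
        simp only [MulAut.conjNormal_apply, MulAut.one_apply] at h2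
        rw [mul_inv_eq_iff_eq_mul] at h2
        exact h2.symm
    have hpush : VPT (K ⧸ C) m := by
      haveI := hFn
      refine VPT.push (K ⧸ C) F hFfin m ?_
      exact VPT.of_equiv (QuotientGroup.quotientQuotientEquivQuotient C T hCT).symm hm
    exact ⟨m + r', VPT.ext K C r' m hCt hr' hpush⟩

theorem s1 (K : Type) [Group K] (hs : Group.IsSolvable K) (n : ℕ) (hn : SHB K n)
    (ht : ∀ N : Subgroup K, N.Normal → (∀ t ∈ N, IsOfFinOrder t) → N = ⊥) :
    ∃ m : ℕ, VPT K m := by
  obtain ⟨⟨d, hd⟩⟩ := hs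
  exact s1_aux d K hd n hn ht

end Pool.Agent.H652.SR
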