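import Mathlib
import Pool.Agent.H652.SR.Defs
import Pool.Agent.H652.SR.Jshba
import Pool.Agent.H652.SR.Jshbd

set_option autoImplicit false

open scoped IsMulCommutative

namespace Pool.Agent.H652.SR

section auxgood
attribute [local instance] commutatorElement

private theorem sub_fg {A : Type} [CommGroup A] (h : Group.FG A) (B : Subgroup A) :
    ∃ S : Finset A, Subgroup.closure (S : Set A) = B := by
  have h1 : AddGroup.FG (Additive A) := GroupFG.iff_add_fg.mp h
  have h2 : Module.Finite ℤ (Additive A) := Module.Finite.iff_addGroup_fg.mpr h1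
  have h3 : (AddSubgroup.toIntSubmodule (Subgroup.toAddSubgroup B)).FG := IsNoetherian.noetherian _
  rw [Submodule.fg_iff_addSubgroup_fg, AddSubgroup.toIntSubmodule_toAddSubgroup] at h3
  have h4 : B.FG := (Subgroup.fg_iff_add_fg B).mpr h3
  exact h4

private theorem normal_fg {Q : Type} [Group Q] (hfg : Group.FG Q) (N : Subgroup Q) [N.Normal]
    (hN : ⁅(⊤ : Subgroup Q), (⊤ : Subgroup Q)⁆ ≤ N) :
    ∃ R : Finset Q, (∀ s ∈ R, s ∈ N) ∧ N ≤ Subgroup.normalClosure (R : Set Q) := by
  classical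
  obtain ⟨T, hT⟩ := (Group.fg_def.mp hfg)

  have hab : Group.FG (Abelianization Q) := Group.fg_of_surjective (f := Abelianization.of) (QuotientGroup.mk'_surjective _)
  obtain ⟨S0, hS0⟩ := sub_fg hab (N.map Abelianization.of)
  have hlift : ∀ s ∈ S0, ∃ x ∈ N, Abelianization.of x = s := by
    intro s hs
    have : s ∈ N.map Abelianization.of := by
      rw [← hS0]; exact Subgroup.subset_closure hs
    exact this
  choose! f hf1 hf2 using hlift
  let R : Finset Q := S0.image f ∪ (T ×ˢ T).image (fun p => ⁅p.1, p.2⁆)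
  refine ⟨R, ?_, ?_⟩
  · intro s hs
    rw [Finset.mem_union, Finset.mem_image, Finset.mem_image] at hs
    rcases hs with ⟨x, hx, rfl⟩ | ⟨p, hp, rfl⟩
    · exact hf1 x hx
    · exact hN (Subgroup.commutator_mem_commutator (Subgroup.mem_top _) (Subgroup.mem_top _))
  · set M := Subgroup.normalClosure (R : Set Q) with hM
    have hRM : ∀ x ∈ R, x ∈ M := fun x hx => Subgroup.subset_normalClosure hx

    have hcomm : commutator Q ≤ M := by
      have hc1 : ∀ g ∈ T, ∀ h ∈ T, (g : Q ⧸ M) * h = h * g := by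
        intro g hg h hh
        have : ⁅g, h⁆ ∈ M := hRM _ (Finset.mem_union_right _ (Finset.mem_image.mpr ⟨(g, h), Finset.mem_product.mpr ⟨hg, hh⟩, rfl⟩))
        have h1 : ((⁅g, h⁆ : Q) : Q ⧸ M) = 1 := (QuotientGroup.eq_one_iff _).mpr this
        have h2 : ⁅(g : Q ⧸ M), (h : Q ⧸ M)⁆ = 1 := h1
        exact commutatorElement_eq_one_iff_mul_comm.mp h2
      have hc2 : ∀ g ∈ T, ∀ x : Q, (g : Q ⧸ M) * x = x * g := by
        intro g hg x
        have hx : x ∈ Subgroup.closure (T : Set Q) := by rw [hT]; exact Subgroup.mem_top x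
        have hle : Subgroup.closure (T : Set Q) ≤ (Subgroup.centralizer {(g : Q ⧸ M)}).comap (QuotientGroup.mk' M) := by
          rw [Subgroup.closure_le]
          intro y hy
          rw [SetLike.mem_coe, Subgroup.mem_comap, Subgroup.mem_centralizer_singleton_iff]
          exact hc1 y hy g hg
        have := hle hx
        rw [Subgroup.mem_comap, Subgroup.mem_centralizer_singleton_iff] at this
        exact this.symm
      have hc3 : ∀ y x : Q, (y : Q ⧸ M) * x = x * y := by
        intro y x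
        have hy : y ∈ Subgroup.closure (T : Set Q) := by rw [hT]; exact Subgroup.mem_top y
        have hle : Subgroup.closure (T : Set Q) ≤ (Subgroup.centralizer {(x : Q ⧸ M)}).comap (QuotientGroup.mk' M) := by
          rw [Subgroup.closure_le]
          intro z hz
          rw [SetLike.mem_coe, Subgroup.mem_comap, Subgroup.mem_centralizer_singleton_iff]
          exact hc2 z hz x
        have := hle hy
        rw [Subgroup.mem_comap, Subgroup.mem_centralizer_singleton_iff] at this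
        exact this
      rw [commutator_def, Subgroup.commutator_le]
      intro a _ b _
      rw [← QuotientGroup.eq_one_iff]
      show ⁅(a : Q ⧸ M), (b : Q ⧸ M)⁆ = 1
      exact commutatorElement_eq_one_iff_mul_comm.mpr (hc3 a b)
    intro a ha
    have h1 : Abelianization.of a ∈ Subgroup.closure (S0 : Set (Abelianization Q)) := by
      rw [hS0]; exact ⟨a, ha, rfl⟩
    have h2 : Subgroup.closure (S0 : Set (Abelianization Q)) ≤ M.map Abelianization.of := by
      rw [Subgroup.closure_le]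
      intro s hs
      exact ⟨f s, hRM _ (Finset.mem_union_left _ (Finset.mem_image_of_mem f hs)), hf2 s hs⟩
    obtain ⟨m, hm, hma⟩ := h2 h1
    have h3 : m⁻¹ * a ∈ commutator Q := by
      rw [← Abelianization.ker_of Q, MonoidHom.mem_ker, map_mul, map_inv, hma, inv_mul_cancel]
    have h4 := M.mul_mem hm (hcomm h3)
    rwa [mul_inv_cancel_left] at h4

private theorem fin_rank {A : Type} [CommGroup A] {n : ℕ} (h : Module.rank ℤ (Additive A) ≤ n) :
    ∃ S : Finset A, ∀ a : A, ∃ k : ℕ, 0 < k ∧ a ^ k ∈ Subgroup.closure (S : Set A) := by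
  classical
  obtain ⟨s, hs1, hs2⟩ := exists_maximal_linearIndepOn ℤ (fun x : Additive A => x)
  have hcard : Cardinal.mk s ≤ n := (LinearIndependent.cardinal_le_rank hs1).trans h
  have hfin : s.Finite := by
    have h1 : Cardinal.mk s < Cardinal.aleph0 := lt_of_le_of_lt hcard (Cardinal.natCast_lt_aleph0)
    exact Cardinal.lt_aleph0_iff_set_finite.mp h1
  refine ⟨hfin.toFinset.image Additive.toMul, fun a => ?_⟩
  have hcl : ∀ y : Additive A, y ∈ Submodule.span ℤ ((fun x : Additive A => x) '' s) →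
      Additive.toMul y ∈ Subgroup.closure ((hfin.toFinset.image Additive.toMul : Finset A) : Set A) := by
    intro y hy
    induction hy using Submodule.span_induction with
    | mem x hx =>
      obtain ⟨z, hz, rfl⟩ := hx
      apply Subgroup.subset_closure
      simp only [Finset.coe_image, Set.Finite.coe_toFinset]
      exact ⟨z, hz, rfl⟩
    | zero => exact one_mem _
    | add x y _ _ hx hy => exact mul_mem hx hy
    | smul a x _ hx => exact Subgroup.zpow_mem _ hx a
  by_cases ha : Additive.ofMul a ∈ s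
  · refine ⟨1, one_pos, ?_⟩
    rw [pow_one]
    apply hcl (Additive.ofMul a)
    exact Submodule.subset_span ⟨_, ha, rfl⟩
  · obtain ⟨k, hk, hk2⟩ := hs2 (Additive.ofMul a) ha
    refine ⟨k.natAbs, Int.natAbs_pos.mpr hk, ?_⟩
    have h1 := hcl _ hk2
    have h2 : a ^ k ∈ Subgroup.closure ((hfin.toFinset.image Additive.toMul : Finset A) : Set A) := h1
    rcases Int.natAbs_eq k with h3 | h3
    · rw [h3, zpow_natCast] at h2
      exact h2
    · rw [h3, zpow_neg, zpow_natCast, inv_mem_iff] at h2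
      exact h2

private theorem comm_case {Q : Type} [Group Q] (hfg : Group.FG Q) (N : Subgroup Q) [N.Normal] [IsMulCommutative N]
    (hN : ⁅(⊤ : Subgroup Q), (⊤ : Subgroup Q)⁆ ≤ N) (n : ℕ) (hr : Module.rank ℤ (Additive N) ≤ n) :
    ∃ e : ℕ, 0 < e ∧ ∃ S : Finset Q, (∀ s ∈ S, s ∈ N) ∧
      ∀ a ∈ N, ∃ k : ℕ, a ^ (e ^ k) ∈ Subgroup.closure (S : Set Q) := by
  classical
  obtain ⟨T, hT⟩ := (Group.fg_def.mp hfg)
  obtain ⟨R, hRN, hNR⟩ := normal_fg hfg N hN
  obtain ⟨S1, hS1⟩ := fin_rank hr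
  let S : Finset Q := S1.image (Subtype.val) ∪ R
  have hSN : ∀ s ∈ S, s ∈ N := by
    intro s hs
    rw [Finset.mem_union, Finset.mem_image] at hs
    rcases hs with ⟨x, _, rfl⟩ | hs
    · exact x.2
    · exact hRN s hs
  have hSN' : Subgroup.closure (S : Set Q) ≤ N := (Subgroup.closure_le _).mpr hSN
  have hcom : ∀ a ∈ N, ∀ b ∈ N, Commute a b := by
    intro a ha b hb
    have h1 := mul_comm' (⟨a, ha⟩ : N) ⟨b, hb⟩
    exact congrArg Subtype.val h1
  have hpow : ∀ a ∈ N, ∃ k : ℕ, 0 < k ∧ a ^ k ∈ Subgroup.closure (S : Set Q) := by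
    intro a ha
    obtain ⟨k, hk, hk2⟩ := hS1 ⟨a, ha⟩
    refine ⟨k, hk, ?_⟩
    have h1 : (N.subtype) ((⟨a, ha⟩ : N) ^ k) ∈ (Subgroup.closure (S1 : Set N)).map N.subtype := ⟨_, hk2, rfl⟩
    rw [MonoidHom.map_closure] at h1
    have h2 : Subgroup.closure (N.subtype '' (S1 : Set N)) ≤ Subgroup.closure (S : Set Q) := by
      apply Subgroup.closure_mono
      rintro x ⟨y, hy, rfl⟩
      exact Finset.mem_coe.mpr (Finset.mem_union_left _ (Finset.mem_image_of_mem _ hy))
    have h3 := h2 h1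
    simpa using h3
  let T' : Finset Q := T ∪ T.image (fun t => t⁻¹)
  have hconjN : ∀ t : Q, ∀ x ∈ N, t * x * t⁻¹ ∈ N := fun t x hx => Subgroup.Normal.conj_mem inferInstance x hx t
  have hk : ∀ p : Q × Q, p ∈ T' ×ˢ S → ∃ k : ℕ, 0 < k ∧ (p.1 * p.2 * p.1⁻¹) ^ k ∈ Subgroup.closure (S : Set Q) := by
    intro p hp
    exact hpow _ (hconjN p.1 p.2 (hSN p.2 (Finset.mem_product.mp hp).2))
  choose! κ hκ0 hκ using hk
  let e : ℕ := ∏ p ∈ T' ×ˢ S, κ p
  have he : 0 < e := Finset.prod_pos (fun p hp => hκ0 p hp)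
  have he2 : ∀ t ∈ T', ∀ s ∈ S, (t * s * t⁻¹) ^ e ∈ Subgroup.closure (S : Set Q) := by
    intro t ht s hs
    have hp : (t, s) ∈ T' ×ˢ S := Finset.mem_product.mpr ⟨ht, hs⟩
    obtain ⟨c, hc⟩ := Finset.dvd_prod_of_mem κ hp
    have : e = κ (t, s) * c := hc
    rw [this, pow_mul]
    exact Subgroup.pow_mem _ (hκ (t, s) hp) c
  have he3 : ∀ t ∈ T', ∀ x ∈ Subgroup.closure (S : Set Q), (t * x * t⁻¹) ^ e ∈ Subgroup.closure (S : Set Q) := by
    intro t ht x hx
    induction hx using Subgroup.closure_induction with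
    | mem x hx => exact he2 t ht x hx
    | one => simp
    | mul x y hx hy ihx ihy =>
      have h1 : t * (x * y) * t⁻¹ = (t * x * t⁻¹) * (t * y * t⁻¹) := by group
      rw [h1, (hcom _ (hconjN t x (hSN' hx)) _ (hconjN t y (hSN' hy))).mul_pow]
      exact mul_mem ihx ihy
    | inv x hx ihx =>
      have h1 : t * x⁻¹ * t⁻¹ = (t * x * t⁻¹)⁻¹ := by group
      rw [h1, inv_pow]
      exact inv_mem ihx
  refine ⟨e, he, S, hSN, ?_⟩

  let P : Subgroup Q :=
    { carrier := {a | a ∈ N ∧ ∃ k : ℕ, a ^ (e ^ k) ∈ Subgroup.closure (S : Set Q)}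
      one_mem' := ⟨one_mem _, 0, by simp⟩
      mul_mem' := by
        rintro a b ⟨ha, k, hk⟩ ⟨hb, l, hl⟩
        refine ⟨mul_mem ha hb, k + l, ?_⟩
        rw [(hcom a ha b hb).mul_pow]
        apply mul_mem
        · rw [pow_add, pow_mul]; exact Subgroup.pow_mem _ hk _
        · rw [add_comm, pow_add, pow_mul]; exact Subgroup.pow_mem _ hl _
      inv_mem' := by
        rintro a ⟨ha, k, hk⟩
        refine ⟨inv_mem ha, k, ?_⟩
        rw [inv_pow]; exact inv_mem hk }
  have hconjP : ∀ t ∈ T', ∀ a ∈ P, t * a * t⁻¹ ∈ P := by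
    rintro t ht a ⟨ha, k, hk⟩
    refine ⟨hconjN t a ha, k + 1, ?_⟩
    rw [pow_succ, pow_mul, conj_pow]
    exact he3 t ht _ hk
  have hnorm : (T : Set Q) ⊆ Subgroup.normalizer (P : Set Q) := by
    intro t ht
    have h1 : t ∈ T' := Finset.mem_union_left _ ht
    have h2 : t⁻¹ ∈ T' := Finset.mem_union_right _ (Finset.mem_image_of_mem _ ht)
    rw [SetLike.mem_coe, Subgroup.mem_normalizer_iff]
    intro a
    constructor
    · intro ha
      exact hconjP t h1 a ha
    · intro ha
      have := hconjP t⁻¹ h2 _ ha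
      have h3 : t⁻¹ * (t * a * t⁻¹) * t⁻¹⁻¹ = a := by group
      rwa [h3] at this
  have htop : Subgroup.normalizer (P : Set Q) = ⊤ := by
    rw [eq_top_iff, ← hT, Subgroup.closure_le]
    exact hnorm
  have hPn : P.Normal := Subgroup.normalizer_eq_top_iff.mp htop
  have hRP : (R : Set Q) ⊆ P := by
    intro r hr
    refine ⟨hRN r hr, 0, ?_⟩
    rw [pow_zero, pow_one]
    exact Subgroup.subset_closure (Finset.mem_coe.mpr (Finset.mem_union_right _ hr))
  intro a ha
  have h1 : a ∈ P := Subgroup.normalClosure_le_normal hRP (hNR ha)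
  exact h1.2

private theorem good_core {G : Type} [Group G] (hfg : Group.FG G) (N : Subgroup G) [N.Normal]
    (hN : ⁅(⊤ : Subgroup G), (⊤ : Subgroup G)⁆ ≤ N) (n : ℕ) (hshb : SHB N n) :
    ∃ e : ℕ, 0 < e ∧ ∃ S : Finset G, (∀ s ∈ S, s ∈ N) ∧
      ∀ a ∈ N, ∃ k : ℕ, a ^ (e ^ k) ∈ Subgroup.closure (S : Set G) ⊔ ⁅N, N⁆ := by
  classical
  let C : Subgroup G := ⁅N, N⁆
  have hCN : C.Normal := inferInstance
  let f : G →* G ⧸ C := QuotientGroup.mk' C
  have hf : Function.Surjective f := QuotientGroup.mk'_surjective C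
  let N' : Subgroup (G ⧸ C) := N.map f
  have hN'n : N'.Normal := Subgroup.Normal.map inferInstance f hf
  have hN'c : IsMulCommutative N' := by
    constructor
    constructor
    rintro ⟨x, a, ha, rfl⟩ ⟨y, b, hb, rfl⟩
    apply Subtype.ext
    show f a * f b = f b * f a
    have h1 : ⁅a, b⁆ ∈ C := Subgroup.commutator_mem_commutator ha hb
    have h2 : f ⁅a, b⁆ = 1 := (QuotientGroup.eq_one_iff _).mpr h1
    rw [map_commutatorElement] at h2
    exact commutatorElement_eq_one_iff_mul_comm.mp h2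
  have hfg' : Group.FG (G ⧸ C) := Group.fg_of_surjective hf
  have htop : ⁅(⊤ : Subgroup (G ⧸ C)), (⊤ : Subgroup (G ⧸ C))⁆ ≤ N' := by
    rw [Subgroup.commutator_le]
    intro a _ b _
    obtain ⟨a, rfl⟩ := hf a
    obtain ⟨b, rfl⟩ := hf b
    rw [← map_commutatorElement]
    exact ⟨_, hN (Subgroup.commutator_mem_commutator (Subgroup.mem_top _) (Subgroup.mem_top _)), rfl⟩
  have hshb' : SHB N' n := hshb.of_surjective (f.subgroupMap N) (f.subgroupMap_surjective N)
  have hrank := SHB.rank_le hshb'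
  obtain ⟨e, he, S', hS'N, hS'⟩ := comm_case hfg' N' htop n hrank
  have hlift : ∀ s ∈ S', ∃ x ∈ N, f x = s := fun s hs => hS'N s hs
  choose! l hl1 hl2 using hlift
  refine ⟨e, he, S'.image l, ?_, ?_⟩
  · intro s hs
    obtain ⟨x, hx, rfl⟩ := Finset.mem_image.mp hs
    exact hl1 x hx
  · intro a ha
    obtain ⟨k, hk⟩ := hS' (f a) ⟨a, ha, rfl⟩
    refine ⟨k, ?_⟩
    have h1 : Subgroup.closure (S' : Set (G ⧸ C)) ≤ (Subgroup.closure ((S'.image l : Finset G) : Set G)).map f := by
      rw [Subgroup.closure_le]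
      intro s hs
      exact ⟨l s, Subgroup.subset_closure (Finset.mem_coe.mpr (Finset.mem_image_of_mem l hs)), hl2 s hs⟩
    have h2 : a ^ (e ^ k) ∈ ((Subgroup.closure ((S'.image l : Finset G) : Set G)).map f).comap f := by
      rw [Subgroup.mem_comap, map_pow]
      exact h1 hk
    rw [Subgroup.comap_map_eq] at h2
    have h3 : f.ker = C := QuotientGroup.ker_mk' C
    rw [h3] at h2
    exact h2

end auxgood

theorem good_ab {G : Type} [Group G] (hfg : Group.FG G) (N : Subgroup G) [N.Normal]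
    (hN : ⁅(⊤ : Subgroup G), (⊤ : Subgroup G)⁆ ≤ N) (n : ℕ) (hshb : SHB N n) :
    ∃ e : ℕ, 0 < e ∧ ∃ S : Finset G, (∀ s ∈ S, s ∈ N) ∧
      ∀ a ∈ N, ∃ k : ℕ, a ^ (e ^ k) ∈ Subgroup.closure (S : Set G) ⊔ ⁅N, N⁆ := by
  exact good_core hfg N hN n hshb

end Pool.Agent.H652.SR
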