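import Mathlib
import Pool.Agent.H652.SR.Defs

set_option autoImplicit false

open scoped IsMulCommutative

namespace Pool.Agent.H652.SR

private theorem eig_fi {G : Type*} [Group G] {α : Type*} (H : Subgroup G) (f : G → α)
    (hf : (Set.range f).Finite) (h : ∀ g k, f g = f k → g⁻¹ * k ∈ H) : H.index ≠ 0 := by
  have : Finite (G ⧸ H) := by
    have : Finite (Set.range f) := hf
    refine Finite.of_injective (fun q : G ⧸ H => (⟨f q.out, q.out, rfl⟩ : Set.range f)) ?_
    intro a b hab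
    have h1 := h _ _ (congrArg Subtype.val hab)
    rw [← QuotientGroup.out_eq' a, ← QuotientGroup.out_eq' b]
    exact QuotientGroup.eq.2 h1
  exact Subgroup.index_ne_zero_of_finite

section

variable {V : Type} [AddCommGroup V] [Module ℂ V] [FiniteDimensional ℂ V] [Nontrivial V]

private theorem eig_common (S : Set (V →ₗ[ℂ] V)) (hc : ∀ a ∈ S, ∀ b ∈ S, a * b = b * a) :
    ∃ v : V, v ≠ 0 ∧ ∀ a ∈ S, ∃ c : ℂ, a v = c • v := by
  classical
  have hex : ∃ n, ∃ U : Submodule ℂ V, U ≠ ⊥ ∧ (∀ a ∈ S, ∀ u ∈ U, a u ∈ U) ∧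
      Module.finrank ℂ U = n :=
    ⟨_, ⊤, top_ne_bot, fun _ _ _ _ => Submodule.mem_top, rfl⟩
  obtain ⟨U, hU, hinv, hn⟩ := Nat.find_spec hex
  have hmin := fun m => Nat.find_min (m := m) hex
  have key : ∀ a ∈ S, ∃ c : ℂ, ∀ u ∈ U, a u = c • u := by
    intro a ha
    have hnt : Nontrivial U := Submodule.nontrivial_iff_ne_bot.2 hU
    obtain ⟨c, hcv⟩ := Module.End.exists_eigenvalue (K := ℂ) (V := U) (a.restrict (hinv a ha))
    obtain ⟨w, hw⟩ := hcv.exists_hasEigenvector
    have hw1 : a w = c • (w : V) := by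
      have := congrArg Subtype.val hw.apply_eq_smul
      simpa using this
    set U' : Submodule ℂ V := U ⊓ LinearMap.ker (a - c • (1 : V →ₗ[ℂ] V)) with hU'
    have hmem : ∀ x, x ∈ U' ↔ x ∈ U ∧ a x = c • x := by
      intro x
      rw [hU', Submodule.mem_inf, LinearMap.mem_ker]
      simp [sub_eq_zero]
    have h1 : U' ≠ ⊥ := by
      intro h0
      have : (w : V) ∈ U' := (hmem _).2 ⟨w.2, hw1⟩
      rw [h0, Submodule.mem_bot] at this
      exact hw.2 (Subtype.ext this)
    have h2 : ∀ b ∈ S, ∀ u ∈ U', b u ∈ U' := by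
      intro b hb u hu
      obtain ⟨hu1, hu2⟩ := (hmem u).1 hu
      refine (hmem _).2 ⟨hinv b hb u hu1, ?_⟩
      have := congrArg (fun T : V →ₗ[ℂ] V => T u) (hc a ha b hb)
      simp only [Module.End.mul_apply] at this
      rw [this, hu2, map_smul]
    have h3 : ¬ Module.finrank ℂ U' < Nat.find hex := fun hlt => hmin _ hlt ⟨U', h1, h2, rfl⟩
    have h4 : U' = U := by
      refine Submodule.eq_of_le_of_finrank_le inf_le_left ?_
      rw [hn]; omega
    refine ⟨c, fun u hu => ?_⟩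
    rw [← h4] at hu
    exact ((hmem u).1 hu).2
  obtain ⟨v, hv, hv0⟩ := Submodule.exists_mem_ne_zero_of_ne_bot hU
  exact ⟨v, hv0, fun a ha => (key a ha).imp fun c hc => hc v hv⟩

variable {G : Type} [Group G] (ρ : G →* (V →ₗ[ℂ] V))

omit [FiniteDimensional ℂ V] [Nontrivial V] in
private theorem eig_inv (g : G) (v : V) : ρ g⁻¹ (ρ g v) = v := by
  have : ρ (g⁻¹ * g) = 1 := by simp
  rw [map_mul] at this
  exact congrArg (fun T : V →ₗ[ℂ] V => T v) this

omit [FiniteDimensional ℂ V] [Nontrivial V] in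
private theorem eig_inv' (g : G) (v : V) : ρ g (ρ g⁻¹ v) = v := by
  have := eig_inv ρ g⁻¹ v
  rwa [inv_inv] at this

omit [FiniteDimensional ℂ V] [Nontrivial V] in
private theorem eig_ne (g : G) {v : V} (hv : v ≠ 0) : ρ g v ≠ 0 := by
  intro h
  apply hv
  rw [← eig_inv ρ g v, h, map_zero]

variable (hirr : ∀ H : Subgroup G, H.index ≠ 0 → ∀ W : Submodule ℂ V, W ≠ ⊥ →
  (∀ h ∈ H, ∀ w ∈ W, ρ h w ∈ W) → W = ⊤)

include hirr in
private theorem eig_step1 (A : Subgroup G) (hA : A.Normal)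
    (hcomm : ∀ a ∈ A, ∀ b ∈ A, ρ a * ρ b = ρ b * ρ a) :
    ∀ a ∈ A, ∃ c : ℂ, ρ a = c • (1 : V →ₗ[ℂ] V) := by
  classical
  obtain ⟨v, hv, hχ⟩ := eig_common (ρ '' (A : Set G)) (by
    rintro _ ⟨a, ha, rfl⟩ _ ⟨b, hb, rfl⟩
    exact hcomm a ha b hb)
  have hχ' : ∀ a : G, ∃ c : ℂ, a ∈ A → ρ a v = c • v := by
    intro a
    by_cases ha : a ∈ A
    · obtain ⟨c, hc⟩ := hχ _ ⟨a, ha, rfl⟩
      exact ⟨c, fun _ => hc⟩
    · exact ⟨0, fun h => absurd h ha⟩
  choose χ hχ using hχ'
  have hconj : ∀ g a, a ∈ A → g⁻¹ * a * g ∈ A := fun g a ha => by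
    simpa using hA.conj_mem a ha g⁻¹
  have hact : ∀ g a, a ∈ A → ρ a (ρ g v) = χ (g⁻¹ * a * g) • ρ g v := by
    intro g a ha
    have h1 : ρ a * ρ g = ρ g * ρ (g⁻¹ * a * g) := by
      rw [← map_mul, ← map_mul]; congr 1; group
    have h2 := congrArg (fun T : V →ₗ[ℂ] V => T v) h1
    simp only [Module.End.mul_apply] at h2
    rw [h2, hχ _ (hconj g a ha), map_smul]
  obtain ⟨s, hs1, hs2⟩ := (Submodule.fg_span_iff_fg_span_finset_subset (R := ℂ)
    (ρ '' (A : Set G))).1 (IsNoetherian.noetherian _)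
  have hch : ∀ t : s, ∃ a, a ∈ A ∧ ρ a = t := fun t => hs1 t.2
  choose r hrA hr using hch
  let f : G → (s → ℂ) := fun g t => χ (g⁻¹ * r t * g)
  have hf : (Set.range f).Finite := by
    refine (Set.Finite.pi' (fun t : s => Module.End.finite_hasEigenvalue (t : V →ₗ[ℂ] V))).subset ?_
    rintro _ ⟨g, rfl⟩ t
    have h1 := hact g _ (hrA t)
    rw [hr t] at h1
    exact Module.End.hasEigenvalue_of_hasEigenvector
      ⟨Module.End.mem_eigenspace_iff.2 h1, eig_ne ρ g hv⟩
  have hfeq : ∀ g k, f g = f k → ∀ a ∈ A, χ (g⁻¹ * a * g) = χ (k⁻¹ * a * k) := by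
    intro g k hgk a ha
    have hQ : ∀ T ∈ Submodule.span ℂ (s : Set (V →ₗ[ℂ] V)), ∃ φ : ℂ,
        T (ρ g v) = φ • ρ g v ∧ T (ρ k v) = φ • ρ k v := by
      intro T hT
      induction hT using Submodule.span_induction with
      | mem t ht =>
        refine ⟨f g ⟨t, ht⟩, ?_, ?_⟩
        · have h1 := hact g _ (hrA ⟨t, ht⟩)
          rwa [hr ⟨t, ht⟩] at h1
        · rw [hgk]
          have h1 := hact k _ (hrA ⟨t, ht⟩)
          rwa [hr ⟨t, ht⟩] at h1
      | zero => exact ⟨0, by simp, by simp⟩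
      | add x y _ _ hx hy =>
        obtain ⟨φ, h1, h2⟩ := hx
        obtain ⟨ψ, h3, h4⟩ := hy
        exact ⟨φ + ψ, by rw [LinearMap.add_apply, h1, h3, add_smul],
          by rw [LinearMap.add_apply, h2, h4, add_smul]⟩
      | smul c x _ hx =>
        obtain ⟨φ, h1, h2⟩ := hx
        exact ⟨c * φ, by rw [LinearMap.smul_apply, h1, mul_smul],
          by rw [LinearMap.smul_apply, h2, mul_smul]⟩
    have hmem : ρ a ∈ Submodule.span ℂ (s : Set (V →ₗ[ℂ] V)) := by
      rw [← hs2]; exact Submodule.subset_span ⟨a, ha, rfl⟩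
    obtain ⟨φ, h1, h2⟩ := hQ _ hmem
    rw [hact g a ha] at h1
    rw [hact k a ha] at h2
    rw [smul_left_injective ℂ (eig_ne ρ g hv) h1, smul_left_injective ℂ (eig_ne ρ k hv) h2]
  let H' : Subgroup G :=
    { carrier := {g | ∀ a ∈ A, χ (g⁻¹ * a * g) = χ a}
      one_mem' := by intro a _; simp
      mul_mem' := by
        intro g h hg hh a ha
        have h1 := hh _ (hconj g a ha)
        rw [hg a ha] at h1
        rw [← h1]
        congr 1
        group
      inv_mem' := by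
        intro g hg a ha
        have h1 : g * a * g⁻¹ ∈ A := hA.conj_mem a ha g
        have h2 := hg _ h1
        have h3 : g⁻¹ * (g * a * g⁻¹) * g = a := by group
        rw [h3] at h2
        rw [inv_inv, ← h2] }
  have hH' : H'.index ≠ 0 := by
    refine eig_fi H' f hf fun g k hgk a ha => ?_
    have h1 := hfeq g k hgk (g * a * g⁻¹) (hA.conj_mem a ha g)
    have h2 : g⁻¹ * (g * a * g⁻¹) * g = a := by group
    rw [h2] at h1
    rw [h1]
    congr 1
    group
  let W : Submodule ℂ V :=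
    { carrier := {w | ∀ a ∈ A, ρ a w = χ a • w}
      zero_mem' := by intro a _; simp
      add_mem' := by
        intro x y hx hy a ha
        rw [map_add, hx a ha, hy a ha, smul_add]
      smul_mem' := by
        intro c x hx a ha
        rw [map_smul, hx a ha, smul_comm] }
  have hW : W = ⊤ := by
    refine hirr H' hH' W ?_ ?_
    · intro h0
      have : v ∈ W := fun a ha => hχ a ha
      rw [h0, Submodule.mem_bot] at this
      exact hv this
    · intro g hg w hw a ha
      have h1 : ρ a * ρ g = ρ g * ρ (g⁻¹ * a * g) := by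
        rw [← map_mul, ← map_mul]; congr 1; group
      have h2 := congrArg (fun T : V →ₗ[ℂ] V => T w) h1
      simp only [Module.End.mul_apply] at h2
      rw [h2, hw _ (hconj g a ha), map_smul, hg a ha]
  intro a ha
  refine ⟨χ a, LinearMap.ext fun w => ?_⟩
  have : w ∈ W := by rw [hW]; exact Submodule.mem_top
  simpa using this a ha

omit [Nontrivial V] in
private theorem eig_det (g : G) : LinearMap.det (ρ g) ≠ 0 := by
  intro h
  have h1 : LinearMap.det (ρ g * ρ g⁻¹) = 1 := by rw [← map_mul]; simp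
  rw [map_mul, h, zero_mul] at h1
  exact zero_ne_one h1

omit [Nontrivial V] in
private theorem eig_pow {x y : G} {c : ℂ} (h : ρ y = c • ρ x)
    (hd : LinearMap.det (ρ y) = LinearMap.det (ρ x)) : c ^ Module.finrank ℂ V = 1 := by
  have h1 := congrArg LinearMap.det h
  rw [LinearMap.det_smul, hd] at h1
  have h2 := eig_det ρ x
  have h3 : (c ^ Module.finrank ℂ V - 1) * LinearMap.det (ρ x) = 0 := by
    rw [sub_mul, one_mul, ← h1, sub_self]
  rcases mul_eq_zero.1 h3 with h4 | h4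
  · exact sub_eq_zero.1 h4
  · exact absurd h4 h2

omit [Nontrivial V] in
private theorem eig_detconj (g x : G) : LinearMap.det (ρ (g * x * g⁻¹)) = LinearMap.det (ρ x) := by
  have h1 : LinearMap.det (ρ g) * LinearMap.det (ρ g⁻¹) = 1 := by
    rw [← map_mul, ← map_mul]; simp
  rw [map_mul, map_mul, map_mul, map_mul, mul_right_comm, h1, one_mul]

omit [FiniteDimensional ℂ V] [Nontrivial V] in
private theorem eig_roots {m : ℕ} (hm : 0 < m) : {c : ℂ | c ^ m = 1}.Finite := by
  refine ((Polynomial.nthRoots m (1 : ℂ)).toFinset.finite_toSet).subset ?_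
  intro c hc
  simpa [Polynomial.mem_nthRoots hm] using hc

open scoped commutatorElement in
include hirr in
private theorem eig_irr (hs : Group.IsSolvable G) : ∀ g, ∃ c : ℂ, ρ g = c • (1 : V →ₗ[ℂ] V) := by
  classical
  by_contra hcon
  have hex : ∃ n, ∀ g ∈ derivedSeries G n, ∃ c : ℂ, ρ g = c • (1 : V →ₗ[ℂ] V) := by
    obtain ⟨n, hn⟩ := hs.solvable
    refine ⟨n, fun g hg => ⟨1, ?_⟩⟩
    rw [hn, Subgroup.mem_bot] at hg
    rw [hg, map_one, one_smul]
  obtain ⟨n, hn⟩ : ∃ n, Nat.find hex = n := ⟨_, rfl⟩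
  have hspec := Nat.find_spec hex
  rw [hn] at hspec
  cases n with
  | zero => exact hcon fun g => hspec g (by simp)
  | succ n =>
    have hmin := Nat.find_min hex (m := n) (by omega)
    set D := derivedSeries G n with hD
    have hDn : D.Normal := derivedSeries_normal G n
    have hDD : ∀ g ∈ ⁅D, D⁆, ∃ c : ℂ, ρ g = c • (1 : V →ₗ[ℂ] V) := hspec
    rw [not_forall] at hmin
    obtain ⟨b, hb⟩ := hmin
    rw [Classical.not_imp] at hb
    obtain ⟨hbD, hb⟩ := hb
    set m := Module.finrank ℂ V with hm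
    have hm0 : 0 < m := Module.finrank_pos

    let A : Subgroup G :=
      { carrier := {x | x ∈ D ∧ ∀ y ∈ D, ρ x * ρ y = ρ y * ρ x}
        one_mem' := ⟨D.one_mem, by intro y _; simp⟩
        mul_mem' := by
          intro x y hx hy
          refine ⟨D.mul_mem hx.1 hy.1, fun z hz => ?_⟩
          rw [map_mul, mul_assoc, hy.2 z hz, ← mul_assoc, hx.2 z hz, mul_assoc]
        inv_mem' := by
          intro x hx
          refine ⟨D.inv_mem hx.1, fun z hz => ?_⟩
          have h1 : ρ x⁻¹ * ρ x = 1 := by rw [← map_mul]; simp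
          have h2 : ρ x * ρ x⁻¹ = 1 := by rw [← map_mul]; simp
          calc ρ x⁻¹ * ρ z = ρ x⁻¹ * ρ z * (ρ x * ρ x⁻¹) := by rw [h2, mul_one]
            _ = ρ x⁻¹ * (ρ z * ρ x) * ρ x⁻¹ := by simp only [mul_assoc]
            _ = ρ x⁻¹ * (ρ x * ρ z) * ρ x⁻¹ := by rw [hx.2 z hz]
            _ = (ρ x⁻¹ * ρ x) * ρ z * ρ x⁻¹ := by simp only [mul_assoc]
            _ = ρ z * ρ x⁻¹ := by rw [h1, one_mul] }
    have hAn : A.Normal := by
      constructor
      intro x hx g
      refine ⟨hDn.conj_mem x hx.1 g, fun y hy => ?_⟩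
      have h1 := hx.2 (g⁻¹ * y * g) (by simpa using hDn.conj_mem y hy g⁻¹)
      have h2 : ρ g * (ρ x * ρ (g⁻¹ * y * g)) * ρ g⁻¹ =
          ρ g * (ρ (g⁻¹ * y * g) * ρ x) * ρ g⁻¹ := by rw [h1]
      simp only [← map_mul] at h2 ⊢
      convert h2 using 2 <;> group
    have hAsc := eig_step1 ρ hirr A hAn (fun a ha b hb => ha.2 b hb.1)

    have hlam : ∀ x c : G, ∃ l : ℂ, x ∈ D → c ∈ D → ρ (c * x * c⁻¹) = l • ρ x := by
      intro x c
      by_cases hx : x ∈ D ∧ c ∈ D
      · obtain ⟨l, hl⟩ := hDD ⁅c, x⁆ (Subgroup.commutator_mem_commutator hx.2 hx.1)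
        refine ⟨l, fun _ _ => ?_⟩
        have h1 : c * x * c⁻¹ = ⁅c, x⁆ * x := by rw [commutatorElement_def]; group
        rw [h1, map_mul, hl, smul_mul_assoc, one_mul]
      · exact ⟨0, fun h1 h2 => absurd ⟨h1, h2⟩ hx⟩
    choose lam hlam using hlam
    have hlam1 : ∀ x c, x ∈ D → c ∈ D → lam x c ^ m = 1 := fun x c hx hc =>
      eig_pow ρ (hlam x c hx hc) (eig_detconj ρ c x)
    obtain ⟨s, hs1, hs2⟩ := (Submodule.fg_span_iff_fg_span_finset_subset (R := ℂ)
      (ρ '' (D : Set G))).1 (IsNoetherian.noetherian _)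
    have hch : ∀ t : s, ∃ a, a ∈ D ∧ ρ a = t := fun t => hs1 t.2
    choose r hrD hr using hch
    have hxD : ∀ g, g * b * g⁻¹ ∈ D := fun g => hDn.conj_mem b hbD g
    let F : G → (s → ℂ) := fun g t => lam (g * b * g⁻¹) (r t)
    have hF : (Set.range F).Finite := by
      refine (Set.Finite.pi' (fun _ : s => eig_roots hm0)).subset ?_
      rintro _ ⟨g, rfl⟩ t
      exact hlam1 _ _ (hxD g) (hrD t)
    have hFeq : ∀ g k, F g = F k → ∃ c : ℂ, c ^ m = 1 ∧ ρ (k * b * k⁻¹) = c • ρ (g * b * g⁻¹) := by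
      intro g k hgk
      set x := g * b * g⁻¹ with hx
      set y := k * b * k⁻¹ with hy
      have hx1 : ρ x⁻¹ * ρ x = 1 := by rw [← map_mul]; simp
      have hx2 : ρ x * ρ x⁻¹ = 1 := by rw [← map_mul]; simp
      have hxyA : x⁻¹ * y ∈ A := by
        refine ⟨D.mul_mem (D.inv_mem (hxD g)) (hxD k), ?_⟩
        have hcom : ∀ T ∈ Submodule.span ℂ (s : Set (V →ₗ[ℂ] V)),
            ρ (x⁻¹ * y) * T = T * ρ (x⁻¹ * y) := by
          intro T hT
          induction hT using Submodule.span_induction with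
          | mem t ht =>
            obtain ⟨l, hl⟩ : ∃ l, lam x (r ⟨t, ht⟩) = l := ⟨_, rfl⟩
            have hl' : lam y (r ⟨t, ht⟩) = l := by
              rw [← hl]; exact (congrFun hgk ⟨t, ht⟩).symm
            have e1 := hlam x _ (hxD g) (hrD ⟨t, ht⟩)
            have e2 := hlam y _ (hxD k) (hrD ⟨t, ht⟩)
            have hl1 := hlam1 x _ (hxD g) (hrD ⟨t, ht⟩)
            rw [hl] at e1 hl1
            rw [hl'] at e2
            have hl0 : l ≠ 0 := by
              rintro rfl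
              rw [zero_pow hm0.ne'] at hl1
              exact zero_ne_one hl1
            obtain ⟨q, hq⟩ : ∃ q, r ⟨t, ht⟩ = q := ⟨_, rfl⟩
            have hqt : ρ q = t := by rw [← hq]; exact hr ⟨t, ht⟩
            rw [hq] at e1 e2
            have f1 : t * ρ x = l • (ρ x * t) := by
              have : ρ (q * x * q⁻¹) * ρ q = ρ q * ρ x := by
                rw [← map_mul, ← map_mul]; congr 1; group
              rw [e1, hqt, smul_mul_assoc] at this
              exact this.symm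
            have f2 : t * ρ y = l • (ρ y * t) := by
              have : ρ (q * y * q⁻¹) * ρ q = ρ q * ρ y := by
                rw [← map_mul, ← map_mul]; congr 1; group
              rw [e2, hqt, smul_mul_assoc] at this
              exact this.symm
            have f3 : ρ x⁻¹ * t = l • (t * ρ x⁻¹) := by
              calc ρ x⁻¹ * t = ρ x⁻¹ * (t * ρ x) * ρ x⁻¹ := by
                    simp only [mul_assoc, hx2, mul_one]
                _ = l • (t * ρ x⁻¹) := by
                    rw [f1, mul_smul_comm, ← mul_assoc, hx1, one_mul, smul_mul_assoc]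
            rw [map_mul]
            have f4 : l • (ρ x⁻¹ * ρ y * t) = l • (t * (ρ x⁻¹ * ρ y)) := by
              calc l • (ρ x⁻¹ * ρ y * t) = ρ x⁻¹ * (l • (ρ y * t)) := by
                    rw [mul_smul_comm, mul_assoc]
                _ = ρ x⁻¹ * t * ρ y := by rw [← f2, mul_assoc]
                _ = l • (t * (ρ x⁻¹ * ρ y)) := by rw [f3, smul_mul_assoc, mul_assoc]
            exact smul_right_injective _ hl0 f4
          | zero => simp
          | add x y _ _ hx hy => rw [mul_add, add_mul, hx, hy]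
          | smul c x _ hx => rw [mul_smul_comm, smul_mul_assoc, hx]
        intro d hd
        apply hcom
        rw [← hs2]
        exact Submodule.subset_span ⟨d, hd, rfl⟩
      obtain ⟨c, hc⟩ := hAsc _ hxyA
      have hyx : ρ y = c • ρ x := by
        have : y = x * (x⁻¹ * y) := by group
        rw [this, map_mul, hc, mul_smul_comm, mul_one]
      refine ⟨c, eig_pow ρ hyx ?_, hyx⟩
      rw [hx, hy, eig_detconj, eig_detconj]
    let u : G → (V →ₗ[ℂ] V) := fun g => ρ (g * b * g⁻¹)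
    have hu : (Set.range u).Finite := by
      have h1 : ∀ φ ∈ Set.range F, (u '' (F ⁻¹' {φ})).Finite := by
        rintro _ ⟨g, rfl⟩
        refine ((eig_roots hm0).image (fun c => c • u g)).subset ?_
        rintro _ ⟨k, hk, rfl⟩
        obtain ⟨c, hc1, hc2⟩ := hFeq g k hk.symm
        exact ⟨c, hc1, hc2.symm⟩
      refine (hF.biUnion h1).subset ?_
      rintro _ ⟨g, rfl⟩
      exact Set.mem_biUnion ⟨g, rfl⟩ ⟨g, rfl, rfl⟩
    let H2 : Subgroup G :=
      { carrier := {g | ρ g * ρ b = ρ b * ρ g}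
        one_mem' := by simp
        mul_mem' := by
          intro x y hx hy
          change ρ (x * y) * ρ b = ρ b * ρ (x * y)
          have hx' : ρ x * ρ b = ρ b * ρ x := hx
          have hy' : ρ y * ρ b = ρ b * ρ y := hy
          rw [map_mul, mul_assoc, hy', ← mul_assoc, hx', mul_assoc]
        inv_mem' := by
          intro x hx
          have hx' : ρ x * ρ b = ρ b * ρ x := hx
          change ρ x⁻¹ * ρ b = ρ b * ρ x⁻¹
          have h1 : ρ x⁻¹ * ρ x = 1 := by rw [← map_mul]; simp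
          have h2 : ρ x * ρ x⁻¹ = 1 := by rw [← map_mul]; simp
          calc ρ x⁻¹ * ρ b = ρ x⁻¹ * ρ b * (ρ x * ρ x⁻¹) := by rw [h2, mul_one]
            _ = ρ x⁻¹ * (ρ b * ρ x) * ρ x⁻¹ := by simp only [mul_assoc]
            _ = ρ x⁻¹ * (ρ x * ρ b) * ρ x⁻¹ := by rw [hx']
            _ = (ρ x⁻¹ * ρ x) * ρ b * ρ x⁻¹ := by simp only [mul_assoc]
            _ = ρ b * ρ x⁻¹ := by rw [h1, one_mul] }
    have hH2 : H2.index ≠ 0 := by
      refine eig_fi H2 u hu fun g k hgk => ?_
      change ρ (g⁻¹ * k) * ρ b = ρ b * ρ (g⁻¹ * k)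
      have h1 : ρ (g * b * g⁻¹) = ρ (k * b * k⁻¹) := hgk
      have h2 : ρ g⁻¹ * ρ (k * b * k⁻¹) * ρ k = ρ g⁻¹ * ρ (g * b * g⁻¹) * ρ k := by rw [h1]
      simp only [← map_mul] at h2 ⊢
      convert h2 using 2 <;> group
    obtain ⟨ν, hν⟩ := Module.End.exists_eigenvalue (K := ℂ) (V := V) (ρ b)
    obtain ⟨w, hw⟩ := hν.exists_hasEigenvector
    have htop : Module.End.eigenspace (ρ b) ν = ⊤ := by
      refine hirr H2 hH2 _ hν ?_
      intro g hg w hw
      rw [Module.End.mem_eigenspace_iff] at hw ⊢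
      have hg' : ρ g * ρ b = ρ b * ρ g := hg
      have h2 := congrArg (fun T : V →ₗ[ℂ] V => T w) hg'
      simp only [Module.End.mul_apply] at h2
      rw [← h2, hw, map_smul]
    apply hb
    refine ⟨ν, LinearMap.ext fun x => ?_⟩
    have : x ∈ Module.End.eigenspace (ρ b) ν := by rw [htop]; exact Submodule.mem_top
    rw [Module.End.mem_eigenspace_iff] at this
    simpa using this

end

private theorem eig_aux (n : ℕ) : ∀ (G : Type) [Group G] (_ : Group.IsSolvable G) (V : Type)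
    [AddCommGroup V] [Module ℂ V] [FiniteDimensional ℂ V] [Nontrivial V] (ρ : G →* (V →ₗ[ℂ] V)),
    Module.finrank ℂ V = n →
    ∃ H : Subgroup G, H.index ≠ 0 ∧ ∃ v : V, v ≠ 0 ∧ ∀ h ∈ H, ∃ c : ℂ, ρ h v = c • v := by
  induction n using Nat.strong_induction_on with
  | _ n ih =>
    intro G _ hs V _ _ _ _ ρ hn
    by_cases hirr : ∀ H : Subgroup G, H.index ≠ 0 → ∀ W : Submodule ℂ V, W ≠ ⊥ →
      (∀ h ∈ H, ∀ w ∈ W, ρ h w ∈ W) → W = ⊤
    · obtain ⟨v, hv⟩ := exists_ne (0 : V)
      refine ⟨⊤, by simp, v, hv, fun g _ => ?_⟩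
      obtain ⟨c, hc⟩ := eig_irr ρ hirr hs g
      exact ⟨c, by rw [hc]; simp⟩
    · push Not at hirr
      obtain ⟨H, hH, W, hW, hinv, hWt⟩ := hirr
      have hnt : Nontrivial W := Submodule.nontrivial_iff_ne_bot.2 hW
      let ρ' : H →* (W →ₗ[ℂ] W) :=
        { toFun := fun h => (ρ h).restrict (hinv h h.2)
          map_one' := by ext w; simp
          map_mul' := by intro x y; ext w; simp }
      have hlt : Module.finrank ℂ W < n := by
        rw [← hn]; exact Submodule.finrank_lt hWt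
      have hsH : Group.IsSolvable H := inferInstance
      obtain ⟨K, hK, v, hv, hv2⟩ := ih _ hlt H hsH W ρ' rfl
      refine ⟨K.map H.subtype, ?_, v, ?_, ?_⟩
      · rw [Subgroup.index_map_subtype]
        exact mul_ne_zero hK hH
      · intro h; exact hv (Subtype.ext h)
      · rintro _ ⟨k, hk, rfl⟩
        obtain ⟨c, hc⟩ := hv2 k hk
        exact ⟨c, congrArg Subtype.val hc⟩

theorem eigen (G : Type) [Group G] (hs : Group.IsSolvable G) (V : Type) [AddCommGroup V] [Module ℂ V]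
    [FiniteDimensional ℂ V] [Nontrivial V] (ρ : G →* (V →ₗ[ℂ] V)) :
    ∃ H : Subgroup G, H.index ≠ 0 ∧ ∃ v : V, v ≠ 0 ∧ ∀ h ∈ H, ∃ c : ℂ, ρ h v = c • v :=
  eig_aux _ G hs V ρ rfl

end Pool.Agent.H652.SR
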