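import Mathlib
import Pool.Agent.H652.SR.Defs
import Pool.Agent.H652.SR.Jeigen

set_option autoImplicit false

open scoped IsMulCommutative commutatorElement

namespace Pool.Agent.H652.SR

open TensorProduct nonZeroDivisors in

private theorem coord_nat {ι : Type*} [DecidableEq ι] (ℬ : Module.Basis ι ℚ ℂ) (W : Type) [AddCommGroup W] [Module ℚ W]
    (f : W →ₗ[ℚ] W) (v : ℂ ⊗[ℚ] W) (j : ι) :
    TensorProduct.equivFinsuppOfBasisLeft ℬ (f.baseChange ℂ v) j
      = f (TensorProduct.equivFinsuppOfBasisLeft ℬ v j) := by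
  induction v using TensorProduct.induction_on with
  | zero => simp
  | tmul m n =>
    rw [LinearMap.baseChange_tmul, TensorProduct.equivFinsuppOfBasisLeft_apply_tmul_apply,
      TensorProduct.equivFinsuppOfBasisLeft_apply_tmul_apply, map_smul]
  | add a b ha hb => simp only [map_add, Finsupp.add_apply, ha, hb]

open TensorProduct nonZeroDivisors in
private theorem fixed_descends (M : Type) [AddCommGroup M] (htf : ∀ (n : ℤ) (m : M), n ≠ 0 → n • m = 0 → m = 0)
    {ι : Type} (F : ι → (M →ₗ[ℤ] M)) (v : ℂ ⊗[ℚ] (ℚ ⊗[ℤ] M)) (hv : v ≠ 0)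
    (hfix : ∀ i, ((F i).baseChange ℚ).baseChange ℂ v = v) :
    ∃ a : M, a ≠ 0 ∧ ∀ i, F i a = a := by
  classical
  let ℬ := Module.Basis.ofVectorSpace ℚ ℂ
  have hne : TensorProduct.equivFinsuppOfBasisLeft ℬ v ≠ 0 := by
    intro h
    exact hv ((TensorProduct.equivFinsuppOfBasisLeft ℬ).map_eq_zero_iff.mp h)
  obtain ⟨j, hj⟩ : ∃ j, TensorProduct.equivFinsuppOfBasisLeft ℬ v j ≠ 0 := by
    by_contra hcon
    push Not at hcon
    exact hne (Finsupp.ext hcon)
  set w := TensorProduct.equivFinsuppOfBasisLeft ℬ v j with hw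
  have hwfix : ∀ i, (F i).baseChange ℚ w = w := by
    intro i
    have := coord_nat ℬ (ℚ ⊗[ℤ] M) ((F i).baseChange ℚ) v j
    rw [hfix i] at this
    exact this.symm
  obtain ⟨⟨a, n⟩, hn⟩ := IsLocalizedModule.surj (nonZeroDivisors ℤ) (TensorProduct.mk ℤ ℚ M 1) w
  have hn0 : (n : ℤ) ≠ 0 := nonZeroDivisors.ne_zero n.2
  simp only at hn
  have hn' : (n : ℤ) • w = (TensorProduct.mk ℤ ℚ M 1) a := hn
  have inj : ∀ x y : M, (TensorProduct.mk ℤ ℚ M 1) x = (TensorProduct.mk ℤ ℚ M 1) y → x = y := by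
    intro x y hxy
    obtain ⟨c, hc⟩ := (IsLocalizedModule.eq_iff_exists (nonZeroDivisors ℤ) (TensorProduct.mk ℤ ℚ M 1)).mp hxy
    have hc' : (c : ℤ) • (x - y) = 0 := by
      rw [smul_sub]; exact sub_eq_zero.mpr hc
    exact sub_eq_zero.mp (htf _ _ (nonZeroDivisors.ne_zero c.2) hc')
  refine ⟨a, ?_, ?_⟩
  · rintro rfl
    rw [map_zero] at hn'
    have h2 : ((n : ℤ) : ℚ) • w = 0 := by
      rw [← hn']; exact Int.cast_smul_eq_zsmul ℚ (n : ℤ) w
    rcases smul_eq_zero.mp h2 with h | h
    · exact hn0 (by exact_mod_cast h)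
    · exact hj h
  · intro i
    apply inj
    have h1 : (F i).baseChange ℚ ((TensorProduct.mk ℤ ℚ M 1) a) = (TensorProduct.mk ℤ ℚ M 1) (F i a) := by
      simp [TensorProduct.mk_apply, LinearMap.baseChange_tmul]
    rw [← h1, ← hn', map_zsmul, hwfix i]

open TensorProduct nonZeroDivisors in
private theorem rank_aux (M : Type) [AddCommGroup M] : Module.rank ℤ (ℚ ⊗[ℤ] M) = Module.rank ℤ M := by
  have inst : IsLocalizedModule (nonZeroDivisors ℤ) (TensorProduct.mk ℤ ℚ M 1) := inferInstance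
  refine @IsLocalizedModule.rank_eq ℤ M _ _ _ (nonZeroDivisors ℤ) le_rfl (ℚ ⊗[ℤ] M) _ _
    (TensorProduct.mk ℤ ℚ M 1) ?_
  exact inst

open TensorProduct nonZeroDivisors in

theorem irr_virt_abelian (G : Type) [Group G] (hs : Group.IsSolvable G) (A : Type) [CommGroup A]
    [Nontrivial A] (htf : TF A) (d : ℕ) (hd : Module.rank ℤ (Additive A) = d)
    (φ : G →* MulAut A)
    (hirr : ∀ B : Subgroup A, (∀ g, ∀ b ∈ B, φ g b ∈ B) → B ≠ ⊥ →
      ∀ a : A, ∃ k : ℕ, 0 < k ∧ a ^ k ∈ B) :
    ∃ H : Subgroup G, H.Normal ∧ H.index ≠ 0 ∧ ∀ g ∈ ⁅H, H⁆, φ g = 1 := by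
  classical

  have htf' : ∀ (n : ℤ) (m : Additive A), n ≠ 0 → n • m = 0 → m = 0 := by
    intro n m hn hm
    have h1 : (Additive.toMul m) ^ n = 1 := by
      have := congrArg Additive.toMul hm
      simpa using this
    have h2 : IsOfFinOrder (Additive.toMul m) := by
      rw [isOfFinOrder_iff_zpow_eq_one]
      exact ⟨n, hn, h1⟩
    have h3 := htf _ h2
    exact congrArg Additive.ofMul h3

  let F : G → (Additive A →ₗ[ℤ] Additive A) := fun g =>
    (MonoidHom.toAdditive (φ g).toMonoidHom).toIntLinearMap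
  have hF : ∀ g (a : A), F g (Additive.ofMul a) = Additive.ofMul (φ g a) := fun g a => rfl
  let W := ℚ ⊗[ℤ] (Additive A)
  let V := ℂ ⊗[ℚ] W
  have hrank : Module.rank ℚ W = d := by
    have h1 : Module.rank ℚ W = Module.rank ℤ W :=
      IsLocalization.rank_eq ℚ (nonZeroDivisors ℤ) le_rfl
    have h2 : Module.rank ℤ W = Module.rank ℤ (Additive A) := rank_aux (Additive A)
    rw [h1, h2, hd]
  have hWfin : FiniteDimensional ℚ W := by
    apply Module.rank_lt_aleph0_iff.mp
    rw [hrank]; exact Cardinal.natCast_lt_aleph0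
  have hWnt : Nontrivial W := by
    obtain ⟨a, ha⟩ := exists_ne (1 : A)
    refine ⟨⟨TensorProduct.mk ℤ ℚ (Additive A) 1 (Additive.ofMul a), 0, ?_⟩⟩
    intro h
    have h' : TensorProduct.mk ℤ ℚ (Additive A) 1 (Additive.ofMul a)
        = TensorProduct.mk ℤ ℚ (Additive A) 1 0 := by rw [h, map_zero]
    obtain ⟨c, hc⟩ := (IsLocalizedModule.eq_iff_exists (nonZeroDivisors ℤ)
      (TensorProduct.mk ℤ ℚ (Additive A) 1)).mp h'
    rw [smul_zero] at hc
    have h5 := htf' _ _ (nonZeroDivisors.ne_zero c.2) hc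
    exact ha (Additive.ofMul.injective h5)
  have hVnt : Nontrivial V := by
    apply Module.nontrivial_of_finrank_pos (R := ℂ)
    rw [Module.finrank_baseChange]
    exact Module.finrank_pos
  have hF1 : F 1 = LinearMap.id := by
    ext a
    simp [F]
  have hFmul : ∀ g h, F (g * h) = (F g).comp (F h) := by
    intro g h
    ext a
    simp [F]
  let ρ : G →* (V →ₗ[ℂ] V) :=
    { toFun := fun g => ((F g).baseChange ℚ).baseChange ℂ
      map_one' := by
        rw [hF1, LinearMap.baseChange_id, LinearMap.baseChange_id]; rfl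
      map_mul' := by
        intro g h
        rw [hFmul, LinearMap.baseChange_comp, LinearMap.baseChange_comp]; rfl }
  obtain ⟨H0, hH0, v, hv, hev⟩ := eigen G hs V ρ
  let H := H0.normalCore
  have : H0.FiniteIndex := ⟨hH0⟩
  have hHidx : H.index ≠ 0 := (inferInstance : H0.normalCore.FiniteIndex).index_ne_zero
  refine ⟨H, H0.normalCore_normal, hHidx, ?_⟩

  let K : Subgroup G :=
    { carrier := {g | ρ g v = v}
      one_mem' := by simp
      mul_mem' := by
        intro a b ha hb
        change ρ a v = v at ha; change ρ b v = v at hb; change ρ (a * b) v = v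
        rw [map_mul, Module.End.mul_apply, hb, ha]
      inv_mem' := by
        intro a ha
        change ρ a v = v at ha; change ρ a⁻¹ v = v
        calc ρ a⁻¹ v = ρ a⁻¹ (ρ a v) := by rw [ha]
          _ = (ρ a⁻¹ * ρ a) v := rfl
          _ = v := by rw [← map_mul]; simp }
  have hDK : ⁅H, H⁆ ≤ K := by
    rw [Subgroup.commutator_le]
    intro g hg h hh
    obtain ⟨c, hc⟩ := hev g (H0.normalCore_le hg)
    obtain ⟨e, he⟩ := hev h (H0.normalCore_le hh)
    have hgh : ρ (g * h) v = ρ (h * g) v := by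
      rw [map_mul, map_mul, Module.End.mul_apply, Module.End.mul_apply, hc, he, map_smul, map_smul, hc, he,
        smul_smul, smul_smul, mul_comm]
    change ρ ⁅g, h⁆ v = v

    have h3 : ρ (⁅g, h⁆ * (h * g)) v = ρ (h * g) v := by
      rw [show ⁅g, h⁆ * (h * g) = g * h by rw [commutatorElement_def]; group]
      exact hgh
    have hcv : ρ (h * g) v = (c * e) • v := by
      rw [map_mul, Module.End.mul_apply, hc, map_smul, he, smul_smul]
    have hce : c * e ≠ 0 := by
      intro h0
      rw [h0, zero_smul] at hcv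
      apply hv
      calc v = ρ ((h * g)⁻¹ * (h * g)) v := by simp
        _ = ρ ((h * g)⁻¹) (ρ (h * g) v) := by rw [map_mul]; rfl
        _ = 0 := by rw [hcv, map_zero]
    rw [map_mul, Module.End.mul_apply, hcv, map_smul] at h3
    exact smul_right_injective V hce h3
  obtain ⟨a, ha0, hafix⟩ := fixed_descends (Additive A) htf' (fun g : (⁅H, H⁆ : Subgroup G) => F g) v hv
    (fun g => hDK g.2)
  have hHn : H.Normal := H0.normalCore_normal
  have hDn : (⁅H, H⁆ : Subgroup G).Normal := inferInstance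
  let B : Subgroup A :=
    { carrier := {b | ∀ g ∈ (⁅H, H⁆ : Subgroup G), φ g b = b}
      one_mem' := by intro g _; simp
      mul_mem' := by
        intro x y hx hy g hg
        rw [map_mul, hx g hg, hy g hg]
      inv_mem' := by
        intro x hx g hg
        rw [map_inv, hx g hg] }
  have hBinv : ∀ g, ∀ b ∈ B, φ g b ∈ B := by
    intro h b hb g hg
    have h1 : h⁻¹ * g * h ∈ (⁅H, H⁆ : Subgroup G) := by
      have := hDn.conj_mem g hg h⁻¹
      simpa using this
    have h2 := hb _ h1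
    calc φ g (φ h b) = (φ g * φ h) b := rfl
      _ = φ (h * (h⁻¹ * g * h)) b := by rw [← map_mul]; congr 2; group
      _ = φ h (φ (h⁻¹ * g * h) b) := by rw [map_mul]; rfl
      _ = φ h b := by rw [h2]
  have hBne : B ≠ ⊥ := by
    intro hB
    have h1 : Additive.toMul a ∈ B := by
      intro g hg
      have := hafix ⟨g, hg⟩
      have h2 := hF g (Additive.toMul a)
      exact congrArg Additive.toMul (h2.symm.trans this)
    rw [hB, Subgroup.mem_bot] at h1
    exact ha0 (congrArg Additive.ofMul h1)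
  intro g hg
  apply MulEquiv.ext
  intro x
  obtain ⟨k, hk, hxk⟩ := hirr B hBinv hBne x
  have h1 : (φ g x) ^ k = x ^ k := by
    rw [← map_pow]; exact hxk g hg
  have h2 : (φ g x * x⁻¹) ^ k = 1 := by
    rw [mul_pow, h1, inv_pow, mul_inv_cancel]
  have h3 : IsOfFinOrder (φ g x * x⁻¹) := isOfFinOrder_iff_pow_eq_one.mpr ⟨k, hk, h2⟩
  have h4 := htf _ h3
  have h5 : φ g x = x := by
    rwa [mul_inv_eq_one] at h4
  simpa using h5

end Pool.Agent.H652.SR
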