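import Mathlib
import Pool.Agent.H652.SR.Defs
import Pool.Agent.H652.SR.Jirr
import Pool.Agent.H652.SR.Jvptb

set_option autoImplicit false

open scoped IsMulCommutative

namespace Pool.Agent.H652.SR

open scoped commutatorElement in
private theorem malcev_aux : ∀ n : ℕ, ∀ (K : Type) [Group K], Group.IsSolvable K → VPT K n →
    ∃ K1 N : Subgroup K, K1.Normal ∧ K1.index ≠ 0 ∧ N.Normal ∧ N ≤ K1 ∧
      Group.IsNilpotent N ∧ ⁅K1, K1⁆ ≤ N := by
  intro n
  induction n using Nat.strong_induction_on with
  | _ n ih =>
    intro K _ hs h
    rcases h.cases_irr with ⟨hn, hf⟩ | ⟨A, hA, hcomm, d, m, htf, hd, hd1, hirr, hnm, hV⟩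
    · refine ⟨⊥, ⊥, inferInstance, ?_, inferInstance, le_rfl, inferInstance, ?_⟩
      · rw [Subgroup.index_bot]
        exact Nat.card_pos.ne'
      · rw [Subgroup.commutator_bot_left]
    · haveI := hA
      haveI := hcomm
      haveI := hs
      have hsQ : Group.IsSolvable (K ⧸ A) := inferInstance
      obtain ⟨K1', N', hK1', hK1i, hN', hNK, hnil, hcm⟩ := ih m (by omega) (K ⧸ A) hsQ hV
      haveI := hK1'
      haveI := hN'
      haveI : Nontrivial A := by
        by_contra hnt
        rw [not_nontrivial_iff_subsingleton] at hnt
        have : Module.rank ℤ (Additive A) = 0 := by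
          haveI : Subsingleton (Additive A) := hnt
          exact rank_subsingleton' ℤ (Additive A)
        rw [this] at hd
        have : d = 0 := by exact_mod_cast hd.symm
        omega
      obtain ⟨H, hH, hHi, hHc⟩ := irr_virt_abelian K hs A
        (by
          intro g hg
          have h1 : IsOfFinOrder (g : K) := by
            exact (Submonoid.isOfFinOrder_coe (H := A.toSubmonoid)).mpr hg
          exact Subtype.ext (htf g g.2 h1)) d hd MulAut.conjNormal
        (by
          intro B hB hB0 a
          have h1 : (B.map A.subtype).Normal := by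
            constructor
            rintro _ ⟨b, hb, rfl⟩ g
            exact ⟨MulAut.conjNormal g b, hB g b hb, by simp [MulAut.conjNormal_apply]⟩
          have h2 : B.map A.subtype ≤ A := by
            rintro _ ⟨b, hb, rfl⟩
            exact b.2
          have h3 : B.map A.subtype ≠ ⊥ := by
            intro h4
            exact hB0 ((Subgroup.map_eq_bot_iff_of_injective _ A.subtype_injective).mp h4)
          obtain ⟨k, hk, b, hb, hbk⟩ := hirr _ h1 h2 h3 a a.2
          refine ⟨k, hk, ?_⟩
          have : b = a ^ k := Subtype.ext (by simpa using hbk)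
          rw [← this]
          exact hb)
      haveI := hH
      haveI : (Subgroup.centralizer (A : Set K)).Normal := Subgroup.normal_centralizer
      refine ⟨K1'.comap (QuotientGroup.mk' A) ⊓ H,
        N'.comap (QuotientGroup.mk' A) ⊓ H ⊓ Subgroup.centralizer (A : Set K),
        inferInstance, ?_, inferInstance, ?_, ?_, ?_⟩
      · apply Subgroup.index_inf_ne_zero _ hHi
        rw [Subgroup.index_comap_of_surjective _ (QuotientGroup.mk'_surjective A)]
        exact hK1i
      · exact le_trans inf_le_left (inf_le_inf_right _ (Subgroup.comap_mono hNK))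
      · let f : (N'.comap (QuotientGroup.mk' A) ⊓ H ⊓ Subgroup.centralizer (A : Set K) :
            Subgroup K) →* N' :=
          ((QuotientGroup.mk' A).comp (Subgroup.subtype _)).codRestrict N' (fun x => x.2.1.1)
        haveI := hnil
        refine Subgroup.isNilpotent_of_ker_le_center f ?_
        intro x hx
        rw [Subgroup.mem_center_iff]
        intro y
        have hxA : (x : K) ∈ A := by
          rw [MonoidHom.mem_ker] at hx
          have h1 : QuotientGroup.mk' A (x : K) = 1 := congrArg Subtype.val hx
          rwa [QuotientGroup.mk'_apply, QuotientGroup.eq_one_iff] at h1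
        have hy : (y : K) ∈ Subgroup.centralizer (A : Set K) := y.2.2
        rw [Subgroup.mem_centralizer_iff] at hy
        exact Subtype.ext (hy x hxA).symm
      · rw [Subgroup.commutator_le]
        intro a ha b hb
        refine ⟨⟨?_, ?_⟩, ?_⟩
        · change QuotientGroup.mk' A ⁅a, b⁆ ∈ N'
          rw [map_commutatorElement]
          exact hcm (Subgroup.commutator_mem_commutator ha.1 hb.1)
        · exact Subgroup.commutator_le_left H H (Subgroup.commutator_mem_commutator ha.2 hb.2)
        · have h1 := hHc _ (Subgroup.commutator_mem_commutator ha.2 hb.2)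
          change ⁅a, b⁆ ∈ Subgroup.centralizer (A : Set K)
          rw [Subgroup.mem_centralizer_iff]
          intro c hc
          have h2 := congrArg (fun e : MulAut A => ((e ⟨c, hc⟩ : A) : K)) h1
          simp only [MulAut.conjNormal_apply, MulAut.one_apply] at h2
          exact (mul_inv_eq_iff_eq_mul.mp h2).symm

theorem malcev {K : Type} [Group K] (hs : Group.IsSolvable K) {n : ℕ} (h : VPT K n) :
    ∃ K1 N : Subgroup K, K1.Normal ∧ K1.index ≠ 0 ∧ N.Normal ∧ N ≤ K1 ∧
      Group.IsNilpotent N ∧ ⁅K1, K1⁆ ≤ N := malcev_aux n K hs h

end Pool.Agent.H652.SR
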