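import Mathlib
import Pool.Agent.H652.SR.Defs
import Pool.Agent.H652.SR.Jpcta
import Pool.Agent.H652.SR.Jpctb

set_option autoImplicit false

open scoped IsMulCommutative

namespace Pool.Agent.H652.SR

section nl

open scoped commutatorElement

private lemma nl_comm_mul_right {G : Type} [Group G] {a b c : G} (h : ⁅a, c⁆ ∈ Subgroup.center G) :
    ⁅a, b * c⁆ = ⁅a, b⁆ * ⁅a, c⁆ := by
  have h1 := (Subgroup.mem_center_iff.1 h) b⁻¹
  calc ⁅a, b * c⁆ = a * b * a⁻¹ * (⁅a, c⁆ * b⁻¹) := by simp only [commutatorElement_def]; group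
    _ = a * b * a⁻¹ * (b⁻¹ * ⁅a, c⁆) := by rw [h1]
    _ = ⁅a, b⁆ * ⁅a, c⁆ := by simp only [commutatorElement_def]; group

private lemma nl_comm_mul_left {G : Type} [Group G] {a b c : G} (h : ⁅b, c⁆ ∈ Subgroup.center G) :
    ⁅a * b, c⁆ = ⁅a, c⁆ * ⁅b, c⁆ := by
  have h1 := (Subgroup.mem_center_iff.1 h) a
  have h2 := (Subgroup.mem_center_iff.1 h) ⁅a, c⁆
  rw [h2]
  calc ⁅a * b, c⁆ = (a * ⁅b, c⁆) * (c * a⁻¹ * c⁻¹) := by
        simp only [commutatorElement_def]; group
    _ = (⁅b, c⁆ * a) * (c * a⁻¹ * c⁻¹) := by rw [h1]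
    _ = ⁅b, c⁆ * ⁅a, c⁆ := by simp only [commutatorElement_def]; group

def nlR {G : Type} [Group G] (a : G) (h : ∀ b : G, ⁅a, b⁆ ∈ Subgroup.center G) : G →* G where
  toFun b := ⁅a, b⁆
  map_one' := commutatorElement_one_right a
  map_mul' _ c := nl_comm_mul_right (h c)

def nlL {G : Type} [Group G] (A : Subgroup G) (b : G)
    (h : ∀ a ∈ A, ⁅a, b⁆ ∈ Subgroup.center G) : A →* G where
  toFun a := ⁅a.1, b⁆
  map_one' := commutatorElement_one_left b
  map_mul' _ c := nl_comm_mul_left (h c.1 c.2)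

private lemma nl_key {G : Type} [Group G] (e : ℕ) (A Z : Subgroup G)
    (hAc : ∀ a ∈ A, ∀ b : G, ⁅a, b⁆ ∈ Subgroup.center G) (hZA : Z ≤ A)
    (hZ : Z ≤ Subgroup.center G) (SA S : Set G) (hSA : SA ⊆ A)
    (h1 : ∀ a ∈ A, ∃ k : ℕ, a ^ (e ^ k) ∈ Subgroup.closure SA ⊔ Z)
    (h2 : ∀ b : G, ∃ k : ℕ, b ^ (e ^ k) ∈
      Subgroup.closure S ⊔ ⁅(⊤ : Subgroup G), (⊤ : Subgroup G)⁆) :
    ∀ z ∈ ⁅A, (⊤ : Subgroup G)⁆, ∃ k : ℕ, z ^ (e ^ k) ∈
      Subgroup.closure (Set.image2 (fun s t : G => ⁅s, t⁆) SA S) := by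
  obtain ⟨C, hC⟩ : ∃ C, C = Subgroup.closure (Set.image2 (fun s t : G => ⁅s, t⁆) SA S) := ⟨_, rfl⟩
  rw [← hC]

  have st1 : ∀ s ∈ SA, ∀ b ∈ Subgroup.closure S ⊔ ⁅(⊤ : Subgroup G), (⊤ : Subgroup G)⁆,
      ⁅s, b⁆ ∈ C := by
    intro s hs b hb
    have hle : Subgroup.closure S ⊔ ⁅(⊤ : Subgroup G), (⊤ : Subgroup G)⁆ ≤
        C.comap (nlR s (hAc s (hSA hs))) := by
      refine sup_le ?_ ?_
      · rw [Subgroup.closure_le]
        intro t ht
        show ⁅s, t⁆ ∈ C
        rw [hC]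
        exact Subgroup.subset_closure ⟨s, hs, t, ht, rfl⟩
      · rw [Subgroup.commutator_le]
        intro x _ y _
        show (nlR s (hAc s (hSA hs))) ⁅x, y⁆ ∈ C
        rw [map_commutatorElement]
        have : ⁅(nlR s (hAc s (hSA hs))) x, (nlR s (hAc s (hSA hs))) y⁆ = 1 := by
          rw [commutatorElement_eq_one_iff_mul_comm]
          exact ((Subgroup.mem_center_iff.1 (hAc s (hSA hs) x)) _).symm
        rw [this]
        exact C.one_mem
    exact hle hb

  have st2 : ∀ b ∈ Subgroup.closure S ⊔ ⁅(⊤ : Subgroup G), (⊤ : Subgroup G)⁆,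
      ∀ a ∈ Subgroup.closure SA ⊔ Z, ⁅a, b⁆ ∈ C := by
    intro b hb a ha
    have hle : Subgroup.closure SA ⊔ Z ≤
        (C.comap (nlL A b (fun a ha => hAc a ha b))).map A.subtype := by
      refine sup_le ?_ ?_
      · rw [Subgroup.closure_le]
        intro t ht
        refine ⟨⟨t, hSA ht⟩, ?_, rfl⟩
        exact st1 t ht b hb
      · intro z hz
        refine ⟨⟨z, hZA hz⟩, ?_, rfl⟩
        show ⁅z, b⁆ ∈ C
        have : ⁅z, b⁆ = 1 := by
          rw [commutatorElement_eq_one_iff_mul_comm]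
          exact ((Subgroup.mem_center_iff.1 (hZ hz)) b).symm
        rw [this]
        exact C.one_mem
    obtain ⟨a', ha', rfl⟩ := hle ha
    exact ha'

  have st3 : ∀ a ∈ A, ∀ b : G, ∃ k : ℕ, ⁅a, b⁆ ^ (e ^ k) ∈ C := by
    intro a ha b
    obtain ⟨k, hk⟩ := h1 a ha
    obtain ⟨l, hl⟩ := h2 b
    refine ⟨k + l, ?_⟩
    have h3 := st2 _ hl _ hk
    have e1 : ⁅a ^ (e ^ k), b ^ (e ^ l)⁆ = ⁅a, b ^ (e ^ l)⁆ ^ (e ^ k) :=
      map_pow (nlL A (b ^ (e ^ l)) (fun a ha => hAc a ha _)) ⟨a, ha⟩ (e ^ k)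
    have e2 : ⁅a, b ^ (e ^ l)⁆ = ⁅a, b⁆ ^ (e ^ l) := map_pow (nlR a (hAc a ha)) b (e ^ l)
    rw [e1, e2, ← pow_mul] at h3
    rw [pow_add, mul_comm]
    exact h3

  let T : Subgroup G :=
    { carrier := {z | z ∈ Subgroup.center G ∧ ∃ k : ℕ, z ^ (e ^ k) ∈ C}
      one_mem' := ⟨Subgroup.one_mem _, 0, by rw [one_pow]; exact C.one_mem⟩
      mul_mem' := by
        rintro x y ⟨hx, k, hk⟩ ⟨hy, l, hl⟩
        refine ⟨Subgroup.mul_mem _ hx hy, k + l, ?_⟩
        have hc : Commute x y := (Subgroup.mem_center_iff.1 hy) x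
        rw [hc.mul_pow]
        refine C.mul_mem ?_ ?_
        · rw [pow_add, pow_mul]
          exact C.pow_mem hk _
        · rw [pow_add, mul_comm, pow_mul]
          exact C.pow_mem hl _
      inv_mem' := by
        rintro x ⟨hx, k, hk⟩
        refine ⟨Subgroup.inv_mem _ hx, k, ?_⟩
        rw [inv_pow]
        exact C.inv_mem hk }
  have hT : ⁅A, (⊤ : Subgroup G)⁆ ≤ T := by
    rw [Subgroup.commutator_le]
    intro a ha b _
    exact ⟨hAc a ha b, st3 a ha b⟩
  intro z hz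
  exact (hT hz).2

private lemma nl_central {N : Type} [Group N] (M K : Subgroup N) [K.Normal]
    (h : ⁅M, (⊤ : Subgroup N)⁆ ≤ K) : M.map (QuotientGroup.mk' K) ≤ Subgroup.center (N ⧸ K) := by
  rintro _ ⟨c, hc, rfl⟩
  rw [Subgroup.mem_center_iff]
  intro g
  obtain ⟨w, rfl⟩ := QuotientGroup.mk'_surjective K g
  rw [← map_mul, ← map_mul, QuotientGroup.mk'_apply, QuotientGroup.mk'_apply, QuotientGroup.eq]
  have h1 : ⁅c⁻¹, w⁻¹⁆ ∈ K := h (Subgroup.commutator_mem_commutator (M.inv_mem hc) (Subgroup.mem_top _))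
  have e1 : (w * c)⁻¹ * (c * w) = ⁅c⁻¹, w⁻¹⁆ := by
    simp only [commutatorElement_def]; group
  rw [e1]
  exact h1

private lemma nl_step {N : Type} [Group N] (e : ℕ) (S : Finset N) (h : ∀ a : N, ∃ k : ℕ,
      a ^ (e ^ k) ∈ Subgroup.closure (S : Set N) ⊔ ⁅(⊤ : Subgroup N), (⊤ : Subgroup N)⁆) (i : ℕ) :
    ∃ T : Finset N, (T : Set N) ⊆ (⊤ : Subgroup N).lowerCentralSeries i ∧
      ∀ a ∈ (⊤ : Subgroup N).lowerCentralSeries i, ∃ k : ℕ,
        a ^ (e ^ k) ∈ Subgroup.closure (T : Set N) ⊔ (⊤ : Subgroup N).lowerCentralSeries (i + 1) := by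
  classical
  induction i with
  | zero =>
    refine ⟨S, fun _ _ => Subgroup.mem_top _, ?_⟩
    intro a _
    exact h a
  | succ i ih =>
    obtain ⟨T, hT, hTa⟩ := ih
    obtain ⟨M0, hM0⟩ : ∃ M, M = (⊤ : Subgroup N).lowerCentralSeries i := ⟨_, rfl⟩
    obtain ⟨M1, hM1⟩ : ∃ M, M = (⊤ : Subgroup N).lowerCentralSeries (i + 1) := ⟨_, rfl⟩
    obtain ⟨K, hK⟩ : ∃ M, M = (⊤ : Subgroup N).lowerCentralSeries (i + 1 + 1) := ⟨_, rfl⟩
    have e01 : ⁅M0, (⊤ : Subgroup N)⁆ = M1 := by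
      rw [hM0, hM1]; rfl
    have e12 : ⁅M1, (⊤ : Subgroup N)⁆ = K := by
      rw [hK, hM1]; rfl
    have hKn : K.Normal := by rw [hK]; infer_instance
    have h10 : M1 ≤ M0 := by
      rw [hM1, hM0]
      exact (⊤ : Subgroup N).lowerCentralSeries_antitone (Nat.le_succ i)
    rw [← hM0] at hT hTa
    rw [← hM1] at hTa ⊢
    rw [← hK]
    refine ⟨Finset.image₂ (fun s t : N => ⁅s, t⁆) T S, ?_, ?_⟩
    · rw [Finset.coe_image₂]
      rintro _ ⟨s, hs, t, ht, rfl⟩
      rw [← e01]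
      exact Subgroup.commutator_mem_commutator (hT hs) (Subgroup.mem_top _)
    · obtain ⟨π, hπ⟩ : ∃ π, π = QuotientGroup.mk' K := ⟨_, rfl⟩
      have hsurj : Function.Surjective π := by rw [hπ]; exact QuotientGroup.mk'_surjective K
      have hcen : M1.map π ≤ Subgroup.center (N ⧸ K) := by
        rw [hπ]
        exact nl_central M1 K e12.le
      have hcom : ⁅M0.map π, (⊤ : Subgroup (N ⧸ K))⁆ = M1.map π := by
        rw [← Subgroup.map_top_of_surjective π hsurj, ← Subgroup.map_commutator, e01]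
      intro z hz
      have key := nl_key e (M0.map π) (M1.map π) (fun a ha b => hcen (by
          rw [← hcom]; exact Subgroup.commutator_mem_commutator ha (Subgroup.mem_top _)))
        (Subgroup.map_mono h10) hcen (π '' T) (π '' S) (Set.image_mono hT) (by
          rintro _ ⟨a, ha, rfl⟩
          obtain ⟨k, hk⟩ := hTa a ha
          refine ⟨k, ?_⟩
          rw [← map_pow, ← MonoidHom.map_closure, ← Subgroup.map_sup]
          exact Subgroup.mem_map_of_mem π hk) (by
          intro b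
          obtain ⟨b, rfl⟩ := hsurj b
          obtain ⟨k, hk⟩ := h b
          refine ⟨k, ?_⟩
          rw [← map_pow, ← MonoidHom.map_closure, ← Subgroup.map_top_of_surjective π hsurj,
            ← Subgroup.map_commutator, ← Subgroup.map_sup]
          exact Subgroup.mem_map_of_mem π hk) (π z) (by
          rw [hcom]; exact Subgroup.mem_map_of_mem π hz)
      obtain ⟨k, hk⟩ := key
      refine ⟨k, ?_⟩
      have e3 : Set.image2 (fun s t : N ⧸ K => ⁅s, t⁆) (π '' T) (π '' S) =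
          π '' (Set.image2 (fun s t : N => ⁅s, t⁆) T S) := by
        rw [Set.image_image2, Set.image2_image_left, Set.image2_image_right]
        simp only [map_commutatorElement]
      rw [e3, ← MonoidHom.map_closure, ← map_pow] at hk
      have h4 : z ^ (e ^ k) ∈ ((Subgroup.closure (Set.image2 (fun s t : N => ⁅s, t⁆) T S)).map
          π).comap π := hk
      rw [Subgroup.comap_map_eq, hπ, QuotientGroup.ker_mk'] at h4
      rw [Finset.coe_image₂]
      exact h4

private lemma nl_main {N : Type} [Group N] (hn : Group.IsNilpotent N) (e : ℕ)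
    (S : Finset N) (h : ∀ a : N, ∃ k : ℕ,
      a ^ (e ^ k) ∈ Subgroup.closure (S : Set N) ⊔ ⁅(⊤ : Subgroup N), (⊤ : Subgroup N)⁆) :
    PCT e N := by
  classical
  obtain ⟨c, hc⟩ := Subgroup.nilpotent_iff_lowerCentralSeries.1 hn
  have key : ∀ j i : ℕ, c ≤ i + j → PCT e ((⊤ : Subgroup N).lowerCentralSeries i) := by
    intro j
    induction j with
    | zero =>
      intro i hi
      have h1 : (⊤ : Subgroup N).lowerCentralSeries i = ⊥ := by
        rw [eq_bot_iff, ← hc]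
        exact (⊤ : Subgroup N).lowerCentralSeries_antitone (by omega)
      rw [h1]
      exact PCT.triv _ inferInstance
    | succ j ih =>
      intro i hi
      have h1 := ih (i + 1) (by omega)
      obtain ⟨T, hT, hTa⟩ := nl_step e S h i
      obtain ⟨M0, hM0⟩ : ∃ M, M = (⊤ : Subgroup N).lowerCentralSeries i := ⟨_, rfl⟩
      obtain ⟨M1, hM1⟩ : ∃ M, M = (⊤ : Subgroup N).lowerCentralSeries (i + 1) := ⟨_, rfl⟩
      have e01 : ⁅M0, (⊤ : Subgroup N)⁆ = M1 := by
        rw [hM0, hM1]; rfl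
      have hM1n : M1.Normal := by rw [hM1]; infer_instance
      have h10 : M1 ≤ M0 := by
        rw [hM1, hM0]
        exact (⊤ : Subgroup N).lowerCentralSeries_antitone (Nat.le_succ i)
      rw [← hM0] at hT hTa ⊢
      rw [← hM1] at hTa h1
      have hsub : PCT e (M1.subgroupOf M0) :=
        h1.of_injective (Subgroup.subgroupOfEquivOfLe h10).toMonoidHom
          (Subgroup.subgroupOfEquivOfLe h10).injective
      refine PCT.extn (M1.subgroupOf M0) hsub ?_
      have hcomm : ∀ a b : M0 ⧸ M1.subgroupOf M0, a * b = b * a := by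
        intro a b
        obtain ⟨a, rfl⟩ := QuotientGroup.mk'_surjective _ a
        obtain ⟨b, rfl⟩ := QuotientGroup.mk'_surjective _ b
        rw [← map_mul, ← map_mul, QuotientGroup.mk'_apply, QuotientGroup.mk'_apply,
          QuotientGroup.eq, Subgroup.mem_subgroupOf]
        have h5 : ⁅b.1⁻¹, a.1⁻¹⁆ ∈ M1 := by
          rw [← e01]
          exact Subgroup.commutator_mem_commutator (M0.inv_mem b.2) (Subgroup.mem_top _)
        have e5 : (((a * b)⁻¹ * (b * a) : M0) : N) = ⁅b.1⁻¹, a.1⁻¹⁆ := by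
          simp only [commutatorElement_def, Subgroup.coe_mul, Subgroup.coe_inv]; group
        rw [e5]
        exact h5
      let _ : CommGroup (M0 ⧸ M1.subgroupOf M0) :=
        { (inferInstance : Group (M0 ⧸ M1.subgroupOf M0)) with mul_comm := hcomm }
      let F : Finset (M0 ⧸ M1.subgroupOf M0) :=
        (T.attach.image fun t => QuotientGroup.mk' (M1.subgroupOf M0) ⟨t.1, hT t.2⟩)
      refine PCT.of_good (A := M0 ⧸ M1.subgroupOf M0) F ?_
      intro a
      obtain ⟨a, rfl⟩ := QuotientGroup.mk'_surjective _ a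
      obtain ⟨k, hk⟩ := hTa a.1 a.2
      refine ⟨k, ?_⟩

      have h6 : Subgroup.closure (T : Set N) ⊔ M1 ≤
          ((Subgroup.closure (F : Set (M0 ⧸ M1.subgroupOf M0))).comap
            (QuotientGroup.mk' (M1.subgroupOf M0))).map M0.subtype := by
        refine sup_le ?_ ?_
        · rw [Subgroup.closure_le]
          intro t ht
          refine ⟨⟨t, hT ht⟩, ?_, rfl⟩
          refine Subgroup.subset_closure ?_
          rw [Finset.mem_coe]
          exact Finset.mem_image.2 ⟨⟨t, ht⟩, Finset.mem_attach _ _, rfl⟩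
        · intro z hz
          refine ⟨⟨z, h10 hz⟩, ?_, rfl⟩
          show (QuotientGroup.mk' (M1.subgroupOf M0)) ⟨z, h10 hz⟩ ∈
            Subgroup.closure (F : Set (M0 ⧸ M1.subgroupOf M0))
          have : (QuotientGroup.mk' (M1.subgroupOf M0)) ⟨z, h10 hz⟩ = 1 := by
            rw [QuotientGroup.mk'_apply, QuotientGroup.eq_one_iff, Subgroup.mem_subgroupOf]
            exact hz
          rw [this]
          exact Subgroup.one_mem _
      obtain ⟨y, hy, hya⟩ := h6 hk
      have hya' : y = a ^ (e ^ k) := Subtype.ext hya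
      rw [hya'] at hy
      exact hy
  have h0 := key c 0 (by omega)
  exact h0.of_injective (Subgroup.topEquiv (G := N)).symm.toMonoidHom
    (Subgroup.topEquiv (G := N)).symm.injective

end nl

theorem PCT.of_nilpotent {N : Type} [Group N] (hn : Group.IsNilpotent N) (e : ℕ)
    (S : Finset N) (h : ∀ a : N, ∃ k : ℕ,
      a ^ (e ^ k) ∈ Subgroup.closure (S : Set N) ⊔ ⁅(⊤ : Subgroup N), (⊤ : Subgroup N)⁆) :
    PCT e N := by
  exact nl_main hn e S h

end Pool.Agent.H652.SR
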