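import Mathlib
import Pool.Agent.H652.SR.Defs
import Pool.Agent.H652.SR.Jgoodab
import Pool.Agent.H652.SR.Jmalcev
import Pool.Agent.H652.SR.Jpcta
import Pool.Agent.H652.SR.Jpctb
import Pool.Agent.H652.SR.Jpctc
import Pool.Agent.H652.SR.Jshba
import Pool.Agent.H652.SR.Jvpta

set_option autoImplicit false

open scoped IsMulCommutative

namespace Pool.Agent.H652.SR

theorem sp {K : Type} [Group K] (hfg : Group.FG K) (hs : Group.IsSolvable K) {n : ℕ} (h : VPT K n) :
    ∃ e : ℕ, 0 < e ∧ PCT e K := by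
  classical
  obtain ⟨K1, N, hK1n, hK1i, hNn, hNK, hnil, hcomm⟩ := malcev hs h
  haveI := hK1n
  haveI := hNn
  haveI : K1.FiniteIndex := ⟨hK1i⟩
  have hK1fg : Group.FG K1 := by
    haveI := hfg
    exact Subgroup.fg_of_index_ne_zero K1
  have hN' : ⁅(⊤ : Subgroup K1), (⊤ : Subgroup K1)⁆ ≤ N.subgroupOf K1 := by
    rw [Subgroup.commutator_le]
    intro a _ b _
    rw [Subgroup.mem_subgroupOf]
    exact hcomm (Subgroup.commutator_mem_commutator a.2 b.2)
  have hshbN' : SHB (N.subgroupOf K1) n :=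
    h.shb.of_injective ((K1.subtype).comp (N.subgroupOf K1).subtype)
      (by
        rw [MonoidHom.coe_comp]
        exact (Subgroup.subtype_injective _).comp (Subgroup.subtype_injective _))
  obtain ⟨e1, he1, S, hSN, hS⟩ := good_ab hK1fg (N.subgroupOf K1) hN' n hshbN'
  have hnil' : Group.IsNilpotent (N.subgroupOf K1) := by
    haveI := hnil
    exact Group.nilpotent_of_mulEquiv (Subgroup.subgroupOfEquivOfLe hNK).symm
  have hPN : PCT e1 (N.subgroupOf K1) := by
    let S' : Finset (N.subgroupOf K1) := S.attach.image fun s => ⟨s.1, hSN s.1 s.2⟩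
    apply PCT.of_nilpotent hnil' e1 S'
    intro a
    obtain ⟨k, hk⟩ := hS a.1 a.2
    refine ⟨k, ?_⟩
    have hmap : (Subgroup.closure (S' : Set (N.subgroupOf K1)) ⊔
        ⁅(⊤ : Subgroup (N.subgroupOf K1)), (⊤ : Subgroup (N.subgroupOf K1))⁆).map
          (N.subgroupOf K1).subtype =
        Subgroup.closure (S : Set K1) ⊔ ⁅N.subgroupOf K1, N.subgroupOf K1⁆ := by
      rw [Subgroup.map_sup, MonoidHom.map_closure, Subgroup.map_commutator]
      congr 1
      · congr 1
        ext x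
        constructor
        · rintro ⟨y, hy, rfl⟩
          rw [Finset.mem_coe] at hy
          obtain ⟨z, -, hz2⟩ := Finset.mem_image.1 hy
          rw [← hz2]
          exact z.2
        · intro hx
          refine ⟨⟨x, hSN x hx⟩, ?_, rfl⟩
          rw [Finset.mem_coe]
          exact Finset.mem_image.2 ⟨⟨x, hx⟩, Finset.mem_attach _ _, rfl⟩
      · simp [← MonoidHom.range_eq_map]
    have h1 : (N.subgroupOf K1).subtype (a ^ (e1 ^ k)) ∈
        (Subgroup.closure (S' : Set (N.subgroupOf K1)) ⊔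
        ⁅(⊤ : Subgroup (N.subgroupOf K1)), (⊤ : Subgroup (N.subgroupOf K1))⁆).map
          (N.subgroupOf K1).subtype := by
      rw [hmap]
      simpa using hk
    exact (Subgroup.mem_map_iff_mem (Subgroup.subtype_injective _)).1 h1
  refine ⟨e1 * K1.index, Nat.mul_pos he1 (Nat.pos_of_ne_zero hK1i), ?_⟩
  refine PCT.of_index K1 ?_ (Dvd.intro_left _ rfl)
  refine PCT.mono (Dvd.intro _ rfl) (?_ : PCT e1 K1)
  refine PCT.extn (N.subgroupOf K1) hPN ?_

  have hcq : ∀ a b : K1 ⧸ (N.subgroupOf K1), a * b = b * a := by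
    intro a b
    obtain ⟨x, rfl⟩ := QuotientGroup.mk_surjective a
    obtain ⟨y, rfl⟩ := QuotientGroup.mk_surjective b
    rw [← QuotientGroup.mk_mul, ← QuotientGroup.mk_mul, QuotientGroup.eq]
    have h2 := hN' (Subgroup.commutator_mem_commutator (Subgroup.mem_top y⁻¹)
      (Subgroup.mem_top x⁻¹))
    have h3 : (x * y)⁻¹ * (y * x) = y⁻¹ * x⁻¹ * (y⁻¹)⁻¹ * (x⁻¹)⁻¹ := by
      group
    rw [h3]; exact h2
  letI : CommGroup (K1 ⧸ (N.subgroupOf K1)) :=
    { (inferInstance : Group (K1 ⧸ (N.subgroupOf K1))) with mul_comm := hcq }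
  haveI := hK1fg
  obtain ⟨T, hT⟩ := (Group.fg_def.1 (inferInstance : Group.FG (K1 ⧸ (N.subgroupOf K1))))
  exact PCT.of_good T (fun a => ⟨0, by rw [hT]; trivial⟩)

end Pool.Agent.H652.SR
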