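import Mathlib
import Pool.Agent.H652.SR.Defs
import Pool.Agent.H652.SR.Jbp
import Pool.Agent.H652.SR.Jpcta
import Pool.Agent.H652.SR.Js1
import Pool.Agent.H652.SR.Jshba
import Pool.Agent.H652.SR.Jshbc
import Pool.Agent.H652.SR.Jshbd
import Pool.Agent.H652.SR.Jsp
import Pool.Agent.H652.SR.Jvpta

set_option autoImplicit false

open scoped IsMulCommutative

namespace Pool.Agent.H652.SR

private theorem mem_prod {A : Type} [CommGroup A] {r : ℕ} (x : Fin r → A) {a : A}
    (ha : a ∈ Subgroup.closure (Set.range x)) : ∃ c : Fin r → ℤ, a = ∏ j, x j ^ c j := by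
  induction ha using Subgroup.closure_induction with
  | mem a h =>
    obtain ⟨j, rfl⟩ := h
    refine ⟨Pi.single j 1, ?_⟩
    rw [Finset.prod_eq_single j]
    · simp
    · intro k _ hk
      simp [Pi.single_eq_of_ne hk]
    · simp
  | one => exact ⟨0, by simp⟩
  | mul a b _ _ h1 h2 =>
    obtain ⟨c, rfl⟩ := h1
    obtain ⟨c', rfl⟩ := h2
    exact ⟨c + c', by simp [zpow_add, Finset.prod_mul_distrib]⟩
  | inv a _ h =>
    obtain ⟨c, rfl⟩ := h
    exact ⟨-c, by simp⟩

private theorem card_aux {Q : Type} [Group Q] (hc : ∀ a b : Q, a * b = b * a) (r p : ℕ) (hp : 0 < p)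
    (hx : NGen Q r) (h3 : ∀ a : Q, a ^ p = 1) :
    Nat.card Q ≤ p ^ r := by
  obtain ⟨x, hx⟩ := hx
  letI : CommGroup Q := { ‹Group Q› with mul_comm := hc }
  let F : (Fin r → Fin p) → Q := fun i => ∏ j, x j ^ (i j : ℕ)
  have hF : Function.Surjective F := by
    intro a
    obtain ⟨c, rfl⟩ := mem_prod x (show a ∈ Subgroup.closure (Set.range x) by rw [hx]; trivial)
    have hp' : (0 : ℤ) < p := by exact_mod_cast hp
    refine ⟨fun j => ⟨(c j % p).toNat, ?_⟩, ?_⟩
    · have h1 := Int.emod_lt_of_pos (c j) hp'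
      have h2 := Int.emod_nonneg (c j) hp'.ne'
      omega
    · apply Finset.prod_congr rfl
      intro j _
      have h2 := Int.emod_nonneg (c j) hp'.ne'
      change x j ^ (c j % p).toNat = x j ^ c j
      rw [← zpow_natCast, Int.toNat_of_nonneg h2]
      conv_rhs => rw [← Int.mul_ediv_add_emod (c j) p, zpow_add, zpow_mul, zpow_natCast, h3,
        one_zpow, one_mul]
  have h1 := Nat.card_le_card_of_surjective F hF
  simpa using h1

private theorem NGen.of_surj {G G' : Type} [Group G] [Group G'] {r : ℕ} (h : NGen G r) (f : G →* G')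
    (hf : Function.Surjective f) : NGen G' r := by
  obtain ⟨x, hx⟩ := h
  refine ⟨f ∘ x, ?_⟩
  rw [Set.range_comp, ← MonoidHom.map_closure, hx, ← MonoidHom.range_eq_map,
    MonoidHom.range_eq_top.mpr hf]

private theorem fg_map {G G' : Type} [Group G] [Group G'] {K : Subgroup G} (h : K.FG) (f : G →* G') :
    (K.map f).FG := by
  classical
  obtain ⟨S, rfl⟩ := h
  exact ⟨S.image f, by rw [Finset.coe_image, MonoidHom.map_closure]⟩

private theorem hyp_inj {G H : Type} [Group G] [Group H] {r : ℕ}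
    (h : ∀ K : Subgroup H, K.FG → NGen K r) (f : G →* H) (hf : Function.Injective f) :
    ∀ K : Subgroup G, K.FG → NGen K r := fun K hK =>
  (h _ (fg_map hK f)).of_surj (K.equivMapOfInjective f hf).symm.toMonoidHom
    (K.equivMapOfInjective f hf).symm.surjective

private theorem hyp_surj {G H : Type} [Group G] [Group H] {r : ℕ}
    (h : ∀ K : Subgroup G, K.FG → NGen K r) (f : G →* H) (hf : Function.Surjective f) :
    ∀ K : Subgroup H, K.FG → NGen K r := by
  classical
  rintro K ⟨S, rfl⟩
  choose g hg using hf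
  have h1 : Subgroup.closure (S : Set H) =
      (Subgroup.closure ((S.image g : Finset G) : Set G)).map f := by
    rw [MonoidHom.map_closure, Finset.coe_image, ← Set.image_comp]
    congr 1
    have : f ∘ g = id := funext hg
    rw [this, Set.image_id]
  rw [h1]
  exact (h _ ⟨_, rfl⟩).of_surj (f.subgroupMap _) (f.subgroupMap_surjective _)

theorem card_le_of_ngen {X : Type} [Group X] (L M : Subgroup X) (r p : ℕ) (hp : 0 < p)
    (hL : NGen L r) (hM : M ≤ L) (h1 : ∀ g ∈ L, ∀ m ∈ M, g * m * g⁻¹ ∈ M)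
    (h2 : ∀ a ∈ L, ∀ b ∈ L, a * b * a⁻¹ * b⁻¹ ∈ M) (h3 : ∀ a ∈ L, a ^ p ∈ M) :
    M.relIndex L ≤ p ^ r := by
  haveI hN : (M.subgroupOf L).Normal := ⟨fun n hn g => by
    rw [Subgroup.mem_subgroupOf] at hn ⊢
    exact h1 g g.2 n hn⟩
  change Nat.card (L ⧸ M.subgroupOf L) ≤ p ^ r
  apply card_aux _ r p hp (hL.of_surj (QuotientGroup.mk' _) (QuotientGroup.mk'_surjective _))
  · intro a
    obtain ⟨a, rfl⟩ := QuotientGroup.mk'_surjective _ a
    rw [← map_pow, QuotientGroup.mk'_apply, QuotientGroup.eq_one_iff, Subgroup.mem_subgroupOf]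
    exact h3 a a.2
  · intro a b
    obtain ⟨a, rfl⟩ := QuotientGroup.mk'_surjective _ a
    obtain ⟨b, rfl⟩ := QuotientGroup.mk'_surjective _ b
    have h4 : QuotientGroup.mk' (M.subgroupOf L) (a * b * a⁻¹ * b⁻¹) = 1 := by
      rw [QuotientGroup.mk'_apply, QuotientGroup.eq_one_iff, Subgroup.mem_subgroupOf]
      exact h2 a a.2 b b.2
    rw [map_mul, map_mul, map_inv, map_inv, map_mul, mul_inv_eq_one, mul_inv_eq_iff_eq_mul] at h4
    exact h4

private theorem shb_comm (A : Type) [CommGroup A] (r : ℕ) (h : ∀ K : Subgroup A, K.FG → NGen K r) :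
    SHB A r := by
  classical
  apply SHB.of_rank
  apply rank_le
  intro s hs
  set K : Subgroup A := Subgroup.closure ((s.image Additive.toMul : Finset A) : Set A) with hKdef
  have hK : K.FG := ⟨s.image Additive.toMul, rfl⟩
  obtain ⟨x, hx⟩ := h K hK
  have h1 : ∀ a ∈ K, a ∈ Subgroup.closure (Set.range (fun j => (x j : A))) := by
    intro a ha
    have h2 : (⟨a, ha⟩ : K) ∈ Subgroup.closure (Set.range x) := by rw [hx]; trivial
    have h3 := Subgroup.mem_map_of_mem K.subtype h2
    rw [MonoidHom.map_closure, ← Set.range_comp] at h3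
    exact h3
  have h2 : Set.range (fun i : s => (i : Additive A)) ≤
      Submodule.span ℤ (Set.range (fun j => Additive.ofMul (x j : A))) := by
    rintro _ ⟨i, rfl⟩
    have hi : Additive.toMul (i : Additive A) ∈ K :=
      Subgroup.subset_closure (by
        rw [Finset.coe_image]
        exact ⟨i, i.2, rfl⟩)
    obtain ⟨c, hc⟩ := mem_prod _ (h1 _ hi)
    have h4 : (i : Additive A) = ∑ j, c j • Additive.ofMul (x j : A) := by
      apply Additive.toMul.injective
      rw [hc]
      simp [toMul_sum]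
    change (i : Additive A) ∈ Submodule.span ℤ (Set.range (fun j => Additive.ofMul (x j : A)))
    rw [h4]
    exact Submodule.sum_mem _ (fun j _ => Submodule.smul_mem _ _ (Submodule.subset_span ⟨j, rfl⟩))
  have h3 := linearIndependent_le_span_aux' _ hs (Set.range fun j => Additive.ofMul (x j : A)) h2
  have h4 := Fintype.card_le_of_surjective
    (Set.rangeFactorization fun j => Additive.ofMul (x j : A)) Set.rangeFactorization_surjective
  simp only [Fintype.card_coe, Fintype.card_fin] at h3 h4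
  omega

private theorem shb_comm' (A : Type) [inst : Group A] (hc : ∀ a b : A, a * b = b * a) (r : ℕ)
    (h : ∀ K : Subgroup A, K.FG → NGen K r) : SHB A r :=
  @shb_comm A { inst with mul_comm := hc } r h

private theorem shb_aux (r : ℕ) : ∀ d : ℕ, ∀ (H : Type) [Group H], derivedSeries H d = ⊥ →
    (∀ K : Subgroup H, K.FG → NGen K r) → ∃ N, SHB H N := by
  intro d
  induction d with
  | zero =>
    intro H _ hd h
    refine ⟨0, SHB.of_torsion fun g => ?_⟩
    have h1 : g ∈ (⊥ : Subgroup H) := by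
      rw [← hd, derivedSeries_zero]
      trivial
    rw [Subgroup.mem_bot] at h1
    rw [h1]
    exact IsOfFinOrder.one
  | succ d ih =>
    intro H _ hd h
    haveI hA : (derivedSeries H d).Normal := derivedSeries_normal H d
    have hcomm : ∀ a b : derivedSeries H d, a * b = b * a := by
      intro a b
      rw [derivedSeries_succ, Subgroup.commutator_eq_bot_iff_le_centralizer] at hd
      have h1 := hd b.2
      rw [Subgroup.mem_centralizer_iff] at h1
      exact Subtype.ext (h1 a a.2)
    have h1 : SHB (derivedSeries H d) r :=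
      shb_comm' _ hcomm r (hyp_inj h (derivedSeries H d).subtype (Subgroup.subtype_injective _))
    obtain ⟨N, hN⟩ := ih (H ⧸ derivedSeries H d)
      (by
        rw [← map_derivedSeries_eq (QuotientGroup.mk'_surjective (derivedSeries H d))]
        rw [Subgroup.map_eq_bot_iff, QuotientGroup.ker_mk'])
      (hyp_surj h (QuotientGroup.mk' _) (QuotientGroup.mk'_surjective _))
    exact ⟨r + N, SHB.ext _ h1 hN⟩

theorem shb_of_rank (H : Type) [Group H] (hs : Group.IsSolvable H) (r : ℕ)
    (h : ∀ K : Subgroup H, K.FG → NGen K r) : ∃ N : ℕ, SHB H N := by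
  obtain ⟨d, hd⟩ := hs
  exact shb_aux r d H hd h

theorem claimB (H : Type) [Group H] (hs : Group.IsSolvable H) (htf : TF H) (r : ℕ)
    (h : ∀ K : Subgroup H, K.FG → NGen K r) : SHB H r := by
  classical
  intro m hm
  obtain ⟨l, L, hL, s, hs1, hs2⟩ := hm
  have hg : ∀ i, ∃ g : H, i ∈ s → g ∈ L (i + 1) ∧ ∀ k : ℕ, 0 < k → g ^ k ∉ L i := by
    intro i
    by_cases hi : i ∈ s
    · obtain ⟨g, h1, h2⟩ := (hs1 i hi).2
      exact ⟨g, fun _ => ⟨h1, h2⟩⟩
    · exact ⟨1, fun h => absurd h hi⟩
  choose g hg using hg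
  set K : Subgroup H := Subgroup.closure ((s.image g : Finset H) : Set H) with hKdef
  have hKfg : K.FG := ⟨s.image g, rfl⟩
  have hgK : ∀ i ∈ s, g i ∈ K := fun i hi => Subgroup.subset_closure (by
    rw [Finset.coe_image]
    exact ⟨i, hi, rfl⟩)
  have hchain : HasChain K m := by
    refine ⟨l, fun i => (L i).subgroupOf K, ?_, s, ?_, hs2⟩
    · intro i hi
      refine ⟨fun x hx => ?_, fun x hx y hy => ?_⟩
      · rw [Subgroup.mem_subgroupOf] at hx ⊢
        exact (hL i hi).1 hx
      · rw [Subgroup.mem_subgroupOf] at hx hy ⊢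
        exact (hL i hi).2 _ hx _ hy
    · intro i hi
      refine ⟨(hs1 i hi).1, ⟨g i, hgK i hi⟩, ?_, ?_⟩
      · rw [Subgroup.mem_subgroupOf]
        exact (hg i hi).1
      · intro k hk h1
        rw [Subgroup.mem_subgroupOf] at h1
        exact (hg i hi).2 k hk h1
  haveI := hs
  have hKs : Group.IsSolvable K := inferInstance
  have hKtf : TF K := by
    intro x hx
    exact Subtype.ext (htf x ((Submonoid.isOfFinOrder_coe (H := K.toSubmonoid)).mpr hx))
  obtain ⟨N0, hN0⟩ := shb_of_rank H hs r h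
  have hKN : SHB K N0 := hN0.of_injective K.subtype K.subtype_injective
  obtain ⟨c, hc⟩ := s1 K hKs N0 hKN (by
    intro N _ hN
    rw [Subgroup.eq_bot_iff_forall]
    intro x hx
    exact hKtf x (hN x hx))
  haveI hKfg' : Group.FG K := (Group.fg_iff_subgroup_fg K).mpr hKfg
  obtain ⟨e, he, hPCT⟩ := sp hKfg' hKs hc
  obtain ⟨X, hXn, hXi, hXPR⟩ := hc.exists_PR
  have hmc : m ≤ c := hc.shb m hchain
  obtain ⟨p, hpe, hp⟩ := Nat.exists_infinite_primes (e + 1)
  have hpe' : ¬ p ∣ e := fun h1 => by
    have := Nat.le_of_dvd he h1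
    omega
  obtain ⟨L', M', hLi, hML, b1, b2, b3, b4, b5⟩ := bp hXPR e he
    (hPCT.of_injective X.subtype X.subtype_injective) p hp hpe'
  have hLfin : (L'.map X.subtype).index ≠ 0 := by
    rw [Subgroup.index_map_subtype]
    exact mul_ne_zero hLi hXi
  haveI : (L'.map X.subtype).FiniteIndex := ⟨hLfin⟩
  have hLfg : (L'.map X.subtype).FG := (Group.fg_iff_subgroup_fg _).mp inferInstance
  have hNG1 : NGen (L'.map X.subtype) r := hyp_inj h K.subtype K.subtype_injective _ hLfg
  have hNG : NGen L' r := hNG1.of_surj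
    (L'.equivMapOfInjective X.subtype X.subtype_injective).symm.toMonoidHom
    (L'.equivMapOfInjective X.subtype X.subtype_injective).symm.surjective
  have hfin := card_le_of_ngen L' M' r p hp.pos hNG hML b1 b2 b3
  have := (Nat.pow_le_pow_iff_right hp.one_lt).mp (b5.trans hfin)
  omega

end Pool.Agent.H652.SR
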