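import Mathlib
import Pool.Agent.H652.SR.Defs
import Pool.Agent.H652.SR.Jsylow

set_option autoImplicit false

open scoped IsMulCommutative

namespace Pool.Agent.H652.SR

private theorem dim2_key {M : Type} [AddCommGroup M] (htf : ∀ (n : ℤ) (x : M), n ≠ 0 → n • x = 0 → x = 0)
    (hr : Module.rank ℤ M ≤ 2) (σ : M →+ M) (m : ℕ) (hm : 0 < m) (hσ : ∀ x, σ^[m] x = x)
    (v : M) (hv : v ≠ 0) (hσv : σ v = v) (a : M) : σ (σ a) = a := by

  let N : M → M := fun x => ∑ i ∈ Finset.range m, σ^[i] x
  have hNdef : ∀ x, N x = ∑ i ∈ Finset.range m, σ^[i] x := fun x => rfl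
  have hit_add : ∀ (i : ℕ) (x y : M), σ^[i] (x + y) = σ^[i] x + σ^[i] y := by
    intro i x y
    exact iterate_map_add σ i x y
  have hit_smul : ∀ (i : ℕ) (n : ℤ) (x : M), σ^[i] (n • x) = n • σ^[i] x := by
    intro i n x
    induction i generalizing x with
    | zero => rfl
    | succ i ih => rw [Function.iterate_succ_apply, map_zsmul, ih, Function.iterate_succ_apply]
  have hNadd : ∀ x y, N (x + y) = N x + N y := by
    intro x y
    simp only [hNdef, hit_add, Finset.sum_add_distrib]
  have hNsmul : ∀ (n : ℤ) x, N (n • x) = n • N x := by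
    intro n x
    simp only [hNdef, hit_smul, Finset.smul_sum]
  have hNσ : ∀ x, N (σ x) = N x := by
    intro x
    have h1 : N (σ x) = ∑ i ∈ Finset.range m, σ^[i+1] x := by
      simp only [hNdef, Function.iterate_succ_apply]
    have h2 := Finset.sum_range_succ (fun i => σ^[i] x) m
    have h3 := Finset.sum_range_succ' (fun i => σ^[i] x) m
    rw [h1, hNdef]
    rw [h2] at h3
    simp only [Function.iterate_zero, id_eq, hσ] at h3
    exact (add_right_cancel h3).symm
  have hNfix : ∀ x, σ x = x → N x = (m : ℤ) • x := by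
    intro x hx
    have : ∀ i, σ^[i] x = x := fun i => Function.iterate_fixed hx i
    simp only [hNdef, this, Finset.sum_const, Finset.card_range]
    rw [natCast_zsmul]
  have hm0 : (m : ℤ) ≠ 0 := by exact_mod_cast hm.ne'
  set w : M := a - σ a with hw
  have hNneg : ∀ x, N (-x) = - N x := by
    intro x
    have := hNsmul (-1) x
    simpa using this
  have hNw : N w = 0 := by
    rw [hw, sub_eq_add_neg, hNadd, hNneg, hNσ, add_neg_cancel]
  by_cases hw0 : w = 0
  · have : σ a = a := (sub_eq_zero.1 hw0).symm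
    rw [this, this]
  have hdep : ¬ LinearIndependent ℤ ![v, w, σ w] := by
    intro h
    have h1 := h.cardinal_le_rank
    have h2 := h1.trans hr
    have h3 : (Cardinal.mk (Fin 3)) = 3 := by simp
    rw [h3] at h2
    exact absurd h2 (by norm_num)
  rw [Fintype.not_linearIndependent_iff] at hdep
  obtain ⟨c, hc, i0, hi0⟩ := hdep
  rw [Fin.sum_univ_three] at hc
  simp only [Matrix.cons_val_zero, Matrix.cons_val_one, Matrix.cons_val] at hc
  have hNc := congrArg N hc
  have hN0 : N 0 = 0 := by
    have := hNsmul 0 0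
    simpa using this
  rw [hNadd, hNadd, hNsmul, hNsmul, hNsmul, hNσ, hNw, hNfix v hσv, smul_zero, smul_zero, add_zero,
    add_zero, hN0, smul_smul] at hNc
  have hc0 : c 0 = 0 := by
    by_contra h
    exact hv (htf _ _ (mul_ne_zero h hm0) hNc)
  rw [hc0, zero_smul, zero_add] at hc
  have hz : c 2 ≠ 0 := by
    intro h2
    rw [h2, zero_smul, add_zero] at hc
    have h1 : c 1 = 0 := by
      by_contra h
      exact hw0 (htf _ _ h hc)
    fin_cases i0
    · exact hi0 hc0
    · exact hi0 h1
    · exact hi0 h2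
  have hrel : c 2 • σ w = (-(c 1)) • w := by
    rw [neg_smul]
    exact eq_neg_of_add_eq_zero_right hc
  have hiter : ∀ i : ℕ, (c 2) ^ i • σ^[i] w = (-(c 1)) ^ i • w := by
    intro i
    induction i with
    | zero => simp
    | succ i ih =>
      rw [Function.iterate_succ_apply, pow_succ, mul_smul, ← hit_smul, hrel, hit_smul, smul_comm,
        ih, smul_smul, pow_succ, mul_comm]
  have hm1 := hiter m
  rw [hσ] at hm1
  have hpow : (c 2) ^ m = (-(c 1)) ^ m := by
    by_contra h
    refine hw0 (htf ((c 2) ^ m - (-(c 1)) ^ m) w (sub_ne_zero.2 h) ?_)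
    rw [sub_smul, hm1, sub_self]
  have habs : |c 2| = |c 1| := by
    have h1 := congrArg abs hpow
    rw [abs_pow, abs_pow, abs_neg] at h1
    exact (pow_left_inj₀ (abs_nonneg _) (abs_nonneg _) hm.ne').1 h1
  have hcancel : ∀ x y : M, c 2 • x = c 2 • y → x = y := by
    intro x y h
    have : c 2 • (x - y) = 0 := by rw [smul_sub, h, sub_self]
    exact sub_eq_zero.1 (htf _ _ hz this)
  rcases abs_eq_abs.1 habs with h | h
  ·
    have h1 : c 2 • σ w = c 2 • (-w) := by rw [hrel, ← h, neg_smul, smul_neg]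
    have h2 := hcancel _ _ h1
    rw [hw, map_sub] at h2
    have h3 : σ a - σ (σ a) = σ a - a := by rw [h2]; abel
    exact sub_right_injective h3
  · have h1 : c 2 • σ w = c 2 • w := by rw [hrel, h]
    have h2 := hcancel _ _ h1
    have h3 := hNfix w h2
    rw [hNw] at h3
    exact absurd (htf _ _ hm0 h3.symm) hw0

theorem dim2 (K : Type) [Group K] (hfg : Group.FG K) (htf : TF K) (A : Subgroup K) [A.Normal]
    [IsMulCommutative A] (hd : Module.rank ℤ (Additive A) = 2) (hfin : A.index ≠ 0)
    (hirr : Irr A) : False := by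
  have htfK : ∀ (x : K) (n : ℤ), n ≠ 0 → x ^ n = 1 → x = 1 := by
    intro x n hn hx
    refine htf x ?_
    rw [isOfFinOrder_iff_zpow_eq_one]
    exact ⟨n, hn, hx⟩
  have hcommA : ∀ a b : K, a ∈ A → b ∈ A → a * b = b * a := by
    intro a b ha hb
    have := mul_comm (⟨a, ha⟩ : A) ⟨b, hb⟩
    exact congrArg Subtype.val this
  have htfM : ∀ (n : ℤ) (x : Additive A), n ≠ 0 → n • x = 0 → x = 0 := by
    intro n x hn hx
    have h1 : (Additive.toMul x) ^ n = 1 := by
      rw [← toMul_zsmul, hx, toMul_zero]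
    have h2 : ((Additive.toMul x : A) : K) ^ n = 1 := by
      have := congrArg Subtype.val h1
      simpa using this
    have h3 := htfK _ n hn h2
    have h4 : Additive.toMul x = 1 := Subtype.ext h3
    exact h4

  have hsq : ∀ g : K, ∀ a ∈ A, g * (g * a * g⁻¹) * g⁻¹ = a := by
    intro g a ha
    by_cases hg1 : g = 1
    · subst hg1; simp
    have hk : g ^ A.index ∈ A := Subgroup.pow_index_mem A g
    have hkpos : 0 < A.index := Nat.pos_of_ne_zero hfin
    have hconj : ∀ x : A, g * x * g⁻¹ ∈ A := fun x => (inferInstance : A.Normal).conj_mem x x.2 g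
    let σ : Additive A →+ Additive A := MonoidHom.toAdditive
      { toFun := fun x => (⟨g * x * g⁻¹, hconj x⟩ : A)
        map_one' := by ext; simp
        map_mul' := by intro x y; ext; simp }
    have hσ1 : ∀ x : A, ((Additive.toMul (σ (Additive.ofMul x)) : A) : K) = g * x * g⁻¹ :=
      fun x => rfl
    have hσi : ∀ (i : ℕ) (x : Additive A), ((Additive.toMul (σ^[i] x) : A) : K) =
        g ^ i * (Additive.toMul x : A) * (g ^ i)⁻¹ := by
      intro i
      induction i with
      | zero => intro x; simp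
      | succ i ih =>
        intro x
        rw [Function.iterate_succ_apply', ]
        have := hσ1 (Additive.toMul (σ^[i] x))
        rw [ofMul_toMul] at this
        rw [this, ih, pow_succ']
        group
    have hσm : ∀ x : Additive A, σ^[A.index] x = x := by
      intro x
      have h1 := hσi A.index x
      have h2 : g ^ A.index * (Additive.toMul x : A) * (g ^ A.index)⁻¹ =
          ((Additive.toMul x : A) : K) := by
        rw [hcommA _ _ hk (Additive.toMul x).2]
        group
      rw [h2] at h1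
      exact Subtype.ext h1
    have hv : Additive.ofMul (⟨g ^ A.index, hk⟩ : A) ≠ 0 := by
      intro h
      have h1 : (⟨g ^ A.index, hk⟩ : A) = 1 := h
      have h2 : g ^ A.index = 1 := congrArg Subtype.val h1
      refine hg1 (htfK g A.index (by exact_mod_cast hfin) ?_)
      rw [zpow_natCast]; exact h2
    have hσv : σ (Additive.ofMul (⟨g ^ A.index, hk⟩ : A)) =
        Additive.ofMul (⟨g ^ A.index, hk⟩ : A) := by
      have : (⟨g * g ^ A.index * g⁻¹, hconj ⟨g ^ A.index, hk⟩⟩ : A) = ⟨g ^ A.index, hk⟩ := by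
        ext
        show g * g ^ A.index * g⁻¹ = g ^ A.index
        rw [← pow_succ', pow_succ]
        group
      exact this
    have hkey := dim2_key htfM hd.le σ A.index hkpos hσm _ hv hσv (Additive.ofMul (⟨a, ha⟩ : A))
    have h2 := hσi 2 (Additive.ofMul (⟨a, ha⟩ : A))
    have h3 : σ^[2] (Additive.ofMul (⟨a, ha⟩ : A)) = Additive.ofMul (⟨a, ha⟩ : A) := hkey
    rw [h3] at h2
    simp only [toMul_ofMul] at h2
    have h4 : g * (g * a * g⁻¹) * g⁻¹ = g ^ 2 * a * (g ^ 2)⁻¹ := by
      rw [pow_two]; group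
    rw [h4]
    exact h2.symm
  have hsq' : ∀ g : K, ∀ a ∈ A, g * a * g⁻¹ = g⁻¹ * a * g := by
    intro g a ha
    have h := hsq g a ha
    have : g⁻¹ * (g * (g * a * g⁻¹) * g⁻¹) * g = g⁻¹ * a * g := by rw [h]
    rw [← this]
    group
  have hcomm : ∀ g h : K, ∀ a ∈ A, g * (h * a * h⁻¹) * g⁻¹ = h * (g * a * g⁻¹) * h⁻¹ := by
    intro g h a ha
    have ha1 : h * a * h⁻¹ ∈ A := (inferInstance : A.Normal).conj_mem a ha h
    have ha2 : g * a * g⁻¹ ∈ A := (inferInstance : A.Normal).conj_mem a ha g
    have e1 : g * (h * a * h⁻¹) * g⁻¹ = (g * h) * a * (g * h)⁻¹ := by group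
    rw [e1, hsq' (g * h) a ha]
    have e2 : (g * h)⁻¹ * a * (g * h) = h⁻¹ * (g⁻¹ * a * g) * h := by group
    rw [e2, ← hsq' g a ha, ← hsq' h _ ha2]

  have hcent : ∀ g : K, ∀ a ∈ A, g * a * g⁻¹ = a := by
    intro g
    by_cases hg1 : g = 1
    · subst hg1; intro a _; simp
    let B : Subgroup K :=
      { carrier := {a | a ∈ A ∧ g * a * g⁻¹ = a}
        one_mem' := ⟨A.one_mem, by simp⟩
        mul_mem' := by
          rintro a b ⟨ha, ha'⟩ ⟨hb, hb'⟩
          refine ⟨A.mul_mem ha hb, ?_⟩
          calc g * (a * b) * g⁻¹ = (g * a * g⁻¹) * (g * b * g⁻¹) := by group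
            _ = a * b := by rw [ha', hb']
        inv_mem' := by
          rintro a ⟨ha, ha'⟩
          refine ⟨A.inv_mem ha, ?_⟩
          calc g * a⁻¹ * g⁻¹ = (g * a * g⁻¹)⁻¹ := by group
            _ = a⁻¹ := by rw [ha'] }
    have hBn : B.Normal := by
      refine ⟨?_⟩
      rintro a ⟨ha, ha'⟩ h
      refine ⟨(inferInstance : A.Normal).conj_mem a ha h, ?_⟩
      rw [hcomm g h a ha, ha']
    have hBA : B ≤ A := fun a ha => ha.1
    have hBne : B ≠ ⊥ := by
      intro h
      have hk : g ^ A.index ∈ A := Subgroup.pow_index_mem A g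
      have hmem : g ^ A.index ∈ B := by
        refine ⟨hk, ?_⟩
        rw [← pow_succ', pow_succ]
        group
      rw [h, Subgroup.mem_bot] at hmem
      refine hg1 (htfK g A.index (by exact_mod_cast hfin) ?_)
      rw [zpow_natCast]; exact hmem
    intro a ha
    obtain ⟨k, hk, hak⟩ := hirr B hBn hBA hBne a ha
    have h1 : (g * a * g⁻¹) ^ k = a ^ k := by
      rw [conj_pow]
      exact hak.2
    have hga : g * a * g⁻¹ ∈ A := (inferInstance : A.Normal).conj_mem a ha g
    have hc : Commute (g * a * g⁻¹) a⁻¹ := hcommA _ _ hga (A.inv_mem ha)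
    have h2 : ((g * a * g⁻¹) * a⁻¹) ^ k = 1 := by
      rw [hc.mul_pow, h1, inv_pow, mul_inv_cancel]
    have h3 := htfK _ (k : ℤ) (by exact_mod_cast hk.ne') (by rw [zpow_natCast]; exact h2)
    exact mul_inv_eq_one.1 h3

  have h2 : ((2 : ℕ) : Cardinal) ≤ Module.rank ℤ (Additive A) := by rw [hd]; norm_num
  obtain ⟨v2, hv2⟩ := Module.le_rank_iff.1 h2
  set x := v2 0 with hxdef
  set y := v2 1 with hydef
  have hpair : LinearIndependent ℤ ![x, y] := by
    have hvv : v2 = ![x, y] := by
      funext i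
      fin_cases i <;> rfl
    rw [← hvv]; exact hv2
  rw [LinearIndependent.pair_iff] at hpair

  let a : K := (Additive.toMul x : A)
  let b : K := (Additive.toMul y : A)
  have ha : a ∈ A := (Additive.toMul x : A).2
  have hb : b ∈ A := (Additive.toMul y : A).2
  have hane : a ≠ 1 := by
    intro h
    have hx0 : x = 0 := by
      have : Additive.toMul x = 1 := Subtype.ext h
      exact this
    have := hpair 1 0 (by rw [hx0]; simp)
    exact one_ne_zero this.1
  have hBn : (Subgroup.zpowers a).Normal := by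
    refine ⟨?_⟩
    intro z hz g
    have hzA : z ∈ A := (Subgroup.zpowers_le.2 ha) hz
    rw [hcent g z hzA]
    exact hz
  obtain ⟨k, hk, hbk⟩ := hirr (Subgroup.zpowers a) hBn (Subgroup.zpowers_le.2 ha)
    (by rw [Ne, Subgroup.zpowers_eq_bot]; exact hane) b hb
  obtain ⟨n, hn⟩ := Subgroup.mem_zpowers_iff.1 hbk
  have hrel : (-n) • x + (k : ℤ) • y = 0 := by
    have h1 : (Additive.toMul x) ^ (-n) * (Additive.toMul y) ^ (k : ℤ) = 1 := by
      apply Subtype.ext
      show a ^ (-n) * b ^ (k : ℤ) = 1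
      rw [zpow_natCast, ← hn, zpow_neg, inv_mul_cancel]
    exact h1
  have := hpair _ _ hrel
  have hk0 : (k : ℤ) = 0 := this.2
  have : k = 0 := by exact_mod_cast hk0
  omega

end Pool.Agent.H652.SR
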