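import Mathlib
import Pool.Agent.H652.SR.Defs

set_option autoImplicit false

open scoped IsMulCommutative

namespace Pool.Agent.H652.SR

private theorem homRank_add (G : Type) (A : Type) [AddCommGroup A] (ψ : G → (A →ₗ[ℤ] A))
    (htf : ∀ a : A, ∀ k : ℤ, k ≠ 0 → k • a = 0 → a = 0) (d : ℕ)
    (hd : Module.rank ℤ A = d)
    (hirr : ∀ B : Submodule ℤ A, (∀ g, ∀ b ∈ B, ψ g b ∈ B) → B ≠ ⊥ →
      ∀ a : A, ∃ k : ℤ, k ≠ 0 ∧ k • a ∈ B) :
    ∀ (w : ℕ) (W : Type) [AddCommGroup W] (φ : G → (W →ₗ[ℤ] W)) (_hw : Module.rank ℤ W ≤ w)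
    (E : Submodule ℤ (W →ₗ[ℤ] A)) (_hE : ∀ f ∈ E, ∀ g w, f (φ g w) = ψ g (f w)),
    Module.rank ℤ E ≤ w := by
  intro w
  induction w using Nat.strong_induction_on with
  | _ w ih =>
  intro W _ φ hw E hE
  by_cases hE0 : E = ⊥
  · subst hE0
    simp
  obtain ⟨f0, hf0, hf0n⟩ := (Submodule.ne_bot_iff _).1 hE0
  obtain ⟨w0, hw0⟩ : ∃ w0, f0 w0 ≠ 0 := by
    by_contra hcon
    push Not at hcon
    exact hf0n (LinearMap.ext hcon)

  have hinvr : ∀ g, ∀ b ∈ LinearMap.range f0, ψ g b ∈ LinearMap.range f0 := by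
    rintro g _ ⟨x, rfl⟩
    exact ⟨φ g x, hE f0 hf0 g x⟩
  have hrn : LinearMap.range f0 ≠ ⊥ := by
    intro h
    have : f0 w0 ∈ LinearMap.range f0 := ⟨w0, rfl⟩
    rw [h, Submodule.mem_bot] at this
    exact hw0 this
  have hquot : Module.rank ℤ (A ⧸ LinearMap.range f0) = 0 := by
    rw [rank_eq_zero_iff]
    intro x
    obtain ⟨a, rfl⟩ := Submodule.Quotient.mk_surjective _ x
    obtain ⟨k, hk, hka⟩ := hirr _ hinvr hrn a
    refine ⟨k, hk, ?_⟩
    rw [← Submodule.Quotient.mk_smul, Submodule.Quotient.mk_eq_zero]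
    exact hka
  have hrange : Module.rank ℤ (LinearMap.range f0) = d := by
    have := Submodule.rank_quotient_add_rank (LinearMap.range f0)
    rw [hquot, zero_add, hd] at this
    exact this
  have hd1 : 1 ≤ d := by
    by_contra hcon
    have h0 : d = 0 := by omega
    rw [h0] at hd
    have := rank_eq_zero_iff.1 (by simpa using hd) (f0 w0)
    obtain ⟨k, hk, hk0⟩ := this
    exact hw0 (htf _ k hk hk0)
  have hrk := LinearMap.rank_range_add_rank_ker f0
  rw [hrange] at hrk
  have hdw : (d : Cardinal) ≤ w := by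
    calc (d : Cardinal) ≤ d + Module.rank ℤ (LinearMap.ker f0) := le_self_add
      _ = Module.rank ℤ W := hrk
      _ ≤ w := hw
  have hdw' : d ≤ w := by exact_mod_cast hdw
  have hker : Module.rank ℤ (LinearMap.ker f0) ≤ ((w - d : ℕ) : Cardinal) := by
    have h1 : (d : Cardinal) + Module.rank ℤ (LinearMap.ker f0) ≤ d + ((w - d : ℕ) : Cardinal) := by
      rw [hrk]
      refine hw.trans ?_
      rw [← Nat.cast_add]
      exact_mod_cast (by omega : w ≤ d + (w - d))
    rw [add_comm (d : Cardinal), add_comm (d : Cardinal)] at h1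
    exact (Cardinal.add_le_add_iff_of_lt_aleph0 (Cardinal.natCast_lt_aleph0)).1 h1

  let R : (W →ₗ[ℤ] A) →ₗ[ℤ] (LinearMap.ker f0 →ₗ[ℤ] A) := LinearMap.lcomp ℤ A (LinearMap.ker f0).subtype
  have hφk : ∀ g, ∀ x ∈ LinearMap.ker f0, φ g x ∈ LinearMap.ker f0 := by
    intro g x hx
    rw [LinearMap.mem_ker] at hx ⊢
    rw [hE f0 hf0, hx, map_zero]
  have h2 := ih (w - d) (by omega) (LinearMap.ker f0) (fun g => (φ g).restrict (hφk g)) hker
    (E.map R) (by
      rintro _ ⟨f, hf, rfl⟩ g x
      show f (φ g x) = ψ g (f x)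
      exact hE f hf g x)
  let R' : E →ₗ[ℤ] (E.map R) := R.restrict (fun f hf => Submodule.mem_map_of_mem hf)
  have h3 := LinearMap.rank_range_add_rank_ker R'
  have h4 : Module.rank ℤ (LinearMap.range R') ≤ ((w - d : ℕ) : Cardinal) :=
    (Submodule.rank_le _).trans h2
  have h5 : Module.rank ℤ (LinearMap.ker R') ≤ d := by
    rw [← hd]
    let ev : LinearMap.ker R' →ₗ[ℤ] A :=
      { toFun := fun f => (f : E).1 w0
        map_add' := fun f g => rfl
        map_smul' := fun c f => rfl }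
    refine LinearMap.rank_le_of_injective ev ?_
    rw [injective_iff_map_eq_zero]
    rintro ⟨⟨f, hf⟩, hfk⟩ hev
    have hev' : f w0 = 0 := hev
    have hfk' : ∀ x ∈ LinearMap.ker f0, f x = 0 := by
      intro x hx
      have h6 : R' ⟨f, hf⟩ = 0 := hfk
      have h7 := congrArg (fun F => (F : E.map R).1 ⟨x, hx⟩) h6
      exact h7
    have hinvB : ∀ g, ∀ b ∈ (LinearMap.ker f).map f0, ψ g b ∈ (LinearMap.ker f).map f0 := by
      rintro g _ ⟨x, hx, rfl⟩
      refine ⟨φ g x, ?_, hE f0 hf0 g x⟩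
      have hx' : f x = 0 := hx
      show f (φ g x) = 0
      rw [hE f hf, hx', map_zero]
    have hBn : (LinearMap.ker f).map f0 ≠ ⊥ := by
      intro h
      have : f0 w0 ∈ (LinearMap.ker f).map f0 := ⟨w0, hev', rfl⟩
      rw [h, Submodule.mem_bot] at this
      exact hw0 this
    have hf0' : f = 0 := by
      ext x
      obtain ⟨k, hk, x', hx', hkx⟩ := hirr _ hinvB hBn (f0 x)
      have h8 : f (k • x - x') = 0 := hfk' _ (by
        rw [LinearMap.mem_ker, map_sub, map_smul, hkx, sub_self])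
      have hx'' : f x' = 0 := hx'
      rw [map_sub, map_smul, hx'', sub_zero] at h8
      exact htf _ k hk h8
    subst hf0'
    rfl
  calc Module.rank ℤ E = Module.rank ℤ (LinearMap.range R') + Module.rank ℤ (LinearMap.ker R') := h3.symm
    _ ≤ ((w - d : ℕ) : Cardinal) + (d : Cardinal) := add_le_add h4 h5
    _ = w := by rw [← Nat.cast_add]; congr 1; omega

theorem homRank (G : Type) [Group G] (W A : Type) [CommGroup W] [CommGroup A]
    (φ : G →* MulAut W) (ψ : G →* MulAut A) (htf : TF A) (d w : ℕ)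
    (hd : Module.rank ℤ (Additive A) = d) (hw : Module.rank ℤ (Additive W) ≤ w)
    (hirr : ∀ B : Subgroup A, (∀ g, ∀ b ∈ B, ψ g b ∈ B) → B ≠ ⊥ →
      ∀ a : A, ∃ k : ℕ, 0 < k ∧ a ^ k ∈ B)
    (E : Subgroup (W →* A)) (hE : ∀ f ∈ E, ∀ g w, f (φ g w) = ψ g (f w)) :
    Module.rank ℤ (Additive E) ≤ w := by
  let L0 : Additive E →+ (Additive W →ₗ[ℤ] Additive A) :=
    { toFun := fun e => (MonoidHom.toAdditive (Additive.toMul e).1).toIntLinearMap
      map_zero' := rfl
      map_add' := fun _ _ => rfl }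
  let L : Additive E →ₗ[ℤ] (Additive W →ₗ[ℤ] Additive A) := L0.toIntLinearMap
  have hL : ∀ (e : E) (x : W), L (Additive.ofMul e) (Additive.ofMul x) = Additive.ofMul (e.1 x) := fun _ _ => rfl
  have hLi : Function.Injective L := by
    rw [injective_iff_map_eq_zero]
    intro e he
    apply Additive.toMul.injective
    apply Subtype.ext
    ext x
    have := congrArg (fun F => Additive.toMul (F (Additive.ofMul x))) he
    exact this
  have key := homRank_add G (Additive A) (fun g => (MonoidHom.toAdditive (ψ g).toMonoidHom).toIntLinearMap)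
    (by
      intro a k hk hka
      have h1 : (Additive.toMul a) ^ k = 1 := hka
      have h2 : IsOfFinOrder (Additive.toMul a) := isOfFinOrder_iff_zpow_eq_one.2 ⟨k, hk, h1⟩
      exact htf _ h2) d hd
    (by
      intro B hB hBn a
      let B' : Subgroup A := AddSubgroup.toSubgroup' B.toAddSubgroup
      have hB' : ∀ x : A, x ∈ B' ↔ Additive.ofMul x ∈ B := fun x => Iff.rfl
      obtain ⟨k, hk, hka⟩ := hirr B' (fun g b hb => hB g _ hb) (by
        intro h
        apply hBn
        rw [Submodule.eq_bot_iff]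
        intro x hx
        have : Additive.toMul x ∈ B' := hx
        rw [h, Subgroup.mem_bot] at this
        exact this) (Additive.toMul a)
      refine ⟨k, by exact_mod_cast hk.ne', ?_⟩
      have h3 : Additive.ofMul ((Additive.toMul a) ^ k) ∈ B := hka
      rw [natCast_zsmul]
      exact h3)
    w (Additive W) (fun g => (MonoidHom.toAdditive (φ g).toMonoidHom).toIntLinearMap) hw (LinearMap.range L)
    (by
      rintro _ ⟨e, rfl⟩ g x
      have := hE (Additive.toMul e).1 (Additive.toMul e).2 g (Additive.toMul x)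
      exact congrArg Additive.ofMul this)
  refine le_trans ?_ key
  exact LinearMap.rank_le_of_injective L.rangeRestrict (fun a b hab => hLi (congrArg Subtype.val hab))

end Pool.Agent.H652.SR
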