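import Mathlib
import Pool.Agent.H652.SR.Defs
import Pool.Agent.H652.SR.Jhomrank
import Pool.Agent.H652.SR.Jprb
import Pool.Agent.H652.SR.Jshba
import Pool.Agent.H652.SR.Jshbd
import Pool.Agent.H652.SR.Jvpta

set_option autoImplicit false

open scoped IsMulCommutative

namespace Pool.Agent.H652.SR

private theorem rank_le_of_inj {G H : Type} [CommGroup G] [CommGroup H] (f : G →* H)
    (hf : Function.Injective f) :
    Module.rank ℤ (Additive G) ≤ Module.rank ℤ (Additive H) :=
  LinearMap.rank_le_of_injective (MonoidHom.toAdditive f).toIntLinearMap hf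

private theorem rank_prod_le' (M N : Type) [AddCommGroup M] [AddCommGroup N] :
    Module.rank ℤ (M × N) ≤ Module.rank ℤ M + Module.rank ℤ N := by
  have h := LinearMap.rank_range_add_rank_ker (LinearMap.fst ℤ M N)
  rw [← h]
  refine add_le_add (Submodule.rank_le _) ?_
  refine LinearMap.rank_le_of_injective
    ((LinearMap.snd ℤ M N).comp (LinearMap.ker (LinearMap.fst ℤ M N)).subtype) ?_
  rintro ⟨⟨a, b⟩, h1⟩ ⟨⟨a', b'⟩, h2⟩ h3
  have e1 : a = 0 := h1
  have e2 : a' = 0 := h2
  have e3 : b = b' := h3
  subst e1 e2 e3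
  rfl

private theorem rank_fin_le (c : ℕ) (M : Type) [AddCommGroup M] (d : ℕ) (hd : Module.rank ℤ M ≤ d) :
    Module.rank ℤ (Fin c → M) ≤ (c * d : ℕ) := by
  induction c with
  | zero =>
    have : Subsingleton (Fin 0 → M) := inferInstance
    simp
  | succ c ih =>
    let f : (Fin (c + 1) → M) →ₗ[ℤ] M × (Fin c → M) :=
      { toFun := fun v => (v 0, fun i => v i.succ)
        map_add' := fun _ _ => rfl
        map_smul' := fun _ _ => rfl }
    have hf : Function.Injective f := by
      intro v w h
      have h1 : v 0 = w 0 := congrArg Prod.fst h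
      have h2 : (fun i : Fin c => v i.succ) = fun i => w i.succ := congrArg Prod.snd h
      funext i
      refine Fin.cases h1 (fun j => congrFun h2 j) i
    refine (LinearMap.rank_le_of_injective f hf).trans ?_
    refine (rank_prod_le' M (Fin c → M)).trans ?_
    refine (add_le_add hd ih).trans ?_
    rw [Nat.succ_mul, Nat.cast_add, add_comm]

private theorem rank_pi_group (c : ℕ) (A : Type) [CommGroup A] (d : ℕ)
    (hd : Module.rank ℤ (Additive A) ≤ d) :
    Module.rank ℤ (Additive (Fin c → A)) ≤ (c * d : ℕ) := by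
  refine le_trans ?_ (rank_fin_le c (Additive A) d hd)
  let f : Additive (Fin c → A) →ₗ[ℤ] (Fin c → Additive A) :=
    AddMonoidHom.toIntLinearMap
      { toFun := fun v i => Additive.ofMul (v.toMul i)
        map_zero' := rfl
        map_add' := fun _ _ => rfl }
  refine LinearMap.rank_le_of_injective f ?_
  intro v w h
  exact h

private theorem rank_prod_group (A B : Type) [CommGroup A] [CommGroup B] (c d : ℕ)
    (hc : Module.rank ℤ (Additive A) ≤ c)
    (hd : Module.rank ℤ (Additive B) ≤ d) :
    Module.rank ℤ (Additive (A × B)) ≤ (c + d : ℕ) := by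
  have h := (rank_prod_le' (Additive A) (Additive B)).trans (add_le_add hc hd)
  rw [← Nat.cast_add] at h
  refine le_trans ?_ h
  let f : Additive (A × B) →ₗ[ℤ] (Additive A × Additive B) :=
    AddMonoidHom.toIntLinearMap
      { toFun := fun v => (Additive.ofMul v.toMul.1, Additive.ofMul v.toMul.2)
        map_zero' := rfl
        map_add' := fun _ _ => rfl }
  refine LinearMap.rank_le_of_injective f ?_
  intro v w h
  exact h

section derivations

variable {G M : Type} [Group G] [CommGroup M] {φ : G →* MulAut M}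

private theorem der_one {δ : G → M} (h : ∀ g h, δ (g * h) = δ g * φ g (δ h)) : δ 1 = 1 := by
  have := h 1 1
  simpa using this

private theorem der_inv {δ : G → M} (h : ∀ g h, δ (g * h) = δ g * φ g (δ h)) (g : G) :
    δ g * φ g (δ g⁻¹) = 1 := by
  rw [← h g g⁻¹, mul_inv_cancel, der_one h]

def derKer (δ : G → M) (h : ∀ g h, δ (g * h) = δ g * φ g (δ h)) : Subgroup G where
  carrier := {g | δ g = 1}
  one_mem' := der_one h
  mul_mem' := by
    intro a b ha hb
    have ha' : δ a = 1 := ha
    have hb' : δ b = 1 := hb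
    change δ (a * b) = 1
    rw [h, ha', hb', map_one, mul_one]
  inv_mem' := by
    intro a ha
    have ha' : δ a = 1 := ha
    have h1 := der_inv h a
    rw [ha', one_mul] at h1
    change δ a⁻¹ = 1
    exact (map_eq_one_iff _ (φ a).injective).1 h1

end derivations

theorem gc_inf (Q : Type) [Group Q] (A : Subgroup Q) [A.Normal] [IsMulCommutative A]
    (htf : ∀ a ∈ A, IsOfFinOrder a → a = 1) (d : ℕ) (hd : Module.rank ℤ (Additive A) = d)
    (hirr : Irr A) (hfg : Group.FG Q) (c : ℕ) (hc : VPT (Q ⧸ A) c)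
    (hinf : (Subgroup.centralizer (A : Set Q)).index = 0) :
    Module.rank ℤ (Additive (DerRel (MulAut.conjNormal : Q →* MulAut A) A)) ≤ (c * d : ℕ) := by
  obtain ⟨Xb, hXn, hXi, hPR⟩ := hc.exists_PR
  have hfgq : Group.FG (Q ⧸ A) := inferInstance
  have hfi : Xb.FiniteIndex := ⟨hXi⟩
  have hXfg : Group.FG Xb := inferInstance
  have hfgt : (⊤ : Subgroup Xb).FG := Group.fg_def.1 hXfg
  obtain ⟨y, hy⟩ := hPR.ngen ⊤ hfgt
  choose x hx using fun i => QuotientGroup.mk'_surjective A (((y i : Xb) : Q ⧸ A))

  have hcl : Subgroup.closure (Set.range fun i => (((y i : Xb) : Q ⧸ A))) = Xb := by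
    have h1 := congrArg (Subgroup.map (Xb.subtype.comp (⊤ : Subgroup Xb).subtype)) hy
    rw [MonoidHom.map_closure, ← Set.range_comp] at h1
    rw [← Subgroup.map_map, ← MonoidHom.range_eq_map (⊤ : Subgroup Xb).subtype,
      Subgroup.range_subtype, ← MonoidHom.range_eq_map, Subgroup.range_subtype] at h1
    exact h1
  obtain ⟨X, hXdef⟩ : ∃ X : Subgroup Q, X = Xb.comap (QuotientGroup.mk' A) := ⟨_, rfl⟩
  have hXnorm : X.Normal := by rw [hXdef]; infer_instance
  have hXidx : X.index ≠ 0 := by
    rw [hXdef, Subgroup.index_comap_of_surjective _ (QuotientGroup.mk'_surjective A)]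
    exact hXi
  have hXgen : X ≤ Subgroup.closure (Set.range x) ⊔ A := by
    intro g hg
    have h1 : QuotientGroup.mk' A g ∈ Xb := by rw [hXdef] at hg; exact hg
    rw [← hcl] at h1
    have h2 : (fun i => (((y i : Xb) : Q ⧸ A))) = fun i => QuotientGroup.mk' A (x i) := by
      funext i; exact (hx i).symm
    rw [h2, ← Function.comp_def (QuotientGroup.mk' A) x, Set.range_comp,
      ← MonoidHom.map_closure] at h1
    obtain ⟨k, hk, hk2⟩ := h1
    have h3 : k⁻¹ * g ∈ A := QuotientGroup.eq.1 hk2
    have h4 : g = k * (k⁻¹ * g) := by group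
    rw [h4]
    exact mul_mem (Subgroup.mem_sup_left hk) (Subgroup.mem_sup_right h3)
  have hXmem : ∀ i, x i ∈ X := by
    intro i
    rw [hXdef]
    change QuotientGroup.mk' A (x i) ∈ Xb
    rw [hx i]
    exact (y i : Xb).2

  have hB : A ⊓ Subgroup.centralizer (X : Set Q) = ⊥ := by
    by_contra hne
    have hBn : (A ⊓ Subgroup.centralizer (X : Set Q)).Normal := by
      infer_instance
    have h1 := hirr _ hBn inf_le_left hne
    have h2 : X ≤ Subgroup.centralizer (A : Set Q) := by
      intro z hz
      rw [Subgroup.mem_centralizer_iff]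
      intro a ha
      obtain ⟨k, hk, hk2⟩ := h1 a ha
      have h3 : z * a ^ k = a ^ k * z := by
        have := (Subgroup.mem_centralizer_iff.1 hk2.2) z hz
        exact this
      have h4 : (z * a * z⁻¹) ^ k = a ^ k := by
        rw [conj_pow, h3]; group
      have h5 : z * a * z⁻¹ ∈ A := Subgroup.Normal.conj_mem inferInstance a ha z
      have h6 : Commute (z * a * z⁻¹) a⁻¹ := by
        have h7 : (⟨z * a * z⁻¹, h5⟩ : A) * ⟨a⁻¹, inv_mem ha⟩
            = ⟨a⁻¹, inv_mem ha⟩ * ⟨z * a * z⁻¹, h5⟩ := mul_comm _ _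
        exact congrArg Subtype.val h7
      have h8 : (z * a * z⁻¹ * a⁻¹) ^ k = 1 := by
        rw [h6.mul_pow, h4, inv_pow, mul_inv_cancel]
      have h9 : z * a * z⁻¹ * a⁻¹ = 1 :=
        htf _ (mul_mem h5 (inv_mem ha)) (isOfFinOrder_iff_pow_eq_one.2 ⟨k, hk, h8⟩)
      have h10 : z * a * z⁻¹ = a := mul_inv_eq_one.1 h9
      have h11 : z * a = a * z := mul_inv_eq_iff_eq_mul.1 h10
      exact h11.symm
    have h3 := Subgroup.index_dvd_of_le h2
    rw [hinf] at h3
    exact hXidx (Nat.eq_zero_of_zero_dvd h3)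

  let ev : DerRel (MulAut.conjNormal : Q →* MulAut A) A →* (Fin c → A) :=
    { toFun := fun δ i => δ.1 (x i)
      map_one' := rfl
      map_mul' := fun _ _ => rfl }
  have hev : Function.Injective ev := by
    rw [injective_iff_map_eq_one]
    intro δ hδ
    have hder := δ.2.1
    have hvan : X ≤ derKer δ.1 hder := by
      refine hXgen.trans ?_
      rw [sup_le_iff, Subgroup.closure_le]
      refine ⟨?_, fun a ha => δ.2.2 a ha⟩
      rintro _ ⟨i, rfl⟩
      exact congrFun hδ i
    apply Subtype.ext
    funext g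
    change δ.1 g = 1
    have h1 : (δ.1 g : Q) ∈ Subgroup.centralizer (X : Set Q) := by
      rw [Subgroup.mem_centralizer_iff]
      intro z hz
      have h2 : δ.1 (z * g) = MulAut.conjNormal z (δ.1 g) := by
        rw [hder z g, show δ.1 z = 1 from hvan hz, one_mul]
      have h3 : δ.1 (g * (g⁻¹ * z * g)) = δ.1 g := by
        have h4 : g⁻¹ * z * g ∈ X := by
          have := hXnorm.conj_mem z hz g⁻¹
          simpa using this
        rw [hder g _, show δ.1 (g⁻¹ * z * g) = 1 from hvan h4, map_one, mul_one]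
      have h5 : g * (g⁻¹ * z * g) = z * g := by group
      rw [h5, h2] at h3
      have h6 := congrArg Subtype.val h3
      rw [MulAut.conjNormal_apply] at h6
      exact mul_inv_eq_iff_eq_mul.1 h6
    have h2 : (δ.1 g : Q) ∈ A ⊓ Subgroup.centralizer (X : Set Q) := ⟨(δ.1 g).2, h1⟩
    rw [hB, Subgroup.mem_bot] at h2
    exact Subtype.ext h2
  exact (rank_le_of_inj ev hev).trans (rank_pi_group c A d hd.le)

noncomputable def abMap (G : Type) [Group G] : MulAut G →* MulAut (Abelianization G) where
  toFun e := MulEquiv.abelianizationCongr e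
  map_one' := by
    ext w
    induction w using QuotientGroup.induction_on
    rfl
  map_mul' := by
    intro a b
    ext w
    induction w using QuotientGroup.induction_on
    rfl

private theorem abMap_of (G : Type) [Group G] (e : MulAut G) (g : G) :
    abMap G e (Abelianization.of g) = Abelianization.of (e g) := rfl

theorem gc_fin (Q : Type) [Group Q] (A : Subgroup Q) [A.Normal] [IsMulCommutative A]
    (htf : ∀ a ∈ A, IsOfFinOrder a → a = 1) (d : ℕ) (hd : Module.rank ℤ (Additive A) = d)
    (hirr : Irr A) (c : ℕ) (hc : SHB (Q ⧸ A) c)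
    (hfin : (Subgroup.centralizer (A : Set Q)).index ≠ 0) :
    Module.rank ℤ (Additive (DerRel (MulAut.conjNormal : Q →* MulAut A) A)) ≤ (c + d : ℕ) := by
  obtain ⟨C, hCdef⟩ : ∃ C : Subgroup Q, C = Subgroup.centralizer (A : Set Q) := ⟨_, rfl⟩
  have hCn : C.Normal := by rw [hCdef]; infer_instance
  have hCact : ∀ z ∈ C, ∀ a : A, MulAut.conjNormal z a = a := by
    intro z hz a
    rw [hCdef] at hz
    apply Subtype.ext
    rw [MulAut.conjNormal_apply]
    have := (Subgroup.mem_centralizer_iff.1 hz) a.1 a.2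
    rw [← this]; group
  have hAC : A ≤ C := by
    intro a ha
    rw [hCdef, Subgroup.mem_centralizer_iff]
    intro b hb
    have h7 : (⟨b, hb⟩ : A) * ⟨a, ha⟩ = ⟨a, ha⟩ * ⟨b, hb⟩ := mul_comm _ _
    exact congrArg Subtype.val h7
  rw [← hCdef] at hfin
  clear hCdef
  let Cb : Subgroup (Q ⧸ A) := C.map (QuotientGroup.mk' A)
  have hCbn : Cb.Normal := hCn.map _ (QuotientGroup.mk'_surjective A)
  let W : Type := Abelianization Cb
  have hW : Module.rank ℤ (Additive W) ≤ c :=
    ((hc.of_injective Cb.subtype Subtype.val_injective).of_surjective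
      (Abelianization.of : Cb →* Abelianization Cb) (QuotientGroup.mk_surjective)).rank_le
  let φW : Q →* MulAut W :=
    ((abMap Cb).comp (MulAut.conjNormal : (Q ⧸ A) →* MulAut Cb)).comp (QuotientGroup.mk' A)
  let π : C →* Cb := (QuotientGroup.mk' A).subgroupMap C
  have hπ : Function.Surjective π := (QuotientGroup.mk' A).subgroupMap_surjective C
  let q : C →* W := (Abelianization.of : Cb →* Abelianization Cb).comp π
  have hq : Function.Surjective q :=
    (QuotientGroup.mk_surjective (s := commutator Cb)).comp hπ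
  have hqconj : ∀ (g : Q) (z : C), φW g (q z) = q ⟨g * z * g⁻¹, hCn.conj_mem z z.2 g⟩ := by
    intro g z
    change abMap Cb (MulAut.conjNormal (QuotientGroup.mk' A g)) (Abelianization.of (π z)) = _
    rw [abMap_of]
    change Abelianization.of _ = Abelianization.of (π _)
    congr 1

  have hex : ∀ δ : DerRel (MulAut.conjNormal : Q →* MulAut A) A,
      ∃ f : W →* A, ∀ z : C, f (q z) = δ.1 z := by
    intro δ
    let θ : C →* A :=
      { toFun := fun z => δ.1 z
        map_one' := der_one δ.2.1
        map_mul' := by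
          intro z w
          change δ.1 (z * w) = _
          rw [δ.2.1, hCact z z.2] }
    have hθ : π.ker ≤ θ.ker := by
      intro z hz
      have h1 : QuotientGroup.mk' A (z : Q) = 1 := congrArg Subtype.val hz
      have h2 : (z : Q) ∈ A := (QuotientGroup.eq_one_iff (z : Q)).1 h1
      exact δ.2.2 _ h2
    refine ⟨Abelianization.lift (π.liftOfSurjective hπ ⟨θ, hθ⟩), fun z => ?_⟩
    change Abelianization.lift (π.liftOfSurjective hπ ⟨θ, hθ⟩) (Abelianization.of (π z)) = θ z
    rw [Abelianization.lift_apply_of]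
    exact MonoidHom.liftOfRightInverse_comp_apply _ _ _ _ z
  choose F hF using hex
  let E : Subgroup (W →* A) :=
    { carrier := {f | ∀ g w, f (φW g w) = MulAut.conjNormal g (f w)}
      one_mem' := by intro g w; simp
      mul_mem' := by
        intro a b ha hb g w
        rw [MonoidHom.mul_apply, MonoidHom.mul_apply, ha g w, hb g w, map_mul]
      inv_mem' := by
        intro a ha g w
        rw [MonoidHom.inv_apply, MonoidHom.inv_apply, ha g w, map_inv] }
  have hFE : ∀ δ, F δ ∈ E := by
    intro δ g w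
    obtain ⟨z, rfl⟩ := hq w
    rw [hqconj, hF, hF]
    have hd1 := δ.2.1 (g * z) g⁻¹
    have hd2 := δ.2.1 g z
    have hd3 := der_inv δ.2.1 g
    change δ.1 (g * z * g⁻¹) = _
    rw [hd1, hd2, map_mul, MulAut.mul_apply, hCact z z.2, mul_right_comm, hd3, one_mul]
  have hE : Module.rank ℤ (Additive E) ≤ c := by
    refine homRank Q W A φW MulAut.conjNormal ?_ d c hd hW ?_ E (fun f hf => hf)
    · intro a ha
      apply Subtype.ext
      refine htf a a.2 ?_
      exact A.subtype.isOfFinOrder ha
    · intro B hB hBne a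
      have hn : (B.map A.subtype).Normal := by
        refine ⟨?_⟩
        rintro _ ⟨b, hb, rfl⟩ g
        exact ⟨MulAut.conjNormal g b, hB g b hb, MulAut.conjNormal_apply g b⟩
      have hle : B.map A.subtype ≤ A := Subgroup.map_subtype_le B
      have hne : B.map A.subtype ≠ ⊥ := by
        intro h
        apply hBne
        rw [Subgroup.map_eq_bot_iff_of_injective _ Subtype.val_injective] at h
        exact h
      obtain ⟨k, hk, b, hb, hb2⟩ := hirr _ hn hle hne a a.2
      refine ⟨k, hk, ?_⟩
      have h3 : b = a ^ k := Subtype.ext hb2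
      rw [← h3]; exact hb
  have hfi : C.FiniteIndex := ⟨hfin⟩
  have hft : Fintype (Q ⧸ C) := Fintype.ofFinite _
  let sm : DerRel (MulAut.conjNormal : Q →* MulAut A) A →* A :=
    { toFun := fun δ => ∏ t : Q ⧸ C, δ.1 t.out
      map_one' := by
        change ∏ t : Q ⧸ C, (1 : A) = 1
        exact Finset.prod_const_one
      map_mul' := by
        intro δ ε
        change ∏ t : Q ⧸ C, (δ.1 t.out * ε.1 t.out) = _
        exact Finset.prod_mul_distrib }
  let FE : DerRel (MulAut.conjNormal : Q →* MulAut A) A →* E :=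
    { toFun := fun δ => ⟨F δ, hFE δ⟩
      map_one' := by
        apply Subtype.ext
        refine MonoidHom.ext fun w => ?_
        obtain ⟨z, rfl⟩ := hq w
        change F 1 (q z) = 1
        rw [hF]
        rfl
      map_mul' := by
        intro δ ε
        apply Subtype.ext
        refine MonoidHom.ext fun w => ?_
        obtain ⟨z, rfl⟩ := hq w
        change F (δ * ε) (q z) = F δ (q z) * F ε (q z)
        rw [hF, hF, hF]
        rfl }
  have hinj : Function.Injective (FE.prod sm) := by
    rw [injective_iff_map_eq_one]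
    intro δ hδ
    have h1 : FE δ = 1 := congrArg Prod.fst hδ
    have h2 : sm δ = 1 := congrArg Prod.snd hδ
    have h3 : ∀ z ∈ C, δ.1 z = 1 := by
      intro z hz
      have h4 : F δ = 1 := congrArg Subtype.val h1
      have h5 := hF δ ⟨z, hz⟩
      rw [h4] at h5
      exact h5.symm
    have h2' : ∏ t : Q ⧸ C, δ.1 t.out = 1 := h2
    apply Subtype.ext
    funext g
    change δ.1 g = 1
    have h4 : ∀ t : Q ⧸ C, δ.1 (g * t.out) = δ.1 ((g • t : Q ⧸ C)).out := by
      intro t
      have h5 : (((g • t : Q ⧸ C)).out)⁻¹ * (g * t.out) ∈ C := by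
        rw [← QuotientGroup.eq]
        rw [QuotientGroup.out_eq']
        have h6 : t = ((t.out : Q) : Q ⧸ C) := (QuotientGroup.out_eq' t).symm
        conv_lhs => rw [h6]
        rfl
      have h6 : g * t.out = ((g • t : Q ⧸ C)).out * ((((g • t : Q ⧸ C)).out)⁻¹ * (g * t.out)) := by
        group
      rw [h6, δ.2.1, h3 _ h5, map_one, mul_one]
    have h5 : ∏ t : Q ⧸ C, δ.1 (g * t.out) = 1 := by
      rw [Finset.prod_congr rfl (fun t _ => h4 t)]
      rw [← h2']
      exact Equiv.prod_comp (MulAction.toPerm g) (fun t : Q ⧸ C => δ.1 t.out)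
    have h6 : ∏ t : Q ⧸ C, δ.1 (g * t.out) = δ.1 g ^ (Fintype.card (Q ⧸ C)) := by
      have h7 : ∀ t : Q ⧸ C, δ.1 (g * t.out) = δ.1 g * MulAut.conjNormal g (δ.1 t.out) :=
        fun t => δ.2.1 g _
      rw [Finset.prod_congr rfl (fun t _ => h7 t), Finset.prod_mul_distrib, Finset.prod_const,
        ← map_prod, h2', map_one, mul_one, Finset.card_univ]
    rw [h5] at h6
    have h7 : IsOfFinOrder (δ.1 g) :=
      isOfFinOrder_iff_pow_eq_one.2 ⟨_, Fintype.card_pos, h6.symm⟩
    apply Subtype.ext
    exact htf _ (δ.1 g).2 (A.subtype.isOfFinOrder h7)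
  exact (rank_le_of_inj _ hinj).trans (rank_prod_group E A c d hE hd.le)

end Pool.Agent.H652.SR
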