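import Mathlib
import Pool.Agent.H652.SR.Defs
import Pool.Agent.H652.SR.Jsylow
import Pool.Agent.H652.SR.Jvptb

set_option autoImplicit false

open scoped IsMulCommutative

namespace Pool.Agent.H652.SR

private theorem slick_of_comm (Q : Type) [CommGroup Q] (hfg : Group.FG Q) (hinf : Infinite Q) :
    ∃ m : ℕ, 1 ≤ m ∧ Slick Q m := by
  classical
  have hfgA : AddGroup.FG (Additive Q) := GroupFG.iff_add_fg.1 hfg
  obtain ⟨n, ι, _, p, hp, e, ⟨φ⟩⟩ := AddCommGroup.equiv_free_prod_directSum_zmod (Additive Q)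
  have hfinD : Finite (DirectSum ι fun i => ZMod (p i ^ e i)) := by
    have : ∀ i, NeZero (p i ^ e i) := fun i => ⟨pow_ne_zero _ (hp i).ne_zero⟩
    exact Finite.of_equiv _ DFinsupp.equivFunOnFintype.symm
  have hn : 1 ≤ n := by
    rcases Nat.eq_zero_or_pos n with h | h
    · exfalso
      subst h
      have : Finite (Fin 0 →₀ ℤ) := inferInstance
      have h1 : Finite (Additive Q) := Finite.of_equiv _ φ.symm.toEquiv
      have h2 : Finite Q := Finite.of_equiv _ (Additive.toMul)
      exact not_finite Q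
    · exact h

  let g : Q →* Multiplicative (DirectSum ι fun i => ZMod (p i ^ e i)) :=
    { toFun := fun q => Multiplicative.ofAdd (φ (Additive.ofMul q)).2
      map_one' := by simp
      map_mul' := fun a b => by simp [ofMul_mul, map_add, ofAdd_add] }
  have hfinM : Finite (Multiplicative (DirectSum ι fun i => ZMod (p i ^ e i))) :=
    Finite.of_equiv _ Multiplicative.ofAdd
  have hker : ∀ q : Q, q ∈ g.ker ↔ (φ (Additive.ofMul q)).2 = 0 := by
    intro q
    rw [MonoidHom.mem_ker]
    show Multiplicative.ofAdd (φ (Additive.ofMul q)).2 = 1 ↔ _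
    exact ofAdd_eq_one
  have hcomm : IsMulCommutative g.ker := ⟨⟨fun a b => Subtype.ext (mul_comm _ _)⟩⟩
  refine ⟨n, hn, g.ker, inferInstance, hcomm, ?_, ?_, Or.inl fun a c _ => mul_comm _ _⟩
  · rw [Subgroup.index_ker]
    have : Finite g.range := inferInstance
    exact Nat.card_pos.ne'
  · let ψ : Additive g.ker →+ (Fin n →₀ ℤ) :=
      { toFun := fun b => (φ (Additive.ofMul (Additive.toMul b).1)).1
        map_zero' := by simp
        map_add' := fun a b => by simp [ofMul_mul, map_add] }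
    have hψ : Function.Bijective ψ := by
      constructor
      · intro a b hab
        have h1 : (φ (Additive.ofMul (Additive.toMul a).1)).1 =
            (φ (Additive.ofMul (Additive.toMul b).1)).1 := hab
        have h2 : (φ (Additive.ofMul (Additive.toMul a).1)).2 =
            (φ (Additive.ofMul (Additive.toMul b).1)).2 := by
          rw [(hker _).1 (Additive.toMul a).2, (hker _).1 (Additive.toMul b).2]
        have h3 := φ.injective (Prod.ext h1 h2)
        have h4 : (Additive.toMul a).1 = (Additive.toMul b).1 := Additive.ofMul.injective h3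
        exact Additive.toMul.injective (Subtype.ext h4)
      · intro v
        have h1 : φ (Additive.ofMul (Additive.toMul (φ.symm (v, 0)))) = (v, 0) := by
          rw [ofMul_toMul]
          exact φ.apply_symm_apply _
        refine ⟨Additive.ofMul ⟨Additive.toMul (φ.symm (v, 0)), (hker _).2 ?_⟩, ?_⟩
        · rw [h1]
        · show (φ (Additive.ofMul (Additive.toMul (φ.symm (v, 0))))).1 = v
          rw [h1]
    exact ⟨Module.Basis.ofRepr (AddEquiv.ofBijective ψ hψ).toIntLinearEquiv⟩

theorem Case1.of_abelian (K : Type) [Group K] (hfg : Group.FG K) (E : Type) [CommGroup E]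
    (f : K →* E) (hf : Infinite f.range) : Case1 K := by
  have h1 : Group.FG f.range := Group.fg_range f
  obtain ⟨m, hm, hs⟩ := slick_of_comm f.range h1 hf
  exact ⟨f.range, inferInstance, f.rangeRestrict, f.rangeRestrict_surjective, m, hm, hs⟩

theorem Case1.of_vpt_one (K : Type) [Group K] (hfg : Group.FG K) (h : VPT K 1) : Case1 K := by
  classical
  obtain ⟨h0, -⟩ | ⟨A, hAn, hAc, d, m, htf, hrank, hd, -, hmd, hq⟩ := h.cases_irr
  · exact absurd h0 one_ne_zero
  have hd1 : d = 1 := by omega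
  have hm0 : m = 0 := by omega
  subst hd1 hm0
  have hfin : Finite (K ⧸ A) := by
    obtain ⟨-, h1⟩ | ⟨A', h1, h2, d', m', h3, h4, h5, h6, h7, h8⟩ := hq.cases_irr
    · exact h1
    · omega
  have hidx : A.index ≠ 0 := Nat.card_pos.ne'
  have hFI : A.FiniteIndex := ⟨hidx⟩
  have hAfg : Group.FG A := Subgroup.fg_of_index_ne_zero A
  have hfinM : Module.Finite ℤ (Additive A) :=
    Module.Finite.iff_addGroup_fg.2 (GroupFG.iff_add_fg.1 hAfg)
  have htfM : Module.IsTorsionFree ℤ (Additive A) := by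
    refine ⟨fun r hr x y hxy => ?_⟩
    have hr0 : r ≠ 0 := fun h => by
      rw [h] at hr
      exact (not_isRegular_zero hr).elim
    have h1 : r • (x - y) = 0 := by
      rw [smul_sub]; exact sub_eq_zero.2 hxy
    have h2 : (((Additive.toMul (x - y)) ^ r : A) : K) = 1 := by
      have : Additive.toMul (r • (x - y)) = 1 := by rw [h1]; rfl
      rw [toMul_zsmul] at this
      rw [this]; rfl
    have h3 : ((Additive.toMul (x - y) : A) : K) ^ r = 1 := by
      rw [← h2]; exact (Subgroup.coe_zpow _ _ _).symm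
    have h4 := htf _ (Additive.toMul (x - y) : A).2 (isOfFinOrder_iff_zpow_eq_one.2 ⟨r, hr0, h3⟩)
    have h5 : Additive.toMul (x - y) = 1 := Subtype.ext h4
    have h6 : x - y = 0 := Additive.toMul.injective h5
    exact sub_eq_zero.1 h6
  have hfree : Module.Free ℤ (Additive A) := inferInstance
  have hfr : Module.finrank ℤ (Additive A) = 1 := by
    have := Module.finrank_eq_of_rank_eq hrank
    simpa using this
  let b : Module.Basis (Fin 1) ℤ (Additive A) := Module.finBasisOfFinrankEq ℤ (Additive A) hfr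

  set a0 : K := (Additive.toMul (b 0)).1 with ha0
  have ha0A : a0 ∈ A := (Additive.toMul (b 0)).2
  have hgen : ∀ a ∈ A, ∃ k : ℤ, a = a0 ^ k := by
    intro a ha
    refine ⟨b.repr (Additive.ofMul ⟨a, ha⟩) 0, ?_⟩
    have h1 := b.sum_repr (Additive.ofMul ⟨a, ha⟩)
    rw [Fin.sum_univ_one] at h1
    have h2 := congrArg (fun z => ((Additive.toMul z : A) : K)) h1
    simp only [toMul_zsmul, toMul_ofMul] at h2
    exact h2.symm.trans (Subgroup.coe_zpow _ _ _)
  have ha01 : a0 ≠ 1 := by
    intro h1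
    have h2 : Additive.toMul (b 0) = 1 := Subtype.ext h1
    have h3 : b 0 = 0 := Additive.toMul.injective h2
    exact b.ne_zero 0 h3
  have hpow : ∀ k : ℤ, a0 ^ k = 1 → k = 0 := by
    intro k hk
    by_contra hk0
    exact ha01 (htf a0 ha0A (isOfFinOrder_iff_zpow_eq_one.2 ⟨k, hk0, hk⟩))
  have hconj : ∀ g : K, (∀ a ∈ A, g * a * g⁻¹ = a) ∨ (∀ a ∈ A, g * a * g⁻¹ = a⁻¹) := by
    intro g
    obtain ⟨k, hk⟩ := hgen (g * a0 * g⁻¹) (hAn.conj_mem a0 ha0A g)
    obtain ⟨l, hl⟩ := hgen (g⁻¹ * a0 * g) (by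
      have := hAn.conj_mem a0 ha0A g⁻¹
      rwa [inv_inv] at this)
    have h1 : a0 = a0 ^ (k * l) := by
      have h2 : g * (g⁻¹ * a0 * g) * g⁻¹ = a0 := by group
      rw [hl, ← conj_zpow, hk, ← zpow_mul] at h2
      exact h2.symm
    have h3 : k * l = 1 := by
      have h4 : a0 ^ (k * l - 1) = 1 := by
        rw [zpow_sub, zpow_one, ← h1, mul_inv_cancel]
      have := hpow _ h4
      omega
    rcases Int.eq_one_or_neg_one_of_mul_eq_one h3 with h5 | h5
    · left
      intro a ha
      obtain ⟨j, rfl⟩ := hgen a ha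
      rw [← conj_zpow, hk, h5, zpow_one]
    · right
      intro a ha
      obtain ⟨j, rfl⟩ := hgen a ha
      rw [← conj_zpow, hk, h5, zpow_neg_one, inv_zpow]
  refine ⟨K, inferInstance, MonoidHom.id K, Function.surjective_id, 1, le_rfl,
    A, hAn, hAc, hidx, ⟨b⟩, ?_⟩
  by_cases hall : ∀ g : K, ∀ a ∈ A, g * a * g⁻¹ = a
  · left
    intro g c hc
    have := hall g c hc
    rw [mul_inv_eq_iff_eq_mul] at this
    exact this
  · right
    push Not at hall
    obtain ⟨x, a1, ha1, hx1⟩ := hall
    have hx : ∀ a ∈ A, x * a * x⁻¹ = a⁻¹ := by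
      rcases hconj x with h1 | h1
      · exact absurd (h1 a1 ha1) hx1
      · exact h1
    have hx' : ∀ a ∈ A, x * a = a⁻¹ * x := fun a ha => by
      have := hx a ha
      rw [mul_inv_eq_iff_eq_mul] at this
      exact this
    have hxi : ∀ a ∈ A, x⁻¹ * a = a⁻¹ * x⁻¹ := fun a ha => by
      have h1 := hx' a⁻¹ (A.inv_mem ha)
      rw [inv_inv] at h1

      rw [inv_mul_eq_iff_eq_mul, ← mul_assoc, h1, mul_assoc, mul_inv_cancel, mul_one]
    refine ⟨2, x, Nat.prime_two, ?_, ?_, ?_⟩
    · intro c hc h1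
      rw [hx' c hc] at h1
      have h2 : c⁻¹ = c := mul_right_cancel h1
      refine htf c hc (isOfFinOrder_iff_pow_eq_one.2 ⟨2, by norm_num, ?_⟩)
      rw [pow_two]
      nth_rewrite 1 [← h2]
      exact inv_mul_cancel c
    · intro c hc
      rw [pow_two, mul_assoc, hx' c hc, ← mul_assoc, hx' c⁻¹ (A.inv_mem hc), inv_inv, mul_assoc]
    · intro g
      refine ⟨1, fun c hc => ?_⟩
      rw [pow_one]
      have hci := A.inv_mem hc
      rcases hconj g with hg | hg
      · have hg' : ∀ a ∈ A, g * a = a * g := fun a ha => by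
          have := hg a ha
          rw [mul_inv_eq_iff_eq_mul] at this
          exact this
        have hgi : ∀ a ∈ A, g⁻¹ * a = a * g⁻¹ := fun a ha => by
          rw [inv_mul_eq_iff_eq_mul, ← mul_assoc, hg' a ha, mul_assoc, mul_inv_cancel, mul_one]
        calc g * x * g⁻¹ * x⁻¹ * c = g * x * g⁻¹ * (x⁻¹ * c) := by group
          _ = g * x * (g⁻¹ * c⁻¹) * x⁻¹ := by rw [hxi c hc]; group
          _ = g * (x * c⁻¹) * g⁻¹ * x⁻¹ := by rw [hgi _ hci]; group
          _ = (g * c) * x * g⁻¹ * x⁻¹ := by rw [hx' _ hci, inv_inv]; group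
          _ = c * (g * x * g⁻¹ * x⁻¹) := by rw [hg' c hc]; group
      · have hg' : ∀ a ∈ A, g * a = a⁻¹ * g := fun a ha => by
          have := hg a ha
          rw [mul_inv_eq_iff_eq_mul] at this
          exact this
        have hgi : ∀ a ∈ A, g⁻¹ * a = a⁻¹ * g⁻¹ := fun a ha => by
          have h1 := hg' a⁻¹ (A.inv_mem ha)
          rw [inv_inv] at h1
          rw [inv_mul_eq_iff_eq_mul, ← mul_assoc, h1, mul_assoc, mul_inv_cancel, mul_one]
        calc g * x * g⁻¹ * x⁻¹ * c = g * x * g⁻¹ * (x⁻¹ * c) := by group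
          _ = g * x * (g⁻¹ * c⁻¹) * x⁻¹ := by rw [hxi c hc]; group
          _ = g * (x * c) * g⁻¹ * x⁻¹ := by rw [hgi _ hci, inv_inv]; group
          _ = (g * c⁻¹) * x * g⁻¹ * x⁻¹ := by rw [hx' _ hc]; group
          _ = c * (g * x * g⁻¹ * x⁻¹) := by rw [hg' _ hci, inv_inv]; group

end Pool.Agent.H652.SR
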