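import Mathlib
import Pool.Agent.H652.SR.Defs
import Pool.Agent.H652.SR.Jquot1
import Pool.Agent.H652.SR.Jsylow

set_option autoImplicit false

open scoped IsMulCommutative

namespace Pool.Agent.H652.SR

section gc

variable {Q : Type} [Group Q] (A : Subgroup Q) [A.Normal] [IsMulCommutative A]

include A in
private theorem gc_tf_pow (htf : ∀ a ∈ A, IsOfFinOrder a → a = 1) {a : A} {n : ℤ} (hn : n ≠ 0)
    (h : a ^ n = 1) : a = 1 := by
  apply Subtype.ext
  apply htf a.1 a.2
  rw [isOfFinOrder_iff_zpow_eq_one]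
  refine ⟨n, hn, ?_⟩
  have := congrArg Subtype.val h
  simpa using this

private theorem gc_tf_inj (htf : ∀ a ∈ A, IsOfFinOrder a → a = 1) {a b : A} {n : ℤ} (hn : n ≠ 0)
    (h : a ^ n = b ^ n) : a = b := by
  have h1 : (a * b⁻¹) ^ n = 1 := by rw [mul_zpow, inv_zpow, h, mul_inv_cancel]
  exact mul_inv_eq_one.1 (gc_tf_pow A htf hn h1)

private theorem gc_rank_rel (htf : ∀ a ∈ A, IsOfFinOrder a → a = 1)
    (hd : Module.rank ℤ (Additive A) = 1) {a : A} (ha : a ≠ 1) (b : A) :
    ∃ m n : ℤ, m ≠ 0 ∧ b ^ m = a ^ n := by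
  by_contra hcon
  push Not at hcon
  have hli : LinearIndependent ℤ ![Additive.ofMul a, Additive.ofMul b] := by
    rw [LinearIndependent.pair_iff]
    intro s t hst
    have h1 : a ^ s * b ^ t = 1 := hst
    have ht : t = 0 := by
      by_contra ht
      exact hcon t (-s) ht (by rw [zpow_neg]; exact eq_inv_of_mul_eq_one_right h1)
    subst ht
    rw [zpow_zero, mul_one] at h1
    refine ⟨?_, rfl⟩
    by_contra hs
    exact ha (gc_tf_pow A htf hs h1)
  have h2 := hli.cardinal_le_rank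
  rw [hd, Cardinal.mk_fin] at h2
  exact absurd h2 (by norm_num)

private theorem gc_nontriv (hd : Module.rank ℤ (Additive A) = 1) : ∃ a : A, a ≠ 1 := by
  by_contra hcon
  push Not at hcon
  haveI : Subsingleton (Additive A) := ⟨fun a b => by
    have h1 : Additive.toMul a = Additive.toMul b := (hcon _).trans (hcon _).symm
    exact h1⟩
  rw [rank_subsingleton'] at hd
  exact zero_ne_one hd

private theorem gc_aut_comm (htf : ∀ a ∈ A, IsOfFinOrder a → a = 1)
    (hd : Module.rank ℤ (Additive A) = 1) (σ τ : MulAut A) : σ * τ = τ * σ := by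
  refine MulEquiv.ext fun a => ?_
  by_cases ha : a = 1
  · rw [ha, map_one, map_one]
  obtain ⟨m, n, hm, h1⟩ := gc_rank_rel A htf hd ha (σ a)
  obtain ⟨k, l, hk, h2⟩ := gc_rank_rel A htf hd ha (τ a)
  apply gc_tf_inj A htf (mul_ne_zero hm hk)
  rw [MulAut.mul_apply, MulAut.mul_apply]
  have e1 : (σ (τ a)) ^ (m * k) = a ^ (n * l) := by
    rw [mul_comm m k, zpow_mul, ← map_zpow, h2, map_zpow, ← zpow_mul, mul_comm l m, zpow_mul, h1,
      ← zpow_mul]
  have e2 : (τ (σ a)) ^ (m * k) = a ^ (n * l) := by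
    rw [zpow_mul, ← map_zpow, h1, map_zpow, ← zpow_mul, mul_comm n k, zpow_mul, h2,
      ← zpow_mul, mul_comm l n]
  rw [e1, e2]

private theorem gc_sign (htf : ∀ a ∈ A, IsOfFinOrder a → a = 1)
    (hd : Module.rank ℤ (Additive A) = 1) (σ : MulAut A) {k : ℕ} (hk : 0 < k) (hσ : σ ^ k = 1) :
    (∀ a : A, σ a = a) ∨ (∀ a : A, σ a = a⁻¹) := by
  obtain ⟨a0, ha0⟩ := gc_nontriv A hd
  obtain ⟨m, n, hm, h1⟩ := gc_rank_rel A htf hd ha0 (σ a0)
  have hpow : ∀ j : ℕ, ((σ ^ j) a0) ^ (m ^ j) = a0 ^ (n ^ j) := by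
    intro j
    induction j with
    | zero => simp
    | succ j ih =>
      rw [pow_succ' σ j, MulAut.mul_apply, pow_succ m j, zpow_mul, ← map_zpow, ih, map_zpow,
        ← zpow_mul, mul_comm (n ^ j) m, zpow_mul, h1, ← zpow_mul, ← pow_succ']
  have h2 := hpow k
  rw [hσ, MulAut.one_apply] at h2
  have h3 : a0 ^ (m ^ k - n ^ k) = 1 := by rw [zpow_sub, h2, mul_inv_cancel]
  have h4 : m ^ k = n ^ k := by
    by_contra hne
    exact ha0 (gc_tf_pow A htf (sub_ne_zero.2 hne) h3)
  have h5 : m.natAbs = n.natAbs := by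
    have := congrArg Int.natAbs h4
    rw [Int.natAbs_pow, Int.natAbs_pow] at this
    exact Nat.pow_left_injective (by omega) this
  have h6 : σ a0 = a0 ∨ σ a0 = a0⁻¹ := by
    rcases Int.natAbs_eq_natAbs_iff.1 h5 with h | h
    · left
      rw [← h] at h1
      exact gc_tf_inj A htf hm h1
    · right
      have : n = -m := by omega
      rw [this, zpow_neg, ← inv_zpow] at h1
      exact gc_tf_inj A htf hm h1
  rcases h6 with h6 | h6
  · left
    intro b
    obtain ⟨s, t, hs, h7⟩ := gc_rank_rel A htf hd ha0 b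
    apply gc_tf_inj A htf hs
    rw [← map_zpow, h7, map_zpow, h6]
  · right
    intro b
    obtain ⟨s, t, hs, h7⟩ := gc_rank_rel A htf hd ha0 b
    apply gc_tf_inj A htf hs
    rw [← map_zpow, h7, map_zpow, h6, inv_zpow, inv_zpow, h7]

private theorem gc_build (htf : ∀ a ∈ A, IsOfFinOrder a → a = 1) (hfg : Group.FG Q)
    (φ : Q →* MulAut A) (hfin : Finite φ.range)
    (hcomm : ∀ σ τ : MulAut A, σ * τ = τ * σ)
    (x : Q) (hx : ∀ a : A, φ x a = a⁻¹)
    (δ : Q → A) (hδ : ∀ g h, δ (g * h) = δ g * φ g (δ h)) (c0 : Q) (hc0 : φ c0 = 1)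
    (hc0' : δ c0 ≠ 1) : Case1 Q := by
  have h1 : δ 1 = 1 := by
    have := hδ 1 1
    rw [map_one, MulAut.one_apply, mul_one] at this
    exact (left_eq_mul.1 this)
  have hCmul : ∀ c h, φ c = 1 → δ (c * h) = δ c * δ h := by
    intro c h hc
    rw [hδ, hc, MulAut.one_apply]
  have hCinv : ∀ c, φ c = 1 → δ c⁻¹ = (δ c)⁻¹ := by
    intro c hc
    have := hCmul c c⁻¹ hc
    rw [mul_inv_cancel, h1] at this
    exact (eq_inv_of_mul_eq_one_right this.symm)
  have hconj : ∀ q c, φ c = 1 → δ (q * c * q⁻¹) = φ q (δ c) := by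
    intro q c hc
    have e1 : δ (q * q⁻¹) = δ q * φ q (δ q⁻¹) := hδ q q⁻¹
    rw [mul_inv_cancel, h1] at e1
    rw [hδ, hδ, map_mul, hc, mul_one]
    calc δ q * φ q (δ c) * φ q (δ q⁻¹) = φ q (δ c) * (δ q * φ q (δ q⁻¹)) := by
          rw [mul_comm (δ q) (φ q (δ c)), mul_assoc]
      _ = φ q (δ c) := by rw [← e1, mul_one]
  let N0 : Subgroup Q :=
    { carrier := {c | φ c = 1 ∧ δ c = 1}
      one_mem' := ⟨map_one φ, h1⟩
      mul_mem' := by
        rintro a b ⟨ha, ha'⟩ ⟨hb, hb'⟩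
        refine ⟨by rw [map_mul, ha, hb, one_mul], ?_⟩
        rw [hCmul a b ha, ha', hb', one_mul]
      inv_mem' := by
        rintro a ⟨ha, ha'⟩
        refine ⟨by rw [map_inv, ha, inv_one], ?_⟩
        rw [hCinv a ha, ha', inv_one] }
  have hN0 : ∀ c, c ∈ N0 ↔ φ c = 1 ∧ δ c = 1 := fun c => Iff.rfl
  haveI : N0.Normal := ⟨fun c hc q => by
    obtain ⟨hc1, hc2⟩ := hc
    refine ⟨by rw [map_mul, map_mul, hc1, mul_one, ← map_mul, mul_inv_cancel, map_one], ?_⟩
    show δ (q * c * q⁻¹) = 1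
    rw [hconj q c hc1, hc2, map_one]⟩
  let π : Q →* Q ⧸ N0 := QuotientGroup.mk' N0
  have hπs : Function.Surjective π := QuotientGroup.mk'_surjective N0
  have hπ : ∀ c c', φ c = 1 → φ c' = 1 → (π c = π c' ↔ δ c = δ c') := by
    intro c c' hc hc'
    have e1 : π c = π c' ↔ c⁻¹ * c' ∈ N0 := QuotientGroup.eq
    rw [e1, hN0]
    have hci : φ c⁻¹ = 1 := by rw [map_inv, hc, inv_one]
    rw [hCmul _ _ hci, hCinv c hc, map_mul, hci, hc', one_mul]
    constructor
    · rintro ⟨-, h⟩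
      exact (inv_mul_eq_one.1 h)
    · intro h
      exact ⟨rfl, inv_mul_eq_one.2 h⟩
  have hπ1 : ∀ c, φ c = 1 → (π c = 1 ↔ δ c = 1) := by
    intro c hc
    have := hπ c 1 hc (map_one φ)
    rwa [map_one, h1] at this
  let C : Subgroup Q := φ.ker
  have hC : ∀ c, c ∈ C ↔ φ c = 1 := fun c => MonoidHom.mem_ker
  let B : Subgroup (Q ⧸ N0) := C.map π
  have hBcomm : ∀ b ∈ B, ∀ b' ∈ B, b * b' = b' * b := by
    rintro _ ⟨c, hc, rfl⟩ _ ⟨c', hc', rfl⟩
    have hc := (hC c).1 hc
    have hc' := (hC c').1 hc'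
    rw [← map_mul, ← map_mul, hπ _ _ (by rw [map_mul, hc, hc', one_mul])
      (by rw [map_mul, hc, hc', one_mul]), hCmul _ _ hc, hCmul _ _ hc', mul_comm]
  haveI hBc : IsMulCommutative B := ⟨⟨fun a b => Subtype.ext (hBcomm a.1 a.2 b.1 b.2)⟩⟩
  have hCn : C.Normal := MonoidHom.normal_ker φ
  have hBn : B.Normal := Subgroup.Normal.map hCn π hπs
  have hCi : C.index ≠ 0 := by
    show φ.ker.index ≠ 0
    rw [Subgroup.index_ker]
    exact Nat.card_ne_zero.2 ⟨⟨1⟩, hfin⟩
  have hBi : B.index ≠ 0 := by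
    intro h0
    have := Subgroup.index_map_dvd C hπs
    rw [show (C.map π).index = 0 from h0] at this
    exact hCi (zero_dvd_iff.1 this)
  haveI : C.FiniteIndex := ⟨hCi⟩
  haveI : Group.FG C := inferInstance
  haveI hBfg : Group.FG B := Group.fg_of_surjective (π.subgroupMap_surjective C)
  haveI : Module.Finite ℤ (Additive B) := by
    rw [Module.Finite.iff_addGroup_fg]
    exact GroupFG.iff_add_fg.1 hBfg
  let D : C →* A :=
    { toFun := fun c => δ c.1
      map_one' := h1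
      map_mul' := fun a b => hCmul a.1 b.1 ((hC a.1).1 a.2) }
  haveI : Module.IsTorsionFree ℤ (Additive B) := by
    refine Module.IsTorsionFree.of_smul_eq_zero ?_
    intro n b hnb
    by_cases hn : n = 0
    · exact Or.inl hn
    right
    obtain ⟨b, ⟨c, hc, rfl⟩⟩ := b
    have hc' := (hC c).1 hc
    have h2 : (π c) ^ n = 1 := by
      have := congrArg Subtype.val (show (⟨π c, ⟨c, hc, rfl⟩⟩ : B) ^ n = 1 from hnb)
      simpa using this
    have h3 : δ (c ^ n) = 1 := by
      rw [← hπ1 (c ^ n) (by rw [map_zpow, hc', one_zpow]), map_zpow, h2]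
    have h4 : (D ⟨c, hc⟩) ^ n = 1 := by
      rw [← map_zpow]
      exact h3
    have h5 : δ c = 1 := gc_tf_pow A htf hn h4
    have h6 : π c = 1 := (hπ1 c hc').2 h5
    show (⟨π c, ⟨c, hc, rfl⟩⟩ : B) = 1
    exact Subtype.ext h6
  haveI : Module.Free ℤ (Additive B) := Module.free_of_finite_type_torsion_free'
  haveI : Nontrivial (Additive B) := by
    refine ⟨⟨(⟨π c0, ⟨c0, (hC c0).2 hc0, rfl⟩⟩ : B), (1 : B), ?_⟩⟩
    intro h
    have : π c0 = 1 := congrArg Subtype.val h
    exact hc0' ((hπ1 c0 hc0).1 this)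
  refine ⟨Q ⧸ N0, inferInstance, π, hπs, Module.finrank ℤ (Additive B), ?_, B, hBn, hBc, hBi,
    ⟨Module.finBasis ℤ (Additive B)⟩, Or.inr ⟨2, π x, Nat.prime_two, ?_, ?_, ?_⟩⟩
  · exact Module.finrank_pos
  · rintro _ ⟨c, hc, rfl⟩ h
    have hc' := (hC c).1 hc
    have h2 : π (x * c * x⁻¹) = π c := by
      rw [map_mul, map_mul, h, map_inv, mul_inv_cancel_right]
    have h3 : φ (x * c * x⁻¹) = 1 := by
      rw [map_mul, map_mul, hc', mul_one, ← map_mul, mul_inv_cancel, map_one]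
    rw [hπ _ _ h3 hc', hconj x c hc', hx] at h2
    have h4 : (δ c) ^ (2 : ℤ) = 1 := by
      rw [zpow_two]
      nth_rewrite 1 [← h2]
      rw [inv_mul_cancel]
    exact (hπ1 c hc').2 (gc_tf_pow A htf (by norm_num) h4)
  · intro c hc
    have h2 : φ (x ^ 2) = 1 := by
      refine MulEquiv.ext fun a => ?_
      rw [map_pow, pow_two, MulAut.mul_apply, hx, hx, inv_inv, MulAut.one_apply]
    have h3 : (π x) ^ 2 ∈ B := ⟨x ^ 2, (hC _).2 h2, by rw [map_pow]⟩
    exact hBcomm _ h3 c hc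
  · intro g
    obtain ⟨q, rfl⟩ := hπs g
    refine ⟨1, fun c hc => ?_⟩
    have h2 : φ (q * x * q⁻¹ * (x ^ 1)⁻¹) = 1 := by
      rw [map_mul, map_mul, map_mul, pow_one, map_inv, map_inv, hcomm (φ q) (φ x),
        mul_inv_cancel_right, mul_inv_cancel]
    have h3 : π q * π x * (π q)⁻¹ * (π x ^ 1)⁻¹ ∈ B :=
      ⟨q * x * q⁻¹ * (x ^ 1)⁻¹, (hC _).2 h2, by
        rw [map_mul, map_mul, map_mul, map_inv, map_inv, map_pow]⟩
    exact hBcomm _ h3 c hc

end gc

theorem gc_one (Q : Type) [Group Q] (A : Subgroup Q) [A.Normal] [IsMulCommutative A]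
    (htf : ∀ a ∈ A, IsOfFinOrder a → a = 1) (hd : Module.rank ℤ (Additive A) = 1)
    (hfg : Group.FG Q) (hc : ¬ Case1 Q) :
    Module.rank ℤ (Additive (DerRel (MulAut.conjNormal : Q →* MulAut A) A)) ≤ 1 := by
  set φ : Q →* MulAut A := MulAut.conjNormal with hφ
  have hcomm := gc_aut_comm A htf hd
  have hfin : Finite φ.range := by
    by_contra hinf
    have hinf' : Infinite φ.range := not_finite_iff_infinite.1 hinf
    letI : CommGroup (MulAut A) := { (inferInstance : Group (MulAut A)) with mul_comm := hcomm }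
    exact hc (Case1.of_abelian Q hfg (MulAut A) φ hinf')
  have hsgn : ∀ q : Q, (∀ a : A, φ q a = a) ∨ (∀ a : A, φ q a = a⁻¹) := by
    intro q
    have h1 := isOfFinOrder_of_finite (⟨φ q, ⟨q, rfl⟩⟩ : φ.range)
    obtain ⟨k, hk, h2⟩ := isOfFinOrder_iff_pow_eq_one.1 h1
    refine gc_sign A htf hd (φ q) hk ?_
    exact congrArg Subtype.val h2
  have htriv : ∀ q, (∀ a : A, φ q a = a) → φ q = 1 := fun q h => MulEquiv.ext h
  by_cases hT : ∀ q, φ q = 1
  · have hsub : ∀ δ ∈ DerRel φ A, δ = 1 := by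
      intro δ hδ
      by_contra hne
      obtain ⟨q, hq⟩ := Function.ne_iff.1 hne
      have hmul : ∀ g h, δ (g * h) = δ g * δ h := by
        intro g h
        have := hδ.1 g h
        rwa [hT g, MulAut.one_apply] at this
      let f : Q →* A := MonoidHom.mk' δ hmul
      refine hc (Case1.of_abelian Q hfg A f ?_)
      refine Infinite.of_injective (fun n : ℤ => (⟨(f q) ^ n, ⟨q ^ n, map_zpow f q n⟩⟩ : f.range)) ?_
      intro n m hnm
      have h1 : (f q) ^ n = (f q) ^ m := congrArg Subtype.val hnm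
      by_contra hnm'
      have h2 : (f q) ^ (n - m) = 1 := by rw [zpow_sub, h1, mul_inv_cancel]
      exact hq (gc_tf_pow A htf (sub_ne_zero.2 hnm') h2)
    haveI : Subsingleton (Additive (DerRel φ A)) := ⟨fun a b => by
      have h1 : (Additive.toMul a) = (Additive.toMul b) := by
        apply Subtype.ext
        rw [hsub _ (Additive.toMul a).2, hsub _ (Additive.toMul b).2]
      exact h1⟩
    rw [rank_subsingleton']
    exact zero_le_one
  · push Not at hT
    obtain ⟨x, hx⟩ := hT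
    have hxi : ∀ a : A, φ x a = a⁻¹ := by
      rcases hsgn x with h | h
      · exact absurd (htriv x h) hx
      · exact h
    have hD : ∀ δ ∈ DerRel φ A, ∀ c, φ c = 1 → δ c = 1 := by
      intro δ hδ c hc1
      by_contra hne
      exact hc (gc_build A htf hfg φ hfin hcomm x hxi δ hδ.1 c hc1 hne)
    let L0 : Additive (DerRel φ A) →+ Additive A :=
      { toFun := fun δ => Additive.ofMul ((Additive.toMul δ).1 x)
        map_zero' := rfl
        map_add' := fun a b => rfl }
    have hinj : Function.Injective L0.toIntLinearMap := by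
      intro a b hab
      have h1 : (Additive.toMul a).1 x = (Additive.toMul b).1 x := hab
      have h2 : Additive.toMul a = Additive.toMul b := by
        apply Subtype.ext
        funext q
        have ha := (Additive.toMul a).2
        have hb := (Additive.toMul b).2
        rcases hsgn q with h | h
        · rw [hD _ ha q (htriv q h), hD _ hb q (htriv q h)]
        · have h3 : φ (x⁻¹ * q) = 1 := by
            have h4 : φ q = φ x := MulEquiv.ext fun a => by rw [h, hxi]
            rw [map_mul, map_inv, h4, inv_mul_cancel]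
          have h5 : q = x * (x⁻¹ * q) := by rw [mul_inv_cancel_left]
          rw [h5, ha.1, hb.1, hD _ ha _ h3, hD _ hb _ h3, h1]
      exact h2
    have := LinearMap.rank_le_of_injective L0.toIntLinearMap hinj
    rwa [hd] at this

end Pool.Agent.H652.SR
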