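import Mathlib
import Pool.Agent.H652.SR.Defs

set_option autoImplicit false

open scoped IsMulCommutative

namespace Pool.Agent.H652.SR

section aux

variable {G M : Type} [Group G] [CommGroup M] {φ : G →* MulAut M}

private theorem Der.mul' {δ : G → M} (h : δ ∈ Der φ) (g k : G) : δ (g * k) = δ g * φ g (δ k) := h g k

private theorem Der.one' {δ : G → M} (h : δ ∈ Der φ) : δ 1 = 1 := by
  have h1 := Der.mul' h 1 1
  rw [mul_one, map_one, MulAut.one_apply] at h1
  exact (mul_eq_left.1 h1.symm)

private theorem Der.inv' {δ : G → M} (h : δ ∈ Der φ) (g : G) : φ g (δ g⁻¹) = (δ g)⁻¹ := by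
  have h1 := Der.mul' h g g⁻¹
  rw [mul_inv_cancel, Der.one' h] at h1
  exact (inv_eq_of_mul_eq_one_right h1.symm).symm

def Der.ker' {δ : G → M} (h : δ ∈ Der φ) : Subgroup G where
  carrier := {g | δ g = 1}
  one_mem' := Der.one' h
  mul_mem' := by
    intro a b ha hb
    have ha : δ a = 1 := ha
    have hb : δ b = 1 := hb
    show δ (a * b) = 1
    rw [Der.mul' h, ha, hb, map_one, one_mul]
  inv_mem' := by
    intro a ha
    have ha : δ a = 1 := ha
    show δ a⁻¹ = 1
    have h1 := Der.inv' h a
    rw [ha, inv_one] at h1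
    exact (φ a).injective (by rw [h1, map_one])

private theorem Der.eq_one_of_closure {δ : G → M} (h : δ ∈ Der φ) {S : Set G} (hS : ∀ s ∈ S, δ s = 1) :
    ∀ g ∈ Subgroup.closure S, δ g = 1 := by
  have : Subgroup.closure S ≤ Der.ker' h := (Subgroup.closure_le _).2 hS
  exact fun g hg => this hg

private theorem Der.conj' {δ : G → M} (h : δ ∈ Der φ) {k : G} (hk : φ k = 1) (g : G) :
    δ (g * k * g⁻¹) = φ g (δ k) := by
  rw [Der.mul' h (g * k) g⁻¹, Der.mul' h g k, map_mul φ g k, hk, mul_one, Der.inv' h g]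
  rw [mul_comm (δ g), mul_assoc, mul_inv_cancel, mul_one]

end aux

private theorem closure_range_mem {G : Type} [Group G] {H : Subgroup G} {n : ℕ} {x : Fin n → H}
    (hx : Subgroup.closure (Set.range x) = ⊤) :
    Subgroup.closure (Set.range fun i => (x i : G)) = H := by
  have h1 : (Set.range fun i => (x i : G)) = H.subtype '' Set.range x := by
    rw [← Set.range_comp]
    rfl
  rw [h1, ← MonoidHom.map_closure, hx, ← MonoidHom.range_eq_map, Subgroup.range_subtype]

private theorem closure_insert_top {G : Type} [Group G] {H : Subgroup G} {q : ℕ} (hq : q.Prime)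
    (hidx : H.index = q) {c : G} (hc : c ∉ H) : Subgroup.closure (insert c (H : Set G)) = ⊤ := by
  set K := Subgroup.closure (insert c (H : Set G)) with hK
  have hHK : H ≤ K := fun h hh => Subgroup.subset_closure (Set.mem_insert_of_mem _ hh)
  have hcK : c ∈ K := Subgroup.subset_closure (Set.mem_insert _ _)
  have h1 := Subgroup.relIndex_mul_index hHK
  rw [hidx] at h1
  have h2 : K.index ∣ q := ⟨H.relIndex K, by rw [← h1, mul_comm]⟩
  rcases (Nat.dvd_prime hq).1 h2 with h3 | h3
  · exact Subgroup.index_eq_one.1 h3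
  · exfalso
    rw [h3] at h1
    have h4 : H.relIndex K = 1 := by
      have := hq.pos
      nlinarith
    exact hc (Subgroup.relIndex_eq_one.1 h4 hcK)

theorem lc_of_index (G : Type) [Group G] (H : Subgroup G) [H.Normal] (q : ℕ) (hq : q.Prime)
    (hidx : H.index = q) (n : ℕ) (hn : 2 ≤ n) (hH : NGen H n)
    (hprime : ∀ (M : Type) [CommGroup M] (φ : G →* MulAut M), (Nat.card M).Prime →
      Nat.card (Der φ) ≤ Nat.card M ^ n) : LC G n := by
  intro M _ _ _ φ hsimple
  obtain ⟨x, hx⟩ := hH
  have hxH := closure_range_mem hx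

  obtain ⟨c, hc⟩ : ∃ c, c ∉ H := by
    by_contra hcon
    push Not at hcon
    have : H = ⊤ := by
      ext g
      exact ⟨fun _ => Subgroup.mem_top g, fun _ => hcon g⟩
    rw [this, Subgroup.index_top] at hidx
    exact hq.one_lt.ne hidx
  have htop := closure_insert_top hq hidx hc

  have hdet : ∀ δ ∈ Der φ, (∀ h ∈ H, δ h = 1) → δ c = 1 → δ = 1 := by
    intro δ hδ h1 h2
    funext g
    refine Der.eq_one_of_closure hδ (S := insert c (H : Set G)) ?_ g (by rw [htop]; trivial)
    intro s hs
    rcases Set.mem_insert_iff.1 hs with rfl | hs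
    · exact h2
    · exact h1 s hs

  have hgen : ∀ δ ∈ Der φ, (∀ i, δ (x i) = 1) → ∀ h ∈ H, δ h = 1 := by
    intro δ hδ h1 h hh
    refine Der.eq_one_of_closure hδ (S := Set.range fun i => (x i : G)) ?_ h (by rw [hxH]; exact hh)
    rintro _ ⟨i, rfl⟩
    exact h1 i
  have hfin : Finite (Der φ) := by
    let ev : Der φ → (Fin n → M) × M := fun δ => (fun i => δ.1 (x i), δ.1 c)
    refine Finite.of_injective ev ?_
    intro δ δ' h
    have h1 : ∀ i, δ.1 (x i) = δ'.1 (x i) := fun i => congrFun (congrArg Prod.fst h) i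
    have h2 : δ.1 c = δ'.1 c := congrArg Prod.snd h
    have h3 : (δ.1 / δ'.1) ∈ Der φ := (Der φ).div_mem δ.2 δ'.2
    have h4 : δ.1 / δ'.1 = 1 := by
      refine hdet _ h3 (hgen _ h3 ?_) ?_
      · intro i
        rw [Pi.div_apply, h1 i, div_self']
      · rw [Pi.div_apply, h2, div_self']
    exact Subtype.ext (div_eq_one.1 h4)
  refine ⟨hfin, ?_⟩

  have hcard : 1 < Nat.card M := Finite.one_lt_card
  obtain ⟨p, hp, hpd⟩ := Nat.exists_prime_and_dvd hcard.ne'
  haveI : Fact p.Prime := ⟨hp⟩
  let P : Subgroup M := (powMonoidHom p : M →* M).ker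
  have hPinv : ∀ g, ∀ b ∈ P, φ g b ∈ P := by
    intro g b hb
    have hb' : b ^ p = 1 := hb
    show (φ g b) ^ p = 1
    rw [← map_pow, hb', map_one]
  have hPtop : P = ⊤ := by
    rcases hsimple P hPinv with h | h
    · exfalso
      obtain ⟨b, hb⟩ := exists_prime_orderOf_dvd_card' (G := M) p hpd
      have hbP : b ∈ P := by
        show b ^ p = 1
        rw [← hb, pow_orderOf_eq_one]
      rw [h, Subgroup.mem_bot] at hbP
      rw [hbP, orderOf_one] at hb
      exact hp.one_lt.ne hb
    · exact h
  have hpg : IsPGroup p M := by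
    intro b
    refine ⟨1, ?_⟩
    have : b ∈ P := by rw [hPtop]; trivial
    rw [pow_one]
    exact this
  obtain ⟨d, hd⟩ := IsPGroup.iff_card.1 hpg

  rcases Nat.lt_or_ge d 2 with hd2 | hd2
  · have hd1 : d = 1 := by
      rcases Nat.eq_zero_or_pos d with h0 | h0
      · rw [h0, pow_zero] at hd
        omega
      · omega
    rw [hd1, pow_one] at hd
    exact hprime M φ (by rw [hd]; exact hp)

  let F : Subgroup M :=
    { carrier := {m | ∀ h ∈ H, φ h m = m}
      one_mem' := fun h _ => map_one _
      mul_mem' := by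
        intro a b ha hb h hh
        rw [map_mul, ha h hh, hb h hh]
      inv_mem' := by
        intro a ha h hh
        rw [map_inv, ha h hh] }
  have hFinv : ∀ g, ∀ b ∈ F, φ g b ∈ F := by
    intro g b hb h hh
    have h1 : g⁻¹ * h * g ∈ H := by
      have := (inferInstance : H.Normal).conj_mem h hh g⁻¹
      simpa using this
    have h2 := hb _ h1
    have h3 : h * g = g * (g⁻¹ * h * g) := by group
    calc φ h (φ g b) = φ (h * g) b := by rw [map_mul, MulAut.mul_apply]
      _ = φ g (φ (g⁻¹ * h * g) b) := by rw [h3, map_mul, MulAut.mul_apply]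
      _ = φ g b := by rw [h2]
  rcases hsimple F hFinv with hF | hF
  ·
    let ev : Der φ → (Fin n → M) := fun δ => fun i => δ.1 (x i)
    have hinj : Function.Injective ev := by
      intro δ δ' h
      have h1 : ∀ i, δ.1 (x i) = δ'.1 (x i) := fun i => congrFun h i
      have h3 : (δ.1 / δ'.1) ∈ Der φ := (Der φ).div_mem δ.2 δ'.2
      have h5 : ∀ k ∈ H, (δ.1 / δ'.1) k = 1 := by
        refine hgen _ h3 ?_
        intro i
        rw [Pi.div_apply, h1 i, div_self']
      have h4 : δ.1 / δ'.1 = 1 := by
        funext g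
        have h6 : (δ.1 / δ'.1) g ∈ F := by
          intro k hk
          have h7 : g⁻¹ * k * g ∈ H := by
            have := (inferInstance : H.Normal).conj_mem k hk g⁻¹
            simpa using this
          have h8 : k * g = g * (g⁻¹ * k * g) := by group
          have h9 := Der.mul' h3 k g
          rw [h5 k hk, one_mul, h8, Der.mul' h3 g, h5 _ h7, map_one, mul_one] at h9
          exact h9.symm
        rw [hF, Subgroup.mem_bot] at h6
        exact h6
      exact Subtype.ext (div_eq_one.1 h4)
    calc Nat.card (Der φ) ≤ Nat.card (Fin n → M) := Nat.card_le_card_of_injective ev hinj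
      _ = Nat.card M ^ n := by rw [Nat.card_fun, Nat.card_fin]
  ·
    have hφH : ∀ k ∈ H, φ k = 1 := by
      intro k hk
      ext m
      have : m ∈ F := by rw [hF]; trivial
      exact this k hk
    obtain ⟨W, hW⟩ := Sylow.exists_subgroup_card_pow_prime (G := M) p (n := d - 1)
      (by rw [hd]; exact pow_dvd_pow p (Nat.sub_le d 1))
    have hWi : W.index = p := by
      have h1 := W.card_mul_index
      rw [hW, hd] at h1
      have h2 : p ^ d = p ^ (d - 1) * p := by
        rw [← pow_succ]
        congr 1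
        omega
      rw [h2] at h1
      exact Nat.eq_of_mul_eq_mul_left (pow_pos hp.pos _) h1
    have hWtop : W ≠ ⊤ := by
      intro h
      rw [h, Subgroup.index_top] at hWi
      exact hp.one_lt.ne hWi
    let ev : Der φ → (Fin n → M ⧸ W) × M :=
      fun δ => (fun i => (QuotientGroup.mk (δ.1 (x i)) : M ⧸ W), δ.1 c)
    have hinj : Function.Injective ev := by
      intro δ δ' h
      have h1 : ∀ i, (QuotientGroup.mk (δ.1 (x i)) : M ⧸ W) = QuotientGroup.mk (δ'.1 (x i)) :=
        fun i => congrFun (congrArg Prod.fst h) i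
      have h2 : δ.1 c = δ'.1 c := congrArg Prod.snd h
      have h3 : (δ.1 / δ'.1) ∈ Der φ := (Der φ).div_mem δ.2 δ'.2
      set ε := δ.1 / δ'.1 with hε
      have hεmul : ∀ k ∈ H, ∀ l, ε (k * l) = ε k * ε l := by
        intro k hk l
        rw [Der.mul' h3, hφH k hk, MulAut.one_apply]
      have hεinv : ∀ k ∈ H, ε k⁻¹ = (ε k)⁻¹ := by
        intro k hk
        have := Der.inv' h3 k
        rwa [hφH k hk, MulAut.one_apply] at this

      let I : Subgroup M :=
        { carrier := {m | ∃ k ∈ H, ε k = m}
          one_mem' := ⟨1, H.one_mem, Der.one' h3⟩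
          mul_mem' := by
            rintro a b ⟨k, hk, rfl⟩ ⟨l, hl, rfl⟩
            exact ⟨k * l, H.mul_mem hk hl, hεmul k hk l⟩
          inv_mem' := by
            rintro a ⟨k, hk, rfl⟩
            exact ⟨k⁻¹, H.inv_mem hk, hεinv k hk⟩ }
      have hIinv : ∀ g, ∀ b ∈ I, φ g b ∈ I := by
        rintro g b ⟨k, hk, rfl⟩
        exact ⟨g * k * g⁻¹, (inferInstance : H.Normal).conj_mem k hk g, Der.conj' h3 (hφH k hk) g⟩

      let J : Subgroup G :=
        { carrier := {k | k ∈ H ∧ ε k ∈ W}
          one_mem' := ⟨H.one_mem, by rw [Der.one' h3]; exact W.one_mem⟩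
          mul_mem' := by
            rintro a b ⟨ha, ha'⟩ ⟨hb, hb'⟩
            exact ⟨H.mul_mem ha hb, by rw [hεmul a ha]; exact W.mul_mem ha' hb'⟩
          inv_mem' := by
            rintro a ⟨ha, ha'⟩
            exact ⟨H.inv_mem ha, by rw [hεinv a ha]; exact W.inv_mem ha'⟩ }
      have hJ : H ≤ J := by
        rw [← hxH, Subgroup.closure_le]
        rintro _ ⟨i, rfl⟩
        refine ⟨(x i).2, ?_⟩
        have := QuotientGroup.eq.1 (h1 i).symm
        rw [hε, Pi.div_apply, div_eq_mul_inv, mul_comm]
        exact this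
      have hIW : I ≤ W := by
        rintro _ ⟨k, hk, rfl⟩
        exact (hJ hk).2
      have hI : I = ⊥ := by
        rcases hsimple I hIinv with h | h
        · exact h
        · exfalso
          rw [h] at hIW
          exact hWtop (top_le_iff.1 hIW)
      have h4 : ε = 1 := by
        refine hdet _ h3 ?_ ?_
        · intro k hk
          have : ε k ∈ I := ⟨k, hk, rfl⟩
          rw [hI, Subgroup.mem_bot] at this
          exact this
        · rw [hε, Pi.div_apply, h2, div_self']
      exact Subtype.ext (div_eq_one.1 h4)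
    calc Nat.card (Der φ) ≤ Nat.card ((Fin n → M ⧸ W) × M) := Nat.card_le_card_of_injective ev hinj
      _ = p ^ n * p ^ d := by
          rw [Nat.card_prod, Nat.card_fun, Nat.card_fin, hd]
          congr 2
      _ = p ^ (n + d) := (pow_add p n d).symm
      _ ≤ p ^ (d * n) := Nat.pow_le_pow_right hp.pos (by nlinarith)
      _ = Nat.card M ^ n := by rw [hd, ← pow_mul]

end Pool.Agent.H652.SR
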