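import Mathlib
import Pool.Agent.H652.SR.Defs
import Pool.Agent.H652.SR.JbaseM

set_option autoImplicit false

open scoped IsMulCommutative

namespace Pool.Agent.H652.SR

private theorem der_one {G M : Type} [Group G] [CommGroup M] {φ : G →* MulAut M} {δ : G → M}
    (h : δ ∈ Der φ) : δ 1 = 1 := by
  have h1 : δ (1 * 1) = δ 1 * φ 1 (δ 1) := h 1 1
  rw [one_mul, map_one, MulAut.one_apply] at h1
  exact (left_eq_mul.mp h1)

private theorem fix_one {G M : Type} [Group G] [CommGroup M] {p : ℕ} [Fact p.Prime] (hM : Nat.card M = p)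
    (φ : G →* MulAut M) (g : G) (m : M) (hm : m ≠ 1) (h : φ g m = m) : φ g = 1 := by
  ext x
  obtain ⟨k, hk⟩ := Subgroup.mem_zpowers_iff.mp (mem_zpowers_of_prime_card (g := m) (g' := x) hM hm)
  rw [← hk, map_zpow, h, MulAut.one_apply]

def resHom {G M : Type} [Group G] [CommGroup M] (φ : G →* MulAut M) (KF : Subgroup G) (F' : Subgroup KF) :
    DerRel φ (F'.map KF.subtype) →* DerRel (φ.comp KF.subtype) F' where
  toFun δ := ⟨fun x => δ.1 x.1, by
    refine ⟨fun g h => δ.2.1 g.1 h.1, fun x hx => δ.2.2 x.1 ⟨x, hx, rfl⟩⟩⟩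
  map_one' := rfl
  map_mul' _ _ := rfl

private theorem case_triv {K : Type} [Group K] (A : Subgroup K) [A.Normal] [IsMulCommutative A] (r n : ℕ)
    (htf : ∀ a ∈ A, IsOfFinOrder a → a = 1) (hr : Module.rank ℤ (Additive A) = r)
    (p : ℕ) [Fact p.Prime] (M : Type) [CommGroup M] (hM : Nat.card M = p) (φ : K →* MulAut M)
    (hA : ∀ a ∈ A, φ a = 1)
    (ih : ∀ φ : K ⧸ A →* MulAut M, ∃ F : Subgroup (K ⧸ A), Finite F ∧ Finite (DerRel φ F) ∧ Nat.card (DerRel φ F) ≤ p ^ n) :
    ∃ F : Subgroup K, Finite F ∧ Finite (DerRel φ F) ∧ Nat.card (DerRel φ F) ≤ p ^ (n + r) := by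
  have hp : p.Prime := Fact.out
  have hA' : A ≤ φ.ker := fun a ha => MonoidHom.mem_ker.mpr (hA a ha)
  obtain ⟨FR, hFRfin, hDfin, hDcard⟩ := ih (QuotientGroup.lift A φ hA')
  let KF : Subgroup K := FR.comap (QuotientGroup.mk' A)
  have hAKF : A ≤ KF := by
    intro a ha
    show (QuotientGroup.mk' A) a ∈ FR
    rw [QuotientGroup.mk'_apply, (QuotientGroup.eq_one_iff a).mpr ha]
    exact one_mem _
  let B : Subgroup KF := A.subgroupOf KF
  have hBn : B.Normal := inferInstance
  have hBc : IsMulCommutative B := by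
    constructor
    constructor
    intro x y
    apply Subtype.ext
    apply Subtype.ext
    have hx : (x.1.1 : K) ∈ A := x.2
    have hy : (y.1.1 : K) ∈ A := y.2
    have h1 := mul_comm' (⟨x.1.1, hx⟩ : A) ⟨y.1.1, hy⟩
    have h2 : x.1.1 * y.1.1 = y.1.1 * x.1.1 := congrArg Subtype.val h1
    exact h2
  have hBtf : ∀ b ∈ B, IsOfFinOrder b → b = 1 := by
    intro b hb hbo
    apply Subtype.ext
    apply htf b.1 hb
    exact (Subgroup.subtype KF).isOfFinOrder hbo
  have hBr : Module.rank ℤ (Additive B) = r := by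
    rw [← hr]
    exact (MulEquiv.toAdditive (Subgroup.subgroupOfEquivOfLe hAKF)).toIntLinearEquiv.rank_eq
  have hBidx : B.index ≠ 0 := by
    have hker : ((QuotientGroup.mk' A).subgroupComap FR).ker = B := by
      ext x
      rw [MonoidHom.mem_ker, Subgroup.mem_subgroupOf, ← QuotientGroup.eq_one_iff (N := A), Subtype.ext_iff]
      rfl
    rw [← hker, Subgroup.index_ker]
    exact Nat.card_pos.ne'
  obtain ⟨F', hF'fin, hD'fin, hD'card⟩ := base_M KF B hBtf r hBr hBidx p M hM (φ.comp KF.subtype)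
  have hFfin : Finite (F'.map KF.subtype) := by
    have : ((F'.map KF.subtype : Subgroup K) : Set K).Finite := by
      rw [Subgroup.coe_map]
      exact (Set.toFinite _).image _
    exact this.to_subtype
  refine ⟨F'.map KF.subtype, hFfin, ?_⟩
  set Res := resHom φ KF F' with hRes
  have hcoset : ∀ δ : DerRel φ (F'.map KF.subtype), δ ∈ Res.ker → ∀ g ∈ KF, δ.1 g = 1 := by
    intro δ hδ g hg
    have h1 := MonoidHom.mem_ker.mp hδ
    have h2 := congrArg (fun f : DerRel (φ.comp KF.subtype) F' => f.1 ⟨g, hg⟩) h1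
    exact h2
  have hinv : ∀ δ : DerRel φ (F'.map KF.subtype), δ ∈ Res.ker → ∀ g : K, δ.1 (Quotient.out (g : K ⧸ A)) = δ.1 g := by
    intro δ hδ g
    have h1 : ((Quotient.out (g : K ⧸ A) : K) : K ⧸ A) = (g : K ⧸ A) := QuotientGroup.out_eq' _
    have h2 := QuotientGroup.eq.mp h1
    have h3 : g = Quotient.out (g : K ⧸ A) * ((Quotient.out (g : K ⧸ A))⁻¹ * g) := by group
    have h4 : δ.1 g = δ.1 (Quotient.out (g : K ⧸ A)) * φ (Quotient.out (g : K ⧸ A)) (δ.1 ((Quotient.out (g : K ⧸ A))⁻¹ * g)) := by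
      conv_lhs => rw [h3]
      exact δ.2.1 _ _
    rw [h4, hcoset δ hδ _ (hAKF h2), map_one, mul_one]
  let Ψ : Res.ker → DerRel (QuotientGroup.lift A φ hA') FR := fun δ =>
    ⟨fun q => δ.1.1 (Quotient.out q), by
      constructor
      · intro q1 q2
        obtain ⟨g1, rfl⟩ := QuotientGroup.mk_surjective q1
        obtain ⟨g2, rfl⟩ := QuotientGroup.mk_surjective q2
        have e1 := hinv δ.1 δ.2 (g1 * g2)
        have e2 := hinv δ.1 δ.2 g1
        have e3 := hinv δ.1 δ.2 g2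
        have e4 : δ.1.1 (g1 * g2) = δ.1.1 g1 * φ g1 (δ.1.1 g2) := δ.1.2.1 g1 g2
        show δ.1.1 (Quotient.out ((g1 * g2 : K) : K ⧸ A)) = δ.1.1 (Quotient.out (g1 : K ⧸ A)) * φ g1 (δ.1.1 (Quotient.out (g2 : K ⧸ A)))
        rw [e1, e2, e3, e4]
      · intro q hq
        obtain ⟨g, rfl⟩ := QuotientGroup.mk_surjective q
        show δ.1.1 (Quotient.out (g : K ⧸ A)) = 1
        rw [hinv δ.1 δ.2]
        exact hcoset δ.1 δ.2 g hq⟩
  have hΨ : Function.Injective Ψ := by
    intro δ1 δ2 h12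
    apply Subtype.ext
    apply Subtype.ext
    funext g
    have h1 := congrArg (fun f : DerRel (QuotientGroup.lift A φ hA') FR => f.1 (g : K ⧸ A)) h12
    have h2 : δ1.1.1 (Quotient.out (g : K ⧸ A)) = δ2.1.1 (Quotient.out (g : K ⧸ A)) := h1
    rwa [hinv δ1.1 δ1.2, hinv δ2.1 δ2.2] at h2
  have hkfin : Finite Res.ker := Finite.of_injective Ψ hΨ
  have hkcard : Nat.card Res.ker ≤ p ^ n := (Nat.card_le_card_of_injective Ψ hΨ).trans hDcard
  have hrfin : Finite Res.range := inferInstance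
  have hrcard : Nat.card Res.range ≤ p ^ r := (Subgroup.card_le_card_group _).trans hD'card
  have hmul : Nat.card (DerRel φ (F'.map KF.subtype)) = Nat.card Res.ker * Nat.card Res.range := by
    rw [← Subgroup.index_ker, Subgroup.card_mul_index]
  constructor
  · apply Nat.finite_of_card_ne_zero
    rw [hmul]
    exact mul_ne_zero Nat.card_pos.ne' Nat.card_pos.ne'
  · rw [hmul, pow_add]
    exact Nat.mul_le_mul hkcard hrcard

private theorem case_nontriv {K : Type} [Group K] (A : Subgroup K) [A.Normal] [IsMulCommutative A] (r n : ℕ)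
    (htf : ∀ a ∈ A, IsOfFinOrder a → a = 1) (hr : Module.rank ℤ (Additive A) = r)
    (p : ℕ) [Fact p.Prime] (M : Type) [CommGroup M] (hM : Nat.card M = p) (φ : K →* MulAut M)
    (a0 : K) (ha0 : a0 ∈ A) (hφ : φ a0 ≠ 1) :
    ∃ F : Subgroup K, Finite F ∧ Finite (DerRel φ F) ∧ Nat.card (DerRel φ F) ≤ p ^ (n + r) := by
  have hp : p.Prime := Fact.out
  refine ⟨⊥, inferInstance, ?_⟩
  let ev : DerRel φ ⊥ →* M :=
    { toFun := fun δ => δ.1 a0
      map_one' := rfl
      map_mul' := fun _ _ => rfl }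
  have hinj : Function.Injective ev := by
    rw [injective_iff_map_eq_one]
    intro δ hδ
    have h0 : δ.1 a0 = 1 := hδ
    have hA : ∀ b ∈ A, δ.1 b = 1 := by
      intro b hb
      have hc : b * a0 = a0 * b := by
        have := mul_comm' (⟨b, hb⟩ : A) ⟨a0, ha0⟩
        exact congrArg Subtype.val this
      have h1 : δ.1 (b * a0) = δ.1 b * φ b (δ.1 a0) := δ.2.1 b a0
      have h2 : δ.1 (a0 * b) = δ.1 a0 * φ a0 (δ.1 b) := δ.2.1 a0 b
      rw [h0, map_one, mul_one] at h1
      rw [h0, one_mul] at h2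
      by_contra hne
      apply hφ
      apply fix_one hM φ a0 (δ.1 b) hne
      rw [← h2, ← hc, h1]
    apply Subtype.ext
    funext g
    show δ.1 g = 1
    by_contra hne
    have h1 : δ.1 (g * a0) = δ.1 g * φ g (δ.1 a0) := δ.2.1 g a0
    rw [h0, map_one, mul_one] at h1
    have hmem : g * a0 * g⁻¹ ∈ A := Subgroup.Normal.conj_mem inferInstance a0 ha0 g
    have h2 : δ.1 ((g * a0 * g⁻¹) * g) = δ.1 (g * a0 * g⁻¹) * φ (g * a0 * g⁻¹) (δ.1 g) := δ.2.1 _ _
    rw [hA _ hmem, one_mul, inv_mul_cancel_right, h1] at h2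
    have h3 := fix_one hM φ (g * a0 * g⁻¹) (δ.1 g) hne h2.symm
    apply hφ
    have h4 : φ a0 = (φ g)⁻¹ * φ (g * a0 * g⁻¹) * φ g := by
      rw [map_mul, map_mul, map_inv]; group
    rw [h4, h3]; group
  have hMfin : Finite M := Nat.finite_of_card_ne_zero (by rw [hM]; exact hp.ne_zero)
  refine ⟨Finite.of_injective ev hinj, ?_⟩
  have hr1 : 1 ≤ r := by
    by_contra hlt
    have hr0 : r = 0 := by omega
    rw [hr0, Nat.cast_zero, rank_eq_zero_iff] at hr
    obtain ⟨k, hk, hk2⟩ := hr (Additive.ofMul ⟨a0, ha0⟩)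
    apply hφ
    have h1 : a0 ^ k = 1 := by
      have h2 : (⟨a0, ha0⟩ : A) ^ k = 1 := by
        have := congrArg Additive.toMul hk2
        simpa using this
      have := congrArg Subtype.val h2
      simpa using this
    have h3 : IsOfFinOrder a0 := isOfFinOrder_iff_zpow_eq_one.mpr ⟨k, hk, h1⟩
    rw [htf a0 ha0 h3, map_one]
  calc Nat.card (DerRel φ ⊥) ≤ Nat.card M := Nat.card_le_card_of_injective ev hinj
    _ = p ^ 1 := by rw [hM, pow_one]
    _ ≤ p ^ (n + r) := Nat.pow_le_pow_right hp.pos (by omega)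

theorem rel {K : Type} [Group K] {n : ℕ} (h : VPT K n) (p : ℕ) [Fact p.Prime]
    (M : Type) [CommGroup M] (hM : Nat.card M = p) (φ : K →* MulAut M) :
    ∃ F : Subgroup K, Finite F ∧ Finite (DerRel φ F) ∧ Nat.card (DerRel φ F) ≤ p ^ n := by
  induction h with
  | fin K hK =>
    refine ⟨⊤, inferInstance, ?_⟩
    have hsub : Subsingleton (DerRel φ ⊤) := by
      constructor
      intro a b
      apply Subtype.ext
      funext g
      rw [a.2.2 g (Subgroup.mem_top g), b.2.2 g (Subgroup.mem_top g)]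
    refine ⟨inferInstance, ?_⟩
    rw [pow_zero]
    exact Finite.card_le_one_iff_subsingleton.mpr hsub
  | ext K A r n htf hr h ih =>
    by_cases hA : ∀ a ∈ A, φ a = 1
    · exact case_triv A r n htf hr p M hM φ hA (fun ψ => ih ψ)
    · push Not at hA
      obtain ⟨a0, ha0, hφ⟩ := hA
      exact case_nontriv A r n htf hr p M hM φ a0 ha0 hφ

theorem der_card {K : Type} [Group K] (htf : TF K) {n : ℕ} (h : VPT K n)
    (M : Type) [CommGroup M] (hM : (Nat.card M).Prime) (φ : K →* MulAut M) :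
    Finite (Der φ) ∧ Nat.card (Der φ) ≤ Nat.card M ^ n := by
  haveI : Fact (Nat.card M).Prime := ⟨hM⟩
  obtain ⟨F, hF, h1, h2⟩ := rel h (Nat.card M) M rfl φ
  have hFD : DerRel φ F = Der φ := by
    apply le_antisymm
    · intro δ hδ
      exact hδ.1
    · intro δ hδ
      refine ⟨hδ, fun x hx => ?_⟩
      have hx1 : x = 1 := by
        apply htf
        have h3 : IsOfFinOrder (⟨x, hx⟩ : F) := isOfFinOrder_of_finite _
        exact F.subtype.isOfFinOrder h3
      rw [hx1]
      exact der_one hδ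
  rw [hFD] at h1 h2
  exact ⟨h1, h2⟩

end Pool.Agent.H652.SR
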