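import Mathlib
import Pool.Agent.H652.SR.Defs
import Pool.Agent.H652.SR.Jbasep
import Pool.Agent.H652.SR.Jsylow
import Pool.Agent.H652.SR.JbaseM
import Pool.Agent.H652.SR.Jg1
import Pool.Agent.H652.SR.Jg2
import Pool.Agent.H652.SR.Jlc
import Pool.Agent.H652.SR.Jlattice
import Pool.Agent.H652.SR.Jslick
import Pool.Agent.H652.SR.Jshba
import Pool.Agent.H652.SR.Jshbb
import Pool.Agent.H652.SR.Jshbc
import Pool.Agent.H652.SR.Jshbd
import Pool.Agent.H652.SR.Jpra
import Pool.Agent.H652.SR.Jprb
import Pool.Agent.H652.SR.Jvpta
import Pool.Agent.H652.SR.Jvptb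
import Pool.Agent.H652.SR.Jrel
import Pool.Agent.H652.SR.Jfgtor
import Pool.Agent.H652.SR.Jmink
import Pool.Agent.H652.SR.Jpusha
import Pool.Agent.H652.SR.Jpushb
import Pool.Agent.H652.SR.Js1
import Pool.Agent.H652.SR.Jeigen
import Pool.Agent.H652.SR.Jirr
import Pool.Agent.H652.SR.Jmalcev
import Pool.Agent.H652.SR.Jpcta
import Pool.Agent.H652.SR.Jpctb
import Pool.Agent.H652.SR.Jpctc
import Pool.Agent.H652.SR.Jgoodab
import Pool.Agent.H652.SR.Jsp
import Pool.Agent.H652.SR.Jfpow
import Pool.Agent.H652.SR.Jbp
import Pool.Agent.H652.SR.JclaimB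
import Pool.Agent.H652.SR.Jcase1
import Pool.Agent.H652.SR.Jquot1
import Pool.Agent.H652.SR.Jdim2
import Pool.Agent.H652.SR.Jhomrank
import Pool.Agent.H652.SR.Jgc
import Pool.Agent.H652.SR.Jgcone
import Pool.Agent.H652.SR.Jcase2

set_option autoImplicit false

open scoped IsMulCommutative

namespace Pool.Agent.H652.SR

/-- generators of images -/
theorem NGen.of_surjective {G H : Type} [Group G] [Group H] {n : ℕ} (h : NGen G n) (f : G →* H)
    (hf : Function.Surjective f) : NGen H n := by
  obtain ⟨x, hx⟩ := h
  refine ⟨fun i => f (x i), ?_⟩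
  have h1 : Set.range (fun i => f (x i)) = f '' Set.range x := by
    ext y
    simp
  rw [h1, ← MonoidHom.map_closure, hx]
  exact Subgroup.map_top_of_surjective f hf

/-- Case 1 for a quotient gives Case 1. -/
theorem Case1.of_surjective {K L : Type} [Group K] [Group L] (h : Case1 L) (f : K →* L)
    (hf : Function.Surjective f) : Case1 K := by
  obtain ⟨Q, i1, g, hg, m, hm, hs⟩ := h
  exact ⟨Q, i1, g.comp f, hg.comp hf, m, hm, hs⟩

theorem thmA_aux (n : ℕ)
    (IH : ∀ n' < n, ∀ (L : Type) [Group L], Group.FG L → Group.IsSolvable L → TF L → SHB L n' →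
      NGen L n') :
    ∀ (j : ℕ) (K : Type) [Group K], Group.FG K → Group.IsSolvable K → TF K → SHB K n →
      ∀ (X : Subgroup K) [X.Normal], X.index ≠ 0 → PR X n → X.index ≤ j → NGen K n := by
  intro j
  induction j with
  | zero =>
    intro K _ hfg hs htf hn X _ hX hPR hj
    omega
  | succ j ihj =>
    intro K _ hfg hs htf hn X _ hX hPR hj
    by_cases hXt : X = ⊤
    · subst hXt
      have h1 : PR K n := PR.of_equiv Subgroup.topEquiv hPR
      have h2 : NGen (⊤ : Subgroup K) n := PR.ngen h1 ⊤ ((Group.fg_def).1 hfg)
      exact h2.of_surjective (Subgroup.topEquiv (G := K)).toMonoidHom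
        (Subgroup.topEquiv (G := K)).surjective
    · by_cases hC1 : Case1 K
      · exact case1 n K hfg hs htf hn hC1 IH
      obtain ⟨m, hm⟩ := s1 K hs n hn (by
        intro N hN hNt
        rw [Subgroup.eq_bot_iff_forall]
        intro x hx
        exact htf x (hNt x hx))
      have hmn : m ≤ n := hn m hm.chain
      rcases Nat.lt_or_ge m n with hlt | hge
      · obtain ⟨x, hx⟩ := IH m hlt K hfg hs htf hm.shb
        refine ⟨fun i => if h : (i : ℕ) < m then x ⟨i, h⟩ else 1, ?_⟩
        rw [eq_top_iff, ← hx, Subgroup.closure_le]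
        rintro _ ⟨i, rfl⟩
        apply Subgroup.subset_closure
        exact ⟨⟨i, by omega⟩, by simp⟩
      have hmn' : m = n := le_antisymm hmn hge
      subst hmn'
      have h0 : m ≠ 0 := by
        intro h0
        subst h0
        apply hXt
        have := SHB.subsingleton hn htf
        exact Subsingleton.elim _ _
      have h1 : m ≠ 1 := by
        intro h1
        subst h1
        exact hC1 (Case1.of_vpt_one K hfg hm)
      have h2 : m ≠ 2 := by
        intro h2
        subst h2
        rcases hm.cases_irr with h | ⟨A, hA, hAc, d, m', hAtf, hd, hd1, hirr, hsum, hv⟩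
        · omega
        · have : d = 1 ∨ d = 2 := by omega
          rcases this with rfl | rfl
          · have hm' : m' = 1 := by omega
            subst hm'
            have h3 : Case1 (K ⧸ A) := by
              refine Case1.of_vpt_one (K ⧸ A) ?_ hv
              exact Group.fg_of_surjective (f := QuotientGroup.mk' A)
                (QuotientGroup.mk'_surjective A)
            exact hC1 (h3.of_surjective (QuotientGroup.mk' A) (QuotientGroup.mk'_surjective A))
          · have hm' : m' = 0 := by omega
            subst hm'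
            rcases hv.cases_irr with h | ⟨B, hB, hBc, d', m'', hBtf, hd', hd1', hirr', hsum', hv'⟩
            · have := h.2
              exact dim2 K hfg htf A (by simpa using hd) Subgroup.index_ne_zero_of_finite hirr
            · omega
      have h3 : 3 ≤ m := by omega
      obtain ⟨H, hHn, hXH, hHp⟩ := exists_prime_index K hs X hX hXt
      have hHfin : H.index ≠ 0 := hHp.ne_zero
      have hHfg : Group.FG H := by
        have : H.FiniteIndex := ⟨hHfin⟩
        have := hfg
        exact Subgroup.fg_of_index_ne_zero H
      have hNH : NGen H m := by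
        have := hs
        have e : X.subgroupOf H ≃* X := Subgroup.subgroupOfEquivOfLe hXH
        have hmul := Subgroup.relIndex_mul_index hXH
        refine ihj H hHfg inferInstance ?_ (hn.of_injective H.subtype H.subtype_injective)
          (X.subgroupOf H) ?_ (PR.of_equiv e.symm hPR) ?_
        · intro g hg
          have := htf (g : K) ((Submonoid.isOfFinOrder_coe (H := H.toSubmonoid)).2 hg)
          exact Subtype.ext this
        · intro h0
          apply hX
          rw [← hmul]
          have : X.relIndex H = 0 := h0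
          rw [this, zero_mul]
        · have h5 : X.relIndex H * H.index ≤ j + 1 := by rw [hmul]; exact hj
          have h6 := hHp.two_le
          have h7 : X.relIndex H * 2 ≤ j + 1 := le_trans (Nat.mul_le_mul_left _ h6) h5
          have h8 : X.relIndex H ≠ 0 := by
            intro h0
            apply hX
            rw [← hmul, h0, zero_mul]
          show X.relIndex H ≤ j
          omega
      have hLC : LC K m := lc_of_index K H H.index hHp rfl m (by omega) hNH
        (fun M _ φ hM => (der_card htf hm M hM φ).2)
      obtain ⟨e, he, hpct⟩ := sp hfg hs hm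
      refine case2 K hfg hs m hLC e he hpct ?_ hm
      intro Q _ f hf A _ _ d m' hAtf hd hd1 hirr hsum hv
      have hC1Q : ¬ Case1 Q := fun h => hC1 (h.of_surjective f hf)
      have := hfg
      have hQfg : Group.FG Q := Group.fg_of_surjective hf
      by_cases hd' : d = 1
      · subst hd'
        have h5 := gc_one Q A hAtf (by simpa using hd) hQfg hC1Q
        calc _ ≤ (1 : Cardinal) + ((1 : ℕ) : Cardinal) := by gcongr
          _ = ((2 : ℕ) : Cardinal) := by norm_num
          _ < ((m * 1 : ℕ) : Cardinal) := by
            rw [Nat.cast_lt]; omega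
          _ = _ := by push_cast; rfl
      · by_cases hidx : (Subgroup.centralizer (A : Set Q)).index = 0
        · have h5 := gc_inf Q A hAtf d hd hirr hQfg m' hv hidx
          calc _ ≤ ((m' * d : ℕ) : Cardinal) + (d : Cardinal) := by gcongr
            _ = ((m' * d + d : ℕ) : Cardinal) := by push_cast; rfl
            _ < ((m * d : ℕ) : Cardinal) := by
              rw [Nat.cast_lt]
              have h6 : (m' + 1) * d < m * d := by
                apply Nat.mul_lt_mul_of_pos_right <;> omega
              nlinarith
            _ = _ := by push_cast; rfl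
        · have h5 := gc_fin Q A hAtf d hd hirr m' hv.shb hidx
          calc _ ≤ ((m' + d : ℕ) : Cardinal) + (d : Cardinal) := by gcongr
            _ = ((m' + d + d : ℕ) : Cardinal) := by push_cast; rfl
            _ < ((m * d : ℕ) : Cardinal) := by
              rw [Nat.cast_lt]
              obtain ⟨d2, rfl⟩ : ∃ k, d = k + 2 := ⟨d - 2, by omega⟩
              obtain ⟨m2, rfl⟩ : ∃ k, m = k + 3 := ⟨m - 3, by omega⟩
              nlinarith [Nat.zero_le (m2 * d2)]
            _ = _ := by push_cast; rfl

/-- Theorem A -/
theorem thmA (n : ℕ) : ∀ (K : Type) [Group K], Group.FG K → Group.IsSolvable K → TF K → SHB K n →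
    NGen K n := by
  induction n using Nat.strong_induction_on with
  | _ n ih =>
    intro K _ hfg hs htf hn
    obtain ⟨m, hm⟩ := s1 K hs n hn (by
      intro N hN hNt
      rw [Subgroup.eq_bot_iff_forall]
      intro x hx
      exact htf x (hNt x hx))
    have hmn : m ≤ n := hn m hm.chain
    rcases Nat.lt_or_ge m n with hlt | hge
    · obtain ⟨x, hx⟩ := ih m hlt K hfg hs htf hm.shb
      refine ⟨fun i => if h : (i : ℕ) < m then x ⟨i, h⟩ else 1, ?_⟩
      rw [eq_top_iff, ← hx, Subgroup.closure_le]
      rintro _ ⟨i, rfl⟩
      apply Subgroup.subset_closure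
      exact ⟨⟨i, by omega⟩, by simp⟩
    have hmn' : m = n := le_antisymm hmn hge
    subst hmn'
    obtain ⟨X, hXn, hX, hPR⟩ := hm.exists_PR
    exact thmA_aux m (fun n' hn' L _ => ih n' hn' L) X.index K hfg hs htf hn X hX hPR le_rfl

/-- final -/
theorem final (G : Type) [Group G] (hs : Group.IsSolvable G) (htf : TF G) (H : Subgroup G)
    (hH : H.index ≠ 0) (r : ℕ) (h : ∀ K : Subgroup H, K.FG → NGen K r) :
    ∀ K : Subgroup G, K.FG → NGen K r := by
  intro K hK
  have := hs
  have h1 : SHB H r := claimB H inferInstance (by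
    intro g hg
    exact Subtype.ext (htf (g : G) ((Submonoid.isOfFinOrder_coe (H := H.toSubmonoid)).2 hg))) r h
  have h2 : SHB G r := SHB.of_index H hH h1
  refine thmA r K ((Group.fg_iff_subgroup_fg K).2 hK) inferInstance ?_
    (h2.of_injective K.subtype K.subtype_injective)
  intro g hg
  exact Subtype.ext (htf (g : G) ((Submonoid.isOfFinOrder_coe (H := K.toSubmonoid)).2 hg))

/-- From finite generating sets to generating tuples. -/
theorem ngen_of_finset {G : Type} [Group G] (L : Subgroup G) (r : ℕ) (s : Finset G)
    (hs : s.card ≤ r) (h : Subgroup.closure (s : Set G) = L) : NGen L r := by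
  classical
  have hsL : ∀ x ∈ s, x ∈ L := fun x hx => by
    rw [← h]
    exact Subgroup.subset_closure hx
  let e := s.equivFin
  let x : Fin r → L := fun i =>
    if hi : (i : ℕ) < s.card then ⟨(e.symm ⟨i, hi⟩ : s), hsL _ (e.symm ⟨i, hi⟩ : s).2⟩ else 1
  refine ⟨x, ?_⟩
  have h2 : (Subgroup.closure (Set.range x)).map L.subtype = L := by
    apply le_antisymm
    · rw [Subgroup.map_le_iff_le_comap]
      intro y _
      exact y.2
    · conv_lhs => rw [← h]
      rw [Subgroup.closure_le]
      intro y hy
      have hy' : y ∈ s := hy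
      refine ⟨⟨y, hsL y hy'⟩, Subgroup.subset_closure ⟨⟨(e ⟨y, hy'⟩ : ℕ),
        lt_of_lt_of_le (e ⟨y, hy'⟩).2 hs⟩, ?_⟩, rfl⟩
      simp [x]
  have h3 : ((Subgroup.closure (Set.range x)).map L.subtype) = (⊤ : Subgroup L).map L.subtype := by
    rw [h2]
    ext y
    simp
  exact Subgroup.map_injective L.subtype_injective h3

/-- From generating tuples to finite generating sets. -/
theorem finset_of_ngen {G : Type} [Group G] (L : Subgroup G) (r : ℕ) (h : NGen L r) :
    ∃ s : Finset G, s.card ≤ r ∧ Subgroup.closure (s : Set G) = L := by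
  classical
  obtain ⟨x, hx⟩ := h
  refine ⟨Finset.univ.image (fun i => (x i : G)), ?_, ?_⟩
  · calc _ ≤ (Finset.univ : Finset (Fin r)).card := Finset.card_image_le
      _ = r := by simp
  · have h1 : ((Finset.univ.image (fun i => (x i : G)) : Finset G) : Set G)
        = L.subtype '' Set.range x := by
      ext y
      simp
    rw [h1, ← MonoidHom.map_closure, hx]
    ext y
    simp

/-- The main theorem. -/
theorem main (G : Type) [Group G] (hs : Group.IsSolvable G)
    (htf : ∀ g : G, IsOfFinOrder g → g = 1) (H : Subgroup G) (hH : H.index ≠ 0) (r : ℕ) :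
    ((∀ K : Subgroup G, K.FG →
        ∃ s : Finset G, s.card ≤ r ∧ Subgroup.closure (s : Set G) = K) ↔
     (∀ K : Subgroup G, K ≤ H → K.FG →
        ∃ s : Finset G, s.card ≤ r ∧ Subgroup.closure (s : Set G) = K)) := by
  constructor
  · intro h K _ hK
    exact h K hK
  · intro h K hK
    apply finset_of_ngen
    refine final G hs htf H hH r ?_ K hK
    intro L hL
    obtain ⟨s, hs1, hs2⟩ := h (L.map H.subtype) (by
      rintro _ ⟨y, _, rfl⟩
      exact y.2) (by
        obtain ⟨S, hS⟩ := hL
        refine ⟨S.map ⟨H.subtype, H.subtype_injective⟩, ?_⟩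
        rw [← hS, MonoidHom.map_closure]
        congr 1
        ext y
        simp)
    have h1 := ngen_of_finset _ r s hs1 hs2
    exact h1.of_surjective (L.equivMapOfInjective H.subtype H.subtype_injective).symm.toMonoidHom
      (L.equivMapOfInjective H.subtype H.subtype_injective).symm.surjective

end Pool.Agent.H652.SR
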